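import Pool.Agent.H16.Cef.Defs

/-!
Module BASIC. Simple facts about a body `K` with `Bd K R`.

* `Bd.tri`: if `p, q ∈ K` and a nonzero lattice point is `v = a p + b q` with `a, b ≥ 0` then
  `a + b ≥ 1`. (Otherwise `v = (1 - a - b) 0 + (a + b) x` with `x ∈ K`, and `0 ∈ interior K`, so
  `v ∈ interior K`, see `Convex.combo_interior_self_mem_interior` or
  `Convex.openSegment_interior_self_subset_interior`.)
* `Bd.tri_cr`: the same in terms of determinants: `v = (cr v q / cr p q) p + (cr p v / cr p q) q`.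
* `Bd.ray`: a nonzero lattice point of norm `< R` is not on the line of a point `p ∈ K` with `|p| = R`.
  (If `cr v p = 0` then `v = c p` with `|c| < 1`; use `Bd.tri` for `v` or for `-v`.)
* `Bd.anti`: the same for the lattice point, not in the interior of `K`.
-/

set_option autoImplicit false

open MeasureTheory Set

namespace Pool.Agent.H16.Cef

theorem Lat.neg {v : ℝ × ℝ} (h : Lat v) : Lat (-v) := by
  obtain ⟨m, n, rfl⟩ := h
  exact ⟨-m, -n, by ext <;> simp⟩

theorem Bd.tri {K : Set (ℝ × ℝ)} {R : ℝ} (h : Bd K R) {p q v : ℝ × ℝ} (hp : p ∈ K) (hq : q ∈ K)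
    (hv : Lat v) (hv0 : v ≠ 0) {a b : ℝ} (ha : 0 ≤ a) (hb : 0 ≤ b) (he : v = a • p + b • q) :
    1 ≤ a + b := by
  by_contra hlt
  push Not at hlt
  have hab0 : 0 ≤ a + b := add_nonneg ha hb
  have hs : 0 < a + b := by
    rcases hab0.lt_or_eq with h1 | h1
    · exact h1
    · exfalso
      have ha0 : a = 0 := by linarith
      have hb0 : b = 0 := by linarith
      apply hv0
      rw [he, ha0, hb0]
      simp
  have hx : (a / (a + b)) • p + (b / (a + b)) • q ∈ K := by
    apply h.conv hp hq (div_nonneg ha hab0) (div_nonneg hb hab0)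
    rw [← add_div, div_self hs.ne']
  have hint : (1 - (a + b)) • (0 : ℝ × ℝ) + (a + b) • ((a / (a + b)) • p + (b / (a + b)) • q) ∈
      interior K := by
    apply h.conv.combo_interior_self_mem_interior h.zero hx (by linarith) hab0 (by ring)
  have heq : (1 - (a + b)) • (0 : ℝ × ℝ) + (a + b) • ((a / (a + b)) • p + (b / (a + b)) • q) = v := by
    rw [he, smul_zero, zero_add, smul_add, smul_smul, smul_smul, mul_div_cancel₀ _ hs.ne',
      mul_div_cancel₀ _ hs.ne']
  rw [heq] at hint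
  exact hv0 (h.lat v hv hint)

theorem Bd.tri_cr {K : Set (ℝ × ℝ)} {R : ℝ} (h : Bd K R) {p q v : ℝ × ℝ} (hp : p ∈ K) (hq : q ∈ K)
    (hv : Lat v) (hv0 : v ≠ 0) (hpq : 0 < cr p q) (h1 : 0 ≤ cr v q) (h2 : 0 ≤ cr p v) :
    cr p q ≤ cr v q + cr p v := by
  have he : v = (cr v q / cr p q) • p + (cr p v / cr p q) • q := by
    have hne : cr p q ≠ 0 := hpq.ne'
    ext
    · simp only [Prod.fst_add, Prod.smul_fst, smul_eq_mul]
      rw [div_mul_eq_mul_div, div_mul_eq_mul_div, ← add_div, eq_div_iff hne]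
      unfold cr
      ring
    · simp only [Prod.snd_add, Prod.smul_snd, smul_eq_mul]
      rw [div_mul_eq_mul_div, div_mul_eq_mul_div, ← add_div, eq_div_iff hne]
      unfold cr
      ring
  have := h.tri hp hq hv hv0 (div_nonneg h1 hpq.le) (div_nonneg h2 hpq.le) he
  rwa [← add_div, le_div_iff₀ hpq, one_mul] at this

theorem Bd.ray {K : Set (ℝ × ℝ)} {R : ℝ} (h : Bd K R) {p v : ℝ × ℝ} (hp : p ∈ K)
    (np : nsq p = R ^ 2) (hv : Lat v) (hv0 : v ≠ 0) (hvR : nsq v < R ^ 2) : cr v p ≠ 0 := by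
  intro hc
  have hR2 : 0 < R ^ 2 := pow_pos h.pos 2
  set c : ℝ := dt v p / R ^ 2 with hcdef
  have he : v = c • p := by
    have hn : p.1 ^ 2 + p.2 ^ 2 = R ^ 2 := np
    have hc' : v.1 * p.2 - v.2 * p.1 = 0 := hc
    have e1 : v.1 * R ^ 2 = dt v p * p.1 := by
      rw [← hn]; unfold dt; linear_combination p.2 * hc'
    have e2 : v.2 * R ^ 2 = dt v p * p.2 := by
      rw [← hn]; unfold dt; linear_combination (-p.1) * hc'
    ext
    · simp only [Prod.smul_fst, smul_eq_mul, hcdef]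
      rw [div_mul_eq_mul_div, eq_div_iff hR2.ne', e1]
    · simp only [Prod.smul_snd, smul_eq_mul, hcdef]
      rw [div_mul_eq_mul_div, eq_div_iff hR2.ne', e2]
  have hnv : nsq v = c ^ 2 * R ^ 2 := by
    have hn : p.1 ^ 2 + p.2 ^ 2 = R ^ 2 := np
    rw [he, ← hn]
    simp only [nsq, Prod.smul_fst, Prod.smul_snd, smul_eq_mul]
    ring
  have hc2 : c ^ 2 < 1 := by
    rw [hnv] at hvR
    by_contra hge
    push Not at hge
    nlinarith
  have habs : |c| < 1 := by
    rw [← sq_lt_one_iff_abs_lt_one]; exact hc2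
  rw [abs_lt] at habs
  rcases le_total 0 c with h0 | h0
  · have := h.tri hp hp hv hv0 h0 le_rfl (by rw [zero_smul, add_zero]; exact he)
    linarith
  · have := h.tri hp hp hv.neg (neg_ne_zero.mpr hv0) (neg_nonneg.mpr h0) le_rfl
      (by rw [zero_smul, add_zero, neg_smul, ← he])
    linarith

end Pool.Agent.H16.Cef
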