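import Pool.Agent.H16.Cef.Mink
import Pool.Agent.H16.Cef.Basic

/-!
Module ANTI. Two antipodal contact points.

`K⁺ = {z ∈ K : 0 ≤ cr p z}`, `S = K⁺ ∪ -K⁺` is convex: a segment from `x ∈ K⁺` to `y ∈ -K⁺` meets the line
`ℝ p` in a point `c` of the disk, so `c = λ p` with `|λ| ≤ 1` is in `K` and in `-K`
(`p, -p ∈ K`). It is symmetric and has no nonzero lattice point in its interior: if
`v ∈ interior S`, `cr p v > 0` then `v ∈ interior K`; if `cr p v < 0` then `-v ∈ interior K`; if
`cr p v = 0` then `v = c p` with `|c| < 1` (`v ∈ interior (disk R)`), in the interior of `K` because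
`0 ∈ interior K` and `± p ∈ K`. So `vol S ≤ 4`, `vol K⁺ ≤ 2`; same for the other half.
-/

set_option autoImplicit false

open MeasureTheory Set

namespace Pool.Agent.H16.Cef

namespace Anti

lemma nsq_neg (z : ℝ × ℝ) : nsq (-z) = nsq z := by
  simp [nsq]

lemma cr_neg_right (p z : ℝ × ℝ) : cr p (-z) = -cr p z := by
  simp [cr]; ring

lemma cr_neg_left (p z : ℝ × ℝ) : cr (-p) z = -cr p z := by
  simp [cr]; ring

lemma cr_combo (p x y : ℝ × ℝ) (a b : ℝ) : cr p (a • x + b • y) = a * cr p x + b * cr p y := by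
  simp [cr]; ring

lemma nsq_combo {R : ℝ} {x y : ℝ × ℝ} {a b : ℝ} (hx : nsq x ≤ R ^ 2) (hy : nsq y ≤ R ^ 2)
    (ha : 0 ≤ a) (hb : 0 ≤ b) (hab : a + b = 1) : nsq (a • x + b • y) ≤ R ^ 2 := by
  have h1 : nsq (a • x + b • y) = a * nsq x + b * nsq y
      - a * b * ((x.1 - y.1) ^ 2 + (x.2 - y.2) ^ 2) := by
    have hb' : b = 1 - a := by linarith
    simp only [nsq, Prod.fst_add, Prod.snd_add, Prod.smul_fst, Prod.smul_snd, smul_eq_mul]
    rw [hb']; ring
  rw [h1]
  have h2 : 0 ≤ a * b * ((x.1 - y.1) ^ 2 + (x.2 - y.2) ^ 2) := by positivity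
  have h3 := mul_le_mul_of_nonneg_left hx ha
  have h4 := mul_le_mul_of_nonneg_left hy hb
  have h5 : a * R ^ 2 + b * R ^ 2 = R ^ 2 := by rw [← add_mul, hab, one_mul]
  linarith

/-- a point of the disk on the line of `p` is in `K` -/
lemma line_pt {K : Set (ℝ × ℝ)} {R : ℝ} (hR : 0 < R) (hK : Convex ℝ K) {p c : ℝ × ℝ} (hp : p ∈ K)
    (np : nsq p = R ^ 2) (hp' : -p ∈ K) (hc : nsq c ≤ R ^ 2) (h0 : cr p c = 0) : c ∈ K := by
  obtain ⟨l, hl⟩ : ∃ l, l = dt p c / R ^ 2 := ⟨_, rfl⟩
  have hR2 : 0 < R ^ 2 := by positivity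
  have hlR : l * R ^ 2 = dt p c := by rw [hl]; field_simp
  have hcs : dt p c ^ 2 = nsq p * nsq c - cr p c ^ 2 := by
    simp only [dt, nsq, cr]; ring
  have hl2 : l ^ 2 ≤ 1 := by
    have : (l * R ^ 2) ^ 2 ≤ R ^ 2 * R ^ 2 := by
      rw [hlR, hcs, h0, np]
      have := mul_le_mul_of_nonneg_left hc hR2.le
      linarith
    have h2 : l ^ 2 * (R ^ 2 * R ^ 2) ≤ 1 * (R ^ 2 * R ^ 2) := by
      calc _ = (l * R ^ 2) ^ 2 := by ring
        _ ≤ R ^ 2 * R ^ 2 := this
        _ = _ := by ring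
    exact le_of_mul_le_mul_right h2 (by positivity)
  have hl1 : -1 ≤ l ∧ l ≤ 1 := abs_le.mp ((sq_le_one_iff_abs_le_one l).mp hl2)
  have hceq : c = ((1 + l) / 2) • p + ((1 - l) / 2) • (-p) := by
    have e1 : c.1 * R ^ 2 = l * R ^ 2 * p.1 := by
      rw [hlR, ← np]
      have : c.1 * nsq p - dt p c * p.1 = - cr p c * p.2 := by
        simp only [dt, nsq, cr]; ring
      rw [h0] at this
      linarith
    have e2 : c.2 * R ^ 2 = l * R ^ 2 * p.2 := by
      rw [hlR, ← np]
      have : c.2 * nsq p - dt p c * p.2 = cr p c * p.1 := by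
        simp only [dt, nsq, cr]; ring
      rw [h0] at this
      linarith
    have e1' : c.1 = l * p.1 := by
      apply mul_right_cancel₀ hR2.ne'
      linarith
    have e2' : c.2 = l * p.2 := by
      apply mul_right_cancel₀ hR2.ne'
      linarith
    ext
    · simp only [Prod.fst_add, Prod.smul_fst, Prod.fst_neg, smul_eq_mul]
      rw [e1']; ring
    · simp only [Prod.snd_add, Prod.smul_snd, Prod.snd_neg, smul_eq_mul]
      rw [e2']; ring
  rw [hceq]
  exact hK hp hp' (by linarith) (by linarith) (by ring)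

/-- a point in the interior of a subset of the disk has norm `< R` -/
lemma nsq_lt_of_interior {S : Set (ℝ × ℝ)} {R : ℝ} (hR : 0 < R) (hS : ∀ z ∈ S, nsq z ≤ R ^ 2)
    {v : ℝ × ℝ} (hv : v ∈ interior S) : nsq v < R ^ 2 := by
  have h1 : ∀ᶠ t : ℝ in nhds 1, t • v ∈ interior S := by
    have hc : ContinuousAt (fun t : ℝ => t • v) 1 := by fun_prop
    apply hc.eventually
    simp only [one_smul]
    exact isOpen_interior.mem_nhds hv
  have h2 : ∀ᶠ t : ℝ in nhdsWithin 1 (Set.Ioi 1), t • v ∈ interior S ∧ t ∈ Set.Ioi (1:ℝ) :=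
    (h1.filter_mono nhdsWithin_le_nhds).and self_mem_nhdsWithin
  obtain ⟨t, ht, ht1⟩ := h2.exists
  have ht1' : 1 < t := ht1
  have h3 := hS _ (interior_subset ht)
  have h4 : nsq (t • v) = t ^ 2 * nsq v := by
    simp only [nsq, Prod.smul_fst, Prod.smul_snd, smul_eq_mul]; ring
  rw [h4] at h3
  by_contra hcon
  push Not at hcon
  have h5 : 1 < t ^ 2 := one_lt_pow₀ ht1' (by norm_num)
  have h6 : 0 < R ^ 2 := by positivity
  have h7 : R ^ 2 < t ^ 2 * nsq v := by
    calc R ^ 2 = 1 * R ^ 2 := by ring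
      _ < t ^ 2 * R ^ 2 := mul_lt_mul_of_pos_right h5 h6
      _ ≤ t ^ 2 * nsq v := mul_le_mul_of_nonneg_left hcon (by positivity)
  linarith

/-- the symmetrised half -/
def SS (K : Set (ℝ × ℝ)) (p : ℝ × ℝ) : Set (ℝ × ℝ) :=
  {z | (0 ≤ cr p z ∧ z ∈ K) ∨ (cr p z ≤ 0 ∧ -z ∈ K)}

/-- the mixed case of convexity -/
lemma mixed {K : Set (ℝ × ℝ)} {R : ℝ} (h : Bd K R) {p : ℝ × ℝ} (hp : p ∈ K)
    (np : nsq p = R ^ 2) (hp' : -p ∈ K) {x y : ℝ × ℝ} (hx0 : 0 ≤ cr p x) (hx : x ∈ K)
    (hy0 : cr p y ≤ 0) (hy : -y ∈ K) {a b : ℝ} (ha : 0 ≤ a) (hb : 0 ≤ b) (hab : a + b = 1) :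
    a • x + b • y ∈ SS K p := by
  have nx : nsq x ≤ R ^ 2 := h.sub hx
  have ny : nsq y ≤ R ^ 2 := by have := h.sub hy; rw [← nsq_neg]; exact this
  obtain ⟨α, hα⟩ : ∃ α, α = cr p x := ⟨_, rfl⟩
  obtain ⟨β, hβ⟩ : ∃ β, β = -cr p y := ⟨_, rfl⟩
  have hα0 : 0 ≤ α := hα ▸ hx0
  have hβ0 : 0 ≤ β := by rw [hβ]; linarith
  have hz : cr p (a • x + b • y) = a * α - b * β := by
    rw [cr_combo, hα, hβ]; ring
  rcases (add_nonneg hα0 hβ0).eq_or_lt with hs | hs
  · -- both on the line
    have h1 : α = 0 := by linarith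
    have h2 : β = 0 := by linarith
    have hz0 : cr p (a • x + b • y) = 0 := by rw [hz, h1, h2]; ring
    left
    refine ⟨hz0.ge, line_pt h.pos h.conv hp np hp' (nsq_combo nx ny ha hb hab) hz0⟩
  · obtain ⟨c, hc⟩ : ∃ c, c = (β / (α + β)) • x + (α / (α + β)) • y := ⟨_, rfl⟩
    have hc0 : cr p c = 0 := by
      rw [hc, cr_combo, ← hα]
      have : cr p y = -β := by rw [hβ]; ring
      rw [this]
      field_simp
      ring
    have hcn : nsq c ≤ R ^ 2 := by
      rw [hc]
      apply nsq_combo nx ny (by positivity) (by positivity)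
      field_simp
      ring
    have hcK : c ∈ K := line_pt h.pos h.conv hp np hp' hcn hc0
    have hcK' : -c ∈ K := by
      apply line_pt h.pos h.conv hp np hp'
      · rw [nsq_neg]; exact hcn
      · rw [cr_neg_right, hc0, neg_zero]
    rcases le_total 0 (cr p (a • x + b • y)) with hzz | hzz
    · left
      refine ⟨hzz, ?_⟩
      rw [hz] at hzz
      rcases hα0.eq_or_lt with hα1 | hα1
      · have hβ1 : 0 < β := by linarith
        have hb0 : b = 0 := by
          have : b * β ≤ 0 := by rw [← hα1] at hzz; linarith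
          by_contra hne
          have : 0 < b * β := mul_pos (lt_of_le_of_ne hb (Ne.symm hne)) hβ1
          linarith
        have ha1 : a = 1 := by linarith
        rw [hb0, ha1]; simpa using hx
      · have hzeq : a • x + b • y = ((a * α - b * β) / α) • x + (b * (α + β) / α) • c := by
          rw [hc, smul_add, smul_smul, smul_smul, ← add_assoc, ← add_smul]
          congr 2
          · field_simp
            ring
          · field_simp
        rw [hzeq]
        apply h.conv hx hcK (by positivity) (by positivity)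
        have : a = 1 - b := by linarith
        rw [this]
        field_simp
        ring
    · right
      refine ⟨hzz, ?_⟩
      rw [hz] at hzz
      rcases hβ0.eq_or_lt with hβ1 | hβ1
      · have hα1 : 0 < α := by linarith
        have ha0 : a = 0 := by
          have : a * α ≤ 0 := by rw [← hβ1] at hzz; linarith
          by_contra hne
          have : 0 < a * α := mul_pos (lt_of_le_of_ne ha (Ne.symm hne)) hα1
          linarith
        have hb1 : b = 1 := by linarith
        rw [ha0, hb1]; simpa using hy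
      · have hzeq : -(a • x + b • y) =
            ((b * β - a * α) / β) • (-y) + (a * (α + β) / β) • (-c) := by
          rw [hc]
          have e1 : (a * (α + β) / β) • (-((β / (α + β)) • x + (α / (α + β)) • y)) =
              -(a • x) - (a * α / β) • y := by
            rw [smul_neg, smul_add, smul_smul, smul_smul]
            have e2 : a * (α + β) / β * (β / (α + β)) = a := by field_simp
            have e3 : a * (α + β) / β * (α / (α + β)) = a * α / β := by field_simp
            rw [e2, e3]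
            abel
          rw [e1, sub_div, mul_div_assoc, div_self hβ1.ne', mul_one, sub_smul, smul_neg, smul_neg]
          abel
        rw [hzeq]
        apply h.conv hy hcK' (div_nonneg (by linarith) hβ1.le) (by positivity)
        have : b = 1 - a := by linarith
        rw [this]
        field_simp
        ring

lemma neg_mem_SS {K : Set (ℝ × ℝ)} {p z : ℝ × ℝ} (hz : z ∈ SS K p) : -z ∈ SS K p := by
  rcases hz with ⟨h1, h2⟩ | ⟨h1, h2⟩
  · right
    refine ⟨by rw [cr_neg_right]; linarith, by rwa [neg_neg]⟩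
  · left
    refine ⟨by rw [cr_neg_right]; linarith, h2⟩

lemma convex_SS {K : Set (ℝ × ℝ)} {R : ℝ} (h : Bd K R) {p : ℝ × ℝ} (hp : p ∈ K)
    (np : nsq p = R ^ 2) (hp' : -p ∈ K) : Convex ℝ (SS K p) := by
  intro x hx y hy a b ha hb hab
  rcases hx with ⟨hx1, hx2⟩ | ⟨hx1, hx2⟩
  · rcases hy with ⟨hy1, hy2⟩ | ⟨hy1, hy2⟩
    · left
      refine ⟨?_, h.conv hx2 hy2 ha hb hab⟩
      rw [cr_combo]; positivity
    · exact mixed h hp np hp' hx1 hx2 hy1 hy2 ha hb hab
  · rcases hy with ⟨hy1, hy2⟩ | ⟨hy1, hy2⟩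
    · rw [add_comm]
      exact mixed h hp np hp' hy1 hy2 hx1 hx2 hb ha (by linarith)
    · right
      constructor
      · rw [cr_combo]
        have := mul_nonpos_of_nonneg_of_nonpos ha hx1
        have := mul_nonpos_of_nonneg_of_nonpos hb hy1
        linarith
      · have : -(a • x + b • y) = a • (-x) + b • (-y) := by
          rw [smul_neg, smul_neg]; abel
        rw [this]
        exact h.conv hx2 hy2 ha hb hab

lemma continuous_cr (p : ℝ × ℝ) : Continuous (fun z => cr p z) := by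
  unfold cr; fun_prop

lemma SS_sub {K : Set (ℝ × ℝ)} {R : ℝ} (h : Bd K R) {p : ℝ × ℝ} : ∀ z ∈ SS K p, nsq z ≤ R ^ 2 := by
  intro z hz
  rcases hz with ⟨_, h2⟩ | ⟨_, h2⟩
  · exact h.sub h2
  · have := h.sub h2
    rw [← nsq_neg]; exact this

lemma SS_lat {K : Set (ℝ × ℝ)} {R : ℝ} (h : Bd K R) {p : ℝ × ℝ} (hp : p ∈ K)
    (np : nsq p = R ^ 2) : ∀ v, Lat v → v ∈ interior (SS K p) → v = 0 := by
  intro v hv hvi
  by_contra hv0
  have hn := nsq_lt_of_interior h.pos (SS_sub h) hvi
  rcases lt_trichotomy (cr p v) 0 with hc | hc | hc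
  · -- `-v` is in the interior of `K`
    have : -v ∈ interior K := by
      rw [mem_interior]
      refine ⟨(fun z => -z) ⁻¹' (interior (SS K p) ∩ {z | cr p z < 0}), ?_, ?_, ?_⟩
      · intro z hz
        obtain ⟨h1, h2⟩ := hz
        have h1' := interior_subset h1
        rcases h1' with ⟨h3, _⟩ | ⟨_, h4⟩
        · exact absurd h3 (not_le.mpr h2)
        · rwa [neg_neg] at h4
      · apply IsOpen.preimage continuous_neg
        exact isOpen_interior.inter (isOpen_lt (continuous_cr p) continuous_const)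
      · change - -v ∈ interior (SS K p) ∩ {z | cr p z < 0}
        rw [neg_neg]
        exact ⟨hvi, hc⟩
    have := h.lat (-v) hv.neg this
    exact hv0 (neg_eq_zero.mp this)
  · have : cr v p = 0 := by
      have : cr v p = -cr p v := by simp only [cr]; ring
      rw [this, hc, neg_zero]
    exact h.ray hp np hv hv0 hn this
  · have : v ∈ interior K := by
      rw [mem_interior]
      refine ⟨interior (SS K p) ∩ {z | 0 < cr p z}, ?_, ?_, ⟨hvi, hc⟩⟩
      · intro z hz
        obtain ⟨h1, h2⟩ := hz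
        have h1' := interior_subset h1
        rcases h1' with ⟨_, h4⟩ | ⟨h3, _⟩
        · exact h4
        · exact absurd h3 (not_le.mpr h2)
      · exact isOpen_interior.inter (isOpen_lt continuous_const (continuous_cr p))
    exact hv0 (h.lat v hv this)

lemma half {K : Set (ℝ × ℝ)} {R : ℝ} (h : Bd K R) {p : ℝ × ℝ} (hp : p ∈ K)
    (np : nsq p = R ^ 2) (hp' : -p ∈ K) : volume (K ∩ {z | 0 < cr p z}) ≤ 2 := by
  have hm : MeasurableSet (K ∩ {z | 0 < cr p z}) :=
    h.comp.measurableSet.inter (isOpen_lt continuous_const (continuous_cr p)).measurableSet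
  have h1 : volume (SS K p) ≤ 4 :=
    vol_le_four (convex_SS h hp np hp') (fun z hz => neg_mem_SS hz) (SS_lat h hp np)
  have h2 : volume ((fun z : ℝ × ℝ => -z) ⁻¹' (K ∩ {z | 0 < cr p z})) =
      volume (K ∩ {z | 0 < cr p z}) := Measure.measure_preimage_neg volume _
  have hdisj : Disjoint (K ∩ {z | 0 < cr p z})
      ((fun z : ℝ × ℝ => -z) ⁻¹' (K ∩ {z | 0 < cr p z})) := by
    rw [Set.disjoint_left]
    rintro z ⟨_, h3⟩ ⟨_, h4⟩
    simp only [mem_ofPred_eq] at h3 h4
    rw [cr_neg_right] at h4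
    linarith
  have h3 : volume (K ∩ {z | 0 < cr p z}) + volume (K ∩ {z | 0 < cr p z}) ≤ 4 := by
    nth_rewrite 2 [← h2]
    rw [← measure_union hdisj (hm.preimage measurable_neg)]
    refine le_trans (measure_mono ?_) h1
    rintro z (⟨h4, h5⟩ | ⟨h4, h5⟩)
    · left
      exact ⟨le_of_lt h5, h4⟩
    · right
      simp only [mem_ofPred_eq] at h5
      rw [cr_neg_right] at h5
      exact ⟨by linarith, h4⟩
  by_contra hcon
  push Not at hcon
  have h4 : (2 : ENNReal) + 2 < volume (K ∩ {z | 0 < cr p z}) + volume (K ∩ {z | 0 < cr p z}) :=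
    ENNReal.add_lt_add hcon hcon
  have h5 : (2 : ENNReal) + 2 = 4 := by norm_num
  rw [h5] at h4
  exact absurd h3 (not_le.mpr h4)

/-- the line is a null set -/
lemma line_null {p : ℝ × ℝ} (hp : 0 < nsq p) : volume {z : ℝ × ℝ | cr p z = 0} = 0 := by
  let L : ℝ × ℝ →ₗ[ℝ] ℝ :=
    { toFun := fun z => cr p z
      map_add' := by intro x y; simp only [cr, Prod.fst_add, Prod.snd_add]; ring
      map_smul' := by
        intro c x
        simp only [cr, Prod.smul_fst, Prod.smul_snd, smul_eq_mul, RingHom.id_apply]; ring }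
  have h1 : {z : ℝ × ℝ | cr p z = 0} = (LinearMap.ker L : Set (ℝ × ℝ)) := by
    ext z
    rw [SetLike.mem_coe, LinearMap.mem_ker]
    rfl
  rw [h1]
  apply Measure.addHaar_submodule
  intro htop
  have h2 : ((-p.2, p.1) : ℝ × ℝ) ∈ LinearMap.ker L := by rw [htop]; trivial
  rw [LinearMap.mem_ker] at h2
  have h3 : L (-p.2, p.1) = nsq p := by
    change cr p (-p.2, p.1) = nsq p
    simp only [cr, nsq]; ring
  rw [h3] at h2
  linarith

end Anti

open Anti in
theorem antipodal {K : Set (ℝ × ℝ)} {R : ℝ} (h : Bd K R) {p : ℝ × ℝ} (hp : p ∈ K)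
    (np : nsq p = R ^ 2) (hp' : -p ∈ K) : volume K ≤ 4 := by
  have h1 := half h hp np hp'
  have h2 := half h hp' (by rw [nsq_neg]; exact np) (by rwa [neg_neg])
  have h3 : volume {z : ℝ × ℝ | cr p z = 0} = 0 :=
    line_null (by rw [np]; exact pow_pos h.pos 2)
  have h4 : K ⊆ (K ∩ {z | 0 < cr p z}) ∪ (K ∩ {z | 0 < cr (-p) z}) ∪ {z : ℝ × ℝ | cr p z = 0} := by
    intro z hz
    rcases lt_trichotomy (cr p z) 0 with hc | hc | hc
    · left; right
      refine ⟨hz, ?_⟩
      simp only [mem_ofPred_eq]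
      rw [cr_neg_left]; linarith
    · right; exact hc
    · left; left; exact ⟨hz, hc⟩
  calc volume K ≤ _ := measure_mono h4
    _ ≤ volume ((K ∩ {z | 0 < cr p z}) ∪ (K ∩ {z | 0 < cr (-p) z})) +
        volume {z : ℝ × ℝ | cr p z = 0} := measure_union_le _ _
    _ ≤ (volume (K ∩ {z | 0 < cr p z}) + volume (K ∩ {z | 0 < cr (-p) z})) +
        volume {z : ℝ × ℝ | cr p z = 0} := by
          gcongr; exact measure_union_le _ _
    _ ≤ (2 + 2) + 0 := by
          rw [h3]
          gcongr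
    _ = 4 := by norm_num

end Pool.Agent.H16.Cef
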