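import Pool.Agent.H16.Cef.Defs

/-!
Module ATANNUM. Numerical bounds for the arctangent.

`atan_le`, `atan_ge`: Taylor polynomials, by monotonicity: `f x = arctan x - P x` has
`f 0 = 0` and `f' x = 1/(1+x²) - P' x`, where `P' = (1 + x^14)/(1+x²)` resp. `(1 - x^12)/(1+x²)`.
`atan_one_add`: `arctan y = π/4 + arctan ((y-1)/(y+1))` for `y > 0` (from `Real.arctan_add` with
`x = 1`, or `Real.arctan_add` applied to `1` and `(y-1)/(y+1)`).
-/

set_option autoImplicit false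

namespace Pool.Agent.H16.Cef

theorem atan_le {x : ℝ} (hx : 0 ≤ x) :
    Real.arctan x ≤ x - x ^ 3 / 3 + x ^ 5 / 5 - x ^ 7 / 7 + x ^ 9 / 9 - x ^ 11 / 11 + x ^ 13 / 13 := by
  have hd : ∀ y : ℝ, HasDerivAt (fun x : ℝ => (x - x ^ 3 / 3 + x ^ 5 / 5 - x ^ 7 / 7 + x ^ 9 / 9
      - x ^ 11 / 11 + x ^ 13 / 13) - Real.arctan x) (y ^ 14 / (1 + y ^ 2)) y := by
    intro y
    have h0 : (1 + y ^ 2) ≠ 0 := by positivity
    have h1 : HasDerivAt (fun x : ℝ => (x - x ^ 3 / 3 + x ^ 5 / 5 - x ^ 7 / 7 + x ^ 9 / 9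
      - x ^ 11 / 11 + x ^ 13 / 13) - Real.arctan x)
      ((1 - (3 : ℕ) * y ^ (3 - 1) / 3 + (5 : ℕ) * y ^ (5 - 1) / 5 - (7 : ℕ) * y ^ (7 - 1) / 7
        + (9 : ℕ) * y ^ (9 - 1) / 9 - (11 : ℕ) * y ^ (11 - 1) / 11
        + (13 : ℕ) * y ^ (13 - 1) / 13) - 1 / (1 + y ^ 2)) y :=
      (((((((hasDerivAt_id y).sub ((hasDerivAt_pow 3 y).div_const 3)).add
        ((hasDerivAt_pow 5 y).div_const 5)).sub ((hasDerivAt_pow 7 y).div_const 7)).add
        ((hasDerivAt_pow 9 y).div_const 9)).sub ((hasDerivAt_pow 11 y).div_const 11)).add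
        ((hasDerivAt_pow 13 y).div_const 13)).sub (Real.hasDerivAt_arctan y)
    convert h1 using 1
    field_simp
    push_cast
    ring
  have hm : MonotoneOn (fun x : ℝ => (x - x ^ 3 / 3 + x ^ 5 / 5 - x ^ 7 / 7 + x ^ 9 / 9
      - x ^ 11 / 11 + x ^ 13 / 13) - Real.arctan x) (Set.Ici 0) := by
    apply monotoneOn_of_deriv_nonneg (convex_Ici 0)
    · exact fun y _ => (hd y).continuousAt.continuousWithinAt
    · exact fun y _ => (hd y).differentiableAt.differentiableWithinAt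
    · intro y _
      rw [(hd y).deriv]
      positivity
  have := hm (Set.mem_Ici.2 le_rfl) (Set.mem_Ici.2 hx) hx
  simp only [Real.arctan_zero] at this
  norm_num at this
  linarith

theorem atan_ge {x : ℝ} (hx : 0 ≤ x) :
    x - x ^ 3 / 3 + x ^ 5 / 5 - x ^ 7 / 7 + x ^ 9 / 9 - x ^ 11 / 11 ≤ Real.arctan x := by
  have hd : ∀ y : ℝ, HasDerivAt (fun x : ℝ => Real.arctan x - (x - x ^ 3 / 3 + x ^ 5 / 5
      - x ^ 7 / 7 + x ^ 9 / 9 - x ^ 11 / 11)) (y ^ 12 / (1 + y ^ 2)) y := by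
    intro y
    have h0 : (1 + y ^ 2) ≠ 0 := by positivity
    have h1 : HasDerivAt (fun x : ℝ => Real.arctan x - (x - x ^ 3 / 3 + x ^ 5 / 5
      - x ^ 7 / 7 + x ^ 9 / 9 - x ^ 11 / 11))
      (1 / (1 + y ^ 2) - (1 - (3 : ℕ) * y ^ (3 - 1) / 3 + (5 : ℕ) * y ^ (5 - 1) / 5
        - (7 : ℕ) * y ^ (7 - 1) / 7
        + (9 : ℕ) * y ^ (9 - 1) / 9 - (11 : ℕ) * y ^ (11 - 1) / 11)) y :=
      (Real.hasDerivAt_arctan y).sub ((((((hasDerivAt_id y).sub
        ((hasDerivAt_pow 3 y).div_const 3)).add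
        ((hasDerivAt_pow 5 y).div_const 5)).sub ((hasDerivAt_pow 7 y).div_const 7)).add
        ((hasDerivAt_pow 9 y).div_const 9)).sub ((hasDerivAt_pow 11 y).div_const 11))
    convert h1 using 1
    field_simp
    push_cast
    ring
  have hm : MonotoneOn (fun x : ℝ => Real.arctan x - (x - x ^ 3 / 3 + x ^ 5 / 5
      - x ^ 7 / 7 + x ^ 9 / 9 - x ^ 11 / 11)) (Set.Ici 0) := by
    apply monotoneOn_of_deriv_nonneg (convex_Ici 0)
    · exact fun y _ => (hd y).continuousAt.continuousWithinAt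
    · exact fun y _ => (hd y).differentiableAt.differentiableWithinAt
    · intro y _
      rw [(hd y).deriv]
      positivity
  have := hm (Set.mem_Ici.2 le_rfl) (Set.mem_Ici.2 hx) hx
  simp only [Real.arctan_zero] at this
  norm_num at this
  linarith

theorem atan_one_add {y : ℝ} (hy : 0 < y) :
    Real.arctan y = Real.pi / 4 + Real.arctan ((y - 1) / (y + 1)) := by
  have h1 : 0 < y + 1 := by linarith
  have h2 : (1 : ℝ) * ((y - 1) / (y + 1)) < 1 := by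
    rw [one_mul, div_lt_one h1]; linarith
  rw [← Real.arctan_one, Real.arctan_add h2]
  congr 1
  have h3 : 1 - 1 * ((y - 1) / (y + 1)) = 2 / (y + 1) := by field_simp; ring
  rw [h3]
  field_simp
  ring

end Pool.Agent.H16.Cef
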