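import Pool.Agent.H16.Cef.Tri

/-!
Module WEDGE. Lower bounds for the area of the wedge
`W R a = {z ∈ disk R : z.1 - z.2 ≤ 1 < z.1 - a z.2}`, `0 < a ≤ 1`; put `τ = (1 - a)/(1 + a) ∈ [0, 1)`.

Up to a null set (a segment of the line `z.1 - a z.2 = 1`) `W R a` contains `disk R ∩ Δ`,
`Δ = triangle (1,0), (3/2,1/2), (3/2 - τ/2, 1/2 + τ/2)`, of area `τ/4` (the third vertex is on the line
`x - a y = 1`).
1. `R² ≥ 5/2`: the three vertices have norm² `1, 5/2, 5/2 - τ + τ²/2 ≤ 5/2`, so `Δ ⊆ disk R`.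
2. `R² ≥ 2.53`: the triangle with vertices `(1,0)`, `(1,0) + g (1/2,1/2)`,
   `(1,0) + g (1/2 - τ/2, 1/2 + τ/2)` with `g = 1.01` is in the disk too (norm² of the second vertex
   `1 + g + g²/2 ≤ 2.5201`, of the third `1 + g (1-τ) + g² (1+τ²)/2 ≤ 2.5201`), its area is `1.0201 τ/4`.
3. `2 ≤ R² ≤ 5/2`: let `P = (3/2 - λ, 1/2 - λ)` and `Q = (3/2 - μ, 1/2 + μ)`, both on the circle, where
   `λ = 1 - √(2R²-1)/2`, `μ = 1/2 - √((R²-2)/2)`. `Δ` is contained in the triangle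
   `(1,0), (3/2,1/2), (1,1)`, which is the union of the quadrilateral `(1,0), P, Q, (1,1)`
   (all vertices in the disk) and of the triangle `P, (3/2,1/2), Q` of area `λ μ`. So
   `vol (Δ \ disk R) ≤ λ μ`.
4. `2 ≤ R²`: the triangle `(1,0),(3/2,1/2),(1,1)` has area `1/4`, and contains the two triangles
   `(1,0), (1.366, 0.366), (1.22, 0.7)` and `(1,0), (1.22,0.7), (1,1)` (non overlapping, total area
   `0.19784`), whose vertices have norm² `≤ 2`. So `vol (Δ \ disk R) ≤ 0.25 - 0.19784 ≤ 0.0522`.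
-/

set_option autoImplicit false

open MeasureTheory Set

namespace Pool.Agent.H16.Cef

/-- the wedge -/
def Wd (R a : ℝ) : Set (ℝ × ℝ) := {z | nsq z ≤ R ^ 2 ∧ z.1 - z.2 ≤ 1 ∧ 1 < z.1 - a * z.2}

/-- the defect `λ μ` -/
noncomputable def lam (R : ℝ) : ℝ := 1 - √(2 * R ^ 2 - 1) / 2
noncomputable def mu (R : ℝ) : ℝ := 1 / 2 - √((R ^ 2 - 2) / 2)

theorem line_null {a : ℝ} (ha : 0 < a) : volume {z : ℝ × ℝ | z.1 - a * z.2 = 1} = 0 := by
  have hm : MeasurableSet {z : ℝ × ℝ | z.1 - a * z.2 = 1} :=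
    (isClosed_eq (by fun_prop) continuous_const).measurableSet
  rw [Measure.volume_eq_prod, Measure.measure_prod_null hm]
  refine Filter.Eventually.of_forall fun x => ?_
  have h : Prod.mk x ⁻¹' {z : ℝ × ℝ | z.1 - a * z.2 = 1} = {(x - 1) / a} := by
    ext y
    simp only [mem_preimage, mem_ofPred_eq, mem_singleton_iff]
    rw [eq_div_iff ha.ne']
    constructor <;> intro h <;> linarith
  change volume (Prod.mk x ⁻¹' {z : ℝ × ℝ | z.1 - a * z.2 = 1}) = 0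
  rw [h]
  simp

/-- the quantity `τ` -/
noncomputable def tau (a : ℝ) : ℝ := (1 - a) / (1 + a)

theorem tau_nonneg {a : ℝ} (ha : 0 < a) (ha1 : a ≤ 1) : 0 ≤ tau a :=
  div_nonneg (by linarith) (by linarith)

theorem tau_le {a : ℝ} (ha : 0 < a) : tau a ≤ 1 := by
  unfold tau
  rw [div_le_one (by linarith)]
  linarith

theorem tau_eq {a : ℝ} (ha : 0 < a) : tau a * (1 + a) = 1 - a := by
  unfold tau
  field_simp

/-- the basic triangle, scaled by `g` -/
def tri0 (a g : ℝ) : Set (ℝ × ℝ) :=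
  triS (1, 0) (g / 2, g / 2) (g * (1 / 2 - tau a / 2), g * (1 / 2 + tau a / 2))

theorem volume_tri0 {a g : ℝ} (ha : 0 < a) (ha1 : a ≤ 1) :
    volume (tri0 a g) = ENNReal.ofReal (g ^ 2 * tau a / 4) := by
  unfold tri0
  rw [volume_triS]
  congr 1
  have h : cr (g / 2, g / 2) (g * (1 / 2 - tau a / 2), g * (1 / 2 + tau a / 2)) =
      g ^ 2 * tau a / 2 := by
    unfold cr
    ring
  rw [h, abs_of_nonneg]
  · ring
  · have := tau_nonneg ha ha1
    positivity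

/-- coordinates in the basic triangle -/
theorem tri0_coord {a g : ℝ} (ha : 0 < a) {z : ℝ × ℝ} (hz : z ∈ tri0 a g) :
    ∃ u v : ℝ, 0 ≤ u ∧ 0 ≤ v ∧ u + v ≤ 1 ∧
      z.1 = 1 + u * (g / 2) + v * (g * (1 / 2 - tau a / 2)) ∧
      z.2 = u * (g / 2) + v * (g * (1 / 2 + tau a / 2)) ∧
      z.1 - z.2 = 1 - g * v * tau a ∧ z.1 - a * z.2 = 1 + g * u * (1 - a) / 2 := by
  obtain ⟨u, v, hu, hv, huv, rfl⟩ := hz
  refine ⟨u, v, hu, hv, huv, ?_, ?_, ?_, ?_⟩
  · simp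
  · simp
  · simp
    ring
  · have h := tau_eq ha
    simp
    have h2 : 1 + u * (g / 2) + v * (g * (1 / 2 - tau a / 2)) -
        a * (u * (g / 2) + v * (g * (1 / 2 + tau a / 2))) =
        1 + g * u * (1 - a) / 2 + g * v / 2 * ((1 - a) - tau a * (1 + a)) := by ring
    rw [h] at h2
    linarith

/-- the main estimate -/
theorem wedge_main {R a g : ℝ} (ha : 0 < a) (ha1 : a ≤ 1) (hg : 0 ≤ g) {U : Set (ℝ × ℝ)}
    (hU : ∀ z ∈ tri0 a g, R ^ 2 < nsq z → z ∈ U) :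
    ENNReal.ofReal (g ^ 2 * tau a / 4) ≤ volume (Wd R a) + volume U := by
  rw [← volume_tri0 ha ha1]
  have hsub : tri0 a g ⊆ Wd R a ∪ ({z : ℝ × ℝ | z.1 - a * z.2 = 1} ∪ U) := by
    intro z hz
    obtain ⟨u, v, hu, hv, huv, h1, h2, h3, h4⟩ := tri0_coord ha hz
    by_cases hd : nsq z ≤ R ^ 2
    · by_cases hl : z.1 - a * z.2 = 1
      · exact Or.inr (Or.inl hl)
      · left
        refine ⟨hd, ?_, ?_⟩
        · rw [h3]
          have := tau_nonneg ha ha1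
          have : 0 ≤ g * v * tau a := by positivity
          linarith
        · refine lt_of_le_of_ne ?_ (Ne.symm hl)
          rw [h4]
          have : 0 ≤ g * u * (1 - a) := mul_nonneg (mul_nonneg hg hu) (by linarith)
          linarith
    · exact Or.inr (Or.inr (hU z hz (not_le.1 hd)))
  refine (measure_mono hsub).trans ((measure_union_le _ _).trans ?_)
  refine add_le_add le_rfl ((measure_union_le _ _).trans ?_)
  rw [line_null ha, zero_add]

theorem convex_disk (R : ℝ) : Convex ℝ (disk R) := by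
  intro x hx y hy s t hs ht hst
  unfold disk nsq at *
  simp only [mem_ofPred_eq, Prod.fst_add, Prod.smul_fst, smul_eq_mul, Prod.snd_add,
    Prod.smul_snd] at *
  have ht' : t = 1 - s := by linarith
  subst ht'
  nlinarith [mul_nonneg (mul_nonneg hs ht) (sq_nonneg (x.1 - y.1)),
    mul_nonneg (mul_nonneg hs ht) (sq_nonneg (x.2 - y.2)),
    mul_le_mul_of_nonneg_left hx hs, mul_le_mul_of_nonneg_left hy ht]

theorem tri0_disk {R a g : ℝ} (ha : 0 < a) (ha1 : a ≤ 1) (hg : 0 ≤ g) (hg2 : g ≤ 2)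
    (hR : 1 + g + g ^ 2 / 2 ≤ R ^ 2) : tri0 a g ⊆ disk R := by
  have h0 := tau_nonneg ha ha1
  have h1 := tau_le ha
  refine triS_subset (convex_disk R) ?_ ?_ ?_
  · unfold disk nsq
    simp only [mem_ofPred_eq]
    nlinarith [sq_nonneg g]
  · unfold disk nsq
    simp only [mem_ofPred_eq, Prod.fst_add, Prod.snd_add]
    nlinarith
  · unfold disk nsq
    simp only [mem_ofPred_eq, Prod.fst_add, Prod.snd_add]
    have h2 : (1 + g * (1 / 2 - tau a / 2)) ^ 2 + (0 + g * (1 / 2 + tau a / 2)) ^ 2 =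
        1 + g + g ^ 2 / 2 - g * tau a * (1 - g * tau a / 2) := by ring
    rw [h2]
    have h3 : g * tau a ≤ 2 := by nlinarith
    have h4 : 0 ≤ g * tau a := mul_nonneg hg h0
    have h5 : 0 ≤ g * tau a * (1 - g * tau a / 2) := mul_nonneg h4 (by linarith)
    linarith

theorem wedge1 {R a : ℝ} (ha : 0 < a) (ha1 : a ≤ 1) (hR : 5 / 2 ≤ R ^ 2) :
    ENNReal.ofReal ((1 - a) / (1 + a) / 4) ≤ volume (Wd R a) := by
  have h := wedge_main (R := R) (g := 1) (U := ∅) ha ha1 zero_le_one fun z hz hd => by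
    have := tri0_disk (R := R) ha ha1 zero_le_one (by norm_num) (by norm_num; linarith) hz
    exact absurd this (not_le.2 hd)
  rw [measure_empty, add_zero, one_pow, one_mul] at h
  exact h

theorem wedge2 {R a : ℝ} (ha : 0 < a) (ha1 : a ≤ 1) (hR : 253 / 100 ≤ R ^ 2) :
    ENNReal.ofReal (1.0201 * ((1 - a) / (1 + a)) / 4) ≤ volume (Wd R a) := by
  have h := wedge_main (R := R) (g := 101 / 100) (U := ∅) ha ha1 (by norm_num) fun z hz hd => by
    have := tri0_disk (R := R) ha ha1 (by norm_num) (by norm_num) (by norm_num; linarith) hz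
    exact absurd this (not_le.2 hd)
  rw [measure_empty, add_zero] at h
  have e : (101 / 100 : ℝ) ^ 2 * tau a / 4 = 1.0201 * ((1 - a) / (1 + a)) / 4 := by
    unfold tau
    norm_num
  rwa [e] at h

/-- coordinates relative to the vertex `(3/2, 1/2)` -/
theorem tri0_coord' {a : ℝ} (ha : 0 < a) (ha1 : a ≤ 1) {z : ℝ × ℝ} (hz : z ∈ tri0 a 1) :
    ∃ s r : ℝ, 0 ≤ s ∧ 0 ≤ r ∧ s + r ≤ 1 / 2 ∧ z.1 = 3 / 2 - s - r ∧ z.2 = 1 / 2 - s + r ∧
      nsq z = 5 / 2 - (4 * s - 2 * s ^ 2) - (2 * r - 2 * r ^ 2) := by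
  obtain ⟨u, v, hu, hv, huv, h1, h2, h3, h4⟩ := tri0_coord ha hz
  have ht0 := tau_nonneg ha ha1
  have ht1 := tau_le ha
  refine ⟨(1 - u - v) / 2, v * tau a / 2, by linarith, by positivity, ?_, ?_, ?_, ?_⟩
  · nlinarith
  · rw [h1]; ring
  · rw [h2]; ring
  · unfold nsq
    rw [h1, h2]
    ring

theorem mem_triS_vertex {s r b1 b2 c1 c2 : ℝ} {z : ℝ × ℝ} (hz1 : z.1 = 3 / 2 - s - r)
    (hz2 : z.2 = 1 / 2 - s + r) (u v : ℝ) (hu : 0 ≤ u) (hv : 0 ≤ v) (huv : u + v ≤ 1)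
    (h1 : -s - r = u * b1 + v * c1) (h2 : -s + r = u * b2 + v * c2) :
    z ∈ triS (3 / 2, 1 / 2) (b1, b2) (c1, c2) := by
  refine ⟨u, v, hu, hv, huv, ?_⟩
  ext
  · simp only [Prod.fst_add, Prod.smul_fst, smul_eq_mul]
    rw [hz1]
    linarith
  · simp only [Prod.snd_add, Prod.smul_snd, smul_eq_mul]
    rw [hz2]
    linarith

theorem w3_aux1 {l D : ℝ} (h1 : (1 - l) ^ 2 = 1 - D / 2) (_h2 : 0 ≤ 1 - l) (hD : 0 ≤ D) :
    4 * l - 2 * l ^ 2 = D ∧ 0 ≤ l := by
  have e : 4 * l - 2 * l ^ 2 = 2 - 2 * (1 - l) ^ 2 := by ring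
  refine ⟨by rw [e, h1]; ring, ?_⟩
  by_contra hc
  push Not at hc
  have h3 : 1 < 1 - l := by linarith
  have h4 : (1 - l) ^ 2 ≤ 1 := by linarith
  nlinarith

theorem w3_aux2 {m D : ℝ} (h1 : (1 / 2 - m) ^ 2 = 1 / 4 - D / 2) (h2 : 0 ≤ 1 / 2 - m)
    (hD : 0 ≤ D) : 2 * m - 2 * m ^ 2 = D ∧ 0 ≤ m := by
  have e : 2 * m - 2 * m ^ 2 = 1 / 2 - 2 * (1 / 2 - m) ^ 2 := by ring
  refine ⟨by rw [e, h1]; ring, ?_⟩
  by_contra hc
  push Not at hc
  have h4 : (1 / 2 - m) ^ 2 ≤ 1 / 4 := by linarith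
  nlinarith

theorem w3_aux3 {s r l m D : ℝ} (hs : 0 ≤ s) (hr : 0 ≤ r) (hsr : s + r ≤ 1 / 2)
    (hφ : 4 * l - 2 * l ^ 2 = D) (hψ : 2 * m - 2 * m ^ 2 = D) (hl : 0 ≤ l) (hl1 : l ≤ 1)
    (hm : 0 ≤ m) (hm1 : m ≤ 1 / 2) (hd : (4 * s - 2 * s ^ 2) + (2 * r - 2 * r ^ 2) < D) :
    0 < l ∧ 0 < m ∧ s / l + r / m ≤ 1 := by
  have hs1 : 0 ≤ 4 * s - 2 * s ^ 2 := by
    have : 0 ≤ s * (4 - 2 * s) := mul_nonneg hs (by linarith)
    linarith
  have hr1 : 0 ≤ 2 * r - 2 * r ^ 2 := by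
    have : 0 ≤ r * (2 - 2 * r) := mul_nonneg hr (by linarith)
    linarith
  have hlpos : 0 < l := by
    rcases hl.lt_or_eq with h | h
    · exact h
    · rw [← h] at hφ
      norm_num at hφ
      linarith
  have hmpos : 0 < m := by
    rcases hm.lt_or_eq with h | h
    · exact h
    · rw [← h] at hψ
      norm_num at hψ
      linarith
  have hsl : s < l := by
    by_contra hc
    push Not at hc
    have : 0 ≤ (s - l) * (4 - 2 * (s + l)) := mul_nonneg (by linarith) (by linarith)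
    have e : (s - l) * (4 - 2 * (s + l)) = (4 * s - 2 * s ^ 2) - (4 * l - 2 * l ^ 2) := by ring
    linarith
  have hrm : r < m := by
    by_contra hc
    push Not at hc
    have : 0 ≤ (r - m) * (2 - 2 * (r + m)) := mul_nonneg (by linarith) (by linarith)
    have e : (r - m) * (2 - 2 * (r + m)) = (2 * r - 2 * r ^ 2) - (2 * m - 2 * m ^ 2) := by ring
    linarith
  refine ⟨hlpos, hmpos, ?_⟩
  have hD : 0 < D := by linarith
  have h1 : s / l * D ≤ 4 * s - 2 * s ^ 2 := by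
    rw [← hφ, div_mul_eq_mul_div, div_le_iff₀ hlpos]
    have h3 : 0 ≤ s * l * (l - s) := mul_nonneg (mul_nonneg hs hl) (by linarith)
    have e : (4 * s - 2 * s ^ 2) * l - s * (4 * l - 2 * l ^ 2) = 2 * (s * l * (l - s)) := by ring
    linarith
  have h2 : r / m * D ≤ 2 * r - 2 * r ^ 2 := by
    rw [← hψ, div_mul_eq_mul_div, div_le_iff₀ hmpos]
    have h3 : 0 ≤ r * m * (m - r) := mul_nonneg (mul_nonneg hr hm) (by linarith)
    have e : (2 * r - 2 * r ^ 2) * m - r * (2 * m - 2 * m ^ 2) = 2 * (r * m * (m - r)) := by ring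
    linarith
  by_contra hc
  push Not at hc
  have : 1 * D < (s / l + r / m) * D := mul_lt_mul_of_pos_right hc hD
  linarith

theorem w4_aux {p1 p2 m1 m2 A B s r : ℝ} (hA : 0 ≤ A) (hB : 0 ≤ B) (hAB : 1 ≤ A + B)
    (hs : s = A * p1 + B * m1) (hr : r = A * p2 + B * m2) (hp1 : 0 ≤ p1) (hp2 : 0 ≤ p2)
    (hm1 : 0 ≤ m1) (hm2 : 0 ≤ m2) (hsr : s + r ≤ 1 / 2)
    (hP : 1 / 2 ≤ 4 * p1 - 2 * p1 ^ 2 + (2 * p2 - 2 * p2 ^ 2))
    (hM : 1 / 2 ≤ 4 * m1 - 2 * m1 ^ 2 + (2 * m2 - 2 * m2 ^ 2)) :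
    1 / 2 ≤ (4 * s - 2 * s ^ 2) + (2 * r - 2 * r ^ 2) := by
  have hs0' : 0 ≤ s := by rw [hs]; positivity
  have hr0' : 0 ≤ r := by rw [hr]; positivity
  set σ := A + B with hσ
  have hσ0 : 0 < σ := by linarith
  obtain ⟨α, hα⟩ : ∃ α, α = A / σ := ⟨_, rfl⟩
  obtain ⟨β, hβ⟩ : ∃ β, β = B / σ := ⟨_, rfl⟩
  have hα0 : 0 ≤ α := by rw [hα]; positivity
  have hβ0 : 0 ≤ β := by rw [hβ]; positivity
  have hαβ : α + β = 1 := by
    rw [hα, hβ, ← add_div, ← hσ, div_self hσ0.ne']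
  obtain ⟨s0, hs0⟩ : ∃ s0, s0 = α * p1 + β * m1 := ⟨_, rfl⟩
  obtain ⟨r0, hr0⟩ : ∃ r0, r0 = α * p2 + β * m2 := ⟨_, rfl⟩
  have e1 : s = σ * s0 := by
    rw [hs0, hs, hα, hβ]
    field_simp
  have e2 : r = σ * r0 := by
    rw [hr0, hr, hα, hβ]
    field_simp
  have hs00 : 0 ≤ s0 := by rw [hs0]; positivity
  have hr00 : 0 ≤ r0 := by rw [hr0]; positivity
  have h1 : s0 ≤ s := by
    rw [e1]
    exact le_mul_of_one_le_left hs00 hAB
  have h2 : r0 ≤ r := by
    rw [e2]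
    exact le_mul_of_one_le_left hr00 hAB
  have h3 : 0 ≤ (s - s0) * (4 - 2 * (s + s0)) := mul_nonneg (by linarith) (by linarith)
  have h4 : 0 ≤ (r - r0) * (2 - 2 * (r + r0)) := mul_nonneg (by linarith) (by linarith)
  have e3 : (s - s0) * (4 - 2 * (s + s0)) = (4 * s - 2 * s ^ 2) - (4 * s0 - 2 * s0 ^ 2) := by ring
  have e4 : (r - r0) * (2 - 2 * (r + r0)) = (2 * r - 2 * r ^ 2) - (2 * r0 - 2 * r0 ^ 2) := by ring
  have h5 : (4 * s0 - 2 * s0 ^ 2) + (2 * r0 - 2 * r0 ^ 2) =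
      α * (4 * p1 - 2 * p1 ^ 2 + (2 * p2 - 2 * p2 ^ 2)) +
      β * (4 * m1 - 2 * m1 ^ 2 + (2 * m2 - 2 * m2 ^ 2)) +
      2 * (α * β * ((p1 - m1) ^ 2 + (p2 - m2) ^ 2)) := by
    have hβ' : β = 1 - α := by linarith
    rw [hs0, hr0, hβ']
    ring
  have h6 : 0 ≤ α * β * ((p1 - m1) ^ 2 + (p2 - m2) ^ 2) := by positivity
  have h7 := mul_le_mul_of_nonneg_left hP hα0
  have h8 := mul_le_mul_of_nonneg_left hM hβ0
  linarith

theorem wedge3 {R a : ℝ} (ha : 0 < a) (ha1 : a ≤ 1) (hR : 2 ≤ R ^ 2) (hR' : R ^ 2 ≤ 5 / 2) :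
    ENNReal.ofReal ((1 - a) / (1 + a) / 4) ≤ volume (Wd R a) + ENNReal.ofReal (lam R * mu R) := by
  -- the numbers `λ`, `μ`
  have hl1 : (1 - lam R) ^ 2 = (2 * R ^ 2 - 1) / 4 := by
    unfold lam
    have h := Real.sq_sqrt (show 0 ≤ 2 * R ^ 2 - 1 by linarith)
    have e : (1 - (1 - √(2 * R ^ 2 - 1) / 2)) ^ 2 = (√(2 * R ^ 2 - 1)) ^ 2 / 4 := by ring
    rw [e, h]
  have hl2 : 0 ≤ 1 - lam R := by
    unfold lam
    have := Real.sqrt_nonneg (2 * R ^ 2 - 1)
    linarith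
  have hm1 : (1 / 2 - mu R) ^ 2 = (R ^ 2 - 2) / 2 := by
    unfold mu
    have h := Real.sq_sqrt (show 0 ≤ (R ^ 2 - 2) / 2 by linarith)
    have e : (1 / 2 - (1 / 2 - √((R ^ 2 - 2) / 2))) ^ 2 = (√((R ^ 2 - 2) / 2)) ^ 2 := by ring
    rw [e, h]
  have hm2 : 0 ≤ 1 / 2 - mu R := by
    unfold mu
    have := Real.sqrt_nonneg ((R ^ 2 - 2) / 2)
    linarith
  have hD : 0 ≤ 5 / 2 - R ^ 2 := by linarith
  obtain ⟨hφ, hl0⟩ := w3_aux1 (D := 5 / 2 - R ^ 2) (by rw [hl1]; ring) hl2 hD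
  obtain ⟨hψ, hm0⟩ := w3_aux2 (D := 5 / 2 - R ^ 2) (by rw [hm1]; ring) hm2 hD
  have hvol : volume (triS (3 / 2, 1 / 2) (-lam R, -lam R) (-mu R, mu R)) =
      ENNReal.ofReal (lam R * mu R) := by
    rw [volume_triS]
    congr 1
    have : cr (-lam R, -lam R) (-mu R, mu R) = -(2 * (lam R * mu R)) := by
      unfold cr
      ring
    rw [this, abs_neg, abs_of_nonneg (by positivity)]
    ring
  have h := wedge_main (R := R) (g := 1)
    (U := triS (3 / 2, 1 / 2) (-lam R, -lam R) (-mu R, mu R)) ha ha1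
    zero_le_one fun z hz hd => by
      obtain ⟨s, r, hs, hr, hsr, hz1, hz2, hz3⟩ := tri0_coord' ha ha1 hz
      rw [hz3] at hd
      obtain ⟨hlpos, hmpos, hle⟩ := w3_aux3 hs hr hsr hφ hψ hl0 (by linarith) hm0
        (by linarith) (by linarith)
      refine mem_triS_vertex hz1 hz2 (s / lam R) (r / mu R) (by positivity) (by positivity)
        hle ?_ ?_
      · field_simp
        ring
      · field_simp
  rw [hvol, one_pow, one_mul] at h
  exact h

theorem wedge4 {R a : ℝ} (ha : 0 < a) (ha1 : a ≤ 1) (hR : 2 ≤ R ^ 2) :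
    ENNReal.ofReal ((1 - a) / (1 + a) / 4) ≤ volume (Wd R a) + ENNReal.ofReal 0.0522 := by
  set T3 := triS (3 / 2, 1 / 2) (-(134 / 1000), -(134 / 1000)) (-(28 / 100), 20 / 100) with hT3
  set T4 := triS (3 / 2, 1 / 2) (-(28 / 100), 20 / 100) (-(1 / 2), 1 / 2) with hT4
  have hv3 : volume T3 = ENNReal.ofReal 0.03216 := by
    rw [hT3, volume_triS]
    congr 1
    unfold cr
    norm_num
  have hv4 : volume T4 = ENNReal.ofReal 0.02 := by
    rw [hT4, volume_triS]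
    congr 1
    unfold cr
    norm_num
  have h := wedge_main (R := R) (g := 1) (U := T3 ∪ T4) ha ha1 zero_le_one fun z hz hd => by
      obtain ⟨s, r, hs, hr, hsr, hz1, hz2, hz3⟩ := tri0_coord' ha ha1 hz
      rw [hz3] at hd
      have hd' : (4 * s - 2 * s ^ 2) + (2 * r - 2 * r ^ 2) < 1 / 2 := by linarith
      rcases le_total r (6 * s) with h6 | h6
      · left
        refine mem_triS_vertex hz1 hz2 ((s - r / 6) / (134 / 1000)) (r / (24 / 100))
          (div_nonneg (by linarith) (by norm_num)) (by positivity) ?_ (by ring) (by ring)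
        by_contra hc
        push Not at hc
        set A := (s - r / 6) / (134 / 1000) with hA
        set B := r / (24 / 100) with hB
        have hA0 : 0 ≤ A := div_nonneg (by linarith) (by norm_num)
        have hB0 : 0 ≤ B := by positivity
        have hr' : r = 24 / 100 * B := by rw [hB]; ring
        have hs' : s = 134 / 1000 * A + 4 / 100 * B := by
          rw [hA, hB]; ring
        have := w4_aux (p1 := 134 / 1000) (p2 := 0) (m1 := 4 / 100) (m2 := 24 / 100)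
          hA0 hB0 hc.le (by rw [hs']; ring) (by rw [hr']; ring) (by norm_num) (by norm_num)
          (by norm_num) (by norm_num) hsr (by norm_num) (by norm_num)
        linarith
      · right
        refine mem_triS_vertex hz1 hz2 (s / (4 / 100)) ((r - 6 * s) * 2)
          (by positivity) (mul_nonneg (by linarith) (by norm_num)) ?_ (by ring) (by ring)
        by_contra hc
        push Not at hc
        set A := s / (4 / 100) with hA
        set B := (r - 6 * s) * 2 with hB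
        have hA0 : 0 ≤ A := by positivity
        have hB0 : 0 ≤ B := mul_nonneg (by linarith) (by norm_num)
        have hs' : s = 4 / 100 * A := by rw [hA]; ring
        have hr' : r = 24 / 100 * A + 1 / 2 * B := by
          rw [hA, hB]; ring
        have := w4_aux (p1 := 4 / 100) (p2 := 24 / 100) (m1 := 0) (m2 := 1 / 2)
          hA0 hB0 hc.le (by rw [hs']; ring) (by rw [hr']; ring) (by norm_num) (by norm_num)
          (by norm_num) (by norm_num) hsr (by norm_num) (by norm_num)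
        linarith
  rw [one_pow, one_mul] at h
  refine h.trans (add_le_add le_rfl ((measure_union_le _ _).trans ?_))
  rw [hv3, hv4, ← ENNReal.ofReal_add (by norm_num) (by norm_num)]
  exact ENNReal.ofReal_le_ofReal (by norm_num)

end Pool.Agent.H16.Cef
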