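import Pool.Agent.H16.Cef.FDeriv
import Pool.Agent.H16.Cef.AtanNum
import Pool.Agent.H16.Cef.Wedge

/-!
Module BONUS. The range `2 ≤ R² ≤ 5/2`, i.e. `0 ≤ k ≤ √1.5 - 1 = 0.22474…` with `R² = k² + 2k + 2`.

`F` is increasing on `[0, 0.2248]` (its derivative is `2 (1+k)(Th k - rho k)`, `Th` decreasing,
`rho` increasing and `Th 0.2248 > rho 0.2248`), and
`lam R * mu R` (both factors `≥ 0`) is decreasing in `k`:
`2 R² - 1 = 2k²+4k+3`, `(R²-2)/2 = (k²+2k)/2`. On `[0, 0.028]` use
`F k + 0.1044 ≤ F 0.028 + 0.1044 = 4.045530`. On `[κ, κ']` use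
`F k + 2 λμ ≤ F κ' + 2 λ(κ) μ(κ)` for the intervals with end points
`0.028, 0.057, 0.091, 0.126, 0.158, 0.184, 0.205, 0.220, 0.2248`; values of `F` at the right end points
`3.966916, 3.992855, 4.014433, 4.029385, 4.038045, 4.042696, 4.044714, 4.045128`, of `2 λ μ` at the
left end points `0.078059, 0.051970, 0.030911, 0.016035, 0.007070, 0.002572, 0.000594, 0.000034`; the
sums are `≤ 4.04542`.
-/

set_option autoImplicit false

open MeasureTheory Set

namespace Pool.Agent.H16.Cef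

namespace BonusAux

/-- lower Taylor polynomial of the arctangent -/
noncomputable def TLo (x : ℝ) : ℝ :=
  x - x ^ 3 / 3 + x ^ 5 / 5 - x ^ 7 / 7 + x ^ 9 / 9 - x ^ 11 / 11

/-- upper Taylor polynomial of the arctangent -/
noncomputable def TUp (x : ℝ) : ℝ :=
  x - x ^ 3 / 3 + x ^ 5 / 5 - x ^ 7 / 7 + x ^ 9 / 9 - x ^ 11 / 11 + x ^ 13 / 13

/-- upper estimate of `F` -/
noncomputable def FUp (k s t : ℝ) : ℝ :=
  (k ^ 2 + 2 * k + 2) * (3.14159265359 / 4 - TLo (k / (2 + k))
    - TLo ((k + k ^ 2) / (2 + k + k ^ 2)) - TLo ((s - 1) / (s + 1)))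
    + (1 + k) + (1 + k / (1 + k ^ 2)) + t / 2

theorem F_le_FUp {k s t : ℝ} (hk : 0 ≤ k) (hs : 1 ≤ s) (hs2 : s ^ 2 ≤ 2 * k ^ 2 + 4 * k + 3)
    (ht : 0 ≤ t) (ht2 : 2 * k ^ 2 + 4 * k + 3 ≤ t ^ 2) : F k ≤ FUp k s t := by
  have h1 : Real.pi / 4 + TLo (k / (2 + k)) ≤ Real.arctan (1 + k) := by
    have e : ((1 + k) - 1) / ((1 + k) + 1) = k / (2 + k) := by
      congr 1 <;> ring
    rw [atan_one_add (by linarith : (0 : ℝ) < 1 + k), e]
    have := atan_ge (x := k / (2 + k)) (by positivity)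
    unfold TLo
    linarith
  have h2 : Real.pi / 4 + TLo ((k + k ^ 2) / (2 + k + k ^ 2)) ≤ Real.arctan (1 + k + k ^ 2) := by
    have e : ((1 + k + k ^ 2) - 1) / ((1 + k + k ^ 2) + 1) = (k + k ^ 2) / (2 + k + k ^ 2) := by
      congr 1 <;> ring
    rw [atan_one_add (by positivity : (0 : ℝ) < 1 + k + k ^ 2), e]
    have := atan_ge (x := (k + k ^ 2) / (2 + k + k ^ 2)) (by positivity)
    unfold TLo
    linarith
  have h3 : Real.pi / 4 + TLo ((s - 1) / (s + 1)) ≤ Real.arctan √(2 * k ^ 2 + 4 * k + 3) := by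
    have h31 : Real.arctan s ≤ Real.arctan √(2 * k ^ 2 + 4 * k + 3) :=
      Real.arctan_strictMono.monotone (Real.le_sqrt_of_sq_le hs2)
    rw [atan_one_add (by linarith : (0 : ℝ) < s)] at h31
    have := atan_ge (x := (s - 1) / (s + 1)) (div_nonneg (by linarith) (by linarith))
    unfold TLo
    linarith
  have h4 : √(2 * k ^ 2 + 4 * k + 3) ≤ t := Real.sqrt_le_iff.mpr ⟨ht, ht2⟩
  have hpi : Real.pi < 3.14159265359 := by
    have := Real.pi_lt_d20
    linarith
  have h5 : Th k ≤ 3.14159265359 / 4 - TLo (k / (2 + k))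
    - TLo ((k + k ^ 2) / (2 + k + k ^ 2)) - TLo ((s - 1) / (s + 1)) := by
    unfold Th
    linarith
  have h6 : (k ^ 2 + 2 * k + 2) * Th k ≤ (k ^ 2 + 2 * k + 2) * (3.14159265359 / 4 - TLo (k / (2 + k))
    - TLo ((k + k ^ 2) / (2 + k + k ^ 2)) - TLo ((s - 1) / (s + 1))) :=
    mul_le_mul_of_nonneg_left h5 (by positivity)
  unfold F FUp
  linarith


theorem Th_sub_rho_pos : 0 < Th 0.2248 - rho 0.2248 := by
  have h1 : Real.arctan (1 + 0.2248) ≤ Real.pi / 4 + TUp (0.2248 / 2.2248) := by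
    rw [atan_one_add (by norm_num)]
    have e : (((1 : ℝ) + 0.2248) - 1) / ((1 + 0.2248) + 1) = 0.2248 / 2.2248 := by norm_num
    rw [e]
    have := atan_le (x := 0.2248 / 2.2248) (by norm_num)
    unfold TUp
    linarith
  have h2 : Real.arctan (1 + 0.2248 + 0.2248 ^ 2) ≤ Real.pi / 4 + TUp (0.27534 / 2.27534) := by
    have h21 : Real.arctan (1 + 0.2248 + 0.2248 ^ 2) ≤ Real.arctan 1.27534 :=
      Real.arctan_strictMono.monotone (by norm_num)
    rw [atan_one_add (y := 1.27534) (by norm_num)] at h21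
    have e : ((1.27534 : ℝ) - 1) / (1.27534 + 1) = 0.27534 / 2.27534 := by norm_num
    rw [e] at h21
    have := atan_le (x := 0.27534 / 2.27534) (by norm_num)
    unfold TUp
    linarith
  have h3 : Real.arctan √(2 * 0.2248 ^ 2 + 4 * 0.2248 + 3) ≤ Real.pi / 4 + TUp (1.001 / 3.001) := by
    have h31 : Real.arctan √(2 * 0.2248 ^ 2 + 4 * 0.2248 + 3) ≤ Real.arctan 2.001 := by
      apply Real.arctan_strictMono.monotone
      exact Real.sqrt_le_iff.mpr ⟨by norm_num, by norm_num⟩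
    rw [atan_one_add (y := 2.001) (by norm_num)] at h31
    have e : ((2.001 : ℝ) - 1) / (2.001 + 1) = 1.001 / 3.001 := by norm_num
    rw [e] at h31
    have := atan_le (x := 1.001 / 3.001) (by norm_num)
    unfold TUp
    linarith
  have hpi : 3.1415 < Real.pi := by
    have := Real.pi_gt_d20
    linarith
  have h5 : TUp (0.2248 / 2.2248) ≤ 0.1008 := by
    unfold TUp
    norm_num
  have h6 : TUp (0.27534 / 2.27534) ≤ 0.1205 := by
    unfold TUp
    norm_num
  have h7 : TUp (1.001 / 3.001) ≤ 0.3221 := by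
    unfold TUp
    norm_num
  have h8 : rho 0.2248 ≤ 0.2192 := by
    unfold rho
    norm_num
  have h9 : 0.2419 < Th 0.2248 := by
    unfold Th
    linarith
  linarith

theorem F_mono {x y : ℝ} (hx : 0 ≤ x) (hxy : x ≤ y) (hy : y ≤ 0.2248) : F x ≤ F y := by
  have hcont : ContinuousOn F (Icc 0 0.2248) := fun k hk =>
    (hasDerivAt_F hk.1).continuousAt.continuousWithinAt
  have hmono : MonotoneOn F (Icc 0 0.2248) := by
    refine monotoneOn_of_deriv_nonneg (convex_Icc _ _) hcont ?_ ?_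
    · intro k hk
      rw [interior_Icc] at hk
      exact (hasDerivAt_F hk.1.le).differentiableAt.differentiableWithinAt
    · intro k hk
      rw [interior_Icc] at hk
      rw [(hasDerivAt_F hk.1.le).deriv]
      have h1 : Th 0.2248 < Th k := Th_anti hk.1.le hk.2
      have h2 : rho k < rho 0.2248 := rho_mono hk.1.le hk.2 (by norm_num)
      have h3 := Th_sub_rho_pos
      have h4 : 0 ≤ 1 + k := by linarith [hk.1]
      have h5 : 0 ≤ Th k - rho k := by linarith
      positivity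
  exact hmono ⟨hx, hxy.trans hy⟩ ⟨hx.trans hxy, hy⟩ hxy

theorem step {R k a b : ℝ} (s t u v B : ℝ) (ha : 0 ≤ a) (hak : a ≤ k) (hkb : k ≤ b) (hb : b ≤ 0.2248)
    (hR : R ^ 2 = k ^ 2 + 2 * k + 2) (hR' : R ^ 2 ≤ 5 / 2)
    (hs : 1 ≤ s) (hs2 : s ^ 2 ≤ 2 * b ^ 2 + 4 * b + 3)
    (ht : 0 ≤ t) (ht2 : 2 * b ^ 2 + 4 * b + 3 ≤ t ^ 2)
    (hu2 : u ^ 2 ≤ 2 * a ^ 2 + 4 * a + 3) (hv2 : v ^ 2 ≤ (a ^ 2 + 2 * a) / 2)
    (hB : FUp b s t ≤ B) (hsum : B + 2 * ((1 - u / 2) * (1 / 2 - v)) < 4.0456) :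
    F k + 2 * (lam R * mu R) < 4.0456 := by
  have h1 : F k ≤ B := (F_mono (ha.trans hak) hkb hb).trans
    ((F_le_FUp (ha.trans (hak.trans hkb)) hs hs2 ht ht2).trans hB)
  have hlam : lam R ≤ 1 - u / 2 := by
    unfold lam
    have : u ≤ √(2 * R ^ 2 - 1) := Real.le_sqrt_of_sq_le (by rw [hR]; nlinarith)
    linarith
  have hmu : mu R ≤ 1 / 2 - v := by
    unfold mu
    have : v ≤ √((R ^ 2 - 2) / 2) := Real.le_sqrt_of_sq_le (by rw [hR]; nlinarith)
    linarith
  have hmu0 : 0 ≤ mu R := by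
    unfold mu
    have : √((R ^ 2 - 2) / 2) ≤ 1 / 2 := Real.sqrt_le_iff.mpr ⟨by norm_num, by linarith⟩
    linarith
  have hlam0 : 0 ≤ lam R := by
    unfold lam
    have : √(2 * R ^ 2 - 1) ≤ 2 := Real.sqrt_le_iff.mpr ⟨by norm_num, by linarith⟩
    linarith
  have h2 : lam R * mu R ≤ (1 - u / 2) * (1 / 2 - v) :=
    mul_le_mul hlam hmu hmu0 (hlam0.trans hlam)
  linarith

end BonusAux

open BonusAux in
theorem bonus {R k : ℝ} (hk : 0 ≤ k) (hR : R ^ 2 = k ^ 2 + 2 * k + 2) (hR' : R ^ 2 ≤ 5 / 2) :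
    F k + 0.1044 < 4.0456 ∨ F k + 2 * (lam R * mu R) < 4.0456 := by
  have hkb : k ≤ 0.2248 := by
    by_contra hcon
    have hcon' : 0.2248 < k := lt_of_not_ge hcon
    nlinarith

  rcases le_or_gt k 0.028 with h0 | h0
  · left
    have h1 : F k ≤ F 0.028 := F_mono hk h0 (by norm_num)
    have h2 : F 0.028 ≤ FUp 0.028 1.764530 1.764531 :=
      F_le_FUp (by norm_num) (by norm_num) (by norm_num) (by norm_num) (by norm_num)
    have h3 : FUp 0.028 1.764530 1.764531 ≤ 3.941130 := by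
      unfold FUp TLo
      norm_num
    linarith
  right
  rcases le_or_gt k 0.057 with h1 | h1
  · exact step (a := 0.028) (b := 0.057) 1.798471 1.798472 1.764530 0.168499 3.966917 (by norm_num) h0.le h1 (by norm_num) hR hR'
      (by norm_num) (by norm_num) (by norm_num) (by norm_num) (by norm_num) (by norm_num)
      (by unfold FUp TLo; norm_num) (by norm_num)
  rcases le_or_gt k 0.091 with h2 | h2
  · exact step (a := 0.057) (b := 0.091) 1.838630 1.838631 1.798471 0.242124 3.992856 (by norm_num) h1.le h2 (by norm_num) hR hR'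
      (by norm_num) (by norm_num) (by norm_num) (by norm_num) (by norm_num) (by norm_num)
      (by unfold FUp TLo; norm_num) (by norm_num)
  rcases le_or_gt k 0.126 with h3 | h3
  · exact step (a := 0.091) (b := 0.126) 1.880359 1.880360 1.838630 0.308448 4.014434 (by norm_num) h2.le h3 (by norm_num) hR hR'
      (by norm_num) (by norm_num) (by norm_num) (by norm_num) (by norm_num) (by norm_num)
      (by unfold FUp TLo; norm_num) (by norm_num)
  rcases le_or_gt k 0.158 with h4 | h4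
  · exact step (a := 0.126) (b := 0.158) 1.918835 1.918836 1.880359 0.365975 4.029385 (by norm_num) h3.le h4 (by norm_num) hR hR'
      (by norm_num) (by norm_num) (by norm_num) (by norm_num) (by norm_num) (by norm_num)
      (by unfold FUp TLo; norm_num) (by norm_num)
  rcases le_or_gt k 0.184 with h5 | h5
  · exact step (a := 0.158) (b := 0.184) 1.950310 1.950311 1.918835 0.412894 4.038045 (by norm_num) h4.le h5 (by norm_num) hR hR'
      (by norm_num) (by norm_num) (by norm_num) (by norm_num) (by norm_num) (by norm_num)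
      (by unfold FUp TLo; norm_num) (by norm_num)
  rcases le_or_gt k 0.205 with h6 | h6
  · exact step (a := 0.184) (b := 0.205) 1.975866 1.975867 1.950310 0.448249 4.042697 (by norm_num) h5.le h6 (by norm_num) hR hR'
      (by norm_num) (by norm_num) (by norm_num) (by norm_num) (by norm_num) (by norm_num)
      (by unfold FUp TLo; norm_num) (by norm_num)
  rcases le_or_gt k 0.220 with h7 | h7
  · exact step (a := 0.205) (b := 0.220) 1.994191 1.994192 1.975866 0.475407 4.044715 (by norm_num) h6.le h7 (by norm_num) hR hR'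
      (by norm_num) (by norm_num) (by norm_num) (by norm_num) (by norm_num) (by norm_num)
      (by unfold FUp TLo; norm_num) (by norm_num)
  exact step (a := 0.220) (b := 0.2248) 2.000067 2.000068 1.994191 0.494165 4.045129 (by norm_num) h7.le hkb (by norm_num) hR hR'
      (by norm_num) (by norm_num) (by norm_num) (by norm_num) (by norm_num) (by norm_num)
      (by unfold FUp TLo; norm_num) (by norm_num)

end Pool.Agent.H16.Cef
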