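import Pool.Agent.H16.Cef.Defs

/-!
Module CAPDERIV. `Cap R` is decreasing in `d` with derivative `-2 √(R² - d²)`.

`HasDerivAt (Cap R) (-2 √(R² - d²)) d` for `0 < d < R`: with `e = √(R² - d²)`, `e' = -d/e`,
`(arctan (e/d))' = -1/e`. `Cap R` is continuous on `(0, R]`. The bounds follow from the mean value
theorem (`√(R² - x²)` is between `√(R² - b²)` and `√(R² - a²)` for `x ∈ [a, b]`), or by monotonicity
of `x ↦ Cap R x + 2 x √(R² - b²)` etc.
-/

set_option autoImplicit false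

open MeasureTheory Set

namespace Pool.Agent.H16.Cef

theorem hasDerivAt_Cap {R d : ℝ} (hd : 0 < d) (hR : d < R) :
    HasDerivAt (Cap R) (-2 * √(R ^ 2 - d ^ 2)) d := by
  have hpos : 0 < R ^ 2 - d ^ 2 := by nlinarith
  set e := √(R ^ 2 - d ^ 2) with he
  have he0 : 0 < e := Real.sqrt_pos.2 hpos
  have hesq : e ^ 2 = R ^ 2 - d ^ 2 := Real.sq_sqrt hpos.le
  have h1 : HasDerivAt (fun x : ℝ => √(R ^ 2 - x ^ 2)) (-d / e) d := by
    have h2 : HasDerivAt (fun x : ℝ => R ^ 2 - x ^ 2) (-((2 : ℕ) * d ^ (2 - 1))) d :=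
      (hasDerivAt_pow 2 d).const_sub (R ^ 2)
    have h3 := h2.sqrt hpos.ne'
    convert h3 using 1
    rw [← he]
    push_cast
    field_simp
  have h2 : HasDerivAt (fun x : ℝ => √(R ^ 2 - x ^ 2) / x) (((-d / e) * d - e * 1) / d ^ 2) d :=
    h1.div (hasDerivAt_id d) hd.ne'
  have h3 := h2.arctan
  have h4 := (h3.const_mul (R ^ 2)).sub ((hasDerivAt_id d).mul h1)
  have h5 : HasDerivAt (Cap R) (R ^ 2 * (1 / (1 + (e / d) ^ 2) * (((-d / e) * d - e * 1) / d ^ 2))
      - (1 * e + d * (-d / e))) d := h4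
  convert h5 using 1
  have hR2 : R ^ 2 = e ^ 2 + d ^ 2 := by linarith
  rw [hR2]
  have : (e ^ 2 + d ^ 2) ≠ 0 := by positivity
  field_simp
  ring

theorem Cap_cont {R a b : ℝ} (ha : 0 < a) : ContinuousOn (Cap R) (Icc a b) := by
  unfold Cap
  apply ContinuousOn.sub
  · apply ContinuousOn.mul continuousOn_const
    apply Real.continuous_arctan.comp_continuousOn
    apply ContinuousOn.div
    · fun_prop
    · fun_prop
    · intro x hx
      exact (ha.trans_le hx.1).ne'
  · fun_prop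

theorem Cap_sub_ge {R a b : ℝ} (ha : 0 < a) (hab : a ≤ b) (hb : b ≤ R) :
    2 * (b - a) * √(R ^ 2 - b ^ 2) ≤ Cap R a - Cap R b := by
  have h1 : AntitoneOn (fun x => Cap R x + x * (2 * √(R ^ 2 - b ^ 2))) (Icc a b) := by
    apply antitoneOn_of_hasDerivWithinAt_nonpos (convex_Icc a b)
      (f' := fun x => -2 * √(R ^ 2 - x ^ 2) + 1 * (2 * √(R ^ 2 - b ^ 2)))
    · exact (Cap_cont ha).add (by fun_prop)
    · intro x hx
      rw [interior_Icc] at hx
      exact ((hasDerivAt_Cap (ha.trans hx.1) (hx.2.trans_le hb)).add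
        ((hasDerivAt_id x).mul_const _)).hasDerivWithinAt
    · intro x hx
      rw [interior_Icc] at hx
      have : √(R ^ 2 - b ^ 2) ≤ √(R ^ 2 - x ^ 2) := by
        apply Real.sqrt_le_sqrt
        nlinarith [hx.1, hx.2]
      linarith
  have := h1 (left_mem_Icc.2 hab) (right_mem_Icc.2 hab) hab
  simp only at this
  linarith

theorem Cap_sub_le {R a b : ℝ} (ha : 0 < a) (hab : a ≤ b) (hb : b ≤ R) :
    Cap R a - Cap R b ≤ 2 * (b - a) * √(R ^ 2 - a ^ 2) := by
  have h1 : MonotoneOn (fun x => Cap R x + x * (2 * √(R ^ 2 - a ^ 2))) (Icc a b) := by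
    apply monotoneOn_of_hasDerivWithinAt_nonneg (convex_Icc a b)
      (f' := fun x => -2 * √(R ^ 2 - x ^ 2) + 1 * (2 * √(R ^ 2 - a ^ 2)))
    · exact (Cap_cont ha).add (by fun_prop)
    · intro x hx
      rw [interior_Icc] at hx
      exact ((hasDerivAt_Cap (ha.trans hx.1) (hx.2.trans_le hb)).add
        ((hasDerivAt_id x).mul_const _)).hasDerivWithinAt
    · intro x hx
      rw [interior_Icc] at hx
      have : √(R ^ 2 - x ^ 2) ≤ √(R ^ 2 - a ^ 2) := by
        apply Real.sqrt_le_sqrt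
        nlinarith [hx.1, hx.2]
      linarith
  have := h1 (left_mem_Icc.2 hab) (right_mem_Icc.2 hab) hab
  simp only at this
  linarith

end Pool.Agent.H16.Cef
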