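import Pool.Agent.H16.Cef.CapDeriv

/-!
Module CAPINEQ. The inequality for contact points `(-x, y)` with `x > 1`.

`R² = x² + y²`, `1 < x < y`, `k = √(R² - 1) - 1`, `h = k + 1`; `y < h`. `R² ≤ 10/3` gives
`(k+1)² ≤ 7/3`, `k ≤ 0.5276`, so `k² (1 + k + k²) < 1`. Put `κ = (x-1)/(y-1) ∈ (0,1)`,
`t₀ = (y-1)/x`, `δ = (1-κ)/√(1+κ²) ≤ 1 - κ`.
`Cap R δ - Cap R 1 ≥ 2 (1 - δ) √(R²-1) ≥ 2 h κ ≥ 2 h (x-1)/k` (`y - 1 < k`).
`Cap R (1/√(1+k²)) - Cap R (1/√(1+t₀²)) ≤ 2 (1/√(1+t₀²) - 1/√(1+k²)) √(R² - 1/(1+k²))`;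
`t₀ ≤ k`; `√(R² - 1/(1+k²)) = (1+k+k²)/√(1+k²) ≤ 1+k+k²`;
`1/√(1+t₀²) - 1/√(1+k²) ≤ (k² - t₀²)/2 ≤ k (k - t₀)`, and
`k - t₀ = ((x-1) k + (h - y))/x`, `h - y = (x²-1)/(h+y) ≤ x - 1` (`h + y ≥ 2 y > 2x ≥ x + 1`), so
`k - t₀ ≤ (x-1)(k+1) = (x - 1) h`. So the second difference is `≤ 2 k (1+k+k²) (x-1) h <
2 h (x-1)/k`.
The general statement for `g ≥ κ` and `t ≥ t₀` follows because `(1-g)/√(1+g²)` is decreasing in
`g ∈ [0,1)`, `1/√(1+t²)` is decreasing in `t` and `Cap R` is decreasing (`Cap_sub_ge`).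
-/

set_option autoImplicit false

open MeasureTheory Set

namespace Pool.Agent.H16.Cef

theorem cap_ineq {R x y k g t : ℝ} (hR0 : 0 < R) (hR : R ^ 2 = x ^ 2 + y ^ 2) (hR' : R ^ 2 ≤ 10 / 3)
    (hx : 1 < x) (hxy : x < y) (hk : k = √(R ^ 2 - 1) - 1) (hg : (x - 1) / (y - 1) ≤ g)
    (hg1 : g < 1) (ht : (y - 1) / x ≤ t) :
    Cap R 1 + Cap R (1 / √(1 + k ^ 2)) <
      Cap R ((1 - g) / √(1 + g ^ 2)) + Cap R (1 / √(1 + t ^ 2)) := by
  have hy : 1 < y := hx.trans hxy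
  have hR1 : 1 ≤ R := by nlinarith
  -- `h = √(R² - 1)`
  obtain ⟨h, hh⟩ : ∃ h, h = √(R ^ 2 - 1) := ⟨_, rfl⟩
  have hh0 : 0 ≤ h := hh ▸ Real.sqrt_nonneg _
  have hh2 : h ^ 2 = R ^ 2 - 1 := by
    rw [hh]; exact Real.sq_sqrt (by nlinarith)
  have hyh : y < h := by nlinarith
  have hkh : k = h - 1 := by rw [hk, ← hh]
  have hk0 : 0 < k := by linarith
  have hk1 : k ≤ 0.53 := by nlinarith
  have hkk : k ^ 2 * (1 + k + k ^ 2) < 1 := by
    have h1 : k ^ 2 ≤ 0.53 ^ 2 := by nlinarith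
    have h2 : 1 + k + k ^ 2 ≤ 1 + 0.53 + 0.53 ^ 2 := by linarith
    calc k ^ 2 * (1 + k + k ^ 2) ≤ 0.53 ^ 2 * (1 + 0.53 + 0.53 ^ 2) := by
          apply mul_le_mul h1 h2 (by positivity) (by positivity)
      _ < 1 := by norm_num
  have hg0 : 0 < g := lt_of_lt_of_le (div_pos (by linarith) (by linarith)) hg
  have hA1 : 1 ≤ √(1 + g ^ 2) := by
    rw [Real.one_le_sqrt]; nlinarith
  have hδ0 : 0 < (1 - g) / √(1 + g ^ 2) := div_pos (by linarith) (by linarith)
  have hδ1 : (1 - g) / √(1 + g ^ 2) ≤ 1 - g := div_le_self (by linarith) hA1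
  -- first difference
  have hd1 : 2 * h * ((x - 1) / k) ≤ Cap R ((1 - g) / √(1 + g ^ 2)) - Cap R 1 := by
    have e1 := Cap_sub_ge hδ0 (by linarith : (1 - g) / √(1 + g ^ 2) ≤ 1) hR1
    have e2 : √(R ^ 2 - 1 ^ 2) = h := by rw [hh]; norm_num
    rw [e2] at e1
    have e3 : (x - 1) / k ≤ (x - 1) / (y - 1) := by
      apply div_le_div_of_nonneg_left (by linarith) (by linarith) (by linarith)
    have e4 : (x - 1) / k ≤ 1 - (1 - g) / √(1 + g ^ 2) := by linarith
    have e5 := mul_le_mul_of_nonneg_right e4 hh0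
    linarith
  -- second difference
  have hB1 : 1 ≤ √(1 + k ^ 2) := by
    rw [Real.one_le_sqrt]; nlinarith
  have hB2 : √(1 + k ^ 2) ^ 2 = 1 + k ^ 2 := Real.sq_sqrt (by positivity)
  have ht0 : 0 < t := lt_of_lt_of_le (div_pos (by linarith) (by linarith)) ht
  have hC1 : 1 ≤ √(1 + t ^ 2) := by
    rw [Real.one_le_sqrt]; nlinarith
  have hC2 : √(1 + t ^ 2) ^ 2 = 1 + t ^ 2 := Real.sq_sqrt (by positivity)
  have hinvB : 0 < 1 / √(1 + k ^ 2) := by positivity
  have hinvC : 0 < 1 / √(1 + t ^ 2) := by positivity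
  have hinvB1 : 1 / √(1 + k ^ 2) ≤ 1 := by
    rw [div_le_one (by linarith)]; exact hB1
  have hinvC1 : 1 / √(1 + t ^ 2) ≤ 1 := by
    rw [div_le_one (by linarith)]; exact hC1
  have hd2 : Cap R (1 / √(1 + k ^ 2)) - Cap R (1 / √(1 + t ^ 2)) ≤
      2 * (k * (1 + k + k ^ 2)) * ((x - 1) * h) := by
    rcases le_or_gt k t with hkt | hkt
    · -- decreasing
      have e0 : 1 / √(1 + t ^ 2) ≤ 1 / √(1 + k ^ 2) := by
        apply one_div_le_one_div_of_le (by linarith)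
        apply Real.sqrt_le_sqrt
        have := pow_le_pow_left₀ hk0.le hkt 2
        linarith
      have e1 := Cap_sub_ge hinvC e0 (by linarith : 1 / √(1 + k ^ 2) ≤ R)
      have e2 : 0 ≤ 2 * (1 / √(1 + k ^ 2) - 1 / √(1 + t ^ 2)) *
          √(R ^ 2 - (1 / √(1 + k ^ 2)) ^ 2) :=
        mul_nonneg (by linarith) (Real.sqrt_nonneg _)
      have e3 : 0 ≤ 2 * (k * (1 + k + k ^ 2)) * ((x - 1) * h) := by
        apply mul_nonneg (by positivity)
        apply mul_nonneg (by linarith) hh0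
      linarith
    · have htk2 := pow_le_pow_left₀ ht0.le hkt.le 2
      have e0 : 1 / √(1 + k ^ 2) ≤ 1 / √(1 + t ^ 2) := by
        apply one_div_le_one_div_of_le (by linarith)
        apply Real.sqrt_le_sqrt
        linarith
      have e1 := Cap_sub_le hinvB e0 (by linarith : 1 / √(1 + t ^ 2) ≤ R)
      have e2 : √(R ^ 2 - (1 / √(1 + k ^ 2)) ^ 2) ≤ 1 + k + k ^ 2 := by
        rw [Real.sqrt_le_left (by positivity)]
        rw [div_pow, hB2]
        have hR2 : R ^ 2 = (k + 1) ^ 2 + 1 := by rw [hkh]; linarith [hh2, (by ring : (h - 1 + 1) ^ 2 = h ^ 2)]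
        have e21 : R ^ 2 - 1 ^ 2 / (1 + k ^ 2) = (1 + k + k ^ 2) ^ 2 / (1 + k ^ 2) := by
          rw [hR2]; field_simp; ring
        rw [e21]
        apply div_le_self (by positivity)
        linarith [sq_nonneg k]
      have e3 : 1 / √(1 + t ^ 2) - 1 / √(1 + k ^ 2) ≤ k * (k - t) := by
        have e31 : 1 / √(1 + t ^ 2) - 1 / √(1 + k ^ 2) =
            (√(1 + k ^ 2) - √(1 + t ^ 2)) / (√(1 + t ^ 2) * √(1 + k ^ 2)) := by
          field_simp
        have hBC : √(1 + t ^ 2) ≤ √(1 + k ^ 2) := by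
          apply Real.sqrt_le_sqrt
          linarith
        have e32 : (√(1 + k ^ 2) - √(1 + t ^ 2)) / (√(1 + t ^ 2) * √(1 + k ^ 2)) ≤
            √(1 + k ^ 2) - √(1 + t ^ 2) := by
          apply div_le_self (by linarith)
          exact one_le_mul_of_one_le_of_one_le hC1 hB1
        have e33 : 2 * (√(1 + k ^ 2) - √(1 + t ^ 2)) ≤ k ^ 2 - t ^ 2 := by
          have : (√(1 + k ^ 2) - √(1 + t ^ 2)) * (√(1 + k ^ 2) + √(1 + t ^ 2)) = k ^ 2 - t ^ 2 := by
            have : (√(1 + k ^ 2) - √(1 + t ^ 2)) * (√(1 + k ^ 2) + √(1 + t ^ 2)) =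
              √(1 + k ^ 2) ^ 2 - √(1 + t ^ 2) ^ 2 := by ring
            rw [this, hB2, hC2]; ring
          have h2 := mul_le_mul_of_nonneg_left (by linarith : 2 ≤ √(1 + k ^ 2) + √(1 + t ^ 2))
            (by linarith : 0 ≤ √(1 + k ^ 2) - √(1 + t ^ 2))
          linarith
        have e34 : k ^ 2 - t ^ 2 ≤ 2 * (k * (k - t)) := by linarith [sq_nonneg (k - t)]
        rw [e31]
        linarith
      have e4 : k - t ≤ (x - 1) * h := by
        have e41 : h - y ≤ x - 1 := by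
          have : (h - y) * (h + y) = (x - 1) * (x + 1) := by
            have e : (h - y) * (h + y) = h ^ 2 - y ^ 2 := by ring
            rw [e, hh2, hR]; ring
          by_contra hcon
          push Not at hcon
          have h1 : (x - 1) * (x + 1) < (h - y) * (h + y) := by
            apply mul_lt_mul hcon (by linarith) (by linarith) (by linarith)
          linarith
        have e42 : k - (y - 1) / x ≤ (x - 1) * h := by
          have : k - (y - 1) / x = ((x - 1) * k + (h - y)) / x := by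
            rw [hkh]; field_simp; ring
          rw [this]
          have h2 : (x - 1) * k + (h - y) ≤ (x - 1) * h := by
            have e : (x - 1) * k = (x - 1) * h - (x - 1) := by rw [hkh]; ring
            rw [e]; linarith
          have h3 : 0 ≤ (x - 1) * k + (h - y) := by
            have := mul_nonneg (by linarith : (0:ℝ) ≤ x - 1) hk0.le
            linarith
          exact (div_le_self h3 hx.le).trans h2
        linarith
      have e5 : 1 / √(1 + t ^ 2) - 1 / √(1 + k ^ 2) ≤ k * ((x - 1) * h) :=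
        e3.trans (mul_le_mul_of_nonneg_left e4 hk0.le)
      have e6 : 2 * (1 / √(1 + t ^ 2) - 1 / √(1 + k ^ 2)) * √(R ^ 2 - (1 / √(1 + k ^ 2)) ^ 2) ≤
          2 * (k * ((x - 1) * h)) * (1 + k + k ^ 2) := by
        apply mul_le_mul (by linarith) e2 (Real.sqrt_nonneg _)
        have := mul_nonneg hk0.le (mul_nonneg (by linarith : (0:ℝ) ≤ x - 1) hh0)
        linarith
      calc _ ≤ _ := e1
        _ ≤ _ := e6
        _ = _ := by ring
  have hfin : 2 * (k * (1 + k + k ^ 2)) * ((x - 1) * h) < 2 * h * ((x - 1) / k) := by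
    have e1 : 2 * h * ((x - 1) / k) = 2 * (1 / k) * ((x - 1) * h) := by field_simp
    rw [e1]
    apply mul_lt_mul_of_pos_right _ (mul_pos (by linarith) (by linarith))
    have : k * (1 + k + k ^ 2) < 1 / k := by
      rw [lt_div_iff₀ hk0]
      calc _ = k ^ 2 * (1 + k + k ^ 2) := by ring
        _ < 1 := hkk
    linarith
  linarith

end Pool.Agent.H16.Cef
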