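import Pool.Agent.H16.Cef.CapDeriv

/-!
Module CAPVOL. Areas of the disk and of its caps.

1. `volume {z | z.1² + z.2² ≤ R² ∧ d < z.1} = Cap R d` for `0 < d ≤ R`: region between the graphs of
   `∓ √(R² - x²)` over `(d, R]` (`volume_regionBetween_eq_integral`, up to a null set, or Fubini),
   the integral `∫ x in d..R, 2 √(R² - x²) = Cap R d - Cap R R = Cap R d` by `hasDerivAt_Cap`
   (`intervalIntegral.integral_eq_sub_of_hasDerivAt_of_le` or a version allowing the end point; `Cap R`
   is continuous on `[d, R]`, `Cap R R = 0`).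
2. general `n ≠ 0`, `D = √(nsq n)`: the rotation `z ↦ (dt n z / D, cr n z / D)` preserves area
   (linear map of determinant 1) and maps `capS R n` onto the set of 1. with `d = 1 / D`.
3. the disk: from `EuclideanSpace.volume_ball`/`Complex.volume_closedBall` and a measure preserving
   identification, or as in 1. with `d = -R`.
-/

set_option autoImplicit false

open MeasureTheory Set

namespace Pool.Agent.H16.Cef

theorem volume_disk {R : ℝ} (hR : 0 ≤ R) : volume (disk R) = ENNReal.ofReal (Real.pi * R ^ 2) := by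
  have hmp := Complex.volume_preserving_equiv_real_prod
  have h := hmp.measure_preimage_equiv (disk R)
  rw [← h]
  have e : Complex.measurableEquivRealProd ⁻¹' (disk R) = Metric.closedBall (0 : ℂ) R := by
    ext z
    simp only [mem_preimage, mem_closedBall_zero_iff, disk, nsq, mem_ofPred_eq,
      Complex.measurableEquivRealProd_apply]
    rw [← abs_of_nonneg (norm_nonneg z), ← sq_le_sq₀ (abs_nonneg _) hR, sq_abs,
      Complex.sq_norm, Complex.normSq_apply]
    constructor <;> intro h <;> nlinarith
  rw [e, Complex.volume_closedBall, ENNReal.ofReal_mul Real.pi_pos.le, mul_comm,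
    ENNReal.ofReal_pow hR]
  congr 1
  rw [ENNReal.ofReal, Real.toNNReal_of_nonneg Real.pi_pos.le]
  rfl

theorem measurableSet_capS (R : ℝ) (n : ℝ × ℝ) : MeasurableSet (capS R n) := by
  have h1 : IsClosed {z : ℝ × ℝ | nsq z ≤ R ^ 2} :=
    isClosed_le (by unfold nsq; fun_prop) continuous_const
  have h2 : IsOpen {z : ℝ × ℝ | 1 < dt n z} :=
    isOpen_lt continuous_const (by unfold dt; fun_prop)
  exact h1.measurableSet.inter h2.measurableSet

/-- the cap in standard position -/
def cap0 (R d : ℝ) : Set (ℝ × ℝ) := {z | nsq z ≤ R ^ 2 ∧ d < z.1}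

theorem measurableSet_cap0 (R d : ℝ) : MeasurableSet (cap0 R d) := by
  have h1 : IsClosed {z : ℝ × ℝ | nsq z ≤ R ^ 2} :=
    isClosed_le (by unfold nsq; fun_prop) continuous_const
  have h2 : IsOpen {z : ℝ × ℝ | d < z.1} :=
    isOpen_lt continuous_const (by fun_prop)
  exact h1.measurableSet.inter h2.measurableSet

theorem continuousOn_Cap {R d : ℝ} (hd : 0 < d) : ContinuousOn (Cap R) (Icc d R) := by
  unfold Cap
  refine ContinuousOn.sub (ContinuousOn.mul continuousOn_const ?_) ?_
  · refine Real.continuous_arctan.comp_continuousOn (ContinuousOn.div ?_ continuousOn_id ?_)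
    · exact (Real.continuous_sqrt.comp (by fun_prop)).continuousOn
    · intro x hx
      have : 0 < x := lt_of_lt_of_le hd hx.1
      exact this.ne'
  · exact (continuous_id.mul (Real.continuous_sqrt.comp (by fun_prop))).continuousOn

theorem Cap_self (R : ℝ) : Cap R R = 0 := by
  unfold Cap
  simp

theorem integral_cap {R d : ℝ} (hd : 0 < d) (hR : d ≤ R) :
    ∫ x in d..R, 2 * √(R ^ 2 - x ^ 2) = Cap R d := by
  have h := intervalIntegral.integral_eq_sub_of_hasDerivAt_of_le hR (f := Cap R)
    (f' := fun x => -2 * √(R ^ 2 - x ^ 2)) (continuousOn_Cap hd)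
    (fun x hx => hasDerivAt_Cap (hd.trans hx.1) hx.2)
    ((by fun_prop : Continuous fun x : ℝ => -2 * √(R ^ 2 - x ^ 2)).intervalIntegrable _ _)
  rw [Cap_self] at h
  have e : (∫ x in d..R, 2 * √(R ^ 2 - x ^ 2)) = -∫ x in d..R, -2 * √(R ^ 2 - x ^ 2) := by
    rw [← intervalIntegral.integral_neg]
    congr 1
    funext x
    ring
  rw [e, h]
  ring

theorem volume_cap0 {R d : ℝ} (hd : 0 < d) (hR : d ≤ R) :
    volume (cap0 R d) = ENNReal.ofReal (Cap R d) := by
  rw [← integral_cap hd hR, Measure.volume_eq_prod, Measure.prod_apply (measurableSet_cap0 R d)]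
  have h : ∀ x : ℝ, volume (Prod.mk x ⁻¹' cap0 R d) =
      (Ioc d R).indicator (fun x => ENNReal.ofReal (2 * √(R ^ 2 - x ^ 2))) x := by
    intro x
    by_cases hx : x ∈ Ioc d R
    · rw [indicator_of_mem hx]
      have h0 : 0 ≤ R ^ 2 - x ^ 2 := by
        have : 0 < x := hd.trans hx.1
        nlinarith [hx.2]
      have e : Prod.mk x ⁻¹' cap0 R d = Icc (-√(R ^ 2 - x ^ 2)) (√(R ^ 2 - x ^ 2)) := by
        ext y
        simp only [cap0, nsq, mem_preimage, mem_ofPred_eq, mem_Icc]
        rw [← abs_le, ← Real.sqrt_sq_eq_abs, Real.sqrt_le_sqrt_iff h0]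
        constructor
        · rintro ⟨h1, h2⟩
          linarith
        · intro h1
          exact ⟨by linarith, hx.1⟩
      rw [e, Real.volume_Icc]
      congr 1
      ring
    · rw [indicator_of_notMem hx]
      have e : Prod.mk x ⁻¹' cap0 R d = ∅ := by
        rw [eq_empty_iff_forall_notMem]
        rintro y ⟨h1, h2⟩
        apply hx
        refine ⟨h2, ?_⟩
        simp only [nsq] at h1 h2
        nlinarith [sq_nonneg y]
      rw [e, measure_empty]
  simp only [h]
  rw [lintegral_indicator measurableSet_Ioc, intervalIntegral.integral_of_le hR,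
    ofReal_integral_eq_lintegral_ofReal]
  · exact (((by fun_prop : Continuous fun x : ℝ => 2 * √(R ^ 2 - x ^ 2)).intervalIntegrable
      d R).1)
  · exact Filter.Eventually.of_forall fun x => by positivity

theorem volume_capS {R : ℝ} (hR : 0 < R) {n : ℝ × ℝ} (hn : 1 ≤ R ^ 2 * nsq n) :
    volume (capS R n) = ENNReal.ofReal (Cap R (1 / √(nsq n))) := by
  have hn0 : 0 < nsq n := by
    by_contra hc
    push Not at hc
    have : R ^ 2 * nsq n ≤ 0 := mul_nonpos_of_nonneg_of_nonpos (by positivity) hc
    linarith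
  set D := √(nsq n) with hD
  have hD0 : 0 < D := Real.sqrt_pos.2 hn0
  have hDD : D ^ 2 = nsq n := Real.sq_sqrt hn0.le
  have hdR : 1 / D ≤ R := by
    rw [div_le_iff₀ hD0]
    rw [← hDD] at hn
    nlinarith [mul_pos hR hD0]
  rw [← volume_cap0 (by positivity) hdR]
  -- through the complex plane
  have hmp := Complex.volume_preserving_equiv_real_prod
  have h1 := hmp.measure_preimage_equiv (capS R n)
  have h2 := hmp.measure_preimage_equiv (cap0 R (1 / D))
  rw [← h1, ← h2]
  let c : ℂ := ⟨n.1 / D, -n.2 / D⟩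
  have hc : ‖c‖ = 1 := by
    have : ‖c‖ ^ 2 = 1 := by
      rw [Complex.sq_norm, Complex.normSq_apply]
      simp only [c]
      have : n.1 / D * (n.1 / D) + -n.2 / D * (-n.2 / D) = nsq n / D ^ 2 := by
        unfold nsq
        field_simp
      rw [this, hDD, div_self hn0.ne']
    have h0 := norm_nonneg c
    nlinarith
  let a : Circle := ⟨c, by simp [Submonoid.unitSphere, hc]⟩
  have hrot := (rotation a).measurePreserving
  have hmeas : MeasurableSet (Complex.measurableEquivRealProd ⁻¹' (cap0 R (1 / D))) :=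
    Complex.measurableEquivRealProd.measurable (measurableSet_cap0 R (1 / D))
  rw [← hrot.measure_preimage hmeas.nullMeasurableSet]
  congr 1
  ext z
  simp only [mem_preimage, capS, cap0, mem_ofPred_eq, Complex.measurableEquivRealProd_apply,
    rotation_apply, nsq, dt]
  have e1 : ((a : ℂ) * z).re = (n.1 * z.re + n.2 * z.im) / D := by
    simp only [a, c, Complex.mul_re]
    ring
  have e2 : ((a : ℂ) * z).re ^ 2 + ((a : ℂ) * z).im ^ 2 = z.re ^ 2 + z.im ^ 2 := by
    have h4 : ‖(a : ℂ) * z‖ ^ 2 = ‖z‖ ^ 2 := by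
      rw [norm_mul, show ‖(a : ℂ)‖ = 1 from hc, one_mul]
    rw [Complex.sq_norm, Complex.sq_norm, Complex.normSq_apply, Complex.normSq_apply] at h4
    linarith
  rw [e2, e1, div_lt_div_iff_of_pos_right hD0]

end Pool.Agent.H16.Cef
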