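import Pool.Agent.H16.Cef.Defs

/-!
Module CIRC. Contact points of the smallest enclosing disk.

Let `Γ = {z ∈ K : nsq z = R²}` (compact). Claim: `0 ∈ convexHull ℝ Γ`. Otherwise (`convexHull ℝ Γ` is
compact, convex) there are `c : ℝ × ℝ` and `ε > 0` with `dt c z ≥ ε` for all `z ∈ Γ`
(`geometric_hahn_banach_compact_closed` or `..._point_closed`). The compact set
`K₁ = {z ∈ K : dt c z ≤ ε/2}` is disjoint from `Γ`, so `nsq ≤ R² - η` on `K₁` for some `η > 0`. For small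
`τ > 0` and `z ∈ K`: `nsq (z - τ c) = nsq z - 2 τ dt c z + τ² nsq c`, which is `≤ R² - η'` for some
`η' > 0`, both on `K₁` (`|dt c z|` is bounded on `K`) and on `K \ K₁` (where `dt c z > ε/2`). So `K` is in a
smaller disk with centre `τ c`: contradiction. (If `Γ` is empty, `K` is in a smaller disk about `0`.)
By Caratheodory (`convexHull_eq_union` or `eq_pos_convex_span_of_mem_convexHull`; at most 3 points in
dimension 2) `0` is a positive combination of at most 3 points of `Γ`. One point: impossible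
(`R > 0`). Two points: they are antipodal. Three points: a `Trip`.
-/

set_option autoImplicit false

open MeasureTheory Set

namespace Pool.Agent.H16.Cef

namespace CircAux

theorem continuous_nsq : Continuous nsq := by unfold nsq; fun_prop

theorem continuous_dt (c : ℝ × ℝ) : Continuous (dt c) := by unfold dt; fun_prop

/-- convex combinations of three points -/
def comb (x : (ℝ × ℝ × ℝ) × ((ℝ × ℝ) × (ℝ × ℝ) × (ℝ × ℝ))) : ℝ × ℝ :=
  x.1.1 • x.2.1 + x.1.2.1 • x.2.2.1 + x.1.2.2 • x.2.2.2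

theorem continuous_comb : Continuous comb := by unfold comb; fun_prop

/-- the simplex -/
def simp3 : Set (ℝ × ℝ × ℝ) := {w | 0 ≤ w.1 ∧ 0 ≤ w.2.1 ∧ 0 ≤ w.2.2 ∧ w.1 + w.2.1 + w.2.2 = 1}

theorem isCompact_simp3 : IsCompact simp3 := by
  have hsub : simp3 ⊆ Icc (0 : ℝ) 1 ×ˢ Icc (0 : ℝ) 1 ×ˢ Icc (0 : ℝ) 1 := by
    rintro ⟨a, b, c⟩ ⟨h1, h2, h3, h4⟩
    simp only at h1 h2 h3 h4
    simp only [mem_prod, mem_Icc]
    refine ⟨⟨h1, by linarith⟩, ⟨h2, by linarith⟩, ⟨h3, by linarith⟩⟩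
  refine IsCompact.of_isClosed_subset (isCompact_Icc.prod (isCompact_Icc.prod isCompact_Icc)) ?_ hsub
  have e : simp3 = {w : ℝ × ℝ × ℝ | 0 ≤ w.1} ∩ ({w : ℝ × ℝ × ℝ | 0 ≤ w.2.1} ∩
      ({w : ℝ × ℝ × ℝ | 0 ≤ w.2.2} ∩ {w : ℝ × ℝ × ℝ | w.1 + w.2.1 + w.2.2 = 1})) := rfl
  rw [e]
  refine IsClosed.inter ?_ (IsClosed.inter ?_ (IsClosed.inter ?_ ?_))
  · exact isClosed_le continuous_const (by fun_prop)
  · exact isClosed_le continuous_const (by fun_prop)
  · exact isClosed_le continuous_const (by fun_prop)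
  · exact isClosed_eq (by fun_prop) continuous_const

theorem hull_eq (Γ : Set (ℝ × ℝ)) : convexHull ℝ Γ = comb '' (simp3 ×ˢ (Γ ×ˢ Γ ×ˢ Γ)) := by
  apply Subset.antisymm
  · intro x hx
    obtain ⟨ι, hι, z, w, hz, hzi, hw, hw1, hwx⟩ := eq_pos_convex_span_of_mem_convexHull hx
    have hcard : Fintype.card ι ≤ 3 := by
      have h1 := hzi.card_le_finrank_succ
      have h2 := Submodule.finrank_le (vectorSpan ℝ (range z))
      have h3 : Module.finrank ℝ (ℝ × ℝ) = 2 := by simp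
      omega
    have hzΓ : ∀ i, z i ∈ Γ := fun i => hz (mem_range_self i)
    have hne : Fintype.card ι ≠ 0 := by
      intro h
      rw [Fintype.card_eq_zero_iff] at h
      rw [Finset.univ_eq_empty, Finset.sum_empty] at hw1
      exact zero_ne_one hw1
    obtain ⟨k, hk⟩ : ∃ k, Fintype.card ι = k := ⟨_, rfl⟩
    have e := Fintype.equivFinOfCardEq hk
    rw [← Equiv.sum_comp e.symm] at hw1 hwx
    rw [hk] at hcard hne
    interval_cases k
    · exact absurd rfl hne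
    · rw [Fin.sum_univ_one] at hw1 hwx
      refine ⟨⟨⟨w (e.symm 0), 0, 0⟩, ⟨z (e.symm 0), z (e.symm 0), z (e.symm 0)⟩⟩,
        ⟨⟨(hw _).le, le_rfl, le_rfl, ?_⟩, hzΓ _, hzΓ _, hzΓ _⟩, ?_⟩
      · simp only [add_zero]; exact hw1
      · simp only [comb, zero_smul, add_zero]; exact hwx
    · rw [Fin.sum_univ_two] at hw1 hwx
      refine ⟨⟨⟨w (e.symm 0), w (e.symm 1), 0⟩, ⟨z (e.symm 0), z (e.symm 1), z (e.symm 0)⟩⟩,
        ⟨⟨(hw _).le, (hw _).le, le_rfl, ?_⟩, hzΓ _, hzΓ _, hzΓ _⟩, ?_⟩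
      · simp only [add_zero]; exact hw1
      · simp only [comb, zero_smul, add_zero]; exact hwx
    · rw [Fin.sum_univ_three] at hw1 hwx
      exact ⟨⟨⟨w (e.symm 0), w (e.symm 1), w (e.symm 2)⟩,
        ⟨z (e.symm 0), z (e.symm 1), z (e.symm 2)⟩⟩,
        ⟨⟨(hw _).le, (hw _).le, (hw _).le, hw1⟩, hzΓ _, hzΓ _, hzΓ _⟩, hwx⟩
  · rintro _ ⟨⟨⟨a, b, c⟩, p, q, r⟩, ⟨⟨h1, h2, h3, h4⟩, hp, hq, hr⟩, rfl⟩
    simp only at h1 h2 h3 h4 hp hq hr
    have hcv := convex_convexHull ℝ Γ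
    have hp' := subset_convexHull ℝ Γ hp
    have hq' := subset_convexHull ℝ Γ hq
    have hr' := subset_convexHull ℝ Γ hr
    have key := hcv.sum_mem (t := Finset.univ) (w := ![a, b, c]) (z := ![p, q, r]) (by
        intro i _
        fin_cases i
        · exact h1
        · exact h2
        · exact h3) (by rw [Fin.sum_univ_three]; exact h4) (by
        intro i _
        fin_cases i
        · exact hp'
        · exact hq'
        · exact hr')
    rw [Fin.sum_univ_three] at key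
    exact key

theorem zero_mem_hull {K : Set (ℝ × ℝ)} {R : ℝ} (hR : 0 < R) (hc : IsCompact K) (hne : K.Nonempty)
    (hsub : K ⊆ disk R)
    (hmin : ∀ (c : ℝ × ℝ) (r : ℝ), 0 ≤ r →
      (∀ z ∈ K, (z.1 - c.1) ^ 2 + (z.2 - c.2) ^ 2 ≤ r ^ 2) → R ≤ r) :
    (0 : ℝ × ℝ) ∈ convexHull ℝ {z ∈ K | nsq z = R ^ 2} := by
  set Γ : Set (ℝ × ℝ) := {z ∈ K | nsq z = R ^ 2} with hΓ
  have hΓc : IsCompact Γ := hc.inter_right (isClosed_eq continuous_nsq continuous_const)
  have hclosed : IsClosed (convexHull ℝ Γ) := by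
    rw [hull_eq]
    exact ((isCompact_simp3.prod (hΓc.prod (hΓc.prod hΓc))).image continuous_comb).isClosed
  by_contra h0
  obtain ⟨f, u, hf0, hfu⟩ := geometric_hahn_banach_point_closed (convex_convexHull ℝ Γ) hclosed h0
  rw [map_zero] at hf0
  set c : ℝ × ℝ := (f (1, 0), f (0, 1)) with hcdef
  have hfc : ∀ z : ℝ × ℝ, f z = dt c z := by
    intro z
    have h1 : z = z.1 • ((1 : ℝ), (0 : ℝ)) + z.2 • ((0 : ℝ), (1 : ℝ)) := by
      ext <;> simp
    conv_lhs => rw [h1]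
    rw [map_add, map_smul, map_smul]
    simp only [dt, hcdef, smul_eq_mul]
    ring
  have hΓu : ∀ z ∈ Γ, u < dt c z := fun z hz => by
    rw [← hfc]; exact hfu z (subset_convexHull ℝ Γ hz)
  set K₁ : Set (ℝ × ℝ) := {z ∈ K | dt c z ≤ u / 2} with hK₁
  have hK₁c : IsCompact K₁ := hc.inter_right (isClosed_le (continuous_dt c) continuous_const)
  obtain ⟨η, hη0, hη⟩ : ∃ η > 0, ∀ z ∈ K₁, nsq z ≤ R ^ 2 - η := by
    rcases K₁.eq_empty_or_nonempty with he | he
    · exact ⟨1, one_pos, fun z hz => by rw [he] at hz; exact absurd hz (notMem_empty z)⟩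
    · obtain ⟨z0, hz0, hmax⟩ := hK₁c.exists_isMaxOn he continuous_nsq.continuousOn
      have h1 : nsq z0 ≤ R ^ 2 := hsub hz0.1
      have h2 : nsq z0 ≠ R ^ 2 := by
        intro h
        have h3 := hΓu z0 ⟨hz0.1, h⟩
        have h4 := hz0.2
        linarith
      have h3 : nsq z0 < R ^ 2 := lt_of_le_of_ne h1 h2
      refine ⟨R ^ 2 - nsq z0, by linarith, fun z hz => ?_⟩
      have := hmax hz
      simp only [mem_ofPred_eq] at this
      linarith
  obtain ⟨M, hM⟩ : ∃ M : ℝ, ∀ z ∈ K, |dt c z| ≤ M := by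
    obtain ⟨M, hM⟩ := hc.exists_bound_of_continuousOn (continuous_dt c).continuousOn
    exact ⟨M, fun z hz => hM z hz⟩
  have hM0 : 0 ≤ M := by
    obtain ⟨z, hz⟩ := hne
    exact (abs_nonneg _).trans (hM z hz)
  have hnc : 0 ≤ nsq c := by unfold nsq; positivity
  -- choose τ
  set τ : ℝ := min 1 (min (η / (2 * (2 * M + nsq c + 1))) (u / (2 * (nsq c + 1)))) with hτ
  have hτ0 : 0 < τ := by
    rw [hτ]
    refine lt_min one_pos (lt_min ?_ ?_) <;> positivity
  have hτ1 : τ ≤ 1 := min_le_left _ _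
  have hτ2 : τ * (2 * M + nsq c + 1) ≤ η / 2 := by
    have h1 : τ ≤ η / (2 * (2 * M + nsq c + 1)) := (min_le_right _ _).trans (min_le_left _ _)
    have h2 : (0 : ℝ) < 2 * M + nsq c + 1 := by positivity
    calc τ * (2 * M + nsq c + 1) ≤ η / (2 * (2 * M + nsq c + 1)) * (2 * M + nsq c + 1) :=
          mul_le_mul_of_nonneg_right h1 h2.le
      _ = η / 2 := by field_simp
  have hτ3 : τ * (nsq c + 1) ≤ u / 2 := by
    have h1 : τ ≤ u / (2 * (nsq c + 1)) := (min_le_right _ _).trans (min_le_right _ _)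
    have h2 : (0 : ℝ) < nsq c + 1 := by positivity
    calc τ * (nsq c + 1) ≤ u / (2 * (nsq c + 1)) * (nsq c + 1) :=
          mul_le_mul_of_nonneg_right h1 h2.le
      _ = u / 2 := by field_simp
  set δ : ℝ := min (η / 2) (τ * u / 2) with hδ
  have hδ0 : 0 < δ := by
    rw [hδ]
    exact lt_min (by positivity) (by positivity)
  have hbound : ∀ z ∈ K, (z.1 - (τ • c).1) ^ 2 + (z.2 - (τ • c).2) ^ 2 ≤ R ^ 2 - δ := by
    intro z hz
    have hexp : (z.1 - (τ • c).1) ^ 2 + (z.2 - (τ • c).2) ^ 2 =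
        nsq z - 2 * τ * dt c z + τ ^ 2 * nsq c := by
      simp only [Prod.smul_fst, Prod.smul_snd, smul_eq_mul, nsq, dt]
      ring
    rw [hexp]
    have hδ1 : δ ≤ η / 2 := min_le_left _ _
    have hδ2 : δ ≤ τ * u / 2 := min_le_right _ _
    have hτsq : τ ^ 2 * nsq c ≤ τ * nsq c := by
      have : τ ^ 2 ≤ τ := by nlinarith
      exact mul_le_mul_of_nonneg_right this hnc
    by_cases hz1 : dt c z ≤ u / 2
    · have h1 := hη z ⟨hz, hz1⟩
      have h2 := (abs_le.mp (hM z hz)).1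
      nlinarith
    · push Not at hz1
      have h1 : nsq z ≤ R ^ 2 := hsub hz
      have h3 : τ * (τ * (nsq c + 1)) ≤ τ * (u / 2) := mul_le_mul_of_nonneg_left hτ3 hτ0.le
      nlinarith
  have hval0 : 0 ≤ R ^ 2 - δ := by
    obtain ⟨z, hz⟩ := hne
    exact le_trans (by positivity) (hbound z hz)
  have hfin := hmin (τ • c) (√(R ^ 2 - δ)) (Real.sqrt_nonneg _) (fun z hz => by
    rw [Real.sq_sqrt hval0]; exact hbound z hz)
  have h1 : R ^ 2 ≤ (√(R ^ 2 - δ)) ^ 2 := pow_le_pow_left₀ hR.le hfin 2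
  rw [Real.sq_sqrt hval0] at h1
  linarith

end CircAux

open CircAux in
theorem contact {K : Set (ℝ × ℝ)} {R : ℝ} (hR : 0 < R) (hc : IsCompact K) (hne : K.Nonempty)
    (hsub : K ⊆ disk R)
    (hmin : ∀ (c : ℝ × ℝ) (r : ℝ), 0 ≤ r →
      (∀ z ∈ K, (z.1 - c.1) ^ 2 + (z.2 - c.2) ^ 2 ≤ r ^ 2) → R ≤ r) :
    (∃ p ∈ K, nsq p = R ^ 2 ∧ -p ∈ K) ∨ ∃ p q r, Trip K R p q r := by
  have h0 := zero_mem_hull hR hc hne hsub hmin
  rw [hull_eq] at h0
  obtain ⟨⟨⟨a, b, c⟩, p, q, r⟩, ⟨⟨ha, hb, hc', habc⟩, ⟨hpK, np⟩, ⟨hqK, nq⟩, ⟨hrK, nr⟩⟩, heq⟩ := h0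
  simp only at ha hb hc' habc hpK np hqK nq hrK nr
  simp only [comb] at heq
  have hR2 : 0 < R ^ 2 := by positivity
  -- two points
  have two : ∀ (a b : ℝ) (p q : ℝ × ℝ), 0 ≤ a → 0 ≤ b → a + b = 1 → p ∈ K → nsq p = R ^ 2 →
      q ∈ K → nsq q = R ^ 2 → a • p + b • q = 0 → ∃ p ∈ K, nsq p = R ^ 2 ∧ -p ∈ K := by
    intro a b p q ha hb hab hp np hq nq h
    have e1 : a * p.1 + b * q.1 = 0 := by
      have := congrArg Prod.fst h
      simpa using this
    have e2 : a * p.2 + b * q.2 = 0 := by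
      have := congrArg Prod.snd h
      simpa using this
    have h3 : a ^ 2 * nsq p = b ^ 2 * nsq q := by
      unfold nsq
      have e1' : a * p.1 = - (b * q.1) := by linarith
      have e2' : a * p.2 = - (b * q.2) := by linarith
      calc a ^ 2 * (p.1 ^ 2 + p.2 ^ 2) = (a * p.1) ^ 2 + (a * p.2) ^ 2 := by ring
        _ = b ^ 2 * (q.1 ^ 2 + q.2 ^ 2) := by rw [e1', e2']; ring
    rw [np, nq] at h3
    have h4 : a ^ 2 = b ^ 2 := mul_right_cancel₀ hR2.ne' h3
    have h5 : a = b := (pow_left_inj₀ ha hb two_ne_zero).mp h4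
    have h6 : a = 1 / 2 := by linarith
    have h7 : b = 1 / 2 := by linarith
    refine ⟨p, hp, np, ?_⟩
    have h8 : -p = q := by
      ext
      · simp only [Prod.fst_neg]; rw [h6, h7] at e1; linarith
      · simp only [Prod.snd_neg]; rw [h6, h7] at e2; linarith
    rw [h8]; exact hq
  rcases ha.eq_or_lt with h | h
  · left
    subst h
    rw [zero_smul, zero_add] at heq
    exact two b c q r hb hc' (by linarith) hqK nq hrK nr heq
  rcases hb.eq_or_lt with h' | h'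
  · left
    subst h'
    rw [zero_smul, add_zero] at heq
    exact two a c p r ha hc' (by linarith) hpK np hrK nr heq
  rcases hc'.eq_or_lt with h'' | h''
  · left
    subst h''
    rw [zero_smul, add_zero] at heq
    exact two a b p q ha hb (by linarith) hpK np hqK nq heq
  right
  exact ⟨p, q, r, ⟨hpK, hqK, hrK, np, nq, nr, a, b, c, h, h', h'', heq⟩⟩

end Pool.Agent.H16.Cef
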