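import Pool.Agent.H16.Cef.Sym
import Pool.Agent.H16.Cef.Basic

/-!
Module CLASSIFY. Position of the three contact points for `R² > 2`.

By `Bd.ray` for the lattice points `(1,0), (0,1), (1,1), (1,-1)` (norm `< R`) the coordinates of `p, q, r`
are nonzero and different in absolute value, so each of `p, q, r` is in one of the eight open
octants, given by the signs of `x, y, x - y, x + y`. For each of these four linear functionals the
three values are not all positive and not all negative (because `a p + b q + c r = 0`). Finite check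
(8³ cases, for instance by a `decide` on `Fin 8`): then, up to a symmetry of the square and a
permutation of the points, either two points are in the opposite octants 1 and 5, or the three points
are in octants 1, 3, 6.
-/

set_option autoImplicit false

open MeasureTheory Set

namespace Pool.Agent.H16.Cef

/-- generic points: not on the axes and not on the diagonals -/
structure Gen (z : ℝ × ℝ) : Prop where
  h1 : z.1 ≠ 0
  h2 : z.2 ≠ 0
  h3 : z.2 ≠ z.1
  h4 : z.1 + z.2 ≠ 0

/-- sign vector of the point -/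
noncomputable def sgv (z : ℝ × ℝ) : Bool × Bool × Bool × Bool :=
  (decide (0 < z.1), decide (0 < z.2), decide (z.2 < z.1), decide (0 < z.1 + z.2))

/-- action of the symmetries on sign vectors -/
def sact (e f s : Bool) (v : Bool × Bool × Bool × Bool) : Bool × Bool × Bool × Bool :=
  let v1 := if s then (v.2.1, v.1, !v.2.2.1, v.2.2.2) else v
  let v2 := if e then (!v1.1, v1.2.1, !v1.2.2.2, !v1.2.2.1) else v1
  if f then (v2.1, !v2.2.1, v2.2.2.2, v2.2.2.1) else v2

lemma not_dec {x y : ℝ} (h : x ≠ y) : (!decide (x < y)) = decide (y < x) := by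
  rcases lt_or_gt_of_ne h with h1 | h1
  · simp [h1, h1.le]
  · simp [h1, h1.le]

lemma sgv_sym {z : ℝ × ℝ} (h : Gen z) (e f s : Bool) : sgv (sym e f s z) = sact e f s (sgv z) := by
  obtain ⟨x, y⟩ := z
  obtain ⟨h1, h2, h3, h4⟩ := h
  simp only at h1 h2 h3 h4
  have a1 := not_dec (x := 0) (y := x) (Ne.symm h1)
  have a2 := not_dec (x := 0) (y := y) (Ne.symm h2)
  have a3 := not_dec (x := y) (y := x) h3
  have a4 := not_dec (x := 0) (y := x + y) (Ne.symm h4)
  have b3 := not_dec (x := x) (y := y) (Ne.symm h3)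
  cases e <;> cases f <;> cases s <;>
    simp only [sym, sgv, sact, a1, a2, a3, a4, b3, Bool.false_eq_true, if_false, if_true, one_mul,
      Prod.mk.injEq, decide_eq_decide] <;>
    refine ⟨?_, ?_, ?_, ?_⟩ <;> constructor <;> intro h <;> linarith

/-- validity of a sign vector -/
def svalid (v : Bool × Bool × Bool × Bool) : Bool :=
  (if v.1 && v.2.1 then v.2.2.2 else true) && (if !v.1 && !v.2.1 then !v.2.2.2 else true) &&
    (if v.1 && !v.2.1 then v.2.2.1 else true) && (if !v.1 && v.2.1 then !v.2.2.1 else true)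

lemma svalid_sgv {z : ℝ × ℝ} (h : Gen z) : svalid (sgv z) = true := by
  obtain ⟨x, y⟩ := z
  obtain ⟨h1, h2, h3, h4⟩ := h
  simp only at h1 h2 h3 h4
  unfold svalid sgv
  simp only
  rcases lt_or_gt_of_ne h1 with c1 | c1 <;> rcases lt_or_gt_of_ne h2 with c2 | c2
  · have : ¬ (0 < x + y) := by linarith
    simp [not_lt.2 c1.le, not_lt.2 c2.le, this]
  · have : ¬ (y < x) := by linarith
    simp [c2, not_lt.2 c1.le, this]
  · have : y < x := by linarith
    simp [c1, not_lt.2 c2.le, this]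
  · have : 0 < x + y := by linarith
    simp [c1, c2, this]

/-- balance of three signs -/
def sbal (a b c : Bool) : Bool := (a || b || c) && !(a && b && c)

/-- one goal -/
def sgoal (a b c : Bool × Bool × Bool × Bool) : Bool :=
  (a == (true, true, true, true) && b == (false, false, false, false)) ||
  (a == (true, true, true, true) && b == (false, true, false, true) &&
    c == (false, false, true, false))

/-- balance in all functionals -/
def sbal4 (a b c : Bool × Bool × Bool × Bool) : Bool :=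
  sbal a.1 b.1 c.1 && sbal a.2.1 b.2.1 c.2.1 && sbal a.2.2.1 b.2.2.1 c.2.2.1 &&
    sbal a.2.2.2 b.2.2.2 c.2.2.2

/-- search -/
def ssearch (a b c : Bool × Bool × Bool × Bool) : Bool :=
  [false, true].any fun e => [false, true].any fun f => [false, true].any fun s =>
    let a' := sact e f s a
    let b' := sact e f s b
    let c' := sact e f s c
    sgoal a' b' c' || sgoal a' c' b' || sgoal b' a' c' || sgoal b' c' a' || sgoal c' a' b' ||
      sgoal c' b' a'

/-- list of valid vectors -/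
def svl : List (Bool × Bool × Bool × Bool) :=
  [(true, true, true, true), (true, true, false, true), (false, true, false, true),
    (false, true, false, false), (false, false, false, false), (false, false, true, false),
    (true, false, true, false), (true, false, true, true)]

lemma mem_svl : ∀ v : Bool × Bool × Bool × Bool, svalid v = true → v ∈ svl := by decide

lemma finite_check : (svl.all fun a => svl.all fun b => svl.all fun c =>
    !(sbal4 a b c) || ssearch a b c) = true := by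
  decide +kernel

lemma finite_check' {a b c : Bool × Bool × Bool × Bool} (ha : svalid a = true)
    (hb : svalid b = true) (hc : svalid c = true) (h : sbal4 a b c = true) :
    ∃ e f s : Bool,
      (sgoal (sact e f s a) (sact e f s b) (sact e f s c) = true ∨
      sgoal (sact e f s a) (sact e f s c) (sact e f s b) = true ∨
      sgoal (sact e f s b) (sact e f s a) (sact e f s c) = true ∨
      sgoal (sact e f s b) (sact e f s c) (sact e f s a) = true ∨
      sgoal (sact e f s c) (sact e f s a) (sact e f s b) = true ∨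
      sgoal (sact e f s c) (sact e f s b) (sact e f s a) = true) := by
  have h1 := List.all_eq_true.1 finite_check a (mem_svl a ha)
  have h2 := List.all_eq_true.1 h1 b (mem_svl b hb)
  have h3 := List.all_eq_true.1 h2 c (mem_svl c hc)
  simp only [h, Bool.not_true, Bool.false_or] at h3
  unfold ssearch at h3
  obtain ⟨e, -, h4⟩ := List.any_eq_true.1 h3
  obtain ⟨f, -, h5⟩ := List.any_eq_true.1 h4
  obtain ⟨s, -, h6⟩ := List.any_eq_true.1 h5
  refine ⟨e, f, s, ?_⟩
  simp only [Bool.or_eq_true] at h6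
  tauto

lemma Trip.rot {K : Set (ℝ × ℝ)} {R : ℝ} {p q r : ℝ × ℝ} (h : Trip K R p q r) :
    Trip K R q r p := by
  obtain ⟨a, b, c, ha, hb, hc, he⟩ := h.bal
  exact ⟨h.hq, h.hr, h.hp, h.nq, h.nr, h.np, b, c, a, hb, hc, ha, by rw [← he]; abel⟩

lemma Trip.swap {K : Set (ℝ × ℝ)} {R : ℝ} {p q r : ℝ × ℝ} (h : Trip K R p q r) :
    Trip K R q p r := by
  obtain ⟨a, b, c, ha, hb, hc, he⟩ := h.bal
  exact ⟨h.hq, h.hp, h.hr, h.nq, h.np, h.nr, b, a, c, hb, ha, hc, by rw [← he]; abel⟩

lemma sbal_of {a b c x y z : ℝ} (ha : 0 < a) (hb : 0 < b) (hc : 0 < c) (hx : x ≠ 0) (hy : y ≠ 0)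
    (hz : z ≠ 0) (h : a * x + b * y + c * z = 0) :
    sbal (decide (0 < x)) (decide (0 < y)) (decide (0 < z)) = true := by
  unfold sbal
  rcases lt_or_gt_of_ne hx with c1 | c1 <;> rcases lt_or_gt_of_ne hy with c2 | c2 <;>
    rcases lt_or_gt_of_ne hz with c3 | c3
  · have e1 := mul_neg_of_pos_of_neg ha c1
    have e2 := mul_neg_of_pos_of_neg hb c2
    have e3 := mul_neg_of_pos_of_neg hc c3
    linarith
  · simp [c3, not_lt.2 c1.le, not_lt.2 c2.le]
  · simp [c2, not_lt.2 c1.le, not_lt.2 c3.le]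
  · simp [c2, c3, not_lt.2 c1.le]
  · simp [c1, not_lt.2 c2.le, not_lt.2 c3.le]
  · simp [c1, c3, not_lt.2 c2.le]
  · simp [c1, c2, not_lt.2 c3.le]
  · have e1 := mul_pos ha c1
    have e2 := mul_pos hb c2
    have e3 := mul_pos hc c3
    linarith

lemma gen_of {K : Set (ℝ × ℝ)} {R : ℝ} (h : Bd K R) {p : ℝ × ℝ} (hp : p ∈ K)
    (np : nsq p = R ^ 2) (hR : 2 < R ^ 2) : Gen p := by
  have h1 := h.ray hp np (v := (1, 0)) ⟨1, 0, by simp⟩ (by simp) (by unfold nsq; dsimp only; linarith)
  have h2 := h.ray hp np (v := (0, 1)) ⟨0, 1, by simp⟩ (by simp) (by unfold nsq; dsimp only; linarith)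
  have h3 := h.ray hp np (v := (1, 1)) ⟨1, 1, by simp⟩ (by simp) (by unfold nsq; dsimp only; linarith)
  have h4 := h.ray hp np (v := (1, -1)) ⟨1, -1, by simp⟩ (by simp) (by unfold nsq; dsimp only; linarith)
  simp only [cr] at h1 h2 h3 h4
  refine ⟨?_, ?_, ?_, ?_⟩ <;> intro h5
  · apply h2; rw [h5]; ring
  · apply h1; rw [h5]; ring
  · apply h3; rw [h5]; ring
  · apply h4; linarith

lemma gen_sym {z : ℝ × ℝ} (h : Gen z) (e f s : Bool) : Gen (sym e f s z) := by
  obtain ⟨x, y⟩ := z
  obtain ⟨h1, h2, h3, h4⟩ := h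
  simp only at h1 h2 h3 h4
  cases e <;> cases f <;> cases s <;>
    simp only [sym, Bool.false_eq_true, if_false, if_true, one_mul] <;>
    refine ⟨?_, ?_, ?_, ?_⟩ <;> simp only <;> intro h5 <;>
    first
    | exact h1 (by linarith)
    | exact h2 (by linarith)
    | exact h3 (by linarith)
    | exact h4 (by linarith)

lemma goal_of {a b c : ℝ × ℝ} (_ : Gen a) (hb : Gen b) (hc : Gen c)
    (h : sgoal (sgv a) (sgv b) (sgv c) = true) :
    (Oct1 a ∧ Oct5 b) ∨ (Oct1 a ∧ Oct3 b ∧ Oct6 c) := by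
  unfold sgoal at h
  simp only [Bool.or_eq_true, Bool.and_eq_true, beq_iff_eq] at h
  rcases h with ⟨h1, h2⟩ | ⟨⟨h1, h2⟩, h3⟩
  · left
    simp only [sgv, Prod.mk.injEq, decide_eq_true_eq, decide_eq_false_iff_not, not_lt] at h1 h2
    exact ⟨⟨h1.2.1, h1.2.2.1⟩, ⟨lt_of_le_of_ne h2.2.2.1 (Ne.symm hb.h3), lt_of_le_of_ne h2.2.1 hb.h2⟩⟩
  · right
    simp only [sgv, Prod.mk.injEq, decide_eq_true_eq, decide_eq_false_iff_not, not_lt] at h1 h2 h3
    exact ⟨⟨h1.2.1, h1.2.2.1⟩, ⟨lt_of_le_of_ne h2.1 hb.h1, by linarith [h2.2.2.2]⟩,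
      ⟨h3.2.2.1, lt_of_le_of_ne h3.1 hc.h1⟩⟩

theorem classify {K : Set (ℝ × ℝ)} {R : ℝ} (h : Bd K R) {p q r : ℝ × ℝ} (ht : Trip K R p q r)
    (hR : 2 < R ^ 2) :
    ∃ (e f s : Bool) (p' q' r' : ℝ × ℝ), Trip (sym e f s '' K) R p' q' r' ∧
      ((Oct1 p' ∧ Oct5 q') ∨ (Oct1 p' ∧ Oct3 q' ∧ Oct6 r')) := by
  have gp := gen_of h ht.hp ht.np hR
  have gq := gen_of h ht.hq ht.nq hR
  have gr := gen_of h ht.hr ht.nr hR
  have hb : sbal4 (sgv p) (sgv q) (sgv r) = true := by
    obtain ⟨a, b, c, ha, hb, hc, he⟩ := ht.bal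
    have e1 := congrArg Prod.fst he
    have e2 := congrArg Prod.snd he
    simp only [Prod.fst_add, Prod.snd_add, Prod.smul_fst, Prod.smul_snd, smul_eq_mul,
      Prod.fst_zero, Prod.snd_zero] at e1 e2
    have k1 := sbal_of ha hb hc gp.h1 gq.h1 gr.h1 e1
    have k2 := sbal_of ha hb hc gp.h2 gq.h2 gr.h2 e2
    have k3 := sbal_of ha hb hc (x := p.1 - p.2) (y := q.1 - q.2) (z := r.1 - r.2)
      (sub_ne_zero.2 (Ne.symm gp.h3)) (sub_ne_zero.2 (Ne.symm gq.h3))
      (sub_ne_zero.2 (Ne.symm gr.h3)) (by linarith)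
    have k4 := sbal_of ha hb hc (x := p.1 + p.2) (y := q.1 + q.2) (z := r.1 + r.2)
      gp.h4 gq.h4 gr.h4 (by linarith)
    simp only [sub_pos] at k3
    unfold sbal4
    simp only [sgv, k1, k2, k3, k4, Bool.and_true]
  obtain ⟨e, f, s, hs⟩ := finite_check' (svalid_sgv gp) (svalid_sgv gq) (svalid_sgv gr) hb
  simp only [← sgv_sym gp, ← sgv_sym gq, ← sgv_sym gr] at hs
  have hT := ht.sym e f s
  have gp' := gen_sym gp e f s
  have gq' := gen_sym gq e f s
  have gr' := gen_sym gr e f s
  rcases hs with hs | hs | hs | hs | hs | hs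
  · exact ⟨e, f, s, _, _, _, hT, goal_of gp' gq' gr' hs⟩
  · exact ⟨e, f, s, _, _, _, hT.rot.rot.swap, goal_of gp' gr' gq' hs⟩
  · exact ⟨e, f, s, _, _, _, hT.swap, goal_of gq' gp' gr' hs⟩
  · exact ⟨e, f, s, _, _, _, hT.rot, goal_of gq' gr' gp' hs⟩
  · exact ⟨e, f, s, _, _, _, hT.rot.rot, goal_of gr' gp' gq' hs⟩
  · exact ⟨e, f, s, _, _, _, hT.rot.swap, goal_of gr' gq' gp' hs⟩

end Pool.Agent.H16.Cef
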