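import Pool.Agent.H16.Cef.Sliver
import Pool.Agent.H16.Cef.Anti

/-!
Module CONES. What the sliver lemma gives for three contact points: either the area is at most 4 or,
after possibly exchanging `q` and `r`, the triple is positively oriented and each of the three open
cones contains a lattice point of norm `< R`.

Proof. Let `a p + b q + c r = 0`. Then `cr p q / c = cr q r / a = cr r p / b`. If this is `0` then
`q = ± p` etc. (all on the circle), and as the three points sum up to 0 with positive coefficients two
of them are antipodal: `antipodal`. If it is negative exchange `q` and `r` (`Trip` is symmetric).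
If `vol K > 4`, `sliver` applied to `(p, q)`, `(q, r)`, `(r, p)` gives lattice points `x, y, z` in
the closed cones; they are in the open cones by `Bd.ray`.
-/

set_option autoImplicit false

open MeasureTheory Set

namespace Pool.Agent.H16.Cef

/-- a lattice point `v ≠ 0` of norm `< R` in the open cone spanned by `p` and `-q` -/
def InSl (R : ℝ) (p q v : ℝ × ℝ) : Prop :=
  Lat v ∧ v ≠ 0 ∧ nsq v < R ^ 2 ∧ 0 < cr v p ∧ 0 < cr v q

namespace Cones

lemma cone_one {K : Set (ℝ × ℝ)} {R : ℝ} (h : Bd K R) {p q : ℝ × ℝ} (hp : p ∈ K)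
    (np : nsq p = R ^ 2) (hq : q ∈ K) (nq : nsq q = R ^ 2) (hpq : 0 < cr p q)
    (hv : ¬ volume K ≤ 4) : ∃ v, InSl R p q v := by
  by_contra hcon
  push Not at hcon
  apply hv
  apply sliver h hp np hq nq hpq
  intro v hv hv0 h1 h2
  by_contra hlt
  push Not at hlt
  apply hcon v
  exact ⟨hv, hv0, hlt, lt_of_le_of_ne h1 (Ne.symm (h.ray hp np hv hv0 hlt)),
    lt_of_le_of_ne h2 (Ne.symm (h.ray hq nq hv hv0 hlt))⟩

/-- two parallel vectors of the same norm are equal or opposite -/
lemma par {p q : ℝ × ℝ} {R : ℝ} (hR : 0 < R) (np : nsq p = R ^ 2) (nq : nsq q = R ^ 2)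
    (h0 : cr p q = 0) : q = p ∨ q = -p := by
  have hR2 : 0 < R ^ 2 := by positivity
  have h1 : dt p q ^ 2 = (R ^ 2) ^ 2 := by
    have : dt p q ^ 2 = nsq p * nsq q - cr p q ^ 2 := by simp only [dt, nsq, cr]; ring
    rw [this, np, nq, h0]; ring
  have e1 : q.1 * R ^ 2 = dt p q * p.1 := by
    rw [← np]
    have : q.1 * nsq p - dt p q * p.1 = - cr p q * p.2 := by
      simp only [dt, nsq, cr]; ring
    rw [h0] at this
    linarith
  have e2 : q.2 * R ^ 2 = dt p q * p.2 := by
    rw [← np]
    have : q.2 * nsq p - dt p q * p.2 = cr p q * p.1 := by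
      simp only [dt, nsq, cr]; ring
    rw [h0] at this
    linarith
  rcases sq_eq_sq_iff_eq_or_eq_neg.mp h1 with h2 | h2
  · left
    rw [h2] at e1 e2
    ext
    · apply mul_right_cancel₀ hR2.ne'; linarith
    · apply mul_right_cancel₀ hR2.ne'; linarith
  · right
    rw [h2] at e1 e2
    ext
    · rw [Prod.fst_neg]; apply mul_right_cancel₀ hR2.ne'; linarith
    · rw [Prod.snd_neg]; apply mul_right_cancel₀ hR2.ne'; linarith

end Cones

open Cones in
theorem cones {K : Set (ℝ × ℝ)} {R : ℝ} (h : Bd K R) {p q r : ℝ × ℝ} (ht : Trip K R p q r) :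
    volume K ≤ 4 ∨
    ((0 < cr p q ∧ 0 < cr q r ∧ 0 < cr r p) ∧
      (∃ v, InSl R p q v) ∧ (∃ v, InSl R q r v) ∧ (∃ v, InSl R r p v)) ∨
    ((0 < cr p r ∧ 0 < cr r q ∧ 0 < cr q p) ∧
      (∃ v, InSl R p r v) ∧ (∃ v, InSl R r q v) ∧ (∃ v, InSl R q p v)) := by
  by_cases hv : volume K ≤ 4
  · left; exact hv
  right
  obtain ⟨a, b, c, ha, hb, hc, hbal⟩ := ht.bal
  have hb1 : a * p.1 + b * q.1 + c * r.1 = 0 := by
    have := congrArg Prod.fst hbal
    simpa using this
  have hb2 : a * p.2 + b * q.2 + c * r.2 = 0 := by
    have := congrArg Prod.snd hbal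
    simpa using this
  have e1 : b * cr p q = c * cr r p := by
    simp only [cr]
    linear_combination p.1 * hb2 - p.2 * hb1
  have e2 : a * cr p q = c * cr q r := by
    simp only [cr]
    linear_combination q.1 * hb2 * (-1) + q.2 * hb1
  have hanti : ∀ p q r : ℝ × ℝ, cr q p = - cr p q := by
    intro p q r; simp only [cr]; ring
  rcases lt_trichotomy (cr p q) 0 with hc0 | hc0 | hc0
  · right
    have h1 : cr r p < 0 := by
      by_contra hcon
      push Not at hcon
      have := mul_nonneg hc.le hcon
      have := mul_neg_of_pos_of_neg hb hc0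
      linarith
    have h2 : cr q r < 0 := by
      by_contra hcon
      push Not at hcon
      have := mul_nonneg hc.le hcon
      have := mul_neg_of_pos_of_neg ha hc0
      linarith
    have h3 : 0 < cr p r := by rw [hanti r p p]; linarith
    have h4 : 0 < cr r q := by rw [hanti q r r]; linarith
    have h5 : 0 < cr q p := by rw [hanti p q p]; linarith
    exact ⟨⟨h3, h4, h5⟩, cone_one h ht.hp ht.np ht.hr ht.nr h3 hv,
      cone_one h ht.hr ht.nr ht.hq ht.nq h4 hv, cone_one h ht.hq ht.nq ht.hp ht.np h5 hv⟩
  · exfalso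
    apply hv
    have h1 : cr r p = 0 := by
      rw [hc0, mul_zero] at e1
      rcases mul_eq_zero.mp e1.symm with h | h
      · exact absurd h hc.ne'
      · exact h
    have h1' : cr p r = 0 := by rw [hanti r p p, h1, neg_zero]
    rcases par h.pos ht.np ht.nq hc0 with hq | hq
    · rcases par h.pos ht.np ht.nr h1' with hr | hr
      · exfalso
        rw [hq, hr] at hb1 hb2
        have hs : 0 < a + b + c := by linarith
        have hp1 : p.1 = 0 := by
          have : (a + b + c) * p.1 = 0 := by linarith
          rcases mul_eq_zero.mp this with h | h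
          · exact absurd h hs.ne'
          · exact h
        have hp2 : p.2 = 0 := by
          have : (a + b + c) * p.2 = 0 := by linarith
          rcases mul_eq_zero.mp this with h | h
          · exact absurd h hs.ne'
          · exact h
        have := ht.np
        simp only [nsq, hp1, hp2] at this
        have := pow_pos h.pos 2
        linarith
      · exact antipodal h ht.hp ht.np (hr ▸ ht.hr)
    · exact antipodal h ht.hp ht.np (hq ▸ ht.hq)
  · left
    have h1 : 0 < cr r p := by
      by_contra hcon
      push Not at hcon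
      have := mul_nonpos_of_nonneg_of_nonpos hc.le hcon
      have := mul_pos hb hc0
      linarith
    have h2 : 0 < cr q r := by
      by_contra hcon
      push Not at hcon
      have := mul_nonpos_of_nonneg_of_nonpos hc.le hcon
      have := mul_pos ha hc0
      linarith
    exact ⟨⟨hc0, h2, h1⟩, cone_one h ht.hp ht.np ht.hq ht.nq hc0 hv,
      cone_one h ht.hq ht.nq ht.hr ht.nr h2 hv, cone_one h ht.hr ht.nr ht.hp ht.np h1 hv⟩

end Pool.Agent.H16.Cef
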