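import Pool.Agent.H16.Cef.Defs

/-!
Module CONVS. Convexity of the two auxiliary sets of the sliver lemma.

Notation: `p, q ∈ K` with `|p| = |q| = R`, `cr p q > 0`. In the linear coordinates
`α = cr z p`, `β = cr z q` the plane is cut into four closed quadrants:
`A = {α ≤ 0 ≤ β}` = cone spanned by `p, q`;  `-A = {β ≤ 0 ≤ α}`;
`J = {0 ≤ α, 0 ≤ β}` = cone spanned by `p, -q`;  `-J = {α ≤ 0, β ≤ 0}` (cone of `-p, q`).
(`cr p z = - cr z p`.)

`S1 = {z ∈ disk R : z ∈ A → z ∈ K, z ∈ -A → -z ∈ K}`. Convexity: let `x, y ∈ S1` and `z ∈ [x, y]`;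
`z` is in the disk. Suppose `z ∈ A`. The set `[x, y] ∩ A` is a segment `[c, c']` containing `z`; each
of its end points is in `K`: it is `x` or `y` (which then lies in `A`), or it lies on one of the rays
of `p` and `q` and in the disk, so it is `λ p` or `λ q` with `0 ≤ λ ≤ 1`, which is in `K` because
`0, p, q ∈ K`. So `z ∈ K`. The case `z ∈ -A` follows by applying this to `-x, -y, -z`.

`S2 = {z : z ∈ -A → z ∈ K, z ∈ A → -z ∈ K, z ∈ J ∪ -J → z ∈ K and -z ∈ K}`. Here `K ⊆ disk R`.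
Convexity (x, y ∈ S2, z ∈ [x, y]):
* both in `-A`: clear. * `x ∈ -A` (so `x ∈ K`), `y ∈ J ∪ -J` (so `y ∈ K ∩ -K`): `z ∈ K`; if `z ∉ -A`,
  the segment leaves `-A` at a point `c ∈ [x, z]` on the ray of `-p` or `-q`, inside the disk, so
  `-c ∈ K`; as `-y ∈ K` also `-z ∈ K`. * `x ∈ -A`, `y ∈ A` (`x ∈ K`, `-y ∈ K`): let `c` be the point
  where the segment leaves `-A`, `c'` the point where it enters `A` (both possibly the origin);
  `-c ∈ K`, `c' ∈ K`. So `[x, c'] ⊆ K` and `[c, y] ⊆ -K`, and `[x, c] ⊆ -A`, `[c', y] ⊆ A`.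
* the remaining cases are symmetric or clear. It may be easier to do all of this in the
coordinates `(α, β)`, or to write the boundary points `c` explicitly.
-/

set_option autoImplicit false

open MeasureTheory Set

namespace Pool.Agent.H16.Cef

/-- the larger auxiliary set of the sliver lemma -/
def S1 (K : Set (ℝ × ℝ)) (R : ℝ) (p q : ℝ × ℝ) : Set (ℝ × ℝ) :=
  {z | nsq z ≤ R ^ 2 ∧ (cr z p ≤ 0 → 0 ≤ cr z q → z ∈ K) ∧ (0 ≤ cr z p → cr z q ≤ 0 → -z ∈ K)}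

/-- the smaller auxiliary set of the sliver lemma -/
def S2 (K : Set (ℝ × ℝ)) (p q : ℝ × ℝ) : Set (ℝ × ℝ) :=
  {z | (0 ≤ cr z p → cr z q ≤ 0 → z ∈ K) ∧ (cr z p ≤ 0 → 0 ≤ cr z q → -z ∈ K) ∧
    (0 ≤ cr z p → 0 ≤ cr z q → z ∈ K ∧ -z ∈ K) ∧ (cr z p ≤ 0 → cr z q ≤ 0 → z ∈ K ∧ -z ∈ K)}

theorem convs_ivt {x1 x2 : ℝ} {u v : ℝ × ℝ} (hu : cr u (x1, x2) ≤ 0) (hv : 0 ≤ cr v (x1, x2)) :
    ∃ c ∈ segment ℝ u v, cr c (x1, x2) = 0 := by
  rcases eq_or_lt_of_le (le_trans hu hv) with h | h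
  · exact ⟨u, left_mem_segment ℝ u v, le_antisymm hu (by rw [h]; exact hv)⟩
  · set D := cr v (x1, x2) - cr u (x1, x2) with hD
    have hDpos : 0 < D := by rw [hD]; linarith
    refine ⟨(cr v (x1, x2) / D) • u + (-(cr u (x1, x2)) / D) • v,
      ⟨cr v (x1, x2) / D, -(cr u (x1, x2)) / D, div_nonneg hv hDpos.le,
        div_nonneg (by linarith) hDpos.le, ?_, rfl⟩, ?_⟩
    · rw [← add_div, hD]
      rw [show cr v (x1, x2) + -cr u (x1, x2) = cr v (x1, x2) - cr u (x1, x2) by ring]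
      exact div_self (by rw [← hD]; exact hDpos.ne')
    · simp only [cr, Prod.fst_add, Prod.snd_add, Prod.smul_fst, Prod.smul_snd, smul_eq_mul]
      field_simp
      ring

theorem convs_ivt' {w u v : ℝ × ℝ} (hu : cr u w ≤ 0) (hv : 0 ≤ cr v w) :
    ∃ c ∈ segment ℝ u v, cr c w = 0 := by
  obtain ⟨x1, x2⟩ := w
  exact convs_ivt hu hv

theorem convs_cr_comb (a b : ℝ) (u v w : ℝ × ℝ) : cr (a • u + b • v) w = a * cr u w + b * cr v w := by
  simp only [cr, Prod.fst_add, Prod.snd_add, Prod.smul_fst, Prod.smul_snd, smul_eq_mul]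
  ring

theorem convs_disk {R : ℝ} {u v c : ℝ × ℝ} (hu : nsq u ≤ R ^ 2) (hv : nsq v ≤ R ^ 2)
    (hc : c ∈ segment ℝ u v) : nsq c ≤ R ^ 2 := by
  obtain ⟨a, b, ha, hb, hab, rfl⟩ := hc
  have h1 : nsq (a • u + b • v) = a * nsq u + b * nsq v
      - a * b * ((u.1 - v.1) ^ 2 + (u.2 - v.2) ^ 2) := by
    have hb' : b = 1 - a := by linarith
    subst hb'
    simp only [nsq, Prod.fst_add, Prod.snd_add, Prod.smul_fst, Prod.smul_snd, smul_eq_mul]
    ring
  rw [h1]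
  have h2 : 0 ≤ a * b * ((u.1 - v.1) ^ 2 + (u.2 - v.2) ^ 2) := by positivity
  nlinarith

/-- a point of the disk on the ray of `p` -/
theorem convs_ray {K : Set (ℝ × ℝ)} {R : ℝ} (hR : 0 < R) (hK : Convex ℝ K)
    (h0 : (0 : ℝ × ℝ) ∈ K) {p : ℝ × ℝ} (hp : p ∈ K) (np : nsq p = R ^ 2) {c : ℝ × ℝ} {l : ℝ}
    (hl : 0 ≤ l) (hc : nsq c ≤ R ^ 2) (h : c = l • p) : c ∈ K := by
  have h1 : nsq c = l ^ 2 * R ^ 2 := by
    rw [h, ← np]
    simp only [nsq, Prod.smul_fst, Prod.smul_snd, smul_eq_mul]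
    ring
  have hR2 : 0 < R ^ 2 := by positivity
  have h2 : l ≤ 1 := by
    by_contra hl1
    push Not at hl1
    have : 1 < l ^ 2 := by nlinarith
    nlinarith
  have h3 := hK h0 hp (sub_nonneg.2 h2) hl (by ring)
  rw [h]
  simpa using h3

theorem convs_exit {K : Set (ℝ × ℝ)} {R : ℝ} (hR : 0 < R) (hK : Convex ℝ K)
    (h0 : (0 : ℝ × ℝ) ∈ K) {p q : ℝ × ℝ} (hp : p ∈ K) (np : nsq p = R ^ 2)
    (hq : q ∈ K) (nq : nsq q = R ^ 2) (hpq : 0 < cr p q) {u v : ℝ × ℝ}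
    (hu : nsq u ≤ R ^ 2) (hv : nsq v ≤ R ^ 2) (hup : cr u p ≤ 0) (huq : 0 ≤ cr u q)
    (hvA : 0 ≤ cr v p ∨ cr v q ≤ 0) : ∃ c ∈ segment ℝ u v, c ∈ K := by
  have hcp : ∀ c : ℝ × ℝ, nsq c ≤ R ^ 2 → cr c p = 0 → 0 ≤ cr c q → c ∈ K := by
    intro c hc h1 h2
    refine convs_ray hR hK h0 hp np (l := cr c q / cr p q) (div_nonneg h2 hpq.le) hc ?_
    have h3 : cr p q ≠ 0 := hpq.ne'
    have e1 : c.1 * cr p q = cr c q * p.1 - cr c p * q.1 := by
      simp only [cr]; ring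
    have e2 : c.2 * cr p q = cr c q * p.2 - cr c p * q.2 := by
      simp only [cr]; ring
    rw [h1] at e1 e2
    ext
    · simp only [Prod.smul_fst, smul_eq_mul]
      rw [div_mul_eq_mul_div, eq_div_iff h3]
      linarith
    · simp only [Prod.smul_snd, smul_eq_mul]
      rw [div_mul_eq_mul_div, eq_div_iff h3]
      linarith
  have hcq : ∀ c : ℝ × ℝ, nsq c ≤ R ^ 2 → cr c q = 0 → cr c p ≤ 0 → c ∈ K := by
    intro c hc h1 h2
    refine convs_ray hR hK h0 hq nq (l := - cr c p / cr p q) (div_nonneg (by linarith) hpq.le)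
      hc ?_
    have h3 : cr p q ≠ 0 := hpq.ne'
    have e1 : c.1 * cr p q = cr c q * p.1 - cr c p * q.1 := by
      simp only [cr]; ring
    have e2 : c.2 * cr p q = cr c q * p.2 - cr c p * q.2 := by
      simp only [cr]; ring
    rw [h1] at e1 e2
    ext
    · simp only [Prod.smul_fst, smul_eq_mul]
      rw [div_mul_eq_mul_div, eq_div_iff h3]
      linarith
    · simp only [Prod.smul_snd, smul_eq_mul]
      rw [div_mul_eq_mul_div, eq_div_iff h3]
      linarith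
  -- exit through the ray of `q`
  have key : ∀ w : ℝ × ℝ, nsq w ≤ R ^ 2 → cr w p ≤ 0 → cr w q ≤ 0 →
      ∃ c ∈ segment ℝ u w, c ∈ K := by
    intro w hw h1 h2
    obtain ⟨c, hc, hc0⟩ := convs_ivt' (w := q) (u := w) (v := u) h2 huq
    rw [segment_symm] at hc
    refine ⟨c, hc, hcq c (convs_disk hu hw hc) hc0 ?_⟩
    obtain ⟨a, b, ha, hb, hab, rfl⟩ := hc
    rw [convs_cr_comb]
    nlinarith [mul_nonneg ha (neg_nonneg.2 hup), mul_nonneg hb (neg_nonneg.2 h1)]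
  rcases le_total 0 (cr v p) with h1 | h1
  · obtain ⟨c, hc, hc0⟩ := convs_ivt' (w := p) (u := u) (v := v) hup h1
    have hcd := convs_disk hu hv hc
    rcases le_total 0 (cr c q) with h2 | h2
    · exact ⟨c, hc, hcp c hcd hc0 h2⟩
    · obtain ⟨d, hd, hdK⟩ := key c hcd hc0.le h2
      refine ⟨d, ?_, hdK⟩
      exact (convex_segment u v).segment_subset (left_mem_segment ℝ u v) hc hd
  · rcases hvA with h2 | h2
    · have h3 : cr v p = 0 := le_antisymm h1 h2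
      rcases le_total 0 (cr v q) with h4 | h4
      · exact ⟨v, right_mem_segment ℝ u v, hcp v hv h3 h4⟩
      · exact key v hv h1 h4
    · exact key v hv h1 h2

theorem convs_between {K : Set (ℝ × ℝ)} (hK : Convex ℝ K) {x y z c d : ℝ × ℝ}
    (hz : z ∈ segment ℝ x y) (hc : c ∈ segment ℝ z x) (hd : d ∈ segment ℝ z y) (hcK : c ∈ K)
    (hdK : d ∈ K) : z ∈ K := by
  rw [mem_segment_iff_wbtw] at hz hc hd
  have h1 : Wbtw ℝ c z y := hz.trans_left_right hc.symm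
  have h2 : Wbtw ℝ d z c := h1.symm.trans_left_right hd.symm
  exact hK.segment_subset hdK hcK (mem_segment_iff_wbtw.2 h2)

theorem convs_nsq_neg (z : ℝ × ℝ) : nsq (-z) = nsq z := by
  simp [nsq]

theorem convs_cr_neg (z w : ℝ × ℝ) : cr (-z) w = - cr z w := by
  simp only [cr, Prod.fst_neg, Prod.snd_neg]
  ring

theorem convs_neg_mem_segment {x y z : ℝ × ℝ} (hz : z ∈ segment ℝ x y) :
    -z ∈ segment ℝ (-x) (-y) := by
  obtain ⟨a, b, ha, hb, hab, rfl⟩ := hz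
  exact ⟨a, b, ha, hb, hab, by rw [smul_neg, smul_neg, neg_add]⟩

theorem convs_S1_neg {K : Set (ℝ × ℝ)} {R : ℝ} {p q z : ℝ × ℝ} (h : z ∈ S1 K R p q) :
    -z ∈ S1 K R p q := by
  obtain ⟨h1, h2, h3⟩ := h
  refine ⟨by rw [convs_nsq_neg]; exact h1, ?_, ?_⟩
  · intro a b
    rw [convs_cr_neg] at a b
    exact h3 (by linarith) (by linarith)
  · intro a b
    rw [convs_cr_neg] at a b
    rw [neg_neg]
    exact h2 (by linarith) (by linarith)

theorem convs_S2_neg {K : Set (ℝ × ℝ)} {p q z : ℝ × ℝ} (h : z ∈ S2 K p q) :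
    -z ∈ S2 K p q := by
  obtain ⟨h1, h2, h3, h4⟩ := h
  refine ⟨?_, ?_, ?_, ?_⟩
  · intro a b
    rw [convs_cr_neg] at a b
    exact h2 (by linarith) (by linarith)
  · intro a b
    rw [convs_cr_neg] at a b
    rw [neg_neg]
    exact h1 (by linarith) (by linarith)
  · intro a b
    rw [convs_cr_neg] at a b
    rw [neg_neg]
    exact (h4 (by linarith) (by linarith)).symm
  · intro a b
    rw [convs_cr_neg] at a b
    rw [neg_neg]
    exact (h3 (by linarith) (by linarith)).symm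

theorem convex_S1 {K : Set (ℝ × ℝ)} {R : ℝ} (hR : 0 < R) (hK : Convex ℝ K)
    (h0 : (0 : ℝ × ℝ) ∈ K) {p q : ℝ × ℝ} (hp : p ∈ K) (np : nsq p = R ^ 2)
    (hq : q ∈ K) (nq : nsq q = R ^ 2) (hpq : 0 < cr p q) : Convex ℝ (S1 K R p q) := by
  have key : ∀ x ∈ S1 K R p q, ∀ y ∈ S1 K R p q, ∀ z ∈ segment ℝ x y,
      cr z p ≤ 0 → 0 ≤ cr z q → z ∈ K := by
    intro x hx y hy z hz h1 h2
    have hzd := convs_disk hx.1 hy.1 hz
    have walk : ∀ w ∈ S1 K R p q, ∃ c ∈ segment ℝ z w, c ∈ K := by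
      intro w hw
      by_cases hA : cr w p ≤ 0 ∧ 0 ≤ cr w q
      · exact ⟨w, right_mem_segment ℝ z w, hw.2.1 hA.1 hA.2⟩
      · refine convs_exit hR hK h0 hp np hq nq hpq hzd hw.1 h1 h2 ?_
        by_contra hcon
        push Not at hcon
        exact hA ⟨hcon.1.le, hcon.2.le⟩
    obtain ⟨c, hc, hcK⟩ := walk x hx
    obtain ⟨d, hd, hdK⟩ := walk y hy
    exact convs_between hK hz hc hd hcK hdK
  rw [convex_iff_segment_subset]
  intro x hx y hy z hz
  refine ⟨convs_disk hx.1 hy.1 hz, key x hx y hy z hz, ?_⟩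
  intro h1 h2
  refine key (-x) (convs_S1_neg hx) (-y) (convs_S1_neg hy) (-z) (convs_neg_mem_segment hz) ?_ ?_
  · rw [convs_cr_neg]
    linarith
  · rw [convs_cr_neg]
    linarith

theorem convex_S2 {K : Set (ℝ × ℝ)} {R : ℝ} (hR : 0 < R) (hK : Convex ℝ K)
    (h0 : (0 : ℝ × ℝ) ∈ K) (hsub : K ⊆ disk R) {p q : ℝ × ℝ} (hp : p ∈ K) (np : nsq p = R ^ 2)
    (hq : q ∈ K) (nq : nsq q = R ^ 2) (hpq : 0 < cr p q) : Convex ℝ (S2 K p q) := by
  have hdisk : ∀ x ∈ S2 K p q, nsq x ≤ R ^ 2 := by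
    intro x hx
    obtain ⟨h1, h2, h3, h4⟩ := hx
    rcases le_total 0 (cr x p) with a | a <;> rcases le_total 0 (cr x q) with b | b
    · exact hsub (h3 a b).1
    · exact hsub (h1 a b)
    · rw [← convs_nsq_neg]
      exact hsub (h2 a b)
    · exact hsub (h4 a b).1
  have hout : ∀ x ∈ S2 K p q, (0 ≤ cr x p ∨ cr x q ≤ 0) → x ∈ K := by
    intro x hx h
    obtain ⟨h1, h2, h3, h4⟩ := hx
    rcases h with a | a
    · rcases le_total 0 (cr x q) with b | b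
      · exact (h3 a b).1
      · exact h1 a b
    · rcases le_total 0 (cr x p) with b | b
      · exact h1 b a
      · exact (h4 b a).1
  have key : ∀ x ∈ S2 K p q, ∀ y ∈ S2 K p q, ∀ z ∈ segment ℝ x y,
      (0 ≤ cr z p ∨ cr z q ≤ 0) → z ∈ K := by
    intro x hx y hy z hz h1
    have hzd := convs_disk (hdisk x hx) (hdisk y hy) hz
    have walk : ∀ w ∈ S2 K p q, ∃ c ∈ segment ℝ z w, c ∈ K := by
      intro w hw
      by_cases hA : 0 ≤ cr w p ∨ cr w q ≤ 0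
      · exact ⟨w, right_mem_segment ℝ z w, hout w hw hA⟩
      · push Not at hA
        obtain ⟨c, hc, hcK⟩ := convs_exit hR hK h0 hp np hq nq hpq (hdisk w hw) hzd hA.1.le
          hA.2.le h1
        rw [segment_symm] at hc
        exact ⟨c, hc, hcK⟩
    obtain ⟨c, hc, hcK⟩ := walk x hx
    obtain ⟨d, hd, hdK⟩ := walk y hy
    exact convs_between hK hz hc hd hcK hdK
  rw [convex_iff_segment_subset]
  intro x hx y hy z hz
  have k1 := key x hx y hy z hz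
  have k2 := key (-x) (convs_S2_neg hx) (-y) (convs_S2_neg hy) (-z) (convs_neg_mem_segment hz)
  rw [convs_cr_neg, convs_cr_neg] at k2
  refine ⟨?_, ?_, ?_, ?_⟩
  · intro a b
    exact k1 (Or.inl a)
  · intro a b
    exact k2 (Or.inl (by linarith))
  · intro a b
    exact ⟨k1 (Or.inl a), k2 (Or.inr (by linarith))⟩
  · intro a b
    exact ⟨k1 (Or.inr b), k2 (Or.inl (by linarith))⟩

end Pool.Agent.H16.Cef
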