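import Mathlib

/-!
# MP_cef980_nt: definitions

Everything happens in the plane `ℝ × ℝ` with its Lebesgue measure `volume`.
`dt` is the inner product, `cr` the determinant, `nsq` the squared Euclidean norm,
`disk R` the closed disk of radius `R` about the origin, `Lat v` says that `v` is a lattice point.
`Bd K R`: `K` is a compact convex body inside `disk R` which contains the origin in its interior and
no other lattice point in its interior.
`Trip K R p q r`: `p, q, r` are points of `K` on the circle of radius `R` and some combination of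
them with positive coefficients vanishes.
-/

set_option autoImplicit false

open MeasureTheory Set

namespace Pool.Agent.H16.Cef

/-- inner product -/
def dt (p q : ℝ × ℝ) : ℝ := p.1 * q.1 + p.2 * q.2
/-- determinant -/
def cr (p q : ℝ × ℝ) : ℝ := p.1 * q.2 - p.2 * q.1
/-- squared norm -/
def nsq (p : ℝ × ℝ) : ℝ := p.1 ^ 2 + p.2 ^ 2
/-- closed disk about the origin -/
def disk (R : ℝ) : Set (ℝ × ℝ) := {p | nsq p ≤ R ^ 2}
/-- lattice points -/
def Lat (v : ℝ × ℝ) : Prop := ∃ m n : ℤ, v = ((m : ℝ), (n : ℝ))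

/-- a compact convex body in `disk R` with the origin as its only interior lattice point -/
structure Bd (K : Set (ℝ × ℝ)) (R : ℝ) : Prop where
  pos : 0 < R
  conv : Convex ℝ K
  comp : IsCompact K
  zero : (0 : ℝ × ℝ) ∈ interior K
  sub : K ⊆ disk R
  lat : ∀ v, Lat v → v ∈ interior K → v = 0

/-- three points of `K` on the circle of radius `R` whose triangle contains the origin -/
structure Trip (K : Set (ℝ × ℝ)) (R : ℝ) (p q r : ℝ × ℝ) : Prop where
  hp : p ∈ K
  hq : q ∈ K
  hr : r ∈ K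
  np : nsq p = R ^ 2
  nq : nsq q = R ^ 2
  nr : nsq r = R ^ 2
  bal : ∃ a b c : ℝ, 0 < a ∧ 0 < b ∧ 0 < c ∧ a • p + b • q + c • r = 0

/-- the eight symmetries of the square -/
def sym (e f s : Bool) (p : ℝ × ℝ) : ℝ × ℝ :=
  ((if e then -1 else 1) * (if s then p.2 else p.1), (if f then -1 else 1) * (if s then p.1 else p.2))

/-- open octants (counted anticlockwise from the positive horizontal axis) -/
def Oct1 (p : ℝ × ℝ) : Prop := 0 < p.2 ∧ p.2 < p.1
def Oct3 (p : ℝ × ℝ) : Prop := p.1 < 0 ∧ -p.1 < p.2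
def Oct5 (p : ℝ × ℝ) : Prop := p.1 < p.2 ∧ p.2 < 0
def Oct6 (p : ℝ × ℝ) : Prop := p.2 < p.1 ∧ p.1 < 0

/-- area of the part of the disk of radius `R` beyond a line at distance `d` from the origin -/
noncomputable def Cap (R d : ℝ) : ℝ :=
  R ^ 2 * Real.arctan (√(R ^ 2 - d ^ 2) / d) - d * √(R ^ 2 - d ^ 2)

/-- the part of the disk beyond the line `⟨n, z⟩ = 1` -/
def capS (R : ℝ) (n : ℝ × ℝ) : Set (ℝ × ℝ) := {z | nsq z ≤ R ^ 2 ∧ 1 < dt n z}

/-- `Θ(k)`, half of the angle of the circle which is not cut off -/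
noncomputable def Th (k : ℝ) : ℝ :=
  Real.pi - Real.arctan (1 + k) - Real.arctan (1 + k + k ^ 2)
    - Real.arctan √(2 * k ^ 2 + 4 * k + 3)

/-- the area function -/
noncomputable def F (k : ℝ) : ℝ :=
  (k ^ 2 + 2 * k + 2) * Th k + (1 + k) + (1 + k / (1 + k ^ 2)) + √(2 * k ^ 2 + 4 * k + 3) / 2

/-- the right hand side of the equation of the maximum point -/
noncomputable def rho (k : ℝ) : ℝ := k * (1 + k + k ^ 2) / ((1 + k) * (1 + k ^ 2) ^ 2)

/-- the extremal body -/
def Kst (k : ℝ) : Set (ℝ × ℝ) :=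
  {z | nsq z ≤ k ^ 2 + 2 * k + 2 ∧ -1 ≤ z.1 ∧ z.1 - z.2 ≤ 1 ∧ k * z.1 + z.2 ≤ 1}

end Pool.Agent.H16.Cef
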