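import Pool.Agent.H16.Cef.Defs

/-!
Module FDERIV. Derivative of `F` and monotonicity of `Th` and `rho`.

With `q = k² + 2k + 2`, `2 q - 1 = 2k²+4k+3`, `q (1 + k²) = 1 + (1+k+k²)²`:
`F'(k) = 2 (1+k) Th k + [q Th'(k)] + 1 + (1-k²)/(1+k²)² + (2+2k)/(2 √(2q-1))` and
`q Th'(k) = -1 - (1+2k)/(1+k²) - (2+2k)/(2 √(2q-1))`, which gives
`F'(k) = 2 (1+k) Th k - 2k(1+k+k²)/(1+k²)² = 2 (1+k) (Th k - rho k)`.
`Th` is strictly decreasing (each arctan increases), `rho` is strictly increasing on `[0, 0.53]`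
(`rho = N/D`, `N' D - N D' > 0`: the logarithmic derivative is
`1/k + (1+2k)/(1+k+k²) - 1/(1+k) - 4k/(1+k²) > 0` for `0 < k ≤ 0.53`).
-/

set_option autoImplicit false

open MeasureTheory Set

namespace Pool.Agent.H16.Cef

theorem hasDerivAt_Th {k : ℝ} (hk : 0 ≤ k) :
    HasDerivAt Th (-(1 / (k ^ 2 + 2 * k + 2)) - (1 + 2 * k) / ((k ^ 2 + 2 * k + 2) * (1 + k ^ 2)) -
      (k + 1) / ((k ^ 2 + 2 * k + 2) * √(2 * k ^ 2 + 4 * k + 3))) k := by
  have hs : 0 < 2 * k ^ 2 + 4 * k + 3 := by positivity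
  have hsq : 0 < √(2 * k ^ 2 + 4 * k + 3) := Real.sqrt_pos.2 hs
  have hq : 0 < k ^ 2 + 2 * k + 2 := by positivity
  have h1 : HasDerivAt (fun k : ℝ => 1 + k) 1 k := by
    simpa using (hasDerivAt_id k).const_add 1
  have h2 : HasDerivAt (fun k : ℝ => 1 + k + k ^ 2) (1 + 2 * k) k := by
    have := h1.fun_add (hasDerivAt_pow 2 k)
    simpa using this
  have h3 : HasDerivAt (fun k : ℝ => 2 * k ^ 2 + 4 * k + 3) (4 * k + 4) k := by
    have := (((hasDerivAt_pow 2 k).const_mul 2).fun_add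
      ((hasDerivAt_id' k).const_mul 4)).add_const 3
    exact this.congr_deriv (by norm_num; ring)
  have h4 := h3.sqrt hs.ne'
  have h := (((h1.arctan).const_sub Real.pi).sub h2.arctan).sub h4.arctan
  have h5 : HasDerivAt Th _ k := h
  refine h5.congr_deriv ?_
  rw [Real.sq_sqrt hs.le]
  have e1 : 1 + (1 + k) ^ 2 = k ^ 2 + 2 * k + 2 := by ring
  have e2 : 1 + (1 + k + k ^ 2) ^ 2 = (k ^ 2 + 2 * k + 2) * (1 + k ^ 2) := by ring
  have e3 : 1 + (2 * k ^ 2 + 4 * k + 3) = 2 * (k ^ 2 + 2 * k + 2) := by ring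
  rw [e1, e2, e3]
  have hk1 : 0 < 1 + k ^ 2 := by positivity
  field_simp
  ring

theorem hasDerivAt_F {k : ℝ} (hk : 0 ≤ k) :
    HasDerivAt F (2 * (1 + k) * (Th k - rho k)) k := by
  have hs : 0 < 2 * k ^ 2 + 4 * k + 3 := by positivity
  have hsq : 0 < √(2 * k ^ 2 + 4 * k + 3) := Real.sqrt_pos.2 hs
  have hq : 0 < k ^ 2 + 2 * k + 2 := by positivity
  have hk1 : 0 < 1 + k ^ 2 := by positivity
  have hk2 : 0 < 1 + k := by positivity
  have h0 := hasDerivAt_Th hk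
  have h1 : HasDerivAt (fun k : ℝ => 1 + k) 1 k := by
    simpa using (hasDerivAt_id k).const_add 1
  have h2 : HasDerivAt (fun k : ℝ => k ^ 2 + 2 * k + 2) (2 * k + 2) k := by
    have := ((hasDerivAt_pow 2 k).fun_add ((hasDerivAt_id' k).const_mul 2)).add_const 2
    exact this.congr_deriv (by norm_num)
  have h3 : HasDerivAt (fun k : ℝ => 2 * k ^ 2 + 4 * k + 3) (4 * k + 4) k := by
    have := (((hasDerivAt_pow 2 k).const_mul 2).fun_add
      ((hasDerivAt_id' k).const_mul 4)).add_const 3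
    exact this.congr_deriv (by norm_num; ring)
  have h4 := (h3.sqrt hs.ne').div_const 2
  have h5 : HasDerivAt (fun k : ℝ => 1 + k ^ 2) (2 * k) k := by
    have := (hasDerivAt_pow 2 k).const_add 1
    simpa using this
  have h6 := ((hasDerivAt_id k).div h5 hk1.ne').const_add 1
  have h := (((h2.mul h0).add h1).add h6).add h4
  have h7 : HasDerivAt F _ k := h
  refine h7.congr_deriv ?_
  unfold rho
  simp only [id_eq, one_mul]
  set T := Th k
  set S := √(2 * k ^ 2 + 4 * k + 3)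
  field_simp
  ring

theorem Th_anti {x y : ℝ} (hx : 0 ≤ x) (hxy : x < y) : Th y < Th x := by
  have hy : 0 ≤ y := hx.trans hxy.le
  have h1 : Real.arctan (1 + x) < Real.arctan (1 + y) :=
    Real.arctan_strictMono (by linarith)
  have h2 : Real.arctan (1 + x + x ^ 2) ≤ Real.arctan (1 + y + y ^ 2) :=
    Real.arctan_strictMono.monotone (by nlinarith)
  have h3 : Real.arctan √(2 * x ^ 2 + 4 * x + 3) ≤ Real.arctan √(2 * y ^ 2 + 4 * y + 3) :=
    Real.arctan_strictMono.monotone (Real.sqrt_le_sqrt (by nlinarith))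
  unfold Th
  linarith

theorem hasDerivAt_rho {k : ℝ} (hk : 0 ≤ k) :
    HasDerivAt rho ((1 + k ^ 2) * (1 + 2 * k + k ^ 2 - 4 * k ^ 3 - 4 * k ^ 4 - 2 * k ^ 5) /
      ((1 + k) * (1 + k ^ 2) ^ 2) ^ 2) k := by
  have hk1 : 0 < 1 + k ^ 2 := by positivity
  have hk2 : 0 < 1 + k := by positivity
  have h1 : HasDerivAt (fun k : ℝ => 1 + k) 1 k := by
    simpa using (hasDerivAt_id k).const_add 1
  have h5 : HasDerivAt (fun k : ℝ => 1 + k ^ 2) (2 * k) k := by
    have := (hasDerivAt_pow 2 k).const_add 1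
    simpa using this
  have h2 : HasDerivAt (fun k : ℝ => 1 + k + k ^ 2) (1 + 2 * k) k := by
    have := h1.fun_add (hasDerivAt_pow 2 k)
    simpa using this
  have hN := (hasDerivAt_id' k).fun_mul h2
  have hD := h1.fun_mul (h5.fun_pow 2)
  have h := hN.div hD (by positivity)
  have h7 : HasDerivAt rho _ k := h
  refine h7.congr_deriv ?_
  congr 1
  push_cast
  ring

theorem rho_mono {x y : ℝ} (hx : 0 ≤ x) (hxy : x < y) (hy : y ≤ 0.53) : rho x < rho y := by
  have hmono : StrictMonoOn rho (Icc 0 0.53) := by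
    refine strictMonoOn_of_deriv_pos (convex_Icc _ _) ?_ ?_
    · intro k hk
      exact (hasDerivAt_rho hk.1).continuousAt.continuousWithinAt
    · intro k hk
      rw [interior_Icc] at hk
      rw [(hasDerivAt_rho hk.1.le).deriv]
      have hk0 := hk.1
      have hk1 : k < 0.53 := hk.2
      have h2 : k ^ 2 ≤ 0.53 * k := by nlinarith
      have h3 : k ^ 3 ≤ 0.53 ^ 2 * k := by nlinarith [mul_pos hk0 hk0]
      have h4 : k ^ 4 ≤ 0.53 ^ 3 * k := by nlinarith [mul_pos hk0 hk0, pow_pos hk0 3]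
      have h5 : k ^ 5 ≤ 0.53 ^ 4 * k := by nlinarith [mul_pos hk0 hk0, pow_pos hk0 3, pow_pos hk0 4]
      have h6 : 0 < 1 + 2 * k + k ^ 2 - 4 * k ^ 3 - 4 * k ^ 4 - 2 * k ^ 5 := by
        have h7 : 0 ≤ k ^ 2 := by positivity
        norm_num at h3 h4 h5
        nlinarith
      positivity
  exact hmono ⟨hx, by linarith⟩ ⟨by linarith, hy⟩ hxy

end Pool.Agent.H16.Cef
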