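import Pool.Agent.H16.Cef.Defs

/-!
Module FIDENT. `F k` is the area of the disk minus three caps, `R² = k² + 2k + 2`.

`√(R² - 1) = 1 + k`; `R² - 1/(1+k²) = (1+k+k²)²/(1+k²)` (because
`(k²+2k+2)(1+k²) = (1+k+k²)² + 1`), so with `d = 1/√(1+k²)`: `√(R²-d²)/d = 1+k+k²`,
`d √(R²-d²) = (1+k+k²)/(1+k²) = 1 + k/(1+k²)`; `R² - 1/2 = (2k²+4k+3)/2`, so with `d = 1/√2`:
`√(R²-d²)/d = √(2k²+4k+3)`, `d √(R²-d²) = √(2k²+4k+3)/2`.
-/

set_option autoImplicit false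

open MeasureTheory Set

namespace Pool.Agent.H16.Cef

theorem Cap_eq_of {R d x : ℝ} (hd : 0 < d) (hx : 0 ≤ x) (h : R ^ 2 - d ^ 2 = (d * x) ^ 2) :
    Cap R d = R ^ 2 * Real.arctan x - d ^ 2 * x := by
  have h1 : √(R ^ 2 - d ^ 2) = d * x := by
    rw [h]
    exact Real.sqrt_sq (by positivity)
  unfold Cap
  rw [h1, mul_div_cancel_left₀ _ hd.ne']
  ring

theorem F_ident {R k : ℝ} (hk : 0 ≤ k) (hR : R ^ 2 = k ^ 2 + 2 * k + 2) :
    Real.pi * R ^ 2 - Cap R 1 - Cap R (1 / √(1 + k ^ 2)) - Cap R (1 / √2) = F k := by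
  have hk1 : 0 < 1 + k ^ 2 := by positivity
  have h1 : Cap R 1 = R ^ 2 * Real.arctan (1 + k) - 1 ^ 2 * (1 + k) :=
    Cap_eq_of one_pos (by linarith) (by rw [hR]; ring)
  have hs1 : (1 / √(1 + k ^ 2)) ^ 2 = 1 / (1 + k ^ 2) := by
    rw [div_pow, one_pow, Real.sq_sqrt hk1.le]
  have hs2 : (1 / √(2 : ℝ)) ^ 2 = 1 / 2 := by
    rw [div_pow, one_pow, Real.sq_sqrt (by norm_num)]
  have h2 : Cap R (1 / √(1 + k ^ 2)) = R ^ 2 * Real.arctan (1 + k + k ^ 2)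
      - (1 / √(1 + k ^ 2)) ^ 2 * (1 + k + k ^ 2) := by
    refine Cap_eq_of (by positivity) (by positivity) ?_
    rw [mul_pow, hs1, hR]
    field_simp
    ring
  have h3 : Cap R (1 / √2) = R ^ 2 * Real.arctan √(2 * k ^ 2 + 4 * k + 3)
      - (1 / √(2 : ℝ)) ^ 2 * √(2 * k ^ 2 + 4 * k + 3) := by
    refine Cap_eq_of (by positivity) (by positivity) ?_
    rw [mul_pow, hs2, Real.sq_sqrt (by positivity), hR]
    ring
  rw [h1, h2, h3, hs1, hs2, hR]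
  unfold F Th
  have h4 : 1 / (1 + k ^ 2) * (1 + k + k ^ 2) = 1 + k / (1 + k ^ 2) := by
    field_simp
    ring
  rw [h4]
  ring

end Pool.Agent.H16.Cef
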