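import Pool.Agent.H16.Cef.FDeriv
import Pool.Agent.H16.Cef.AtanNum

/-!
Module KS. The maximum point of `F` on `[0, 0.53]`.

`Th - rho` is continuous and strictly decreasing on `[0, 0.53]`, positive at `0.2399`
(`Th 0.2399 = 0.2245067…`, `rho 0.2399 = 0.2244561…`) and negative at `0.24`
(`Th 0.24 = 0.2243879…`, `rho 0.24 = 0.2245367…`): unique zero `ks`. `F` is strictly increasing on
`[0, ks]` and strictly decreasing on `[ks, 0.53]` by `hasDerivAt_F`. `F 0.24 = 4.0456920071…`,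
`F ks ≥ F 0.24 > 4.04569`, and `F ks ≤ F 0.24 + 0.0001 · sup |F'| < 4.0457` since on `[ks, 0.24]`
`0 ≥ F' ≥ 2 · 1.24 · (Th 0.24 - rho 0.24)` (`Th 0.24 - rho 0.24 > -0.0002`).
For the numerics use `atan_one_add` and `atan_le`, `atan_ge`, `Real.pi_gt_d20`, `Real.pi_lt_d20` and rational
bounds for the square root (`2 · 0.24² + 4 · 0.24 + 3 = 4.0752`).
-/

set_option autoImplicit false

open MeasureTheory Set

namespace Pool.Agent.H16.Cef

theorem ks_atan_hi {y c r : ℝ} (hy : 0 < y) (hc : (y - 1) / (y + 1) = c) (hc0 : 0 ≤ c)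
    (hr : c - c ^ 3 / 3 + c ^ 5 / 5 - c ^ 7 / 7 + c ^ 9 / 9 - c ^ 11 / 11 + c ^ 13 / 13 ≤ r) :
    Real.arctan y ≤ Real.pi / 4 + r := by
  rw [atan_one_add hy, hc]
  have := atan_le hc0
  linarith

theorem ks_atan_lo {y c r : ℝ} (hy : 0 < y) (hc : (y - 1) / (y + 1) = c) (hc0 : 0 ≤ c)
    (hr : r ≤ c - c ^ 3 / 3 + c ^ 5 / 5 - c ^ 7 / 7 + c ^ 9 / 9 - c ^ 11 / 11) :
    Real.pi / 4 + r ≤ Real.arctan y := by
  rw [atan_one_add hy, hc]
  have := atan_ge hc0
  linarith

theorem ks_s24 : (2.01871246 : ℝ) < √(2 * 0.24 ^ 2 + 4 * 0.24 + 3) ∧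
    √(2 * 0.24 ^ 2 + 4 * 0.24 + 3) < (2.01871247 : ℝ) := by
  constructor
  · apply Real.lt_sqrt_of_sq_lt
    norm_num
  · rw [Real.sqrt_lt' (by norm_num)]
    norm_num

theorem ks_s23 : (2.01858961 : ℝ) < √(2 * 0.2399 ^ 2 + 4 * 0.2399 + 3) ∧
    √(2 * 0.2399 ^ 2 + 4 * 0.2399 + 3) < (2.01858962 : ℝ) := by
  constructor
  · apply Real.lt_sqrt_of_sq_lt
    norm_num
  · rw [Real.sqrt_lt' (by norm_num)]
    norm_num

theorem ks_Th24_lo : (0.2243879 : ℝ) < Th 0.24 := by
  have h1 : Real.arctan (1 + 0.24) ≤ Real.pi / 4 + 0.1067356727 :=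
    ks_atan_hi (c := 3 / 28) (by norm_num) (by norm_num) (by norm_num) (by norm_num)
  have h2 : Real.arctan (1 + 0.24 + 0.24 ^ 2) ≤ Real.pi / 4 + 0.1288093081 :=
    ks_atan_hi (c := 93 / 718) (by norm_num) (by norm_num) (by norm_num) (by norm_num)
  have h3 : Real.arctan (2.01871247 : ℝ) ≤ Real.pi / 4 + 0.3254652320 :=
    ks_atan_hi (c := (2.01871247 - 1) / (2.01871247 + 1)) (by norm_num) rfl (by norm_num)
      (by norm_num)
  have h4 := Real.arctan_strictMono ks_s24.2
  have h5 := Real.pi_gt_d20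
  unfold Th
  linarith

theorem ks_Th24_hi : Th 0.24 < (0.2243881 : ℝ) := by
  have h1 : Real.pi / 4 + 0.1067356726 ≤ Real.arctan (1 + 0.24) :=
    ks_atan_lo (c := 3 / 28) (by norm_num) (by norm_num) (by norm_num) (by norm_num)
  have h2 : Real.pi / 4 + 0.1288093080 ≤ Real.arctan (1 + 0.24 + 0.24 ^ 2) :=
    ks_atan_lo (c := 93 / 718) (by norm_num) (by norm_num) (by norm_num) (by norm_num)
  have h3 : Real.pi / 4 + 0.3254651733 ≤ Real.arctan (2.01871246 : ℝ) :=
    ks_atan_lo (c := (2.01871246 - 1) / (2.01871246 + 1)) (by norm_num) rfl (by norm_num)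
      (by norm_num)
  have h4 := Real.arctan_strictMono ks_s24.1
  have h5 := Real.pi_lt_d20
  unfold Th
  linarith

theorem ks_Th23_lo : (0.2245067 : ℝ) < Th 0.2399 := by
  have h1 : Real.arctan (1 + 0.2399) ≤ Real.pi / 4 + 0.1066962635 :=
    ks_atan_hi (c := 2399 / 22399) (by norm_num) (by norm_num) (by norm_num) (by norm_num)
  have h2 : Real.arctan (1 + 0.2399 + 0.2399 ^ 2) ≤ Real.pi / 4 + 0.1287541615 :=
    ks_atan_hi (c := 29745201 / 229745201) (by norm_num) (by norm_num) (by norm_num)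
      (by norm_num)
  have h3 : Real.arctan (2.01858962 : ℝ) ≤ Real.pi / 4 + 0.3254410249 :=
    ks_atan_hi (c := (2.01858962 - 1) / (2.01858962 + 1)) (by norm_num) rfl (by norm_num)
      (by norm_num)
  have h4 := Real.arctan_strictMono ks_s23.2
  have h5 := Real.pi_gt_d20
  unfold Th
  linarith

theorem ks_cont_Th : Continuous Th := by
  unfold Th
  have h : Continuous fun k : ℝ => √(2 * k ^ 2 + 4 * k + 3) :=
    Real.continuous_sqrt.comp (by fun_prop)
  exact ((continuous_const.sub (Real.continuous_arctan.comp (by fun_prop))).sub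
    (Real.continuous_arctan.comp (by fun_prop))).sub (Real.continuous_arctan.comp h)

theorem ks_cont_rho : ContinuousOn rho (Icc 0.2399 0.24) := by
  unfold rho
  apply ContinuousOn.div
  · fun_prop
  · fun_prop
  · intro k hk
    have hk0 : 0 < k := lt_of_lt_of_le (by norm_num) hk.1
    positivity

theorem exists_ks : ∃ ks : ℝ, 0.2399 < ks ∧ ks < 0.24 ∧ Th ks = rho ks ∧
    (∀ k, 0 ≤ k → k ≤ 0.53 → Th k = rho k → k = ks) ∧
    (∀ k, 0 ≤ k → k ≤ 0.53 → k ≠ ks → F k < F ks) ∧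
    (∀ x y, 0 ≤ x → x < y → y ≤ ks → F x < F y) ∧
    4.04569 < F ks ∧ F ks < 4.0457 := by
  have r24 : rho 0.24 < 0.22453680 := by unfold rho; norm_num
  have r24' : (0.22453678 : ℝ) < rho 0.24 := by unfold rho; norm_num
  have r23 : rho 0.2399 < 0.22445611 := by unfold rho; norm_num
  have t24 := ks_Th24_lo
  have t24' := ks_Th24_hi
  have t23 := ks_Th23_lo
  -- the zero
  have hcont : ContinuousOn (fun k => Th k - rho k) (Icc 0.2399 0.24) :=
    ks_cont_Th.continuousOn.sub ks_cont_rho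
  obtain ⟨ks, hks, hz⟩ : (0 : ℝ) ∈ (fun k => Th k - rho k) '' (Ioo 0.2399 0.24) := by
    apply intermediate_value_Ioo' (by norm_num) hcont
    constructor
    · show Th 0.24 - rho 0.24 < 0
      linarith
    · show 0 < Th 0.2399 - rho 0.2399
      linarith
  have hz' : Th ks = rho ks := by
    have : Th ks - rho ks = 0 := hz
    linarith
  have hks0 : 0 < ks := lt_trans (by norm_num) hks.1
  have hks1 : ks < 0.53 := hks.2.trans (by norm_num)
  have hlt : ∀ k, 0 ≤ k → k < ks → rho k < Th k := by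
    intro k hk0 hk
    have h1 := Th_anti hk0 hk
    have h2 := rho_mono hk0 hk hks1.le
    linarith
  have hgt : ∀ k, ks < k → k ≤ 0.53 → Th k < rho k := by
    intro k hk hk1
    have h1 := Th_anti hks0.le hk
    have h2 := rho_mono hks0.le hk hk1
    linarith
  have hcF : ∀ k, 0 ≤ k → ContinuousAt F k := fun k hk => (hasDerivAt_F hk).continuousAt
  have hmono : StrictMonoOn F (Icc 0 ks) := by
    apply strictMonoOn_of_deriv_pos (convex_Icc 0 ks)
    · exact fun k hk => (hcF k hk.1).continuousWithinAt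
    · intro k hk
      rw [interior_Icc] at hk
      rw [(hasDerivAt_F hk.1.le).deriv]
      have h1 := hlt k hk.1.le hk.2
      have h2 : 0 < k := hk.1
      have h3 : 0 < Th k - rho k := by linarith
      positivity
  have hanti : StrictAntiOn F (Icc ks 0.53) := by
    apply strictAntiOn_of_deriv_neg (convex_Icc ks 0.53)
    · exact fun k hk => (hcF k (hks0.le.trans hk.1)).continuousWithinAt
    · intro k hk
      rw [interior_Icc] at hk
      have hk0 : 0 < k := hks0.trans hk.1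
      rw [(hasDerivAt_F hk0.le).deriv]
      have h1 := hgt k hk.1 hk.2.le
      have h3 : Th k - rho k < 0 := by linarith
      exact mul_neg_of_pos_of_neg (by positivity) h3
  -- bounds
  have hs := ks_s24
  have hF24 : (4.04569 : ℝ) < F 0.24 := by
    unfold F
    norm_num at hs t24 ⊢
    linarith [hs.1, t24]
  have hF24' : F 0.24 < (4.045695 : ℝ) := by
    unfold F
    norm_num at hs t24' ⊢
    linarith [hs.2, t24']
  have hF1 : F 0.24 < F ks := hanti ⟨le_rfl, hks1.le⟩ ⟨hks.2.le, by norm_num⟩ hks.2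
  have hF2 : F ks < 4.0457 := by
    obtain ⟨c, hc, hc'⟩ := exists_hasDerivAt_eq_slope F
      (fun k => 2 * (1 + k) * (Th k - rho k)) hks.2
      (fun k hk => (hcF k (hks0.le.trans hk.1)).continuousWithinAt)
      (fun k hk => hasDerivAt_F (hks0.le.trans hk.1.le))
    have h1 : 0 < 0.24 - ks := by linarith [hks.2]
    have h2 : 2 * (1 + c) * (Th c - rho c) * (0.24 - ks) = F 0.24 - F ks := by
      rw [hc']
      field_simp
    have hc0 : 0 < c := hks0.trans hc.1
    have h3 := Th_anti hc0.le hc.2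
    have h4 := rho_mono hc0.le hc.2 (by norm_num)
    have h5 : (-0.0002 : ℝ) < Th c - rho c := by linarith
    have h6 : (-0.0005 : ℝ) < 2 * (1 + c) * (Th c - rho c) := by
      have : c < 0.24 := hc.2
      nlinarith
    have h7 : 0.24 - ks < 0.0001 := by linarith [hks.1]
    have h8 : (-0.0005 : ℝ) * (0.24 - ks) ≤ 2 * (1 + c) * (Th c - rho c) * (0.24 - ks) :=
      mul_le_mul_of_nonneg_right h6.le h1.le
    nlinarith
  refine ⟨ks, hks.1, hks.2, hz', ?_, ?_, ?_, hF24.trans hF1, hF2⟩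
  · intro k hk0 hk1 hk
    rcases lt_trichotomy k ks with h | h | h
    · exact absurd hk (ne_of_gt (hlt k hk0 h))
    · exact h
    · exact absurd hk (ne_of_lt (hgt k h hk1))
  · intro k hk0 hk1 hk
    rcases lt_or_gt_of_ne hk with h | h
    · exact hmono ⟨hk0, h.le⟩ ⟨hks0.le, le_rfl⟩ h
    · exact hanti ⟨le_rfl, hks1.le⟩ ⟨h.le, hk1⟩ h
  · intro x y hx hxy hy
    exact hmono ⟨hx, hxy.le.trans hy⟩ ⟨hx.trans hxy.le, hy⟩ hxy

end Pool.Agent.H16.Cef
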