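import Pool.Agent.H16.Cef.Defs

/-!
Module SUPP. Supporting functional at a point which is not in the interior of a convex body whose
interior contains the origin. (`geometric_hahn_banach_open_point` for the open convex set
`interior K`; the functional `f` satisfies `f x < f v` on `interior K`, in particular `0 < f v`;
`K ⊆ closure (interior K)` (`Convex.closure_interior_eq_closure_of_nonempty_interior`) gives
`f x ≤ f v` on `K`; divide by `f v`; a continuous linear functional on `ℝ × ℝ` is `z ↦ dt n z` with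
`n = (f (1,0), f (0,1))`.)
Also: two caps which are separated by a contact point are disjoint: if `p = α n₁ + β n₂`, `α, β ≥ 0`
(not both zero), `dt n₁ p ≤ 1`, `dt n₂ p ≤ 1`, `|p| = R` and `z` is in both caps then
`dt p z = α dt n₁ z + β dt n₂ z > α + β ≥ α dt n₁ p + β dt n₂ p = R²`, but `dt p z ≤ R²`
(Cauchy–Schwarz).
-/

set_option autoImplicit false

open MeasureTheory Set

namespace Pool.Agent.H16.Cef

theorem supp {K : Set (ℝ × ℝ)} (hK : Convex ℝ K) (h0 : (0 : ℝ × ℝ) ∈ interior K) {v : ℝ × ℝ}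
    (hv : v ∉ interior K) : ∃ n : ℝ × ℝ, dt n v = 1 ∧ ∀ x ∈ K, dt n x ≤ 1 := by
  obtain ⟨f, hf⟩ := geometric_hahn_banach_open_point hK.interior isOpen_interior hv
  have hfv : 0 < f v := by
    have := hf 0 h0
    simpa using this
  have hle : ∀ x ∈ K, f x ≤ f v := by
    intro x hx
    have hx' : x ∈ closure (interior K) := by
      rw [hK.closure_interior_eq_closure_of_nonempty_interior ⟨0, h0⟩]
      exact subset_closure hx
    have hcl : IsClosed {y : ℝ × ℝ | f y ≤ f v} := isClosed_le f.continuous continuous_const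
    exact closure_minimal (fun y hy => (hf y hy).le) hcl hx'
  have hrep : ∀ x : ℝ × ℝ, f x = x.1 * f (1, 0) + x.2 * f (0, 1) := by
    intro x
    have hx : x = x.1 • ((1 : ℝ), (0 : ℝ)) + x.2 • ((0 : ℝ), (1 : ℝ)) := by
      ext <;> simp
    conv_lhs => rw [hx]
    rw [map_add, map_smul, map_smul, smul_eq_mul, smul_eq_mul]
  have hdt : ∀ x : ℝ × ℝ, dt (f (1, 0) / f v, f (0, 1) / f v) x = f x / f v := by
    intro x
    rw [hrep x]
    unfold dt
    simp only
    ring
  refine ⟨(f (1, 0) / f v, f (0, 1) / f v), ?_, ?_⟩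
  · rw [hdt, div_self hfv.ne']
  · intro x hx
    rw [hdt, div_le_one hfv]
    exact hle x hx

theorem disj_caps {R : ℝ} {p n₁ n₂ : ℝ × ℝ} (np : nsq p = R ^ 2) (h1 : dt n₁ p ≤ 1)
    (h2 : dt n₂ p ≤ 1) {α β : ℝ} (hα : 0 ≤ α) (hβ : 0 ≤ β) (hαβ : 0 < α + β)
    (he : p = α • n₁ + β • n₂) : Disjoint (capS R n₁) (capS R n₂) := by
  rw [Set.disjoint_left]
  rintro z ⟨hz, hz1⟩ ⟨-, hz2⟩
  have hp1 : p.1 = α * n₁.1 + β * n₂.1 := by
    have := congrArg Prod.fst he
    simpa using this
  have hp2 : p.2 = α * n₁.2 + β * n₂.2 := by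
    have := congrArg Prod.snd he
    simpa using this
  have e1 : dt p z = α * dt n₁ z + β * dt n₂ z := by
    unfold dt
    rw [hp1, hp2]
    ring
  have e2 : R ^ 2 = α * dt n₁ p + β * dt n₂ p := by
    rw [← np]
    unfold nsq dt
    have : p.1 ^ 2 + p.2 ^ 2 = p.1 * (α * n₁.1 + β * n₂.1) + p.2 * (α * n₁.2 + β * n₂.2) := by
      rw [← hp1, ← hp2]
      ring
    rw [this]
    ring
  have hCS : dt p z ≤ R ^ 2 := by
    unfold dt
    unfold nsq at np hz
    nlinarith [sq_nonneg (p.1 - z.1), sq_nonneg (p.2 - z.2)]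
  have hgt : α + β < α * dt n₁ z + β * dt n₂ z := by
    rcases hα.eq_or_lt with h | h
    · have hβ' : 0 < β := by linarith
      nlinarith
    · nlinarith
  nlinarith

end Pool.Agent.H16.Cef
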