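import Pool.Agent.H16.Cef.CapVol
import Pool.Agent.H16.Cef.Supp
import Pool.Agent.H16.Cef.FIdent

/-!
Module KSTAREA. Area of the extremal body.

`R = √(k²+2k+2)`. `Kst k = disk R \ (capS R (-1,0) ∪ capS R (1,-1) ∪ capS R (k,1))`, the three caps are
pairwise disjoint by `disj_caps`:
* `(k,1)`, `(-1,0)`: `p = (-1, 1+k) = (1+k)(k,1) + (1+k+k²)(-1,0)` (`k(1+k)+1 = 1+k+k²`).
* `(1,-1)`, `(-1,0)`: `p = (-1, -(1+k)) = (1+k)(1,-1) + (2+k)(-1,0)`.
* `(1,-1)`, `(k,1)`: `V = (2/(1+k), (1-k)/(1+k)) = α (1,-1) + β (k,1)`, `β = (3-k)/(1+k)²`,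
  `α = (2-k+k²)/(1+k)²`; both functionals are 1 at `V`; `nsq V = (4+(1-k)²)/(1+k)² ≥ R²` for
  `0 ≤ k ≤ 0.29`; use `p = (R/|V|) V`.
So the area is `π R² - Cap R 1 - Cap R (1/√2) - Cap R (1/√(1+k²)) = F k` by `volume_disk`,
`volume_capS`, `F_ident`.
-/

set_option autoImplicit false

open MeasureTheory Set

namespace Pool.Agent.H16.Cef

theorem kst_arctan_ge {x : ℝ} (hx : 0 ≤ x) : x ≤ (1 + x ^ 2) * Real.arctan x := by
  have h1 : Real.sin (2 * Real.arctan x) ≤ 2 * Real.arctan x :=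
    Real.sin_le (by have := Real.arctan_nonneg.2 hx; linarith)
  rw [Real.sin_two_mul, Real.sin_arctan, Real.cos_arctan] at h1
  have h2 : 0 < 1 + x ^ 2 := by positivity
  have h3 : 2 * (x / √(1 + x ^ 2)) * (1 / √(1 + x ^ 2)) = 2 * (x / (1 + x ^ 2)) := by
    have h4 : √(1 + x ^ 2) * √(1 + x ^ 2) = 1 + x ^ 2 := Real.mul_self_sqrt h2.le
    rw [mul_assoc, div_mul_div_comm, h4, mul_one]
  rw [h3] at h1
  have h5 : x / (1 + x ^ 2) ≤ Real.arctan x := by linarith
  rw [div_le_iff₀ h2] at h5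
  linarith

theorem kst_Cap_nonneg {R d : ℝ} (hd : 0 < d) (hdR : d ≤ R) : 0 ≤ Cap R d := by
  unfold Cap
  set s := √(R ^ 2 - d ^ 2) with hs
  have hs2 : s ^ 2 = R ^ 2 - d ^ 2 := Real.sq_sqrt (by nlinarith)
  have hs0 : 0 ≤ s := Real.sqrt_nonneg _
  have h1 := kst_arctan_ge (x := s / d) (by positivity)
  have h2 : d ^ 2 * (s / d) = d * s := by field_simp
  have h3 : d ^ 2 * ((1 + (s / d) ^ 2) * Real.arctan (s / d)) = R ^ 2 * Real.arctan (s / d) := by
    rw [← mul_assoc]
    congr 1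
    rw [div_pow, mul_add, mul_one, mul_div_cancel₀ _ (by positivity), hs2]
    ring
  have h4 := mul_le_mul_of_nonneg_left h1 (by positivity : 0 ≤ d ^ 2)
  rw [h2, h3] at h4
  linarith

theorem volume_Kst {k : ℝ} (hk : 0.2 ≤ k) (hk' : k ≤ 0.25) :
    volume (Kst k) = ENNReal.ofReal (F k) := by
  have hk0 : 0 < k := by norm_num at hk; linarith
  norm_num at hk hk'
  set R := √(k ^ 2 + 2 * k + 2) with hRdef
  have hR2 : R ^ 2 = k ^ 2 + 2 * k + 2 := Real.sq_sqrt (by positivity)
  have hRpos : 0 < R := Real.sqrt_pos.2 (by positivity)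
  have hR1 : 1 ≤ R := by nlinarith
  have hset : Kst k = disk R \ (capS R (-1, 0) ∪ (capS R (1, -1) ∪ capS R (k, 1))) := by
    ext z
    simp only [Kst, disk, capS, dt, mem_ofPred_eq, mem_sdiff, mem_union, hR2]
    constructor
    · rintro ⟨h1, h2, h3, h4⟩
      refine ⟨h1, ?_⟩
      rintro (⟨-, h⟩ | ⟨-, h⟩ | ⟨-, h⟩) <;> linarith
    · rintro ⟨h1, h⟩
      refine ⟨h1, ?_, ?_, ?_⟩
      · by_contra h2
        exact h (Or.inl ⟨h1, by linarith⟩)
      · by_contra h2
        exact h (Or.inr (Or.inl ⟨h1, by linarith⟩))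
      · by_contra h2
        exact h (Or.inr (Or.inr ⟨h1, by linarith⟩))
  have hn1 : nsq ((-1 : ℝ), (0 : ℝ)) = 1 := by unfold nsq; norm_num
  have hn2 : nsq ((1 : ℝ), (-1 : ℝ)) = 2 := by unfold nsq; norm_num
  have hn3 : nsq (k, (1 : ℝ)) = 1 + k ^ 2 := by unfold nsq; simp only; ring
  have hv1 : volume (capS R (-1, 0)) = ENNReal.ofReal (Cap R 1) := by
    rw [volume_capS hRpos (by rw [hn1]; nlinarith), hn1]
    simp
  have hv2 : volume (capS R (1, -1)) = ENNReal.ofReal (Cap R (1 / √2)) := by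
    rw [volume_capS hRpos (by rw [hn2]; nlinarith), hn2]
  have hv3 : volume (capS R (k, 1)) = ENNReal.ofReal (Cap R (1 / √(1 + k ^ 2))) := by
    rw [volume_capS hRpos (by rw [hn3]; nlinarith), hn3]
  have hc1 : 0 ≤ Cap R 1 := kst_Cap_nonneg one_pos hR1
  have hc2 : 0 ≤ Cap R (1 / √2) := by
    refine kst_Cap_nonneg (by positivity) (le_trans ?_ hR1)
    rw [div_le_one (by positivity)]
    exact Real.one_le_sqrt.2 (by norm_num)
  have hc3 : 0 ≤ Cap R (1 / √(1 + k ^ 2)) := by
    refine kst_Cap_nonneg (by positivity) (le_trans ?_ hR1)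
    rw [div_le_one (by positivity)]
    exact Real.one_le_sqrt.2 (by nlinarith)
  -- the caps are pairwise disjoint
  have hd13 : Disjoint (capS R (k, 1)) (capS R (-1, 0)) := by
    refine disj_caps (p := (-1, 1 + k)) (α := 1 + k) (β := 1 + k + k ^ 2) ?_ ?_ ?_ ?_ ?_ ?_ ?_
    · unfold nsq; simp only; rw [hR2]; ring
    · unfold dt; simp only; linarith
    · unfold dt; simp only; linarith
    · positivity
    · positivity
    · positivity
    · ext
      · simp only [Prod.fst_add, Prod.smul_fst, smul_eq_mul]; ring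
      · simp only [Prod.snd_add, Prod.smul_snd, smul_eq_mul]; ring
  have hd12 : Disjoint (capS R (1, -1)) (capS R (-1, 0)) := by
    refine disj_caps (p := (-1, -(1 + k))) (α := 1 + k) (β := 2 + k) ?_ ?_ ?_ ?_ ?_ ?_ ?_
    · unfold nsq; simp only; rw [hR2]; ring
    · unfold dt; simp only; linarith
    · unfold dt; simp only; linarith
    · positivity
    · positivity
    · positivity
    · ext
      · simp only [Prod.fst_add, Prod.smul_fst, smul_eq_mul]; ring
      · simp only [Prod.snd_add, Prod.smul_snd, smul_eq_mul]; ring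
  have hd23 : Disjoint (capS R (1, -1)) (capS R (k, 1)) := by
    have hk1 : 0 < 1 + k := by positivity
    set N : ℝ := (4 + (1 - k) ^ 2) / (1 + k) ^ 2 with hN
    have hN0 : 0 < N := by positivity
    have hNR : R ^ 2 ≤ N := by
      rw [hN, le_div_iff₀ (by positivity), hR2]
      have h2 : k ^ 2 ≤ 1 / 16 := by nlinarith
      have h3 : k ^ 3 ≤ 1 / 64 := by nlinarith [mul_pos hk0 hk0]
      have h4 : k ^ 4 ≤ 1 / 256 := by nlinarith [mul_pos hk0 hk0, pow_pos hk0 3]
      nlinarith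
    have hsN : 0 < √N := Real.sqrt_pos.2 hN0
    have hsN2 : √N ^ 2 = N := Real.sq_sqrt hN0.le
    set l : ℝ := R / √N with hl
    have hl0 : 0 < l := by positivity
    have hl1 : l ≤ 1 := by
      rw [hl, div_le_one hsN]
      exact Real.le_sqrt_of_sq_le hNR
    have hl2 : l ^ 2 * N = R ^ 2 := by
      rw [hl, div_pow, hsN2, div_mul_cancel₀ _ hN0.ne']
    refine disj_caps (p := (l * (2 / (1 + k)), l * ((1 - k) / (1 + k))))
      (α := l * ((2 - k + k ^ 2) / (1 + k) ^ 2)) (β := l * ((3 - k) / (1 + k) ^ 2))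
      ?_ ?_ ?_ ?_ ?_ ?_ ?_
    · rw [← hl2, hN]
      unfold nsq
      simp only
      field_simp
      ring
    · have : dt (1, -1) (l * (2 / (1 + k)), l * ((1 - k) / (1 + k))) = l := by
        unfold dt
        simp only
        field_simp
        ring
      rw [this]; exact hl1
    · have : dt (k, 1) (l * (2 / (1 + k)), l * ((1 - k) / (1 + k))) = l := by
        unfold dt
        simp only
        field_simp
        ring
      rw [this]; exact hl1
    · have : 0 ≤ 2 - k + k ^ 2 := by nlinarith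
      positivity
    · have : 0 ≤ 3 - k := by linarith
      positivity
    · have h1 : 0 < 2 - k + k ^ 2 := by nlinarith
      have h2 : 0 < 3 - k := by linarith
      positivity
    · ext
      · simp only [Prod.fst_add, Prod.smul_fst, smul_eq_mul]
        field_simp
        ring
      · simp only [Prod.snd_add, Prod.smul_snd, smul_eq_mul]
        field_simp
        ring
  have hm1 := measurableSet_capS R (-1, 0)
  have hm2 := measurableSet_capS R (1, -1)
  have hm3 := measurableSet_capS R (k, 1)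
  have hvU : volume (capS R (-1, 0) ∪ (capS R (1, -1) ∪ capS R (k, 1))) =
      ENNReal.ofReal (Cap R 1 + (Cap R (1 / √2) + Cap R (1 / √(1 + k ^ 2)))) := by
    rw [measure_union _ (hm2.union hm3), measure_union hd23 hm3, hv1, hv2, hv3,
      ← ENNReal.ofReal_add hc2 hc3, ← ENNReal.ofReal_add hc1 (add_nonneg hc2 hc3)]
    rw [disjoint_union_right]
    exact ⟨hd12.symm, hd13.symm⟩
  rw [hset, measure_sdiff _ (hm1.union (hm2.union hm3)).nullMeasurableSet _, hvU,
    volume_disk hRpos.le, ← ENNReal.ofReal_sub _ (add_nonneg hc1 (add_nonneg hc2 hc3)),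
    ← F_ident hk0.le hR2]
  · congr 1
    ring
  · rintro z (h | h | h)
    · exact h.1
    · exact h.1
    · exact h.1
  · rw [hvU]
    exact ENNReal.ofReal_ne_top

end Pool.Agent.H16.Cef
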