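import Pool.Agent.H16.Cef.Defs

/-!
Module KSTCLASS. The extremal body is in the class.

`R = √(k²+2k+2)`, `1.55 < R < 1.61`. `Kst k` is compact, convex, contains a neighbourhood of `0`.
Lattice points in the interior: norm `< √5` (`nsq ≤ R² < 3`), so coordinates in `{-1, 0, 1}`; the
interior satisfies the strict inequalities `-1 < x`, `x - y < 1`, `k x + y < 1` (a point of the interior
can be moved a bit in every direction), which only `(0,0)` does.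
Circumcentre: `p₁ = (-1, 1+k)`, `p₂ = (-1, -(1+k))`, `p₃ = ((1+ℓ)/2, (ℓ-1)/2)`, `ℓ = √(2k²+4k+3)` are in
`Kst k`, of norm `R`, and a convex combination `Σ λ_i p_i` of them is `0`
(`λ₁ : λ₂ : λ₃ = (x₃ - y₃/(1+k))/2 : (x₃ + y₃/(1+k))/2 : 1`). If `Kst k` is contained in the disk of
centre `c` and radius `r ≥ 0` then `r² ≥ Σ λ_i |p_i - c|² = R² + |c|² ≥ R²`.
-/

set_option autoImplicit false

open MeasureTheory Set

namespace Pool.Agent.H16.Cef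

theorem Kst_closed (k : ℝ) : IsClosed (Kst k) := by
  have e : Kst k = {z : ℝ × ℝ | nsq z ≤ k ^ 2 + 2 * k + 2} ∩ ({z : ℝ × ℝ | -1 ≤ z.1} ∩
      ({z : ℝ × ℝ | z.1 - z.2 ≤ 1} ∩ {z : ℝ × ℝ | k * z.1 + z.2 ≤ 1})) := by
    ext z; simp [Kst]
  rw [e]
  refine IsClosed.inter ?_ (IsClosed.inter ?_ (IsClosed.inter ?_ ?_))
  · exact isClosed_le (by unfold nsq; fun_prop) continuous_const
  · exact isClosed_le continuous_const continuous_fst
  · exact isClosed_le (by fun_prop) continuous_const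
  · exact isClosed_le (by fun_prop) continuous_const

theorem Kst_lt_subset (k : ℝ) : {z : ℝ × ℝ | nsq z < k ^ 2 + 2 * k + 2 ∧ -1 < z.1 ∧
    z.1 - z.2 < 1 ∧ k * z.1 + z.2 < 1} ⊆ Kst k := fun _ hz =>
  ⟨hz.1.le, hz.2.1.le, hz.2.2.1.le, hz.2.2.2.le⟩

theorem Kst_lt_open (k : ℝ) : IsOpen {z : ℝ × ℝ | nsq z < k ^ 2 + 2 * k + 2 ∧ -1 < z.1 ∧
    z.1 - z.2 < 1 ∧ k * z.1 + z.2 < 1} := by
  have e : {z : ℝ × ℝ | nsq z < k ^ 2 + 2 * k + 2 ∧ -1 < z.1 ∧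
    z.1 - z.2 < 1 ∧ k * z.1 + z.2 < 1} = {z : ℝ × ℝ | nsq z < k ^ 2 + 2 * k + 2} ∩
      ({z : ℝ × ℝ | -1 < z.1} ∩
      ({z : ℝ × ℝ | z.1 - z.2 < 1} ∩ {z : ℝ × ℝ | k * z.1 + z.2 < 1})) := by
    ext z; simp
  rw [e]
  refine IsOpen.inter ?_ (IsOpen.inter ?_ (IsOpen.inter ?_ ?_))
  · exact isOpen_lt (by unfold nsq; fun_prop) continuous_const
  · exact isOpen_lt continuous_const continuous_fst
  · exact isOpen_lt (by fun_prop) continuous_const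
  · exact isOpen_lt (by fun_prop) continuous_const

theorem Kst_conv (k : ℝ) : Convex ℝ (Kst k) := by
  rintro ⟨x1, x2⟩ ⟨hx1, hx2, hx3, hx4⟩ ⟨y1, y2⟩ ⟨hy1, hy2, hy3, hy4⟩ a b ha hb hab
  simp only [nsq] at hx1 hx2 hx3 hx4 hy1 hy2 hy3 hy4
  have hb' : b = 1 - a := by linarith
  subst hb'
  refine ⟨?_, ?_, ?_, ?_⟩
  · simp only [nsq, Prod.fst_add, Prod.snd_add, Prod.smul_mk, smul_eq_mul]
    have h1 : (a * x1 + (1 - a) * y1) ^ 2 + (a * x2 + (1 - a) * y2) ^ 2 =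
        a * (x1 ^ 2 + x2 ^ 2) + (1 - a) * (y1 ^ 2 + y2 ^ 2) -
          a * (1 - a) * ((x1 - y1) ^ 2 + (x2 - y2) ^ 2) := by ring
    rw [h1]
    have h2 : 0 ≤ a * (1 - a) * ((x1 - y1) ^ 2 + (x2 - y2) ^ 2) := by positivity
    have h3 : a * (x1 ^ 2 + x2 ^ 2) ≤ a * (k ^ 2 + 2 * k + 2) := mul_le_mul_of_nonneg_left hx1 ha
    have h4 : (1 - a) * (y1 ^ 2 + y2 ^ 2) ≤ (1 - a) * (k ^ 2 + 2 * k + 2) :=
      mul_le_mul_of_nonneg_left hy1 hb
    linarith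
  · simp only [Prod.fst_add, Prod.smul_mk, smul_eq_mul]
    have h3 := mul_le_mul_of_nonneg_left hx2 ha
    have h4 := mul_le_mul_of_nonneg_left hy2 hb
    linarith
  · simp only [Prod.fst_add, Prod.snd_add, Prod.smul_mk, smul_eq_mul]
    have h3 := mul_le_mul_of_nonneg_left hx3 ha
    have h4 := mul_le_mul_of_nonneg_left hy3 hb
    linarith
  · simp only [Prod.fst_add, Prod.snd_add, Prod.smul_mk, smul_eq_mul]
    have h3 := mul_le_mul_of_nonneg_left hx4 ha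
    have h4 := mul_le_mul_of_nonneg_left hy4 hb
    linarith

/-- points of the interior satisfy strict inequalities -/
theorem Kst_interior {k : ℝ} {z : ℝ × ℝ} (hz : z ∈ interior (Kst k)) :
    -1 < z.1 ∧ z.1 - z.2 < 1 ∧ k * z.1 + z.2 < 1 := by
  rw [mem_interior_iff_mem_nhds, Metric.mem_nhds_iff] at hz
  obtain ⟨ε, hε, hball⟩ := hz
  have h1 : (z.1 - ε / 2, z.2) ∈ Kst k := by
    apply hball
    rw [Metric.mem_ball, Prod.dist_eq]
    simp only [Real.dist_eq, sub_self, abs_zero]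
    rw [show z.1 - ε / 2 - z.1 = -(ε / 2) by ring, abs_neg, abs_of_pos (by linarith)]
    exact max_lt (by linarith) hε
  have h2 : (z.1 + ε / 2, z.2) ∈ Kst k := by
    apply hball
    rw [Metric.mem_ball, Prod.dist_eq]
    simp only [Real.dist_eq, sub_self, abs_zero]
    rw [show z.1 + ε / 2 - z.1 = (ε / 2) by ring, abs_of_pos (by linarith)]
    exact max_lt (by linarith) hε
  have h3 : (z.1, z.2 + ε / 2) ∈ Kst k := by
    apply hball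
    rw [Metric.mem_ball, Prod.dist_eq]
    simp only [Real.dist_eq, sub_self, abs_zero]
    rw [show z.2 + ε / 2 - z.2 = (ε / 2) by ring, abs_of_pos (by linarith)]
    exact max_lt hε (by linarith)
  have a1 : -1 ≤ z.1 - ε / 2 := h1.2.1
  have a2 : z.1 + ε / 2 - z.2 ≤ 1 := h2.2.2.1
  have a3 : k * z.1 + (z.2 + ε / 2) ≤ 1 := h3.2.2.2
  exact ⟨by linarith, by linarith, by linarith⟩

theorem Kst_bd {k : ℝ} (hk : 0.2 ≤ k) (hk' : k ≤ 0.25) :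
    Bd (Kst k) √(k ^ 2 + 2 * k + 2) := by
  have hc : 0 < k ^ 2 + 2 * k + 2 := by positivity
  have hsq : √(k ^ 2 + 2 * k + 2) ^ 2 = k ^ 2 + 2 * k + 2 := Real.sq_sqrt hc.le
  refine ⟨Real.sqrt_pos.2 hc, Kst_conv k, ?_, ?_, ?_, ?_⟩
  · refine (isCompact_Icc (a := ((-2 : ℝ), (-2 : ℝ))) (b := ((2 : ℝ), (2 : ℝ)))).of_isClosed_subset
      (Kst_closed k) ?_
    rintro ⟨x, y⟩ ⟨h1, -⟩
    simp only [nsq] at h1
    have h4 : x ^ 2 + y ^ 2 ≤ 4 := by nlinarith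
    refine ⟨⟨?_, ?_⟩, ⟨?_, ?_⟩⟩ <;> simp only <;> nlinarith [sq_nonneg x, sq_nonneg y]
  · refine mem_interior.2 ⟨_, Kst_lt_subset k, Kst_lt_open k, ?_⟩
    simp [nsq, hc]
  · intro z hz
    change nsq z ≤ _
    rw [hsq]
    exact hz.1
  · rintro v ⟨m, n, rfl⟩ hv
    obtain ⟨h1, h2, h3⟩ := Kst_interior hv
    simp only at h1 h2 h3
    have hm : (-1 : ℤ) < m := by exact_mod_cast h1
    have hmn : m - n < 1 := by exact_mod_cast h2
    have hm0 : (0 : ℝ) ≤ m := by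
      have : (0 : ℤ) ≤ m := by omega
      exact_mod_cast this
    have hn1 : (n : ℝ) < 1 := by nlinarith
    have hn : n < 1 := by exact_mod_cast hn1
    have e1 : m = 0 := by omega
    have e2 : n = 0 := by omega
    subst e1; subst e2
    simp

theorem Kst_circ {k : ℝ} (hk : 0.2 ≤ k) (hk' : k ≤ 0.25) (c : ℝ × ℝ) (r : ℝ) (hr : 0 ≤ r)
    (h : ∀ z ∈ Kst k, (z.1 - c.1) ^ 2 + (z.2 - c.2) ^ 2 ≤ r ^ 2) : √(k ^ 2 + 2 * k + 2) ≤ r := by
  have hk0 : 0 < k := by linarith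
  have hl0 : 0 ≤ 2 * k ^ 2 + 4 * k + 3 := by positivity
  set l : ℝ := √(2 * k ^ 2 + 4 * k + 3) with hl
  have hlsq : l ^ 2 = 2 * k ^ 2 + 4 * k + 3 := Real.sq_sqrt hl0
  have hl1 : 1 < l := by
    rw [hl]; exact Real.lt_sqrt_of_sq_lt (by nlinarith)
  have hl2 : l * (1 + k) ≤ 3 - k := by
    have hp : 0 ≤ l * (1 + k) := by positivity
    refine le_of_sq_le_sq ?_ (by linarith)
    rw [mul_pow, hlsq]
    nlinarith [mul_nonneg hk0.le hk0.le, mul_nonneg (mul_nonneg hk0.le hk0.le) hk0.le,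
      mul_nonneg (mul_nonneg (mul_nonneg hk0.le hk0.le) hk0.le) (by linarith : 0 ≤ 0.25 - k),
      mul_nonneg (mul_nonneg hk0.le hk0.le) (by linarith : 0 ≤ 0.25 - k),
      mul_nonneg hk0.le (by linarith : 0 ≤ 0.25 - k)]
  have h1 := h (-1, 1 + k) (by
    refine ⟨?_, ?_, ?_, ?_⟩ <;> simp only [nsq] <;> nlinarith)
  have h2 := h (-1, -(1 + k)) (by
    refine ⟨?_, ?_, ?_, ?_⟩ <;> simp only [nsq] <;> nlinarith)
  have h3 := h ((1 + l) / 2, (l - 1) / 2) (by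
    refine ⟨?_, ?_, ?_, ?_⟩ <;> simp only [nsq] <;> nlinarith)
  simp only at h1 h2 h3
  -- the weights
  set w : ℝ := (l - 1) / 2 / (1 + k) with hw
  have hw0 : w * (1 + k) = (l - 1) / 2 := by rw [hw]; field_simp
  have hw1 : 0 ≤ w := by rw [hw]; apply div_nonneg <;> linarith
  have hw2 : w ≤ (l - 1) / 2 := by nlinarith
  have hx1 : 0 ≤ ((1 + l) / 2 - w) / 2 := by linarith
  have hx2 : 0 ≤ ((1 + l) / 2 + w) / 2 := by linarith
  have m1 := mul_le_mul_of_nonneg_left h1 hx1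
  have m2 := mul_le_mul_of_nonneg_left h2 hx2
  have key : ((1 + l) / 2 - w) / 2 * ((-1 - c.1) ^ 2 + (1 + k - c.2) ^ 2) +
      ((1 + l) / 2 + w) / 2 * ((-1 - c.1) ^ 2 + (-(1 + k) - c.2) ^ 2) +
      (((1 + l) / 2 - c.1) ^ 2 + ((l - 1) / 2 - c.2) ^ 2) =
      (1 + (1 + l) / 2) * (k ^ 2 + 2 * k + 2 + (c.1 ^ 2 + c.2 ^ 2)) := by
    have e1 : ((1 + l) / 2 - w) / 2 * ((-1 - c.1) ^ 2 + (1 + k - c.2) ^ 2) +
      ((1 + l) / 2 + w) / 2 * ((-1 - c.1) ^ 2 + (-(1 + k) - c.2) ^ 2) =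
      (1 + l) / 2 * ((1 + c.1) ^ 2 + (1 + k) ^ 2 + c.2 ^ 2) + 2 * (w * (1 + k)) * c.2 := by ring
    rw [e1, hw0]
    have e2 : ((1 + l) / 2 - c.1) ^ 2 + ((l - 1) / 2 - c.2) ^ 2 =
      (1 + l ^ 2) / 2 - (1 + l) * c.1 - (l - 1) * c.2 + c.1 ^ 2 + c.2 ^ 2 := by ring
    rw [e2, hlsq]
    ring
  have hfin : (1 + (1 + l) / 2) * (k ^ 2 + 2 * k + 2 + (c.1 ^ 2 + c.2 ^ 2)) ≤
      (1 + (1 + l) / 2) * r ^ 2 := by
    rw [← key]
    nlinarith
  have hpos : 0 < 1 + (1 + l) / 2 := by linarith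
  have hle := le_of_mul_le_mul_left hfin hpos
  rw [Real.sqrt_le_left hr]
  nlinarith [sq_nonneg c.1, sq_nonneg c.2]

end Pool.Agent.H16.Cef
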