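import Pool.Agent.H16.Cef.Defs

/-!
Module LIT. Half strips: if the circumcentre `0` is only required to be in `K` (not in the interior),
the area is unbounded. `K = {z ∈ disk R : 0 ≤ z.2 ≤ 1}`, `R` large: compact, convex, contains
`(± R, 0)`, so `0` is the centre of the smallest enclosing disk; no lattice point in the interior
(`0 < z.2 < 1` there); area `≥` area of `[-(R-1), R-1] × [0, 1]`, which is contained in `K` for `R ≥ 1`
(`(R-1)² + 1 ≤ R²`).
-/

set_option autoImplicit false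

open MeasureTheory Set

namespace Pool.Agent.H16.Cef

theorem lit_convex_disk (R : ℝ) : Convex ℝ (disk R) := by
  intro x hx y hy a b ha hb hab
  simp only [disk, nsq, mem_ofPred_eq] at hx hy ⊢
  have hb' : b = 1 - a := by linarith
  subst hb'
  simp only [Prod.fst_add, Prod.smul_fst, smul_eq_mul, Prod.snd_add, Prod.smul_snd]
  have h1 : a * (x.1 ^ 2 + x.2 ^ 2) ≤ a * R ^ 2 := mul_le_mul_of_nonneg_left hx ha
  have h2 : (1 - a) * (y.1 ^ 2 + y.2 ^ 2) ≤ (1 - a) * R ^ 2 := mul_le_mul_of_nonneg_left hy hb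
  nlinarith [mul_nonneg (mul_nonneg ha hb) (sq_nonneg (x.1 - y.1)),
    mul_nonneg (mul_nonneg ha hb) (sq_nonneg (x.2 - y.2))]

theorem lit_unbounded (M : ℝ) : ∃ (K : Set (ℝ × ℝ)) (R : ℝ), Convex ℝ K ∧ IsCompact K ∧
    (interior K).Nonempty ∧ 0 ≤ R ∧ K ⊆ disk R ∧
    (∀ (c : ℝ × ℝ) (r : ℝ), 0 ≤ r →
      (∀ z ∈ K, (z.1 - c.1) ^ 2 + (z.2 - c.2) ^ 2 ≤ r ^ 2) → R ≤ r) ∧
    (∀ m n : ℤ, ((m : ℝ), (n : ℝ)) ∉ interior K) ∧ M < (volume K).toReal := by
  set R : ℝ := |M| + 2 with hR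
  have hM0 : 0 ≤ |M| := abs_nonneg M
  have hR2 : 2 ≤ R := by rw [hR]; linarith
  have hMR : M ≤ R - 2 := by rw [hR]; linarith [le_abs_self M]
  set K : Set (ℝ × ℝ) := disk R ∩ (univ ×ˢ Icc (0 : ℝ) 1) with hK
  have hKsub : K ⊆ disk R := inter_subset_left
  have hclosed : IsClosed K := by
    refine IsClosed.inter ?_ (isClosed_univ.prod isClosed_Icc)
    exact isClosed_le (((continuous_fst.pow 2).add (continuous_snd.pow 2))) continuous_const
  have hcomp : IsCompact K := by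
    refine (isCompact_Icc (a := ((-R : ℝ), (-R : ℝ))) (b := ((R : ℝ), (R : ℝ)))).of_isClosed_subset
      hclosed ?_
    rintro ⟨x, y⟩ ⟨h1, -⟩
    simp only [disk, nsq, mem_ofPred_eq] at h1
    have hx : |x| ≤ R := abs_le_of_sq_le_sq (by nlinarith) (by linarith)
    have hy : |y| ≤ R := abs_le_of_sq_le_sq (by nlinarith) (by linarith)
    rw [abs_le] at hx hy
    exact ⟨⟨hx.1, hy.1⟩, ⟨hx.2, hy.2⟩⟩
  have hbox : Icc (-(R - 1)) (R - 1) ×ˢ Icc (0 : ℝ) 1 ⊆ K := by
    rintro ⟨x, y⟩ ⟨⟨h1, h2⟩, h3, h4⟩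
    simp only at h1 h2 h3 h4
    refine ⟨?_, mem_univ _, h3, h4⟩
    simp only [disk, nsq, mem_ofPred_eq]
    nlinarith
  refine ⟨K, R, ?_, hcomp, ?_, by linarith, hKsub, ?_, ?_, ?_⟩
  · exact (lit_convex_disk R).inter (convex_univ.prod (convex_Icc _ _))
  · have h1 : interior (Icc (-(R - 1)) (R - 1) ×ˢ Icc (0 : ℝ) 1) ⊆ interior K :=
      interior_mono hbox
    refine Set.Nonempty.mono h1 ?_
    rw [interior_prod_eq, interior_Icc, interior_Icc]
    exact ⟨(0, 1 / 2), ⟨⟨by simp only; linarith, by simp only; linarith⟩, by norm_num⟩⟩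
  · intro c r hr h
    have h1 := h (R, 0) ⟨by simp [disk, nsq], mem_univ _, by simp⟩
    have h2 := h (-R, 0) ⟨by simp [disk, nsq], mem_univ _, by simp⟩
    simp only at h1 h2
    exact le_of_sq_le_sq (by nlinarith [sq_nonneg c.1, sq_nonneg c.2]) hr
  · intro m n hmn
    have h1 : interior K ⊆ interior (univ ×ˢ Icc (0 : ℝ) 1) := interior_mono inter_subset_right
    have h2 := h1 hmn
    rw [interior_prod_eq, interior_Icc] at h2
    obtain ⟨-, h3, h4⟩ := h2
    simp only at h3 h4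
    have h5 : 0 < n := by exact_mod_cast h3
    have h6 : n < 1 := by exact_mod_cast h4
    omega
  · have h1 : volume (Icc (-(R - 1)) (R - 1) ×ˢ Icc (0 : ℝ) 1) = ENNReal.ofReal (2 * (R - 1)) := by
      rw [Measure.volume_eq_prod, Measure.prod_prod, Real.volume_Icc, Real.volume_Icc,
        ← ENNReal.ofReal_mul (by linarith)]
      congr 1
      ring
    have h2 : volume K ≠ ⊤ := hcomp.measure_lt_top.ne
    have h3 := ENNReal.toReal_mono h2 (measure_mono hbox)
    rw [h1, ENNReal.toReal_ofReal (by linarith)] at h3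
    linarith

end Pool.Agent.H16.Cef
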