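import Pool.Agent.H16.Cef.Union

/-!
Module UBOUND. Lower bounds for the area of `capS R (1,-a) ∪ capS R (s,-1)` for all `a, s > 0`.

If `a ≤ 1` and `s ≤ 1`: `union_caps` and `wedge1 … wedge4`.
If `a > 1`: `volume_capS` for `capS R (1,-a)` alone, `1/√(1+a²) < 1/√2` and `Cap R` is strictly
decreasing (`Cap_sub_ge` gives `Cap R (1/√2) < Cap R (1/√(1+a²))`); same if `s > 1`.
In the second statement: if `a, s ≤ 1` and one of them is `< 1`, `wedge2` gives the surplus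
`0.0201 (τ₁ + τ₂)/4 > 0`.
-/

set_option autoImplicit false

open MeasureTheory Set

namespace Pool.Agent.H16.Cef

theorem ub_fin {R : ℝ} (hR0 : 0 < R) {A : Set (ℝ × ℝ)} (hA : A ⊆ disk R) : volume A ≠ ⊤ := by
  have h := measure_mono (μ := volume) hA
  rw [volume_disk hR0.le] at h
  exact (h.trans_lt ENNReal.ofReal_lt_top).ne

theorem ub_wd_fin {R : ℝ} (hR0 : 0 < R) (a : ℝ) : volume (Wd R a) ≠ ⊤ :=
  ub_fin hR0 (fun _ hz => hz.1)

theorem ub_u_fin {R : ℝ} (hR0 : 0 < R) (a s : ℝ) :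
    volume (capS R (1, -a) ∪ capS R (s, -1)) ≠ ⊤ :=
  ub_fin hR0 (by rintro z (hz | hz) <;> exact hz.1)

/-- real form of `union_caps` -/
theorem ub_union {R a s : ℝ} (hR : 2 < R ^ 2) (hR0 : 0 < R) (ha : 0 < a) (ha1 : a ≤ 1)
    (hs : 0 < s) (hs1 : s ≤ 1) :
    Cap R (1 / √2) + (volume (Wd R a)).toReal + (volume (Wd R s)).toReal ≤
      (volume (capS R (1, -a) ∪ capS R (s, -1))).toReal +
        ((1 - a) / (1 + a) + (1 - s) / (1 + s)) / 4 := by
  have h := union_caps hR hR0 ha ha1 hs hs1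
  have hu := ub_u_fin hR0 a s
  have hfin : volume (capS R (1, -a) ∪ capS R (s, -1)) +
      ENNReal.ofReal (((1 - a) / (1 + a) + (1 - s) / (1 + s)) / 4) ≠ ⊤ :=
    ENNReal.add_ne_top.2 ⟨hu, ENNReal.ofReal_ne_top⟩
  have h2 := ENNReal.toReal_mono hfin h
  have h0 : 0 ≤ ((1 - a) / (1 + a) + (1 - s) / (1 + s)) / 4 := by
    have h1 : 0 ≤ (1 - a) / (1 + a) := div_nonneg (by linarith) (by linarith)
    have h2 : 0 ≤ (1 - s) / (1 + s) := div_nonneg (by linarith) (by linarith)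
    linarith
  rw [ENNReal.toReal_add hu ENNReal.ofReal_ne_top, ENNReal.toReal_ofReal h0,
    ENNReal.toReal_add (ENNReal.add_ne_top.2 ⟨ENNReal.ofReal_ne_top, ub_wd_fin hR0 a⟩)
      (ub_wd_fin hR0 s),
    ENNReal.toReal_add ENNReal.ofReal_ne_top (ub_wd_fin hR0 a), ENNReal.toReal_ofReal'] at h2
  have := le_max_left (Cap R (1 / √2)) 0
  linarith

theorem ub_wd_real {R a x δ : ℝ} (hR0 : 0 < R) (hδ : 0 ≤ δ)
    (h : ENNReal.ofReal x ≤ volume (Wd R a) + ENNReal.ofReal δ) :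
    x ≤ (volume (Wd R a)).toReal + δ := by
  have h2 := ENNReal.toReal_mono (ENNReal.add_ne_top.2 ⟨ub_wd_fin hR0 a, ENNReal.ofReal_ne_top⟩) h
  rw [ENNReal.toReal_add (ub_wd_fin hR0 a) ENNReal.ofReal_ne_top, ENNReal.toReal_ofReal hδ,
    ENNReal.toReal_ofReal'] at h2
  exact (le_max_left _ _).trans h2

theorem ub_cap_lt {R m : ℝ} (hR : 2 < R ^ 2) (hR0 : 0 < R) (hm : 2 < m) :
    Cap R (1 / √2) < Cap R (1 / √m) := by
  have h2 : 0 < √(2 : ℝ) := Real.sqrt_pos.2 (by norm_num)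
  have hm2 : √(2 : ℝ) < √m := Real.sqrt_lt_sqrt (by norm_num) hm
  have hlt : 1 / √m < 1 / √(2 : ℝ) := one_div_lt_one_div_of_lt h2 hm2
  have h1 : (1 : ℝ) ≤ √2 := by
    rw [show (1 : ℝ) = √1 from Real.sqrt_one.symm]
    exact Real.sqrt_le_sqrt (by norm_num)
  have hle1 : 1 / √(2 : ℝ) ≤ 1 := by
    rw [div_le_one h2]
    exact h1
  have hR1 : 1 ≤ R := by nlinarith
  have h := Cap_sub_ge (R := R) (a := 1 / √m) (b := 1 / √2) (by positivity) hlt.le
    (hle1.trans hR1)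
  have h3 : 0 < √(R ^ 2 - (1 / √(2 : ℝ)) ^ 2) := by
    apply Real.sqrt_pos.2
    have : (1 / √(2 : ℝ)) ^ 2 = 1 / 2 := by
      rw [div_pow, Real.sq_sqrt (by norm_num)]
      norm_num
    rw [this]
    linarith
  have h4 : 0 < 2 * (1 / √2 - 1 / √m) * √(R ^ 2 - (1 / √(2 : ℝ)) ^ 2) :=
    mul_pos (by linarith) h3
  linarith

theorem ub_big {R a s : ℝ} (hR : 2 < R ^ 2) (hR0 : 0 < R) (h : 1 < a ∨ 1 < s) :
    Cap R (1 / √2) < (volume (capS R (1, -a) ∪ capS R (s, -1))).toReal := by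
  have key : ∀ n : ℝ × ℝ, 2 < nsq n → capS R n ⊆ capS R (1, -a) ∪ capS R (s, -1) →
      Cap R (1 / √2) < (volume (capS R (1, -a) ∪ capS R (s, -1))).toReal := by
    intro n hn hsub
    have h1 : volume (capS R n) = ENNReal.ofReal (Cap R (1 / √(nsq n))) :=
      volume_capS hR0 (by nlinarith)
    have h2 := ENNReal.toReal_mono (ub_u_fin hR0 a s) (measure_mono (μ := volume) hsub)
    rw [h1, ENNReal.toReal_ofReal'] at h2
    have h3 := ub_cap_lt hR hR0 hn
    exact h3.trans_le ((le_max_left _ _).trans h2)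
  rcases h with h | h
  · refine key (1, -a) ?_ subset_union_left
    simp only [nsq]
    nlinarith
  · refine key (s, -1) ?_ subset_union_right
    simp only [nsq]
    nlinarith

theorem ubound1 {R a s : ℝ} (hR0 : 0 < R) (hR : 5 / 2 ≤ R ^ 2) (ha : 0 < a) (hs : 0 < s) :
    Cap R (1 / √2) ≤ (volume (capS R (1, -a) ∪ capS R (s, -1))).toReal := by
  by_cases hb : 1 < a ∨ 1 < s
  · exact (ub_big (by linarith) hR0 hb).le
  push Not at hb
  have h := ub_union (by linarith) hR0 ha hb.1 hs hb.2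
  have h1 := ub_wd_real (δ := 0) hR0 le_rfl
    ((wedge1 ha hb.1 hR).trans (by simp : volume (Wd R a) ≤ volume (Wd R a) + ENNReal.ofReal 0))
  have h2 := ub_wd_real (δ := 0) hR0 le_rfl
    ((wedge1 hs hb.2 hR).trans (by simp : volume (Wd R s) ≤ volume (Wd R s) + ENNReal.ofReal 0))
  linarith

theorem ubound2 {R a s : ℝ} (hR0 : 0 < R) (hR : 253 / 100 ≤ R ^ 2) (ha : 0 < a) (hs : 0 < s)
    (hne : a ≠ 1 ∨ s ≠ 1) :
    Cap R (1 / √2) < (volume (capS R (1, -a) ∪ capS R (s, -1))).toReal := by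
  by_cases hb : 1 < a ∨ 1 < s
  · exact ub_big (by linarith) hR0 hb
  push Not at hb
  have h := ub_union (by linarith) hR0 ha hb.1 hs hb.2
  have h1 := ub_wd_real (δ := 0) hR0 le_rfl
    ((wedge2 ha hb.1 hR).trans (by simp : volume (Wd R a) ≤ volume (Wd R a) + ENNReal.ofReal 0))
  have h2 := ub_wd_real (δ := 0) hR0 le_rfl
    ((wedge2 hs hb.2 hR).trans (by simp : volume (Wd R s) ≤ volume (Wd R s) + ENNReal.ofReal 0))
  have h3 : 0 ≤ (1 - a) / (1 + a) := div_nonneg (by linarith) (by linarith)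
  have h4 : 0 ≤ (1 - s) / (1 + s) := div_nonneg (by linarith) (by linarith)
  rcases hne with hne | hne
  · have ha1 : a < 1 := lt_of_le_of_ne hb.1 hne
    have h5 : 0 < (1 - a) / (1 + a) := div_pos (by linarith) (by linarith)
    linarith
  · have hs1 : s < 1 := lt_of_le_of_ne hb.2 hne
    have h5 : 0 < (1 - s) / (1 + s) := div_pos (by linarith) (by linarith)
    linarith

theorem lam_mu_nonneg {R : ℝ} (hR' : R ^ 2 ≤ 5 / 2) : 0 ≤ lam R * mu R := by
  apply mul_nonneg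
  · unfold lam
    have : √(2 * R ^ 2 - 1) ≤ 2 := by
      rw [Real.sqrt_le_left (by norm_num)]
      linarith
    linarith
  · unfold mu
    have : √((R ^ 2 - 2) / 2) ≤ 1 / 2 := by
      rw [Real.sqrt_le_left (by norm_num)]
      linarith
    linarith

theorem ubound3 {R a s : ℝ} (hR0 : 0 < R) (hR : 2 < R ^ 2) (hR' : R ^ 2 ≤ 5 / 2) (ha : 0 < a)
    (hs : 0 < s) :
    Cap R (1 / √2) - 2 * (lam R * mu R) ≤ (volume (capS R (1, -a) ∪ capS R (s, -1))).toReal := by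
  have h0 := lam_mu_nonneg hR'
  by_cases hb : 1 < a ∨ 1 < s
  · have := ub_big (by linarith) hR0 hb
    linarith
  push Not at hb
  have h := ub_union (by linarith) hR0 ha hb.1 hs hb.2
  have h1 := ub_wd_real hR0 h0 (wedge3 ha hb.1 hR.le hR')
  have h2 := ub_wd_real hR0 h0 (wedge3 hs hb.2 hR.le hR')
  linarith

theorem ubound4 {R a s : ℝ} (hR0 : 0 < R) (hR : 2 < R ^ 2) (ha : 0 < a) (hs : 0 < s) :
    Cap R (1 / √2) - 0.1044 ≤ (volume (capS R (1, -a) ∪ capS R (s, -1))).toReal := by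
  by_cases hb : 1 < a ∨ 1 < s
  · have := ub_big (by linarith) hR0 hb
    linarith
  push Not at hb
  have h := ub_union (by linarith) hR0 ha hb.1 hs hb.2
  have h1 := ub_wd_real hR0 (by norm_num) (wedge4 ha hb.1 hR.le)
  have h2 := ub_wd_real hR0 (by norm_num) (wedge4 hs hb.2 hR.le)
  linarith

end Pool.Agent.H16.Cef
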