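import Pool.Agent.H16.Cef.MFun
import Pool.Agent.H16.Cef.UBound
import Pool.Agent.H16.Cef.FIdent

/-!
The area bound in the main case, assembled from `mfun`, `ubound1 … ubound4`, `volume_disk`, `volume_capS`,
`F_ident`.
-/

set_option autoImplicit false

open MeasureTheory Set

namespace Pool.Agent.H16.Cef

theorem marea {K : Set (ℝ × ℝ)} {R k : ℝ} (h : Bd K R) {p q r : ℝ × ℝ} (ht : Trip K R p q r)
    (h1 : Oct1 p) (h3 : Oct3 q) (h6 : Oct6 r) (hR : 2 < R ^ 2) (hk : k = √(R ^ 2 - 1) - 1) :
    (5 / 2 ≤ R ^ 2 → (volume K).toReal ≤ F k) ∧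
    (R ^ 2 ≤ 5 / 2 → (volume K).toReal ≤ F k + 2 * (lam R * mu R)) ∧
    ((volume K).toReal ≤ F k + 0.1044) ∧
    (253 / 100 ≤ R ^ 2 → (volume K).toReal = F k → K ⊆ Kst k) := by
  have hRpos := h.pos
  have hk1 : R ^ 2 = k ^ 2 + 2 * k + 2 := by
    have e : √(R ^ 2 - 1) = k + 1 := by rw [hk]; ring
    have := Real.sq_sqrt (show (0 : ℝ) ≤ R ^ 2 - 1 by linarith)
    rw [e] at this
    nlinarith
  have hk0 : 0 ≤ k := by
    have : 1 ≤ √(R ^ 2 - 1) := Real.le_sqrt' one_pos |>.mpr (by linarith)
    linarith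
  obtain ⟨a, s, t, m, ha, hs, hE, hS, hN, hM, d1, d2, d3, hm, hcap, heq⟩ := mfun h ht h1 h3 h6 hR hk
  have hF := F_ident hk0 hk1
  set CN := capS R (t, 1) with hCN
  set CM := capS R m with hCM
  set CU := capS R (1, -a) ∪ capS R (s, -1) with hCU
  have mN : MeasurableSet CN := measurableSet_capS _ _
  have mM : MeasurableSet CM := measurableSet_capS _ _
  have mU : MeasurableSet CU := (measurableSet_capS _ _).union (measurableSet_capS _ _)
  have sub1 : CN ⊆ disk R := fun z hz => hz.1
  have sub2 : CM ⊆ disk R := fun z hz => hz.1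
  have sub3 : CU ⊆ disk R := by
    rintro z (hz | hz)
    · exact hz.1
    · exact hz.1
  have vD := volume_disk h.pos.le
  have nN : nsq (t, 1) = 1 + t ^ 2 := by simp [nsq]; ring
  have hR1 : (1 : ℝ) ≤ R ^ 2 := by linarith
  have vN : volume CN = ENNReal.ofReal (Cap R (1 / √(1 + t ^ 2))) := by
    have := volume_capS h.pos (n := (t, 1)) (by rw [nN]; nlinarith [sq_nonneg t])
    rwa [nN] at this
  have vM : volume CM = ENNReal.ofReal (Cap R (1 / √(nsq m))) :=
    volume_capS h.pos (n := m) (by nlinarith)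
  have finD : volume (disk R) ≠ ⊤ := by rw [vD]; exact ENNReal.ofReal_ne_top
  have finU : volume CU ≠ ⊤ := ne_top_of_le_ne_top finD (measure_mono sub3)
  have finK : volume K ≠ ⊤ := ne_top_of_le_ne_top finD (measure_mono h.sub)
  -- `K` and the three sets are disjoint
  have dK : ∀ n : ℝ × ℝ, (∀ z ∈ K, dt n z ≤ 1) → Disjoint K (capS R n) := by
    intro n hn
    rw [Set.disjoint_left]
    intro z hz hz'
    exact absurd (hn z hz) (not_le.mpr hz'.2)
  have dKN := dK _ hN
  have dKM := dK _ hM
  have dKU : Disjoint K CU := (dK _ hE).union_right (dK _ hS)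
  have htot : volume K + (volume CN + (volume CM + volume CU)) ≤ volume (disk R) := by
    have e1 : volume (CM ∪ CU) = volume CM + volume CU := measure_union d3 mU
    have e2 : volume (CN ∪ (CM ∪ CU)) = volume CN + volume (CM ∪ CU) :=
      measure_union (d1.union_right d2) (mM.union mU)
    have e3 : volume (K ∪ (CN ∪ (CM ∪ CU))) = volume K + volume (CN ∪ (CM ∪ CU)) :=
      measure_union (dKN.union_right (dKM.union_right dKU)) (mN.union (mM.union mU))
    rw [← e1, ← e2, ← e3]
    exact measure_mono (union_subset h.sub (union_subset sub1 (union_subset sub2 sub3)))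
  -- real version
  have capnn : ∀ x : ℝ, 0 < x → x ≤ R → 0 ≤ Cap R x := by
    intro x hx hxR
    have := Cap_sub_ge hx hxR le_rfl
    have e : Cap R R = 0 := by simp [Cap]
    rw [e] at this
    have h0 : 0 ≤ 2 * (R - x) * √(R ^ 2 - R ^ 2) :=
      mul_nonneg (by linarith) (Real.sqrt_nonneg _)
    linarith
  have one_le_R : 1 ≤ R := by nlinarith
  have hN0 : 0 ≤ Cap R (1 / √(1 + t ^ 2)) := by
    have h1t : 1 ≤ √(1 + t ^ 2) := by
      rw [show (1 : ℝ) = √1 by simp]
      exact Real.sqrt_le_sqrt (by simp; positivity)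
    refine capnn _ (by positivity) ?_
    rw [div_le_iff₀ (by linarith)]
    nlinarith
  have hM0 : 0 ≤ Cap R (1 / √(nsq m)) := by
    have h1t : 1 ≤ √(nsq m) := by
      rw [show (1 : ℝ) = √1 by simp]
      exact Real.sqrt_le_sqrt (by simpa using hm)
    refine capnn _ (by positivity) ?_
    rw [div_le_iff₀ (by linarith)]
    nlinarith
  have hreal : (volume K).toReal + (Cap R (1 / √(1 + t ^ 2)) + (Cap R (1 / √(nsq m)) +
      (volume CU).toReal)) ≤ Real.pi * R ^ 2 := by
    have hpi : 0 ≤ Real.pi * R ^ 2 := by positivity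
    have := ENNReal.toReal_mono finD htot
    rw [ENNReal.toReal_add finK (by rw [vN, vM]; finiteness),
      ENNReal.toReal_add (by rw [vN]; finiteness) (by rw [vM]; finiteness),
      ENNReal.toReal_add (by rw [vM]; finiteness) finU, vN, vM, vD,
      ENNReal.toReal_ofReal hN0, ENNReal.toReal_ofReal hM0, ENNReal.toReal_ofReal hpi] at this
    exact this
  refine ⟨?_, ?_, ?_, ?_⟩
  · intro h52
    have := ubound1 h.pos h52 ha hs
    linarith
  · intro h52
    have := ubound3 h.pos hR h52 ha hs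
    linarith
  · have := ubound4 h.pos hR ha hs
    linarith
  · intro h253 hV
    have u1 := ubound1 h.pos (by linarith) ha hs
    have hA : a = 1 ∧ s = 1 := by
      by_contra hne
      have hne' : a ≠ 1 ∨ s ≠ 1 := by tauto
      have := ubound2 h.pos h253 ha hs hne'
      linarith
    have hmt := heq (by linarith)
    obtain ⟨rfl, rfl⟩ := hA
    obtain ⟨hm1, rfl⟩ := hmt
    intro z hz
    have z0 := h.sub hz
    have z1 := hE z hz
    have z2 := hN z hz
    have z3 := hM z hz
    rw [hm1] at z3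
    simp only [dt] at z1 z2 z3
    refine ⟨?_, ?_, ?_, ?_⟩
    · have : nsq z ≤ R ^ 2 := z0
      linarith
    · linarith
    · linarith
    · linarith

end Pool.Agent.H16.Cef
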