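import Pool.Agent.H16.Cef.Basic

/-!
Module MBOUND. Bounds on `R` in the main case (`p` in octant 1, `q` in octant 3, `r` in octant 6).

`Bd.tri` (or `Bd.tri_cr`) for the lattice points
* `(0,1)` and `p, q`: `p.1 q.2 - q.1 p.2 ≤ p.1 - q.1`, i.e. the chord `pq` meets the vertical axis at
  a point `(0, Y)`, `0 < Y ≤ 1`, so the midpoint `m` of the chord (foot of the perpendicular) has
  `nsq m ≤ Y² ≤ 1`: `2 R² + 2 dt p q ≤ 4`;
* `(-1,0)` and `q, r`: in the same way `dt q r ≤ 2 - R²`;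
* `(1,0)` and `(0,-1)` and `r, p`: the chord `rp` meets the axes at `(X, 0)`, `(0, -Y)` with
  `0 < X, Y ≤ 1`, its distance from `0` is `X Y / √(X² + Y²) ≤ 1 / √2`: `dt p r ≤ 1 - R²`.
(For a point `z = λ p + (1 - λ) q` of the line `pq`: `nsq z = nsq m + (λ - 1/2)² nsq (p - q)`.)
Then `0 ≤ nsq (p + q + r) = 3 R² + 2 (dt p q + dt q r + dt p r) ≤ 10 - 3 R²`.
-/

set_option autoImplicit false

open MeasureTheory Set

namespace Pool.Agent.H16.Cef

theorem mbound_aux (p q : ℝ × ℝ) (R t u : ℝ) (np : nsq p = R ^ 2) (nq : nsq q = R ^ 2)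
    (hC : 0 < cr p q) (h : t * (cr p q) ^ 2 ≤ (p.1 - q.1) ^ 2 + (p.2 - q.2) ^ 2) (ht : 0 < t)
    (htu : t * u = 2) : dt p q ≤ u - R ^ 2 := by
  have hD : (p.1 - q.1) ^ 2 + (p.2 - q.2) ^ 2 = 2 * (R ^ 2 - dt p q) := by
    have h1 : (p.1 - q.1) ^ 2 + (p.2 - q.2) ^ 2 = nsq p + nsq q - 2 * dt p q := by
      unfold nsq dt; ring
    rw [h1, np, nq]; ring
  have hC2 : (cr p q) ^ 2 = (R ^ 2 - dt p q) * (R ^ 2 + dt p q) := by
    have h1 : (cr p q) ^ 2 = nsq p * nsq q - (dt p q) ^ 2 := by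
      unfold nsq dt cr; ring
    rw [h1, np, nq]; ring
  have hDpos : 0 ≤ R ^ 2 - dt p q := by
    have : 0 ≤ (p.1 - q.1) ^ 2 + (p.2 - q.2) ^ 2 := by positivity
    linarith
  have hC2pos : 0 < (cr p q) ^ 2 := by positivity
  have hDpos' : 0 < R ^ 2 - dt p q := by
    rcases hDpos.eq_or_lt with h0 | h0
    · rw [hC2, ← h0, zero_mul] at hC2pos
      exact absurd hC2pos (lt_irrefl _)
    · exact h0
  rw [hD, hC2] at h
  have h1 : (R ^ 2 - dt p q) * (t * (R ^ 2 + dt p q)) ≤ (R ^ 2 - dt p q) * 2 := by linarith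
  have h2 : t * (R ^ 2 + dt p q) ≤ 2 := le_of_mul_le_mul_left h1 hDpos'
  rw [← htu] at h2
  have h3 : R ^ 2 + dt p q ≤ u := le_of_mul_le_mul_left h2 ht
  linarith

theorem mbound_dt_comm (p q : ℝ × ℝ) : dt p q = dt q p := by unfold dt; ring

theorem mbound {K : Set (ℝ × ℝ)} {R : ℝ} (h : Bd K R) {p q r : ℝ × ℝ} (ht : Trip K R p q r)
    (h1 : Oct1 p) (h3 : Oct3 q) (h6 : Oct6 r) (hR : 2 < R ^ 2) :
    dt p q ≤ 2 - R ^ 2 ∧ dt q r ≤ 2 - R ^ 2 ∧ dt p r ≤ 1 - R ^ 2 ∧ R ^ 2 ≤ 10 / 3 := by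
  obtain ⟨hp2, hp1⟩ := h1
  obtain ⟨hq1, hq2⟩ := h3
  obtain ⟨hr2, hr1⟩ := h6
  have hp1' : 0 < p.1 := by linarith
  have hq2' : 0 < q.2 := by linarith
  have hr2' : r.2 < 0 := by linarith
  have lat01 : Lat ((0 : ℝ), (1 : ℝ)) := ⟨0, 1, by simp⟩
  have latm10 : Lat ((-1 : ℝ), (0 : ℝ)) := ⟨-1, 0, by simp⟩
  have lat10 : Lat ((1 : ℝ), (0 : ℝ)) := ⟨1, 0, by simp⟩
  have lat0m1 : Lat ((0 : ℝ), (-1 : ℝ)) := ⟨0, -1, by simp⟩
  have ne1 : ((0 : ℝ), (1 : ℝ)) ≠ 0 := fun h => one_ne_zero (congrArg Prod.snd h)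
  have ne2 : ((-1 : ℝ), (0 : ℝ)) ≠ 0 := fun h => by
    have := congrArg Prod.fst h
    norm_num at this
  have ne3 : ((1 : ℝ), (0 : ℝ)) ≠ 0 := fun h => one_ne_zero (congrArg Prod.fst h)
  have ne4 : ((0 : ℝ), (-1 : ℝ)) ≠ 0 := fun h => by
    have := congrArg Prod.snd h
    norm_num at this
  have cpq : 0 < cr p q := by
    unfold cr
    have h1 : 0 < p.1 * q.2 := mul_pos hp1' hq2'
    have h2 : p.2 * q.1 < 0 := mul_neg_of_pos_of_neg hp2 hq1
    linarith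
  have cqr : 0 < cr q r := by
    unfold cr
    have h1 : 0 < q.1 * r.2 := mul_pos_of_neg_of_neg hq1 hr2'
    have h2 : q.2 * r.1 < 0 := mul_neg_of_pos_of_neg hq2' hr1
    linarith
  have crp : 0 < cr r p := by
    obtain ⟨a, b, c, ha, hb, hc, habc⟩ := ht.bal
    have e1 : a * p.1 + b * q.1 + c * r.1 = 0 := by
      have := congrArg Prod.fst habc
      simpa using this
    have e2 : a * p.2 + b * q.2 + c * r.2 = 0 := by
      have := congrArg Prod.snd habc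
      simpa using this
    have e3 : a * cr r p = b * cr q r := by
      unfold cr
      linear_combination r.1 * e2 - r.2 * e1
    have e4 : 0 < b * cr q r := mul_pos hb cqr
    rw [← e3] at e4
    exact (mul_pos_iff_of_pos_left ha).mp e4
  have A1 : dt p q ≤ 2 - R ^ 2 := by
    have k := h.tri_cr (v := ((0 : ℝ), (1 : ℝ))) ht.hp ht.hq lat01 ne1 cpq
      (by simp only [cr]; linarith) (by simp only [cr]; linarith)
    have k1 : cr p q ≤ p.1 - q.1 := by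
      have e : cr ((0 : ℝ), (1 : ℝ)) q + cr p ((0 : ℝ), (1 : ℝ)) = p.1 - q.1 := by
        simp only [cr]; ring
      linarith
    refine mbound_aux p q R 1 2 ht.np ht.nq cpq ?_ one_pos (by norm_num)
    have k2 : (cr p q) ^ 2 ≤ (p.1 - q.1) ^ 2 := pow_le_pow_left₀ cpq.le k1 2
    nlinarith [sq_nonneg (p.2 - q.2)]
  have A2 : dt q r ≤ 2 - R ^ 2 := by
    have k := h.tri_cr (v := ((-1 : ℝ), (0 : ℝ))) ht.hq ht.hr latm10 ne2 cqr
      (by simp only [cr]; linarith) (by simp only [cr]; linarith)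
    have k1 : cr q r ≤ q.2 - r.2 := by
      have e : cr ((-1 : ℝ), (0 : ℝ)) r + cr q ((-1 : ℝ), (0 : ℝ)) = q.2 - r.2 := by
        simp only [cr]; ring
      linarith
    refine mbound_aux q r R 1 2 ht.nq ht.nr cqr ?_ one_pos (by norm_num)
    have k2 : (cr q r) ^ 2 ≤ (q.2 - r.2) ^ 2 := pow_le_pow_left₀ cqr.le k1 2
    nlinarith [sq_nonneg (q.1 - r.1)]
  have A3 : dt r p ≤ 1 - R ^ 2 := by
    have k := h.tri_cr (v := ((1 : ℝ), (0 : ℝ))) ht.hr ht.hp lat10 ne3 crp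
      (by simp only [cr]; linarith) (by simp only [cr]; linarith)
    have k' := h.tri_cr (v := ((0 : ℝ), (-1 : ℝ))) ht.hr ht.hp lat0m1 ne4 crp
      (by simp only [cr]; linarith) (by simp only [cr]; linarith)
    have k1 : cr r p ≤ p.2 - r.2 := by
      have e : cr ((1 : ℝ), (0 : ℝ)) p + cr r ((1 : ℝ), (0 : ℝ)) = p.2 - r.2 := by
        simp only [cr]; ring
      linarith
    have k1' : cr r p ≤ p.1 - r.1 := by
      have e : cr ((0 : ℝ), (-1 : ℝ)) p + cr r ((0 : ℝ), (-1 : ℝ)) = p.1 - r.1 := by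
        simp only [cr]; ring
      linarith
    refine mbound_aux r p R 2 1 ht.nr ht.np crp ?_ two_pos (by norm_num)
    have k2 : (cr r p) ^ 2 ≤ (p.2 - r.2) ^ 2 := pow_le_pow_left₀ crp.le k1 2
    have k2' : (cr r p) ^ 2 ≤ (p.1 - r.1) ^ 2 := pow_le_pow_left₀ crp.le k1' 2
    nlinarith
  rw [mbound_dt_comm r p] at A3
  refine ⟨A1, A2, A3, ?_⟩
  have hs : 0 ≤ nsq p + nsq q + nsq r + 2 * (dt p q + dt q r + dt p r) := by
    have e : nsq p + nsq q + nsq r + 2 * (dt p q + dt q r + dt p r) =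
        (p.1 + q.1 + r.1) ^ 2 + (p.2 + q.2 + r.2) ^ 2 := by
      unfold nsq dt; ring
    rw [e]; positivity
  rw [ht.np, ht.nq, ht.nr] at hs
  linarith

end Pool.Agent.H16.Cef
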