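import Pool.Agent.H16.Cef.Supp

/-!
Module MDISJ. Pure inequalities: the caps beyond the four supporting lines are disjoint.

Data: contact points `p` (octant 1), `q` (octant 3), `r` (octant 6) of norm `R`, `2 < R²`,
`dt p q ≤ 0`; write `p = (x1, y1)`, `q = (-x2, y2)`, `r = (-x3, -y3)` with
`x1 > y1 > 0`, `y2 > x2 > 0`, `y3 > x3 > 0`, so `x1, y2, y3 > 1`. Lines
`E = (1, -a)`, `S = (s, -1)`, `N = (t, 1)` with `a, s, t > 0`; all three functionals are `≤ 1` at
`p, q, r`. From `N` at `p`: `t ≤ (1 - y1)/x1 < 1`.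
All disjointness statements follow from `disj_caps`:
* `E, N` by `p`: `α = (x1 - t y1)/(1 + a t)` (for `E`), `β = (y1 + a x1)/(1 + a t)`.
* `S, N` by `p`: `α = (x1 - t y1)/(s + t)` (for `S`), `β = y1 + α`.
* case `W = (-1, w)` (`≤ 1` at `p, q, r`): `w > -1/y3 > -1` (from `r`), `w ≤ (1 - x2)/y2` (from `q`).
  `N, W` by `q`: `α = (y2 - w x2)/(1 + t w)`, `β = (t y2 + x2)/(1 + t w)`, `1 + t w > 0` as `t < 1`.
  `W, S` by `r`: `β = (y3 + w x3)/(1 - w s)` (for `S`), `α = x3 + β s`; `1 - w s > 0`: clear if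
  `w ≤ 0`; if `w > 0` use `w ≤ (1 - x2)/y2`, `s ≤ (1 + y1)/x1` (from `S` at `p`) and
  `y1 y2 ≤ x1 x2` (this is `dt p q ≤ 0`): with `μ = y1/x1 ≤ ν = x2/y2 ≤ 1`:
  `(1 + y1)(1 - x2) = (1 + μ x1)(1 - ν y2) ≤ (1 + ν x1)(1 - ν y2) < x1 y2`, the last because
  `x1 y2 - ν x1 + ν y2 + ν² x1 y2 - 1 ≥ (1 + ν)(y2 - 1) + ν² x1 y2 > 0` (using `x1 ≥ 1`, `y2 > ν`).
  `W, E`: if `a > w` by `r`: `β = (y3 + w x3)/(a - w)` (for `E`), `α = x3 + β`; if `a < w` by `p`:
  `β = (y1 + a x1)/(w - a)` (for `W`), `α = x1 + β` (for `E`); if `a = w` the two functionals are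
  opposite.
* case `U = (-1/(1-g), -g/(1-g))` with `0 ≤ g < 1` (`≤ 1` at `q`, `r`):
  `N, U` by `q` (with `n_U = (1-g) U = (-1,-g)`): `α = (y2 + g x2)/(1 - g t)`, `β' = α t + x2`;
  `U, S` by `r`: `β = (y3 - g x3)/(1 + g s)` (for `S`), `α' = x3 + β s`;
  `U, E` by `r`: `β = (y3 - g x3)/(g + a)` (for `E`), `α' = x3 + β`. (`α', β'` are the coefficients of
  `(-1,-g)`, multiply by `1 - g` to get those of `U`.)
-/

set_option autoImplicit false

open MeasureTheory Set

namespace Pool.Agent.H16.Cef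

/-- `disj_caps` in coordinates -/
theorem mdj_caps {R : ℝ} {p n₁ n₂ : ℝ × ℝ} (np : nsq p = R ^ 2) (h1 : dt n₁ p ≤ 1)
    (h2 : dt n₂ p ≤ 1) (α β : ℝ) (hα : 0 ≤ α) (hβ : 0 ≤ β) (hαβ : 0 < α + β)
    (e1 : p.1 = α * n₁.1 + β * n₂.1) (e2 : p.2 = α * n₁.2 + β * n₂.2) :
    Disjoint (capS R n₁) (capS R n₂) := by
  refine disj_caps np h1 h2 hα hβ hαβ ?_
  ext
  · simpa using e1
  · simpa using e2

/-- opposite functionals -/
theorem mdj_opp {R : ℝ} {n₁ n₂ : ℝ × ℝ} (e1 : n₂.1 = -n₁.1) (e2 : n₂.2 = -n₁.2) :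
    Disjoint (capS R n₁) (capS R n₂) := by
  rw [Set.disjoint_left]
  rintro z ⟨_, hz1⟩ ⟨_, hz2⟩
  unfold dt at hz1 hz2
  rw [e1, e2] at hz2
  linarith

/-- the four functionals are at most 1 at the three contact points -/
def Le1 (n p q r : ℝ × ℝ) : Prop := dt n p ≤ 1 ∧ dt n q ≤ 1 ∧ dt n r ≤ 1

theorem mdj_gt_one {R x y : ℝ} (hR : 2 < R ^ 2) (h : x ^ 2 + y ^ 2 = R ^ 2) (hy : 0 < y)
    (hxy : y < x) : 1 < x := by
  nlinarith

theorem mdj_EN {R a t : ℝ} {p : ℝ × ℝ} (np : nsq p = R ^ 2) (h1 : Oct1 p) (ha : 0 < a)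
    (ht : 0 < t) (ht1 : t < 1) (hE : dt (1, -a) p ≤ 1) (hN : dt (t, 1) p ≤ 1) :
    Disjoint (capS R (t, 1)) (capS R (1, -a)) := by
  obtain ⟨x1, y1⟩ := p
  obtain ⟨h1a, h1b⟩ := h1
  simp only at h1a h1b
  have hd : 0 < 1 + a * t := by positivity
  have hn : 0 < x1 - t * y1 := by nlinarith
  have hm : 0 < y1 + a * x1 := by
    have : 0 < a * x1 := mul_pos ha (by linarith)
    linarith
  have hβ : 0 < (y1 + a * x1) / (1 + a * t) := div_pos hm hd
  have hα : 0 < (x1 - t * y1) / (1 + a * t) := div_pos hn hd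
  refine mdj_caps np hN hE ((y1 + a * x1) / (1 + a * t)) ((x1 - t * y1) / (1 + a * t)) hβ.le hα.le
    (by linarith) ?_ ?_
  · simp only
    field_simp
    ring
  · simp only
    field_simp
    ring

theorem mdj_SN {R s t : ℝ} {p : ℝ × ℝ} (np : nsq p = R ^ 2) (h1 : Oct1 p) (hs : 0 < s)
    (ht : 0 < t) (ht1 : t < 1) (hS : dt (s, -1) p ≤ 1) (hN : dt (t, 1) p ≤ 1) :
    Disjoint (capS R (t, 1)) (capS R (s, -1)) := by
  obtain ⟨x1, y1⟩ := p
  obtain ⟨h1a, h1b⟩ := h1
  simp only at h1a h1b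
  have hd : 0 < s + t := by positivity
  have hn : 0 < x1 - t * y1 := by nlinarith
  have hα : 0 < (x1 - t * y1) / (s + t) := div_pos hn hd
  refine mdj_caps np hN hS (y1 + (x1 - t * y1) / (s + t)) ((x1 - t * y1) / (s + t))
    (by linarith) hα.le (by linarith) ?_ ?_
  · simp only
    field_simp
    ring
  · simp only
    ring

theorem disj_W {R a s t w : ℝ} {p q r : ℝ × ℝ} (hR : 2 < R ^ 2) (np : nsq p = R ^ 2)
    (nq : nsq q = R ^ 2) (nr : nsq r = R ^ 2) (h1 : Oct1 p) (h3 : Oct3 q) (h6 : Oct6 r)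
    (hpq : dt p q ≤ 0) (ha : 0 < a) (hs : 0 < s) (ht : 0 < t)
    (hE : Le1 (1, -a) p q r) (hS : Le1 (s, -1) p q r) (hN : Le1 (t, 1) p q r)
    (hW : Le1 (-1, w) p q r) :
    Disjoint (capS R (t, 1)) (capS R (-1, w)) ∧
    Disjoint (capS R (t, 1)) (capS R (1, -a) ∪ capS R (s, -1)) ∧
    Disjoint (capS R (-1, w)) (capS R (1, -a) ∪ capS R (s, -1)) := by
  obtain ⟨hEp, hEq, hEr⟩ := hE
  obtain ⟨hSp, hSq, hSr⟩ := hS
  obtain ⟨hNp, hNq, hNr⟩ := hN
  obtain ⟨hWp, hWq, hWr⟩ := hW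
  have h1' := h1
  obtain ⟨h1a, h1b⟩ := h1
  have hx1 : 1 < p.1 := mdj_gt_one hR np h1a h1b
  have ht1 : t < 1 := by
    have : t * p.1 + 1 * p.2 ≤ 1 := hNp
    by_contra hcon
    nlinarith
  obtain ⟨h3a, h3b⟩ := h3
  obtain ⟨h6a, h6b⟩ := h6
  have hy2 : 1 < q.2 := mdj_gt_one hR (x := q.2) (y := -q.1) (by rw [← nq]; unfold nsq; ring)
    (by linarith) h3b
  have hy3 : 1 < -r.2 := mdj_gt_one hR (x := -r.2) (y := -r.1) (by rw [← nr]; unfold nsq; ring)
    (by linarith) (by linarith)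
  have hw1 : -1 < w := by
    have : -1 * r.1 + w * r.2 ≤ 1 := hWr
    by_contra hcon
    nlinarith
  have hw2 : w < 1 := by
    have : -1 * q.1 + w * q.2 ≤ 1 := hWq
    by_contra hcon
    nlinarith
  refine ⟨?_, ?_, ?_⟩
  · have hd : 0 < 1 + t * w := by nlinarith
    have hd' : 1 + w * t ≠ 0 := by rw [mul_comm]; exact hd.ne'
    have hn : 0 < q.2 + w * q.1 := by nlinarith
    have hm : 0 < t * q.2 - q.1 := by nlinarith
    have hα : 0 < (q.2 + w * q.1) / (1 + t * w) := div_pos hn hd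
    have hβ : 0 < (t * q.2 - q.1) / (1 + t * w) := div_pos hm hd
    refine mdj_caps nq hNq hWq ((q.2 + w * q.1) / (1 + t * w)) ((t * q.2 - q.1) / (1 + t * w))
      hα.le hβ.le (by linarith) ?_ ?_
    · simp only
      field_simp
      ring
    · simp only
      field_simp
      ring
  · rw [Set.disjoint_union_right]
    exact ⟨mdj_EN np h1' ha ht ht1 hEp hNp, mdj_SN np h1' hs ht ht1 hSp hNp⟩
  · rw [Set.disjoint_union_right]
    have hn : 0 < -r.2 - w * r.1 := by nlinarith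
    constructor
    · rcases lt_trichotomy a w with haw | haw | haw
      · have hd : 0 < w - a := by linarith
        have hd' : w - a ≠ 0 := hd.ne'
        have hm : 0 < p.2 + a * p.1 := by nlinarith
        have hβ : 0 < (p.2 + a * p.1) / (w - a) := div_pos hm hd
        refine mdj_caps np hWp hEp ((p.2 + a * p.1) / (w - a)) (p.1 + (p.2 + a * p.1) / (w - a))
          hβ.le (by linarith) (by linarith) ?_ ?_
        · simp only
          ring
        · simp only
          field_simp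
          ring
      · exact mdj_opp (by simp) (by simp [haw])
      · have hd : 0 < a - w := by linarith
        have hd' : a - w ≠ 0 := hd.ne'
        have hβ : 0 < (-r.2 - w * r.1) / (a - w) := div_pos hn hd
        refine mdj_caps nr hWr hEr (-r.1 + (-r.2 - w * r.1) / (a - w))
          ((-r.2 - w * r.1) / (a - w)) (by linarith) hβ.le (by linarith) ?_ ?_
        · simp only
          ring
        · simp only
          field_simp
          ring
    · have hd : 0 < 1 - w * s := by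
        rcases le_or_gt w 0 with hw0 | hw0
        · have : w * s ≤ 0 := mul_nonpos_of_nonpos_of_nonneg hw0 hs.le
          linarith
        · have k1 : -1 * q.1 + w * q.2 ≤ 1 := hWq
          have k2 : s * p.1 + -1 * p.2 ≤ 1 := hSp
          have k3 : p.1 * q.1 + p.2 * q.2 ≤ 0 := hpq
          -- `x2 = - q.1`
          set x2 := -q.1 with hx2
          have hq1 : q.1 = -x2 := by simp [hx2]
          rw [hq1] at k1 k3 h3a
          have k4 : 0 < w * q.2 := by positivity
          have k5 : x2 < 1 := by linarith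
          have k6 : p.2 ≤ p.1 * x2 := by
            have := mul_le_mul_of_nonneg_left hy2.le h1a.le
            linarith
          have k7 : (1 + p.2) * (1 - x2) ≤ (p.1 + p.1 * x2) * (1 - x2) :=
            mul_le_mul_of_nonneg_right (by linarith) (by linarith)
          have k8 : (p.1 + p.1 * x2) * (1 - x2) = p.1 - p.1 * x2 ^ 2 := by ring
          have k9 : 0 < p.1 * x2 ^ 2 := by
            have : 0 < x2 := by linarith
            positivity
          have k10 : (w * q.2) * (s * p.1) ≤ (1 - x2) * (1 + p.2) :=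
            mul_le_mul (by linarith) (by linarith) (by positivity) (by linarith)
          have k11 : (w * q.2) * (s * p.1) < p.1 := by linarith
          have k12 : (w * s) * q.2 < 1 := by
            have : ((w * s) * q.2) * p.1 < 1 * p.1 := by linarith
            exact lt_of_mul_lt_mul_right this (by linarith)
          have k13 : 0 < w * s := by positivity
          have k14 : w * s * 1 ≤ w * s * q.2 := mul_le_mul_of_nonneg_left hy2.le k13.le
          linarith
      have hd' : 1 - w * s ≠ 0 := hd.ne'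
      have hβ : 0 < (-r.2 - w * r.1) / (1 - w * s) := div_pos hn hd
      have hβs : 0 < (-r.2 - w * r.1) / (1 - w * s) * s := mul_pos hβ hs
      refine mdj_caps nr hWr hSr (-r.1 + (-r.2 - w * r.1) / (1 - w * s) * s)
        ((-r.2 - w * r.1) / (1 - w * s)) (by linarith) hβ.le (by linarith) ?_ ?_
      · simp only
        ring
      · simp only
        field_simp
        ring

theorem disj_U {R a s t g : ℝ} {p q r : ℝ × ℝ} (hR : 2 < R ^ 2) (np : nsq p = R ^ 2)
    (nq : nsq q = R ^ 2) (nr : nsq r = R ^ 2) (h1 : Oct1 p) (h3 : Oct3 q) (h6 : Oct6 r)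
    (hpq : dt p q ≤ 0) (ha : 0 < a) (hs : 0 < s) (ht : 0 < t)
    (hE : Le1 (1, -a) p q r) (hS : Le1 (s, -1) p q r) (hN : Le1 (t, 1) p q r)
    (hg : 0 ≤ g) (hg1 : g < 1) (hU : Le1 (-1 / (1 - g), -g / (1 - g)) p q r) :
    Disjoint (capS R (t, 1)) (capS R (-1 / (1 - g), -g / (1 - g))) ∧
    Disjoint (capS R (t, 1)) (capS R (1, -a) ∪ capS R (s, -1)) ∧
    Disjoint (capS R (-1 / (1 - g), -g / (1 - g))) (capS R (1, -a) ∪ capS R (s, -1)) := by
  obtain ⟨hEp, hEq, hEr⟩ := hE
  obtain ⟨hSp, hSq, hSr⟩ := hS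
  obtain ⟨hNp, hNq, hNr⟩ := hN
  obtain ⟨hUp, hUq, hUr⟩ := hU
  have h1' := h1
  obtain ⟨h1a, h1b⟩ := h1
  have hx1 : 1 < p.1 := mdj_gt_one hR np h1a h1b
  have ht1 : t < 1 := by
    have : t * p.1 + 1 * p.2 ≤ 1 := hNp
    by_contra hcon
    nlinarith
  obtain ⟨h3a, h3b⟩ := h3
  obtain ⟨h6a, h6b⟩ := h6
  have hgg : 0 < 1 - g := by linarith
  refine ⟨?_, ?_, ?_⟩
  · have hd : 0 < 1 - g * t := by nlinarith
    have hd' : 1 - g * t ≠ 0 := hd.ne'
    have hgg' : 1 - g ≠ 0 := hgg.ne'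
    have hn : 0 < q.2 - g * q.1 := by nlinarith
    have hα : 0 < (q.2 - g * q.1) / (1 - g * t) := div_pos hn hd
    have hβ : 0 < (1 - g) * ((q.2 - g * q.1) / (1 - g * t) * t - q.1) := by
      refine mul_pos hgg ?_
      have : 0 < (q.2 - g * q.1) / (1 - g * t) * t := mul_pos hα ht
      linarith
    refine mdj_caps nq hNq hUq ((q.2 - g * q.1) / (1 - g * t))
      ((1 - g) * ((q.2 - g * q.1) / (1 - g * t) * t - q.1)) hα.le hβ.le (by linarith) ?_ ?_
    · simp only
      field_simp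
      ring
    · simp only
      field_simp
      ring
  · rw [Set.disjoint_union_right]
    exact ⟨mdj_EN np h1' ha ht ht1 hEp hNp, mdj_SN np h1' hs ht ht1 hSp hNp⟩
  · rw [Set.disjoint_union_right]
    have hn : 0 < -r.2 + g * r.1 := by nlinarith
    constructor
    · have hd : 0 < g + a := by linarith
      have hd' : g + a ≠ 0 := hd.ne'
      have hgg' : 1 - g ≠ 0 := hgg.ne'
      have hβ : 0 < (-r.2 + g * r.1) / (g + a) := div_pos hn hd
      have hα : 0 < (1 - g) * (-r.1 + (-r.2 + g * r.1) / (g + a)) := mul_pos hgg (by linarith)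
      refine mdj_caps nr hUr hEr ((1 - g) * (-r.1 + (-r.2 + g * r.1) / (g + a)))
        ((-r.2 + g * r.1) / (g + a)) hα.le hβ.le (by linarith) ?_ ?_
      · simp only
        field_simp
        ring
      · simp only
        field_simp
        ring
    · have hd : 0 < 1 + g * s := by positivity
      have hd' : 1 + g * s ≠ 0 := hd.ne'
      have hgg' : 1 - g ≠ 0 := hgg.ne'
      have hβ : 0 < (-r.2 + g * r.1) / (1 + g * s) := div_pos hn hd
      have hβs : 0 < (-r.2 + g * r.1) / (1 + g * s) * s := mul_pos hβ hs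
      have hα : 0 < (1 - g) * (-r.1 + (-r.2 + g * r.1) / (1 + g * s) * s) :=
        mul_pos hgg (by linarith)
      refine mdj_caps nr hUr hSr ((1 - g) * (-r.1 + (-r.2 + g * r.1) / (1 + g * s) * s))
        ((-r.2 + g * r.1) / (1 + g * s)) hα.le hβ.le (by linarith) ?_ ?_
      · simp only
        field_simp
        ring
      · simp only
        field_simp
        ring

end Pool.Agent.H16.Cef
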