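import Pool.Agent.H16.Cef.Basic
import Pool.Agent.H16.Cef.MBound
import Pool.Agent.H16.Cef.MDisj
import Pool.Agent.H16.Cef.CapIneq

/-!
Module MFUN. The supporting functionals in the main case.

The lattice points `(1,0), (0,-1), (0,1), (-1,0)` are not in `interior K` (`h.lat`); `supp` gives
functionals `(1, -a)`, `(s, -1)`, `(t, 1)`, `(-1, w)` which are `≤ 1` on `K`. Write
`p = (x1, y1)`, `q = (-x2, y2)`, `r = (-x3, -y3)`, all norms are `R > √2`, so `x1, y2, y3 > 1`.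
Then `a ≥ (x1 - 1)/y1 > 0`, `s ≥ (y3 - 1)/x3 > 0`, `t ≥ (y2 - 1)/x2 > 0`.
`mbound` gives `dt p q ≤ 2 - R² ≤ 0` and `R² ≤ 10/3`.
* `x2 ≤ 1`: `y2 ≥ √(R²-1) = k + 1`, so `t ≥ k`. `m = (-1, w)`, `disj_W`. `1/√(1+t²) ≤ 1/√(1+k²)`,
  `1/√(1+w²) ≤ 1 < R`; `Cap R` is strictly decreasing (`Cap_sub_ge`): the inequality, with equality only
  for `t = k`, `w = 0`.
* `x2 > 1`: `(-1, 1)` is a lattice point, `supp` gives `m` with `-m.1 + m.2 = 1`; from
  `dt m q ≤ 1`: `m.1 ≤ -(y2 - 1)/(y2 - x2) < 0`. Put `g = 1 + 1/m.1`; then `g < 1`,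
  `g ≥ (x2 - 1)/(y2 - 1) > 0`, `m = (-1/(1-g), -g/(1-g))`, `nsq m = (1+g²)/(1-g)²`. `disj_U` and
  `cap_ineq` (strict).
-/

set_option autoImplicit false

open MeasureTheory Set

namespace Pool.Agent.H16.Cef

theorem Cap_anti {R a b : ℝ} (hR : 1 < R) (ha : 0 < a) (hab : a ≤ b) (hb : b ≤ 1) :
    Cap R b ≤ Cap R a ∧ (Cap R a = Cap R b → a = b) := by
  have h1 := Cap_sub_ge (R := R) ha hab (by linarith)
  have h2 : 0 < √(R ^ 2 - b ^ 2) := by
    apply Real.sqrt_pos.mpr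
    have : 0 < b := by linarith
    nlinarith
  constructor
  · have : 0 ≤ 2 * (b - a) * √(R ^ 2 - b ^ 2) := by
      apply mul_nonneg _ h2.le
      linarith
    linarith
  · intro he
    by_contra hne
    have hlt : a < b := lt_of_le_of_ne hab hne
    have : 0 < 2 * (b - a) * √(R ^ 2 - b ^ 2) := by
      apply mul_pos _ h2
      linarith
    linarith

theorem inv_sqrt_anti {u v : ℝ} (huv : u ^ 2 ≤ v ^ 2) : 1 / √(1 + v ^ 2) ≤ 1 / √(1 + u ^ 2) := by
  apply one_div_le_one_div_of_le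
  · apply Real.sqrt_pos.mpr
    positivity
  · apply Real.sqrt_le_sqrt
    linarith

theorem inv_sqrt_inj {u v : ℝ} (h : 1 / √(1 + v ^ 2) = 1 / √(1 + u ^ 2)) : v ^ 2 = u ^ 2 := by
  have h1 : √(1 + v ^ 2) = √(1 + u ^ 2) := by
    have := congrArg (fun x => 1 / x) h
    simpa using this
  have h2 : (1 + v ^ 2) = (1 + u ^ 2) := by
    have h3 : √(1 + v ^ 2) ^ 2 = √(1 + u ^ 2) ^ 2 := by rw [h1]
    rwa [Real.sq_sqrt (by positivity), Real.sq_sqrt (by positivity)] at h3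
  linarith

theorem inv_sqrt_pos (u : ℝ) : 0 < 1 / √(1 + u ^ 2) := by
  apply one_div_pos.mpr
  apply Real.sqrt_pos.mpr
  positivity

theorem inv_sqrt_le_one (u : ℝ) : 1 / √(1 + u ^ 2) ≤ 1 := by
  rw [div_le_one (by apply Real.sqrt_pos.mpr; positivity)]
  rw [Real.one_le_sqrt]
  nlinarith [sq_nonneg u]

theorem not_int_of_lat {K : Set (ℝ × ℝ)} {R : ℝ} (h : Bd K R) (m n : ℤ) (hmn : m ≠ 0 ∨ n ≠ 0) :
    ((m : ℝ), (n : ℝ)) ∉ interior K := by
  intro hh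
  have := h.lat _ ⟨m, n, rfl⟩ hh
  have h1 := congrArg Prod.fst this
  have h2 := congrArg Prod.snd this
  simp at h1 h2
  rcases hmn with h | h
  · exact h h1
  · exact h h2

theorem mfun {K : Set (ℝ × ℝ)} {R k : ℝ} (h : Bd K R) {p q r : ℝ × ℝ} (ht : Trip K R p q r)
    (h1 : Oct1 p) (h3 : Oct3 q) (h6 : Oct6 r) (hR : 2 < R ^ 2) (hk : k = √(R ^ 2 - 1) - 1) :
    ∃ (a s t : ℝ) (m : ℝ × ℝ), 0 < a ∧ 0 < s ∧
      (∀ z ∈ K, dt (1, -a) z ≤ 1) ∧ (∀ z ∈ K, dt (s, -1) z ≤ 1) ∧ (∀ z ∈ K, dt (t, 1) z ≤ 1) ∧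
      (∀ z ∈ K, dt m z ≤ 1) ∧
      Disjoint (capS R (t, 1)) (capS R m) ∧
      Disjoint (capS R (t, 1)) (capS R (1, -a) ∪ capS R (s, -1)) ∧
      Disjoint (capS R m) (capS R (1, -a) ∪ capS R (s, -1)) ∧
      1 ≤ nsq m ∧
      Cap R 1 + Cap R (1 / √(1 + k ^ 2)) ≤ Cap R (1 / √(nsq m)) + Cap R (1 / √(1 + t ^ 2)) ∧
      (Cap R (1 / √(nsq m)) + Cap R (1 / √(1 + t ^ 2)) = Cap R 1 + Cap R (1 / √(1 + k ^ 2)) →
        m = (-1, 0) ∧ t = k) := by
  obtain ⟨hpq, hqr, hpr, hR3⟩ := mbound h ht h1 h3 h6 hR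
  have hRpos := h.pos
  have hR1 : 1 < R := by nlinarith
  have np := ht.np
  have nq := ht.nq
  have nr := ht.nr
  obtain ⟨h1a, h1b⟩ := h1
  obtain ⟨h3a, h3b⟩ := h3
  obtain ⟨h6a, h6b⟩ := h6
  have np' : p.1 ^ 2 + p.2 ^ 2 = R ^ 2 := np
  have nq' : q.1 ^ 2 + q.2 ^ 2 = R ^ 2 := nq
  have nr' : r.1 ^ 2 + r.2 ^ 2 = R ^ 2 := nr
  have p1 : 1 < p.1 := by
    clear h hpq hqr hpr hR3 np nq nr nq' nr' hR1
    nlinarith
  have q2 : 1 < q.2 := by
    clear h hpq hqr hpr hR3 np nq nr np' nr' hR1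
    nlinarith
  have r2 : r.2 < -1 := by
    clear h hpq hqr hpr hR3 np nq nr np' nq' hR1
    nlinarith
  have hk1 : k + 1 = √(R ^ 2 - 1) := by rw [hk]; ring
  have hk2 : (k + 1) ^ 2 = R ^ 2 - 1 := by
    rw [hk1, Real.sq_sqrt (by linarith)]
  have hk0 : 0 < k := by
    have h5 : 0 ≤ k + 1 := by rw [hk1]; exact Real.sqrt_nonneg _
    by_contra hcon
    push Not at hcon
    have h6 : (k + 1) ^ 2 ≤ 1 ^ 2 := pow_le_pow_left₀ h5 (by linarith) 2
    linarith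
  -- the functionals
  obtain ⟨nE, hE1, hE⟩ := supp h.conv h.zero (not_int_of_lat h 1 0 (by simp))
  obtain ⟨nS, hS1, hS⟩ := supp h.conv h.zero (not_int_of_lat h 0 (-1) (by simp))
  obtain ⟨nN, hN1, hN⟩ := supp h.conv h.zero (not_int_of_lat h 0 1 (by simp))
  obtain ⟨e1, e2⟩ := nE
  obtain ⟨s1, s2⟩ := nS
  obtain ⟨t1, t2⟩ := nN
  have he1 : e1 = 1 := by simpa [dt] using hE1
  have hs2 : s2 = -1 := by
    have : -s2 = 1 := by simpa [dt] using hS1
    linarith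
  have ht2 : t2 = 1 := by simpa [dt] using hN1
  subst he1 hs2 ht2
  obtain ⟨a, rfl⟩ : ∃ a, e2 = -a := ⟨-e2, by ring⟩
  have hEp := hE p ht.hp
  have hSr := hS r ht.hr
  have hNq := hN q ht.hq
  simp only [dt] at hEp hSr hNq
  have ha : 0 < a := by
    by_contra hcon
    push Not at hcon
    have : 0 ≤ (-a) * p.2 := mul_nonneg (by linarith) h1a.le
    linarith
  have hs : 0 < s1 := by
    by_contra hcon
    push Not at hcon
    have : 0 ≤ (-s1) * (-r.1) := mul_nonneg (by linarith) (by linarith)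
    have h2 : (-s1) * (-r.1) = s1 * r.1 := by ring
    linarith
  have htp : 0 < t1 := by
    by_contra hcon
    push Not at hcon
    have : 0 ≤ (-t1) * (-q.1) := mul_nonneg (by linarith) (by linarith)
    have h2 : (-t1) * (-q.1) = t1 * q.1 := by ring
    linarith
  have hEl : Le1 (1, -a) p q r := ⟨hE p ht.hp, hE q ht.hq, hE r ht.hr⟩
  have hSl : Le1 (s1, -1) p q r := ⟨hS p ht.hp, hS q ht.hq, hS r ht.hr⟩
  have hNl : Le1 (t1, 1) p q r := ⟨hN p ht.hp, hN q ht.hq, hN r ht.hr⟩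
  have hdt : dt p q ≤ 0 := by linarith
  rcases le_or_gt (-q.1) 1 with hx | hx
  · obtain ⟨nW, hW1, hW⟩ := supp h.conv h.zero (not_int_of_lat h (-1) 0 (by simp))
    obtain ⟨w1, w⟩ := nW
    have hw1 : w1 = -1 := by
      have : -w1 = 1 := by simpa [dt] using hW1
      linarith
    subst hw1
    have hWl : Le1 (-1, w) p q r := ⟨hW p ht.hp, hW q ht.hq, hW r ht.hr⟩
    obtain ⟨d1, d2, d3⟩ := disj_W hR np nq nr ⟨h1a, h1b⟩ ⟨h3a, h3b⟩ ⟨h6a, h6b⟩ hdt ha hs htp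
      hEl hSl hNl hWl
    have htk : k ≤ t1 := by
      have hq2 : k + 1 ≤ q.2 := by
        have h5 : q.1 ^ 2 ≤ 1 := by
          have h6 : 0 ≤ (1 + q.1) * (1 - q.1) := mul_nonneg (by linarith) (by linarith)
          linarith [h6, show (1 + q.1) * (1 - q.1) = 1 - q.1 ^ 2 by ring]
        have h7 : (k + 1) ^ 2 ≤ q.2 ^ 2 := by linarith
        exact (abs_le_of_sq_le_sq' h7 (by linarith)).2
      -- t1 * (-q.1) ≥ q.2 - 1 ≥ k
      have h4 : k ≤ t1 * (-q.1) := by linarith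
      have h5 : t1 * (-q.1) ≤ t1 * 1 := mul_le_mul_of_nonneg_left hx htp.le
      linarith
    have hnsq : nsq (-1, w) = 1 + w ^ 2 := by simp [nsq]
    have hsq : k ^ 2 ≤ t1 ^ 2 := pow_le_pow_left₀ hk0.le htk 2
    have A := Cap_anti (R := R) hR1 (inv_sqrt_pos w) (inv_sqrt_le_one w) le_rfl
    have B := Cap_anti (R := R) hR1 (inv_sqrt_pos t1) (inv_sqrt_anti hsq) (inv_sqrt_le_one k)
    refine ⟨a, s1, t1, (-1, w), ha, hs, hE, hS, hN, hW, d1, d2, d3, ?_, ?_, ?_⟩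
    · rw [hnsq]; linarith [sq_nonneg w]
    · rw [hnsq]; linarith [A.1, B.1]
    · rw [hnsq]
      intro he
      have hA : Cap R (1 / √(1 + w ^ 2)) = Cap R 1 := by linarith [A.1, B.1]
      have hB : Cap R (1 / √(1 + t1 ^ 2)) = Cap R (1 / √(1 + k ^ 2)) := by linarith [A.1, B.1]
      have hA2 := A.2 hA
      have hB2 := B.2 hB
      have hw0 : w ^ 2 = 0 ^ 2 := by
        apply inv_sqrt_inj
        rw [hA2]
        simp
      have htk2 : t1 ^ 2 = k ^ 2 := inv_sqrt_inj hB2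
      have hw : w = 0 := by
        have : w ^ 2 = 0 := by simpa using hw0
        exact pow_eq_zero_iff (two_ne_zero) |>.mp this
      refine ⟨by rw [hw], ?_⟩
      exact (pow_left_inj₀ htp.le hk0.le two_ne_zero).mp htk2
  · obtain ⟨m, hm1, hm⟩ := supp h.conv h.zero (not_int_of_lat h (-1) 1 (by simp))
    obtain ⟨m1, m2⟩ := m
    have hm2 : m2 = 1 + m1 := by
      have : -m1 + m2 = 1 := by simpa [dt] using hm1
      linarith
    subst hm2
    have hmq := hm q ht.hq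
    simp only [dt] at hmq
    have hq12 : 0 < q.1 + q.2 := by linarith
    have hmq' : m1 * (q.1 + q.2) ≤ -(q.2 - 1) := by linarith
    have hm1n : m1 < 0 := by
      by_contra hcon
      push Not at hcon
      have := mul_nonneg hcon hq12.le
      linarith
    obtain ⟨g, hg⟩ : ∃ g, g = 1 + 1 / m1 := ⟨_, rfl⟩
    have hg1 : g < 1 := by
      have : 1 / m1 < 0 := one_div_neg.mpr hm1n
      linarith
    have hgm : (1 - g) * m1 = -1 := by
      have h5 : 1 / m1 * m1 = 1 := div_mul_cancel₀ 1 hm1n.ne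
      rw [hg]
      linarith [show (1 - (1 + 1 / m1)) * m1 = -(1 / m1 * m1) by ring]
    have hgκ : (-q.1 - 1) / (q.2 - 1) ≤ g := by
      rw [div_le_iff₀ (by linarith)]
      -- -q.1 - 1 ≤ g (q.2 - 1)
      have h1g : 0 < 1 - g := by linarith
      have h5 := mul_le_mul_of_nonneg_left hmq' h1g.le
      have h6 : (1 - g) * (m1 * (q.1 + q.2)) = ((1 - g) * m1) * (q.1 + q.2) := by ring
      rw [h6, hgm] at h5
      linarith
    have hg0 : 0 ≤ g := by
      refine le_trans ?_ hgκ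
      apply div_nonneg <;> linarith
    have h1g : 0 < 1 - g := by linarith
    have hme : ((m1, 1 + m1) : ℝ × ℝ) = (-1 / (1 - g), -g / (1 - g)) := by
      have e1 : m1 = -1 / (1 - g) := by
        rw [eq_div_iff h1g.ne']; linarith
      have e2 : 1 + m1 = -g / (1 - g) := by
        rw [eq_div_iff h1g.ne']; linarith
      rw [← e1, ← e2]
    rw [hme] at hm hm1
    have hUl : Le1 (-1 / (1 - g), -g / (1 - g)) p q r := ⟨hm p ht.hp, hm q ht.hq, hm r ht.hr⟩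
    obtain ⟨d1, d2, d3⟩ := disj_U hR np nq nr ⟨h1a, h1b⟩ ⟨h3a, h3b⟩ ⟨h6a, h6b⟩ hdt ha hs htp
      hEl hSl hNl hg0 hg1 hUl
    have hnsq : nsq (-1 / (1 - g), -g / (1 - g)) = (1 + g ^ 2) / (1 - g) ^ 2 := by
      simp only [nsq]
      field_simp
    have hrt : 1 / √(nsq (-1 / (1 - g), -g / (1 - g))) = (1 - g) / √(1 + g ^ 2) := by
      rw [hnsq, Real.sqrt_div' _ (by positivity), Real.sqrt_sq h1g.le, one_div_div]
    have hstrict := cap_ineq (R := R) (x := -q.1) (y := q.2) (k := k) (g := g) (t := t1) hRpos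
      (by linarith) hR3 hx h3b hk hgκ hg1 (by
        rw [div_le_iff₀ (by linarith)]
        linarith)
    refine ⟨a, s1, t1, (-1 / (1 - g), -g / (1 - g)), ha, hs, hE, hS, hN, hm, d1, d2, d3, ?_, ?_, ?_⟩
    · rw [hnsq, le_div_iff₀ (by positivity)]
      have : (1 - g) ^ 2 = 1 + g ^ 2 - 2 * g := by ring
      linarith
    · rw [hrt]; exact hstrict.le
    · rw [hrt]
      intro he
      exact absurd he hstrict.ne'

end Pool.Agent.H16.Cef
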