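import Pool.Agent.H16.Cef.Defs

/-!
Module SYM. The symmetries of the square act on everything.
`sym e f s` is linear, an isometry, maps lattice points to lattice points, preserves area, and its
inverse is `sym e f false` if `s = false` and `sym f e true` if `s = true`.
(For the area: `sym e f s` is a linear map of determinant `± 1`, e.g.
`MeasureTheory.Measure.addHaar_image_linearMap`, or compose `Measure.prod_swap` with the
measure preserving maps `x ↦ -x` of the factors.)
-/

set_option autoImplicit false

open MeasureTheory Set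

namespace Pool.Agent.H16.Cef

/-- the inverse symmetry -/
def symInv (e f s : Bool) : ℝ × ℝ → ℝ × ℝ := if s then sym f e true else sym e f false

theorem symInv_sym (e f s : Bool) (p : ℝ × ℝ) : symInv e f s (sym e f s p) = p := by
  cases e <;> cases f <;> cases s <;> simp [symInv, sym]

theorem sym_symInv (e f s : Bool) (p : ℝ × ℝ) : sym e f s (symInv e f s p) = p := by
  cases e <;> cases f <;> cases s <;> simp [symInv, sym]

theorem nsq_sym (e f s : Bool) (p : ℝ × ℝ) : nsq (sym e f s p) = nsq p := by
  cases e <;> cases f <;> cases s <;> simp [nsq, sym, add_comm]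

theorem sym_add (e f s : Bool) (p q : ℝ × ℝ) : sym e f s (p + q) = sym e f s p + sym e f s q := by
  cases s <;> cases e <;> cases f <;> ext <;> simp [sym] <;> ring

theorem sym_smul (e f s : Bool) (c : ℝ) (p : ℝ × ℝ) : sym e f s (c • p) = c • sym e f s p := by
  cases s <;> cases e <;> cases f <;> ext <;> simp [sym]

/-- the symmetry as a linear map -/
def symL (e f s : Bool) : (ℝ × ℝ) →ₗ[ℝ] (ℝ × ℝ) where
  toFun := sym e f s
  map_add' := sym_add e f s
  map_smul' := sym_smul e f s

theorem continuous_sym (e f s : Bool) : Continuous (sym e f s) := by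
  have h : Continuous (symL e f s) := LinearMap.continuous_of_finiteDimensional _
  exact h

theorem continuous_symInv (e f s : Bool) : Continuous (symInv e f s) := by
  cases s
  · simpa [symInv] using continuous_sym e f false
  · simpa [symInv] using continuous_sym f e true

/-- the symmetry as a homeomorphism -/
def symH (e f s : Bool) : (ℝ × ℝ) ≃ₜ (ℝ × ℝ) where
  toFun := sym e f s
  invFun := symInv e f s
  left_inv := symInv_sym e f s
  right_inv := sym_symInv e f s
  continuous_toFun := continuous_sym e f s
  continuous_invFun := continuous_symInv e f s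

theorem symH_coe (e f s : Bool) : (symH e f s : ℝ × ℝ → ℝ × ℝ) = sym e f s := rfl

theorem sym_zero (e f s : Bool) : sym e f s 0 = 0 := (symL e f s).map_zero

theorem Lat.sym {v : ℝ × ℝ} (h : Lat v) (e f s : Bool) : Lat (Cef.sym e f s v) := by
  obtain ⟨m, n, rfl⟩ := h
  cases s
  · refine ⟨(if e then -1 else 1) * m, (if f then -1 else 1) * n, ?_⟩
    cases e <;> cases f <;> simp [Cef.sym]
  · refine ⟨(if e then -1 else 1) * n, (if f then -1 else 1) * m, ?_⟩
    cases e <;> cases f <;> simp [Cef.sym]

theorem Lat.symInv {v : ℝ × ℝ} (h : Lat v) (e f s : Bool) : Lat (Cef.symInv e f s v) := by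
  cases s
  · exact h.sym e f false
  · exact h.sym f e true

theorem Bd.sym {K : Set (ℝ × ℝ)} {R : ℝ} (h : Bd K R) (e f s : Bool) :
    Bd (Cef.sym e f s '' K) R := by
  have hint : interior (Cef.sym e f s '' K) = Cef.sym e f s '' interior K := by
    rw [← symH_coe]
    exact ((symH e f s).image_interior K).symm
  refine ⟨h.pos, ?_, ?_, ?_, ?_, ?_⟩
  · exact h.conv.linear_image (symL e f s)
  · exact h.comp.image (continuous_sym e f s)
  · rw [hint]
    exact ⟨0, h.zero, sym_zero e f s⟩
  · rintro _ ⟨p, hp, rfl⟩
    have := h.sub hp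
    change nsq p ≤ R ^ 2 at this
    change nsq (Cef.sym e f s p) ≤ R ^ 2
    rwa [nsq_sym]
  · intro v hv hvi
    rw [hint] at hvi
    obtain ⟨w, hw, rfl⟩ := hvi
    have hlw : Lat w := by
      have := hv.symInv e f s
      rwa [symInv_sym] at this
    rw [h.lat w hlw hw, sym_zero]

theorem Trip.sym {K : Set (ℝ × ℝ)} {R : ℝ} {p q r : ℝ × ℝ} (h : Trip K R p q r) (e f s : Bool) :
    Trip (Cef.sym e f s '' K) R (Cef.sym e f s p) (Cef.sym e f s q) (Cef.sym e f s r) := by
  refine ⟨⟨p, h.hp, rfl⟩, ⟨q, h.hq, rfl⟩, ⟨r, h.hr, rfl⟩, ?_, ?_, ?_, ?_⟩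
  · rw [nsq_sym, h.np]
  · rw [nsq_sym, h.nq]
  · rw [nsq_sym, h.nr]
  · obtain ⟨a, b, c, ha, hb, hc, hs⟩ := h.bal
    refine ⟨a, b, c, ha, hb, hc, ?_⟩
    rw [← sym_smul, ← sym_smul, ← sym_smul, ← sym_add, ← sym_add, hs, sym_zero]

theorem mp_neg_if (e : Bool) :
    MeasurePreserving (fun x : ℝ => (if e then -1 else 1) * x) volume volume := by
  cases e
  · have h := MeasurePreserving.id (volume : Measure ℝ)
    have he : (fun x : ℝ => (if (false : Bool) = true then (-1 : ℝ) else 1) * x) = id := by
      funext x; simp
    rw [he]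
    exact h
  · simpa using Measure.measurePreserving_neg (volume : Measure ℝ)

theorem mp_sym (e f s : Bool) : MeasurePreserving (sym e f s) volume volume := by
  have h1 : MeasurePreserving
      (Prod.map (fun x : ℝ => (if e then -1 else 1) * x) (fun x : ℝ => (if f then -1 else 1) * x))
      (volume : Measure (ℝ × ℝ)) volume := by
    exact (mp_neg_if e).prod (mp_neg_if f)
  cases s
  · exact h1
  · have h2 : MeasurePreserving (Prod.swap : ℝ × ℝ → ℝ × ℝ) volume volume :=
      Measure.measurePreserving_swap
    have := h1.comp h2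
    exact this

theorem volume_sym (K : Set (ℝ × ℝ)) (e f s : Bool) : volume (sym e f s '' K) = volume K := by
  have hm : MeasurePreserving (symH e f s).toMeasurableEquiv volume volume := mp_sym e f s
  have h1 := hm.measure_preimage_equiv (sym e f s '' K)
  rw [← h1]
  congr 1
  exact (preimage_image_eq K (symH e f s).injective)

end Pool.Agent.H16.Cef
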