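import Pool.Agent.H16.Cef.Basic

/-!
Module THIN. Two contact points `r, p` in the first octant, `R² > 5`: there are no two non parallel
lattice points of norm `< R` in the open cone spanned by `r` and `p`.

Proof. `c = |r + p| / 2`, `s = |p - r| / 2`, `c² + s² = R²`, `n = (r + p) / |r + p|`.
1. Both points are in the open octant, so `dt r p > R² / √2` (the angle is `< 45°`), i.e.
   `c² = (R² + dt r p) / 2 > R² (2 + √2) / 4`, `s < (√2 - 1) c`, `c² > 5 (2 + √2) / 4 > 4.267`.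
2. `s ≤ 1.06`. Otherwise `c > s / 0.41422 > 2.559` and the point `z₀ = σ n` with
   `σ = c - 0.7072` has distance `0.7072` from the chord `pr` and distance
   `σ s / R ≥ (c - 0.7072) · 1.06 / (1.08241 c) > 0.7072` from the two legs (`R ≤ 1.08241 c`), so the
   lattice point `v` next to `z₀` (`|v - z₀|² ≤ 1/2`, rounding of coordinates) is in the interior of
   the triangle `0, r, p`: `cr r v > 0`, `cr v p > 0`, `cr v p + cr r v < cr r p`. This contradicts
   `Bd.tri_cr`.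
3. Among the pairs of lattice points of the open cone (norm `< R`) with `cr x y > 0` take one with
   minimal `cr x y` (a positive integer). Then `cr x y = 1`: otherwise the closed triangle `0, x, y`
   contains a lattice point `z = α x + β y ≠ 0, x, y`, `α, β ≥ 0`, `α + β ≤ 1`; it has norm `< R` and
   is in the open cone. If `α, β > 0`, then `cr z y = α cr x y` is smaller and positive. If `β = 0`,
   `z = α x`, `0 < α < 1`, again `cr z y` is smaller. Same if `α = 0`.
   (Alternatively: strong induction on the natural number `cr x y`. To find `z`: if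
   `D = cr x y ≥ 2` there is a lattice point in `{a x + b y : 0 ≤ a, b < 1}` other than `0`, as
   `x, y` is not a basis; replace `z` by `x + y - z` if `a + b > 1`.)
4. For a lattice point `v` of the open cone with `|v| < R`: `v_n = ⟨n, v⟩ ≥ c` (this is `Bd.tri_cr`),
   `v_n < R`, `|v_t| < s` where `v_t = cr n v`. With `w = y - x ≠ 0` a lattice point:
   `|w_n| ≤ R - c = s² / (R + c) ≤ 0.2107·…`, precisely `R - c ≤ s (√2 - 1) / 2 ≤ 0.2196`, hence
   `|w_t| ≥ √(1 - 0.2196²) ≥ 0.975`, and `1 = cr x y = x_n w_t - x_t w_n`, so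
   `1 ≥ c · 0.975 - s · 0.2196 ≥ 2.065 · 0.975 - 1.06 · 0.2196 > 1.7`. Contradiction.
-/

set_option autoImplicit false

open MeasureTheory Set

namespace Pool.Agent.H16.Cef

theorem thin_frame {R : ℝ} {r p : ℝ × ℝ} (nr : nsq r = R ^ 2) (np : nsq p = R ^ 2)
    (hrp : 0 < cr r p) : ∃ n1 n2 c s : ℝ, n1 ^ 2 + n2 ^ 2 = 1 ∧ 0 < c ∧ 0 < s ∧
      c ^ 2 + s ^ 2 = R ^ 2 ∧ r = (c * n1 + s * n2, c * n2 - s * n1) ∧
      p = (c * n1 - s * n2, c * n2 + s * n1) := by
  obtain ⟨r1, r2⟩ := r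
  obtain ⟨p1, p2⟩ := p
  simp only [nsq, cr] at nr np hrp
  set m1 := (r1 + p1) / 2 with hm1
  set m2 := (r2 + p2) / 2 with hm2
  set e1 := (p1 - r1) / 2 with he1
  set e2 := (p2 - r2) / 2 with he2
  have er1 : r1 = m1 - e1 := by rw [hm1, he1]; ring
  have er2 : r2 = m2 - e2 := by rw [hm2, he2]; ring
  have ep1 : p1 = m1 + e1 := by rw [hm1, he1]; ring
  have ep2 : p2 = m2 + e2 := by rw [hm2, he2]; ring
  rw [er1, er2] at nr
  rw [ep1, ep2] at np
  rw [er1, er2, ep1, ep2] at hrp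
  have hdot : m1 * e1 + m2 * e2 = 0 := by linear_combination (np - nr) / 4
  have hcr : 0 < m1 * e2 - m2 * e1 := by
    have e : (m1 - e1) * (m2 + e2) - (m2 - e2) * (m1 + e1) = 2 * (m1 * e2 - m2 * e1) := by ring
    rw [e] at hrp
    linarith
  have hm0 : 0 < m1 ^ 2 + m2 ^ 2 := by
    have hne : m1 ≠ 0 ∨ m2 ≠ 0 := by
      by_contra hcon
      push Not at hcon
      rw [hcon.1, hcon.2] at hcr
      simp at hcr
    rcases hne with h1 | h1 <;> positivity
  have he0 : 0 < e1 ^ 2 + e2 ^ 2 := by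
    have hne : e1 ≠ 0 ∨ e2 ≠ 0 := by
      by_contra hcon
      push Not at hcon
      rw [hcon.1, hcon.2] at hcr
      simp at hcr
    rcases hne with h1 | h1 <;> positivity
  set c := √(m1 ^ 2 + m2 ^ 2) with hc
  set s := √(e1 ^ 2 + e2 ^ 2) with hs
  have hcpos : 0 < c := Real.sqrt_pos.2 hm0
  have hspos : 0 < s := Real.sqrt_pos.2 he0
  have hc2 : c ^ 2 = m1 ^ 2 + m2 ^ 2 := Real.sq_sqrt hm0.le
  have hs2 : s ^ 2 = e1 ^ 2 + e2 ^ 2 := Real.sq_sqrt he0.le
  have hcs : m1 * e2 - m2 * e1 = c * s := by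
    have h1 : (m1 * e2 - m2 * e1) ^ 2 = (c * s) ^ 2 := by
      rw [mul_pow, hc2, hs2]
      linear_combination -(m1 * e1 + m2 * e2) * hdot
    have h3 : 0 < c * s := mul_pos hcpos hspos
    exact (sq_eq_sq₀ hcr.le h3.le).1 h1
  have hE1 : e1 * c = - (s * m2) := by
    have h1 : e1 * c ^ 2 = - m2 * (c * s) := by
      linear_combination e1 * hc2 - m2 * hcs + m1 * hdot
    have h3 : c * (e1 * c) = c * (- (s * m2)) := by linear_combination h1
    exact mul_left_cancel₀ hcpos.ne' h3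
  have hE2 : e2 * c = s * m1 := by
    have h1 : e2 * c ^ 2 = m1 * (c * s) := by
      linear_combination e2 * hc2 + m1 * hcs + m2 * hdot
    have h3 : c * (e2 * c) = c * (s * m1) := by linear_combination h1
    exact mul_left_cancel₀ hcpos.ne' h3
  have hE1' : e1 = - (s * (m2 / c)) := by
    field_simp
    linarith
  have hE2' : e2 = s * (m1 / c) := by
    field_simp
    linarith
  have hM1 : c * (m1 / c) = m1 := by field_simp
  have hM2 : c * (m2 / c) = m2 := by field_simp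
  refine ⟨m1 / c, m2 / c, c, s, ?_, hcpos, hspos, ?_, ?_, ?_⟩
  · have e : (m1 / c) ^ 2 + (m2 / c) ^ 2 = (m1 ^ 2 + m2 ^ 2) / c ^ 2 := by ring
    rw [e, hc2]
    exact div_self hm0.ne'
  · rw [hc2, hs2]
    linear_combination (nr + np) / 2
  · rw [hM1, hM2, er1, er2, hE1', ← hE2']
    ext <;> simp
  · rw [hM1, hM2, ep1, ep2, hE1', ← hE2']
    ext <;> simp
    ring

theorem thin_ratio {c s : ℝ} (hc : 0 < c) (hs : 0 < s) (h : 2 * c * s < c ^ 2 - s ^ 2) :
    s < 0.41422 * c := by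
  by_contra hcon
  push Not at hcon
  have h1 : 0.41422 * c * (0.41422 * c) ≤ s * s := mul_self_le_mul_self (by positivity) hcon
  have h2 : 2 * c * (0.41422 * c) ≤ 2 * c * s := mul_le_mul_of_nonneg_left hcon (by positivity)
  nlinarith [mul_pos hc hc]

theorem thin_c {c s R : ℝ} (hc : 0 < c) (hs : 0 < s) (h : s < 0.41422 * c)
    (hR : c ^ 2 + s ^ 2 = R ^ 2) (hR5 : 5 < R ^ 2) : 2.065 < c := by
  have h1 : s ^ 2 < (0.41422 * c) ^ 2 := by
    apply pow_lt_pow_left₀ h hs.le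
    norm_num
  by_contra hcon
  push Not at hcon
  nlinarith

theorem thin_num {c : ℝ} (hc1 : 2.559 < c) :
    c ^ 2 / 2 < 1.06 ^ 2 * ((c - 0.7072) ^ 2 - 1 / 2) := by
  nlinarith [mul_pos (sub_pos.2 hc1) (lt_trans (by norm_num) hc1 : (0 : ℝ) < c)]

theorem thin_s {K : Set (ℝ × ℝ)} {R : ℝ} (h : Bd K R) {n1 n2 c s : ℝ}
    (hn : n1 ^ 2 + n2 ^ 2 = 1) (hc : 0 < c) (hs : 0 < s) (hcs : c ^ 2 + s ^ 2 = R ^ 2)
    (hr : (c * n1 + s * n2, c * n2 - s * n1) ∈ K) (hp : (c * n1 - s * n2, c * n2 + s * n1) ∈ K)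
    (hrat : s < 0.41422 * c) : s ≤ 1.06 := by
  by_contra hs1
  push Not at hs1
  have hc1 : 2.559 < c := by
    by_contra hcon
    push Not at hcon
    linarith
  set σ := c - 0.7072 with hσ
  have hσ0 : 1.8518 < σ := by rw [hσ]; linarith
  set a : ℤ := round (σ * n1) with ha
  set b : ℤ := round (σ * n2) with hb
  have ha1 : |σ * n1 - a| ≤ 1 / 2 := abs_sub_round _
  have hb1 : |σ * n2 - b| ≤ 1 / 2 := abs_sub_round _
  have ha2 : (σ * n1 - a) ^ 2 ≤ (1 / 2) ^ 2 := sq_le_sq' (abs_le.1 ha1).1 (abs_le.1 ha1).2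
  have hb2 : (σ * n2 - b) ^ 2 ≤ (1 / 2) ^ 2 := sq_le_sq' (abs_le.1 hb1).1 (abs_le.1 hb1).2
  set vn := (a : ℝ) * n1 + b * n2 with hvn
  set vt := n1 * b - n2 * a with hvt
  have hdist : (vn - σ) ^ 2 + vt ^ 2 ≤ 1 / 2 := by
    have e : (vn - σ) ^ 2 + vt ^ 2 = (σ * n1 - a) ^ 2 + (σ * n2 - b) ^ 2
        + (n1 ^ 2 + n2 ^ 2 - 1) * ((a : ℝ) ^ 2 + b ^ 2 - σ ^ 2) := by
      rw [hvn, hvt]; ring
    rw [e, hn]
    linarith
  have hvnc : vn < c := by
    have h1 : (vn - σ) ^ 2 < 0.7072 ^ 2 := by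
      have := sq_nonneg vt
      have h3 : (1 / 2 : ℝ) < 0.7072 ^ 2 := by norm_num
      linarith
    have h2 : vn - σ < 0.7072 := (abs_lt.1 (abs_lt_of_sq_lt_sq h1 (by norm_num))).2
    rw [hσ] at h2
    linarith
  have hf : (c ^ 2 + s ^ 2) / 2 < (s * σ) ^ 2 := by
    have h1 : 0 < σ ^ 2 - 1 / 2 := by
      have h5 : (1.8518 : ℝ) ^ 2 < σ ^ 2 := pow_lt_pow_left₀ hσ0 (by norm_num) two_ne_zero
      have h6 : (1 / 2 : ℝ) < 1.8518 ^ 2 := by norm_num
      linarith
    have h2 : 1.06 ^ 2 < s ^ 2 := pow_lt_pow_left₀ hs1 (by norm_num) two_ne_zero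
    have h3 : 1.06 ^ 2 * (σ ^ 2 - 1 / 2) < s ^ 2 * (σ ^ 2 - 1 / 2) :=
      mul_lt_mul_of_pos_right h2 h1
    have h4 : c ^ 2 / 2 < 1.06 ^ 2 * (σ ^ 2 - 1 / 2) := thin_num hc1
    have h5 : (s * σ) ^ 2 = s ^ 2 * (σ ^ 2 - 1 / 2) + s ^ 2 / 2 := by ring
    linarith
  have hsσ : 0 < s * σ := by positivity
  have hcs1 : (c * vt + s * (vn - σ)) ^ 2 ≤ (c ^ 2 + s ^ 2) / 2 := by
    have h1 : (c * vt + s * (vn - σ)) ^ 2 + (c * (vn - σ) - s * vt) ^ 2 =
        (c ^ 2 + s ^ 2) * ((vn - σ) ^ 2 + vt ^ 2) := by ring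
    have h2 : (c ^ 2 + s ^ 2) * ((vn - σ) ^ 2 + vt ^ 2) ≤ (c ^ 2 + s ^ 2) * (1 / 2) :=
      mul_le_mul_of_nonneg_left hdist (by positivity)
    linarith [sq_nonneg (c * (vn - σ) - s * vt)]
  have hcs2 : (- (c * vt) + s * (vn - σ)) ^ 2 ≤ (c ^ 2 + s ^ 2) / 2 := by
    have h1 : (- (c * vt) + s * (vn - σ)) ^ 2 + (c * (vn - σ) + s * vt) ^ 2 =
        (c ^ 2 + s ^ 2) * ((vn - σ) ^ 2 + vt ^ 2) := by ring
    have h2 : (c ^ 2 + s ^ 2) * ((vn - σ) ^ 2 + vt ^ 2) ≤ (c ^ 2 + s ^ 2) * (1 / 2) :=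
      mul_le_mul_of_nonneg_left hdist (by positivity)
    linarith [sq_nonneg (c * (vn - σ) + s * vt)]
  have hpos1 : 0 < c * vt + s * vn := by
    have h1 : |c * vt + s * (vn - σ)| < s * σ := abs_lt_of_sq_lt_sq (by linarith) hsσ.le
    have h2 := (abs_lt.1 h1).1
    linarith
  have hpos2 : 0 < - (c * vt) + s * vn := by
    have h1 : |- (c * vt) + s * (vn - σ)| < s * σ := abs_lt_of_sq_lt_sq (by linarith) hsσ.le
    have h2 := (abs_lt.1 h1).1
    linarith
  have e1 : cr (c * n1 + s * n2, c * n2 - s * n1) ((a : ℝ), (b : ℝ)) = c * vt + s * vn := by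
    simp only [cr, hvn, hvt]; ring
  have e2 : cr ((a : ℝ), (b : ℝ)) (c * n1 - s * n2, c * n2 + s * n1) = - (c * vt) + s * vn := by
    simp only [cr, hvn, hvt]; ring
  have e3 : cr (c * n1 + s * n2, c * n2 - s * n1) (c * n1 - s * n2, c * n2 + s * n1)
      = 2 * (c * s) := by
    have : cr (c * n1 + s * n2, c * n2 - s * n1) (c * n1 - s * n2, c * n2 + s * n1)
      = 2 * (c * s) * (n1 ^ 2 + n2 ^ 2) := by
      simp only [cr]; ring
    rw [this, hn, mul_one]
  have hv0 : (((a : ℝ), (b : ℝ)) : ℝ × ℝ) ≠ 0 := by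
    intro h0
    rw [h0] at e1
    simp only [cr, Prod.fst_zero, Prod.snd_zero] at e1
    linarith
  have htri := h.tri_cr hr hp ⟨a, b, rfl⟩ hv0 (by rw [e3]; positivity) (by rw [e2]; exact hpos2.le)
    (by rw [e1]; exact hpos1.le)
  rw [e1, e2, e3] at htri
  have := mul_lt_mul_of_pos_left hvnc hs
  linarith

theorem thin_pair {K : Set (ℝ × ℝ)} {R : ℝ} (h : Bd K R) {n1 n2 c s : ℝ}
    (hn : n1 ^ 2 + n2 ^ 2 = 1) (hc : 0 < c) (hs : 0 < s) (hcs : c ^ 2 + s ^ 2 = R ^ 2)
    (hr : (c * n1 + s * n2, c * n2 - s * n1) ∈ K) (hp : (c * n1 - s * n2, c * n2 + s * n1) ∈ K)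
    (hrat : s < 0.41422 * c) (hc2 : 2.065 < c) (hs1 : s ≤ 1.06) {x y : ℝ × ℝ}
    (hx : Lat x) (hxR : nsq x < R ^ 2) (hx1 : 0 < cr (c * n1 + s * n2, c * n2 - s * n1) x)
    (hx2 : 0 < cr x (c * n1 - s * n2, c * n2 + s * n1)) (hy : Lat y) (hyR : nsq y < R ^ 2)
    (hy1 : 0 < cr (c * n1 + s * n2, c * n2 - s * n1) y)
    (hy2 : 0 < cr y (c * n1 - s * n2, c * n2 + s * n1))
    (hxy : 0 < cr x y) : 1 < cr x y := by
  have hR := h.pos
  have e3 : cr (c * n1 + s * n2, c * n2 - s * n1) (c * n1 - s * n2, c * n2 + s * n1)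
      = 2 * (c * s) := by
    have : cr (c * n1 + s * n2, c * n2 - s * n1) (c * n1 - s * n2, c * n2 + s * n1)
      = 2 * (c * s) * (n1 ^ 2 + n2 ^ 2) := by
      simp only [cr]; ring
    rw [this, hn, mul_one]
  -- normal and tangential coordinates of a point
  have coord : ∀ v : ℝ × ℝ, Lat v → nsq v < R ^ 2 →
      0 < cr (c * n1 + s * n2, c * n2 - s * n1) v →
      0 < cr v (c * n1 - s * n2, c * n2 + s * n1) →
      c ≤ v.1 * n1 + v.2 * n2 ∧ v.1 * n1 + v.2 * n2 < R ∧ |n1 * v.2 - n2 * v.1| < s := by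
    intro v hv hvR h1 h2
    have hv0 : v ≠ 0 := by
      rintro rfl
      simp [cr] at h1
    have htri := h.tri_cr hr hp hv hv0 (by rw [e3]; positivity) h2.le h1.le
    have e1 : cr (c * n1 + s * n2, c * n2 - s * n1) v =
        c * (n1 * v.2 - n2 * v.1) + s * (v.1 * n1 + v.2 * n2) := by
      simp only [cr]; ring
    have e2 : cr v (c * n1 - s * n2, c * n2 + s * n1) =
        - (c * (n1 * v.2 - n2 * v.1)) + s * (v.1 * n1 + v.2 * n2) := by
      simp only [cr]; ring
    rw [e1, e2, e3] at htri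
    have hcn : c ≤ v.1 * n1 + v.2 * n2 := by
      by_contra hcon
      push Not at hcon
      have := mul_lt_mul_of_pos_left hcon hs
      linarith
    have hnorm : (v.1 * n1 + v.2 * n2) ^ 2 + (n1 * v.2 - n2 * v.1) ^ 2 < c ^ 2 + s ^ 2 := by
      have : (v.1 * n1 + v.2 * n2) ^ 2 + (n1 * v.2 - n2 * v.1) ^ 2 =
          (n1 ^ 2 + n2 ^ 2) * nsq v := by
        simp only [nsq]; ring
      rw [this, hn, one_mul, hcs]
      exact hvR
    refine ⟨hcn, ?_, ?_⟩
    · refine lt_of_pow_lt_pow_left₀ 2 hR.le ?_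
      rw [← hcs]
      linarith [sq_nonneg (n1 * v.2 - n2 * v.1)]
    · refine abs_lt_of_sq_lt_sq ?_ hs.le
      have := pow_le_pow_left₀ hc.le hcn 2
      linarith
  obtain ⟨hxn, hxnR, hxt⟩ := coord x hx hxR hx1 hx2
  obtain ⟨hyn, hynR, hyt⟩ := coord y hy hyR hy1 hy2
  have hRc : R - c < 0.2196 := by
    have h1 : (R - c) * (R + c) = s ^ 2 := by linear_combination -hcs
    have h2 : c < R := by
      refine lt_of_pow_lt_pow_left₀ 2 hR.le ?_
      have := pow_pos hs 2
      linarith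
    by_contra hcon
    push Not at hcon
    have h3 : 0.2196 * (2 * c) ≤ (R - c) * (R + c) :=
      mul_le_mul hcon (by linarith) (by linarith) (by linarith)
    have h4 : s * s ≤ s * 1.06 := mul_le_mul_of_nonneg_left hs1 hs.le
    have h5 : s ^ 2 = s * s := by ring
    linarith
  set xn := x.1 * n1 + x.2 * n2 with hxn'
  set xt := n1 * x.2 - n2 * x.1 with hxt'
  set yn := y.1 * n1 + y.2 * n2 with hyn'
  set yt := n1 * y.2 - n2 * y.1 with hyt'
  have hcr : cr x y = xn * (yt - xt) - xt * (yn - xn) := by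
    have : xn * (yt - xt) - xt * (yn - xn) = (n1 ^ 2 + n2 ^ 2) * cr x y := by
      simp only [hxn', hxt', hyn', hyt', cr]; ring
    rw [this, hn, one_mul]
  have hw : 1 ≤ (yn - xn) ^ 2 + (yt - xt) ^ 2 := by
    have e : (yn - xn) ^ 2 + (yt - xt) ^ 2 =
        (n1 ^ 2 + n2 ^ 2) * ((y.1 - x.1) ^ 2 + (y.2 - x.2) ^ 2) := by
      simp only [hxn', hxt', hyn', hyt']; ring
    rw [e, hn, one_mul]
    obtain ⟨a, b, rfl⟩ := hx
    obtain ⟨a', b', rfl⟩ := hy
    simp only
    have hne : ¬ (a' - a = 0 ∧ b' - b = 0) := by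
      rintro ⟨h1, h2⟩
      have h3 : a' = a := by omega
      have h4 : b' = b := by omega
      subst h3 h4
      simp only [cr] at hxy
      linarith
    have h5 : (1 : ℤ) ≤ (a' - a) ^ 2 + (b' - b) ^ 2 := by
      by_contra hcon
      have h8 := sq_nonneg (a' - a)
      have h9 := sq_nonneg (b' - b)
      have h6 : (a' - a) ^ 2 = 0 := by omega
      have h7 : (b' - b) ^ 2 = 0 := by omega
      exact hne ⟨pow_eq_zero_iff (two_ne_zero) |>.1 h6, pow_eq_zero_iff (two_ne_zero) |>.1 h7⟩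
    exact_mod_cast h5
  have hwn : |yn - xn| < 0.2196 := by
    rw [abs_lt]
    constructor <;> linarith
  have hwn2 : (yn - xn) ^ 2 < 0.2196 ^ 2 := by
    rw [← sq_abs]
    exact pow_lt_pow_left₀ hwn (abs_nonneg _) (by norm_num)
  have hprod : |xt * (yn - xn)| ≤ 1.06 * 0.2196 := by
    rw [abs_mul]
    exact mul_le_mul (hxt.le.trans hs1) hwn.le (abs_nonneg _) (by norm_num)
  rw [abs_le] at hprod
  rcases le_total 0 (yt - xt) with hsign | hsign
  · have h1 : 0.975 ≤ yt - xt := by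
      by_contra hcon
      push Not at hcon
      have h2 : (yt - xt) ^ 2 < 0.975 ^ 2 := pow_lt_pow_left₀ hcon hsign two_ne_zero
      have h3 : (0.975 : ℝ) ^ 2 + 0.2196 ^ 2 < 1 := by norm_num
      linarith
    rw [hcr]
    have h2 : (2.065 : ℝ) * 0.975 ≤ xn * (yt - xt) :=
      mul_le_mul (by linarith) h1 (by norm_num) (by linarith)
    linarith [hprod.2]
  · have h1 : yt - xt ≤ -0.975 := by
      by_contra hcon
      push Not at hcon
      have h2 : (yt - xt) ^ 2 < 0.975 ^ 2 := by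
        rw [← neg_sq (yt - xt)]
        exact pow_lt_pow_left₀ (by linarith) (by linarith) two_ne_zero
      have h3 : (0.975 : ℝ) ^ 2 + 0.2196 ^ 2 < 1 := by norm_num
      linarith
    rw [hcr] at hxy
    have h2 : (2.065 : ℝ) * 0.975 ≤ xn * (-(yt - xt)) :=
      mul_le_mul (by linarith) (by linarith) (by norm_num) (by linarith)
    linarith [hprod.1]

theorem thin_int {x y : ℝ × ℝ} (hx : Lat x) (hy : Lat y) : ∃ k : ℤ, cr x y = k := by
  obtain ⟨a, b, rfl⟩ := hx
  obtain ⟨a', b', rfl⟩ := hy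
  exact ⟨a * b' - b * a', by simp only [cr]; push_cast; ring⟩

theorem thin_step {x y : ℝ × ℝ} (hx : Lat x) (hy : Lat y) (h : 1 < cr x y) :
    ∃ A B : ℝ, 0 ≤ A ∧ 0 ≤ B ∧ A < 1 ∧ B < 1 ∧ 0 < A + B ∧ A + B ≤ 1 ∧
      Lat (A • x + B • y) := by
  obtain ⟨x1, x2, rfl⟩ := hx
  obtain ⟨y1, y2, rfl⟩ := hy
  set D : ℤ := x1 * y2 - x2 * y1 with hD
  have hD1 : 1 < D := by
    have : (1 : ℝ) < (D : ℝ) := by
      rw [hD]
      push_cast
      simpa [cr] using h
    exact_mod_cast this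
  obtain ⟨u1, u2, hu⟩ : ∃ u1 u2 : ℤ, ¬ (D ∣ u1 * y2 - u2 * y1 ∧ D ∣ x1 * u2 - x2 * u1) := by
    by_contra hcon
    push Not at hcon
    obtain ⟨⟨a, ha⟩, ⟨b, hb⟩⟩ := hcon 1 0
    obtain ⟨⟨c, hc⟩, ⟨d, hd⟩⟩ := hcon 0 1
    have e1 : y2 = D * a := by linarith
    have e2 : x2 = D * (-b) := by linarith
    have e3 : y1 = D * (-c) := by linarith
    have e4 : x1 = D * d := by linarith
    have e5 : D * 1 = D * (D * (d * a - b * c)) := by
      rw [mul_one]
      conv_lhs => rw [hD, e1, e2, e3, e4]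
      ring
    have e6 := mul_left_cancel₀ (by omega : D ≠ 0) e5
    have e7 : D ∣ 1 := ⟨_, e6⟩
    have := Int.le_of_dvd (by norm_num) e7
    omega
  set P := u1 * y2 - u2 * y1 with hP
  set Q := x1 * u2 - x2 * u1 with hQ
  have hA0 := Int.emod_nonneg P (by omega : D ≠ 0)
  have hB0 := Int.emod_nonneg Q (by omega : D ≠ 0)
  have hA1 := Int.emod_lt_of_pos P (by omega : 0 < D)
  have hB1 := Int.emod_lt_of_pos Q (by omega : 0 < D)
  have hAe := Int.emod_add_mul_ediv P D
  have hBe := Int.emod_add_mul_ediv Q D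
  have hAB : 0 < P % D + Q % D := by
    rcases lt_or_eq_of_le (add_nonneg hA0 hB0) with h1 | h1
    · exact h1
    · exfalso
      apply hu
      constructor
      · apply Int.dvd_of_emod_eq_zero
        omega
      · apply Int.dvd_of_emod_eq_zero
        omega
  generalize P % D = A at *
  generalize Q % D = B at *
  generalize P / D = qa at *
  generalize Q / D = qb at *
  have hz1 : A * x1 + B * y1 = D * (u1 - qa * x1 - qb * y1) := by
    have h1 : A = P - D * qa := by linarith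
    have h2 : B = Q - D * qb := by linarith
    rw [h1, h2, hP, hQ, hD]; ring
  have hz2 : A * x2 + B * y2 = D * (u2 - qa * x2 - qb * y2) := by
    have h1 : A = P - D * qa := by linarith
    have h2 : B = Q - D * qb := by linarith
    rw [h1, h2, hP, hQ, hD]; ring
  have hDR : (1 : ℝ) < D := by exact_mod_cast hD1
  have hD0 : (0 : ℝ) < D := by linarith
  have hD0' : (D : ℝ) ≠ 0 := hD0.ne'
  have hz1' : (A : ℝ) * x1 + B * y1 = D * (u1 - qa * x1 - qb * y1) := by exact_mod_cast hz1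
  have hz2' : (A : ℝ) * x2 + B * y2 = D * (u2 - qa * x2 - qb * y2) := by exact_mod_cast hz2
  have hA0R : (0 : ℝ) ≤ A := by exact_mod_cast hA0
  have hB0R : (0 : ℝ) ≤ B := by exact_mod_cast hB0
  have hA1R : (A : ℝ) < D := by exact_mod_cast hA1
  have hB1R : (B : ℝ) < D := by exact_mod_cast hB1
  have hABR : (0 : ℝ) < A + B := by exact_mod_cast hAB
  rcases le_or_gt (A + B) D with hcase | hcase
  · have hcR : (A : ℝ) + B ≤ D := by exact_mod_cast hcase
    refine ⟨A / D, B / D, div_nonneg hA0R hD0.le, div_nonneg hB0R hD0.le,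
      (div_lt_one hD0).2 hA1R, (div_lt_one hD0).2 hB1R, ?_, ?_, ?_⟩
    · rw [← add_div]
      exact div_pos hABR hD0
    · rw [← add_div]
      exact (div_le_one hD0).2 hcR
    · refine ⟨u1 - qa * x1 - qb * y1, u2 - qa * x2 - qb * y2, ?_⟩
      ext
      · simp only [Prod.fst_add, Prod.smul_fst, smul_eq_mul]
        push_cast
        field_simp
        linarith
      · simp only [Prod.snd_add, Prod.smul_snd, smul_eq_mul]
        push_cast
        field_simp
        linarith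
  · have hcR : (D : ℝ) < A + B := by exact_mod_cast hcase
    have hA2 : (0 : ℝ) < A := by linarith
    have hB2 : (0 : ℝ) < B := by linarith
    have e1 : 1 - (A : ℝ) / D = (D - A) / D := by field_simp
    have e2 : 1 - (B : ℝ) / D = (D - B) / D := by field_simp
    refine ⟨(D - A) / D, (D - B) / D, div_nonneg (by linarith) hD0.le,
      div_nonneg (by linarith) hD0.le,
      (div_lt_one hD0).2 (by linarith), (div_lt_one hD0).2 (by linarith), ?_, ?_, ?_⟩
    · rw [← add_div]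
      exact div_pos (by linarith) hD0
    · rw [← add_div]
      exact (div_le_one hD0).2 (by linarith)
    · refine ⟨x1 + y1 - (u1 - qa * x1 - qb * y1), x2 + y2 - (u2 - qa * x2 - qb * y2), ?_⟩
      ext
      · simp only [Prod.fst_add, Prod.smul_fst, smul_eq_mul]
        push_cast
        field_simp
        linarith
      · simp only [Prod.snd_add, Prod.smul_snd, smul_eq_mul]
        push_cast
        field_simp
        linarith

theorem thin_norm {R A B : ℝ} {x y : ℝ × ℝ} (hx : nsq x < R ^ 2) (hy : nsq y < R ^ 2)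
    (hA : 0 ≤ A) (hB : 0 ≤ B) (hAB : 0 < A + B) (hAB1 : A + B ≤ 1) :
    nsq (A • x + B • y) < R ^ 2 := by
  have h1 : nsq (A • x + B • y) = (A + B) * (A * nsq x + B * nsq y)
      - A * B * ((x.1 - y.1) ^ 2 + (x.2 - y.2) ^ 2) := by
    simp only [nsq, Prod.fst_add, Prod.snd_add, Prod.smul_fst, Prod.smul_snd, smul_eq_mul]
    ring
  have h2 : 0 ≤ A * B * ((x.1 - y.1) ^ 2 + (x.2 - y.2) ^ 2) := by positivity
  have h3 : A * nsq x + B * nsq y < (A + B) * R ^ 2 := by
    rcases lt_or_eq_of_le hA with hA' | hA'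
    · have := mul_lt_mul_of_pos_left hx hA'
      have := mul_le_mul_of_nonneg_left hy.le hB
      linarith
    · rw [← hA'] at hAB ⊢
      have := mul_lt_mul_of_pos_left hy (by linarith : 0 < B)
      linarith
  have h4 : (A + B) * (A * nsq x + B * nsq y) < (A + B) * ((A + B) * R ^ 2) :=
    mul_lt_mul_of_pos_left h3 hAB
  have h5 : (A + B) * ((A + B) * R ^ 2) ≤ R ^ 2 := by
    have h6 : (A + B) * (A + B) ≤ 1 := by nlinarith
    have h7 : 0 ≤ R ^ 2 := sq_nonneg R
    nlinarith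
  linarith

theorem thin_cr_left (A B : ℝ) (x y w : ℝ × ℝ) :
    cr (A • x + B • y) w = A * cr x w + B * cr y w := by
  simp only [cr, Prod.fst_add, Prod.snd_add, Prod.smul_fst, Prod.smul_snd, smul_eq_mul]
  ring

theorem thin_cr_right (A B : ℝ) (x y w : ℝ × ℝ) :
    cr w (A • x + B • y) = A * cr w x + B * cr w y := by
  simp only [cr, Prod.fst_add, Prod.snd_add, Prod.smul_fst, Prod.smul_snd, smul_eq_mul]
  ring

theorem thin {K : Set (ℝ × ℝ)} {R : ℝ} (h : Bd K R) {r p : ℝ × ℝ} (hr : r ∈ K) (hp : p ∈ K)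
    (nr : nsq r = R ^ 2) (np : nsq p = R ^ 2) (hR : 5 < R ^ 2) (h1 : Oct1 r) (h2 : Oct1 p)
    (hrp : 0 < cr r p) {x y : ℝ × ℝ} (hx : Lat x) (hxR : nsq x < R ^ 2) (hx1 : 0 < cr r x)
    (hx2 : 0 < cr x p) (hy : Lat y) (hyR : nsq y < R ^ 2) (hy1 : 0 < cr r y) (hy2 : 0 < cr y p)
    (hxy : 0 < cr x y) : False := by
  have hang : cr r p < dt r p := by
    obtain ⟨a, b⟩ := h1
    obtain ⟨c, d⟩ := h2
    simp only [cr, dt]
    linarith [mul_pos (a.trans b) (sub_pos.2 d), mul_pos a (c.trans d), mul_pos a c]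
  obtain ⟨n1, n2, c, s, hn, hc, hs, hcs, rfl, rfl⟩ := thin_frame nr np hrp
  have hrat : s < 0.41422 * c := by
    apply thin_ratio hc hs
    have e1 : cr (c * n1 + s * n2, c * n2 - s * n1) (c * n1 - s * n2, c * n2 + s * n1)
      = 2 * c * s * (n1 ^ 2 + n2 ^ 2) := by
      simp only [cr]; ring
    have e2 : dt (c * n1 + s * n2, c * n2 - s * n1) (c * n1 - s * n2, c * n2 + s * n1)
      = (c ^ 2 - s ^ 2) * (n1 ^ 2 + n2 ^ 2) := by
      simp only [dt]; ring
    rw [e1, e2, hn, mul_one, mul_one] at hang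
    exact hang
  have hc2 := thin_c hc hs hrat hcs hR
  have hs1 := thin_s h hn hc hs hcs hr hp hrat
  have key : ∀ N : ℕ, ∀ x y : ℝ × ℝ, Lat x → nsq x < R ^ 2 →
      0 < cr (c * n1 + s * n2, c * n2 - s * n1) x →
      0 < cr x (c * n1 - s * n2, c * n2 + s * n1) → Lat y → nsq y < R ^ 2 →
      0 < cr (c * n1 + s * n2, c * n2 - s * n1) y →
      0 < cr y (c * n1 - s * n2, c * n2 + s * n1) → 0 < cr x y → cr x y < N → False := by
    intro N
    induction N with
    | zero =>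
      intro x y _ _ _ _ _ _ _ _ h1 h2
      simp only [Nat.cast_zero] at h2
      linarith
    | succ N ih =>
      intro x y hx hxR hx1 hx2 hy hyR hy1 hy2 hxy hN
      have hgt := thin_pair h hn hc hs hcs hr hp hrat hc2 hs1 hx hxR hx1 hx2 hy hyR hy1 hy2 hxy
      obtain ⟨A, B, hA, hB, hA1, hB1, hAB, hAB1, hL⟩ := thin_step hx hy hgt
      set z := A • x + B • y with hz
      have hzR : nsq z < R ^ 2 := thin_norm hxR hyR hA hB hAB hAB1
      have hcomb : ∀ a b : ℝ, 0 < a → 0 < b → 0 < A * a + B * b := by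
        intro a b ha hb
        rcases lt_or_eq_of_le hA with hA' | hA'
        · have := mul_pos hA' ha
          have := mul_nonneg hB hb.le
          linarith
        · rw [← hA'] at hAB ⊢
          have := mul_pos (by linarith : 0 < B) hb
          linarith
      have hz1 : 0 < cr (c * n1 + s * n2, c * n2 - s * n1) z := by
        rw [hz, thin_cr_right]
        exact hcomb _ _ hx1 hy1
      have hz2 : 0 < cr z (c * n1 - s * n2, c * n2 + s * n1) := by
        rw [hz, thin_cr_left]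
        exact hcomb _ _ hx2 hy2
      have dec : ∀ u v : ℝ × ℝ, Lat u → Lat v → cr u v < cr x y → cr u v < N := by
        intro u v hu hv huv
        obtain ⟨k, hk⟩ := thin_int hu hv
        obtain ⟨l, hl⟩ := thin_int hx hy
        rw [hk] at huv ⊢
        rw [hl] at huv hN
        have h1 : k < l := by exact_mod_cast huv
        have h2 : l < (N : ℤ) + 1 := by exact_mod_cast hN
        have h3 : k < (N : ℤ) := by omega
        exact_mod_cast h3
      rcases lt_or_eq_of_le hA with hA' | hA'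
      · have e : cr z y = A * cr x y := by
          rw [hz, thin_cr_left]
          simp only [cr]; ring
        have hpos : 0 < cr z y := by rw [e]; positivity
        refine ih z y hL hzR hz1 hz2 hy hyR hy1 hy2 hpos (dec z y hL hy ?_)
        rw [e]
        nlinarith
      · have hB' : 0 < B := by linarith
        have e : cr x z = B * cr x y := by
          rw [hz, thin_cr_right]
          simp only [cr]; ring
        have hpos : 0 < cr x z := by rw [e]; positivity
        refine ih x z hx hxR hx1 hx2 hL hzR hz1 hz2 hpos (dec x z hx hL ?_)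
        rw [e]
        nlinarith
  obtain ⟨N, hN⟩ := exists_nat_gt (cr x y)
  exact key N x y hx hxR hx1 hx2 hy hyR hy1 hy2 hxy hN

end Pool.Agent.H16.Cef
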