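import Pool.Agent.H16.Cef.Cones
import Pool.Agent.H16.Cef.Thin
import Pool.Agent.H16.Cef.Sym

/-!
Module OPP. Two contact points in opposite octants: the area is at most 4.

Use `cones`. Assume `vol K > 4`. Let `p` in octant 1, `q` in octant 5, `r` the third point. By the
symmetry `z ↦ -z` (which exchanges the roles: `p' = -q`, `q' = -p`, `r' = -r`; or argue twice) we may
assume `cr p q > 0`, `cr q r > 0`, `cr r p > 0`; there are lattice points `v₁` (cone of `p, -q`),
`v₂` (cone of `q, -r`), `v₃` (cone of `r, -p`) of norm `< R`.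
* `v₁` is a positive combination of `p` and `-q`, hence `0 < v₁.2 < v₁.1`, so `nsq v₁ ≥ 5`: `R² > 5`.
* Coordinates of `r` are nonzero and different in absolute value (`Bd.ray`). `r = -(a p + b q)/c`.
* `r.1 < 0 < r.2` is impossible: it contradicts `cr p q > 0`.
* `r.1 > 0 > r.2`: put `r = (r1, -r2)`, `q = (-q1, -q2)`. `Bd.tri_cr` for `(1,0)` and `r, p`:
  `r2 (p1 - 1) ≤ p2 (1 - r1)`; for `(0,-1)` and `q, r`: `q1 r2 + q2 r1 ≤ r1 + q1`. As
  `p1 > √(5/2) > 1.5`, the first gives `r1 < 1`, so `r2 > 2`, and the second gives `2 q1 ≤ r1 + q1`,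
  `q1 ≤ r1 < 1`, but `q1 > 1.5`.
* `r.2 < r.1 < 0`: `r = (-r1, -r2)`, `q = (-q1, -q2)`. `Bd.tri_cr` for `(-1,-1)` and `q, r`:
  `r2 - r1 + q1 - q2 ≥ q1 r2 - q2 r1 = ((q1 - q2)(r1 + r2) + (q1 + q2)(r2 - r1)) / 2`, but
  `r1 + r2 > 2`, `q1 + q2 > 2`.
* `0 < r.1, r.2`: then `r` is in octant 1 (it is a positive combination of `-q` and of `-p`, and
  below `-q`: `0 < cr q r` means `cr r (-q) > 0`). `thin` for `r, p` and `x = -v₂`, `y = v₁`
  (`x` is in the open cone of `r, -q`, `y` in the open cone of `-q, p`).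
* `r.1 < r.2 < 0`: `thin` for the body `-K` (or a version of the same) and the points `-q, -r` with
  `x = v₁` and `y = - v₃`. (`Bd.sym` with `e = f = true`, `s = false` gives `Bd (-K) R`.)
-/

set_option autoImplicit false

open MeasureTheory Set

namespace Pool.Agent.H16.Cef

theorem cr_neg_neg' (a b : ℝ × ℝ) : cr (-a) (-b) = cr a b := by
  simp only [cr, Prod.fst_neg, Prod.snd_neg]; ring

theorem cr_neg_left' (a b : ℝ × ℝ) : cr (-a) b = cr b a := by
  simp only [cr, Prod.fst_neg, Prod.snd_neg]; ring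

theorem cr_neg_right' (a b : ℝ × ℝ) : cr a (-b) = cr b a := by
  simp only [cr, Prod.fst_neg, Prod.snd_neg]; ring

theorem nsq_neg' (a : ℝ × ℝ) : nsq (-a) = nsq a := by
  simp only [nsq, Prod.fst_neg, Prod.snd_neg]; ring

/-- Plucker relation, used to transport signs: if `y` is between `b` and `c` -/
theorem pos_of_plu {a b c y : ℝ × ℝ} (hbc : 0 < cr b c) (h1 : 0 < cr y c) (h2 : 0 < cr b y)
    (h3 : 0 ≤ cr a b) (h4 : 0 < cr a c) : 0 < cr a y := by
  have key : cr a y * cr b c = cr y c * cr a b + cr b y * cr a c := by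
    simp only [cr]; ring
  by_contra hcon
  push Not at hcon
  have e1 : cr a y * cr b c ≤ 0 := mul_nonpos_of_nonpos_of_nonneg hcon hbc.le
  have e2 : 0 ≤ cr y c * cr a b := mul_nonneg h1.le h3
  have e3 : 0 < cr b y * cr a c := mul_pos h2 h4
  linarith

theorem pos_of_plu' {a b c y : ℝ × ℝ} (hbc : 0 < cr b c) (h1 : 0 < cr y c) (h2 : 0 < cr b y)
    (h3 : 0 < cr b a) (h4 : 0 ≤ cr c a) : 0 < cr y a := by
  have key : cr y a * cr b c = cr y c * cr b a + cr b y * cr c a := by
    simp only [cr]; ring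
  by_contra hcon
  push Not at hcon
  have e1 : cr y a * cr b c ≤ 0 := mul_nonpos_of_nonpos_of_nonneg hcon hbc.le
  have e2 : 0 < cr y c * cr b a := mul_pos h1 h3
  have e3 : 0 ≤ cr b y * cr c a := mul_nonneg h2.le h4
  linarith

theorem lat_mk (m n : ℤ) : Lat ((m : ℝ), (n : ℝ)) := ⟨m, n, rfl⟩

theorem opp_core {K : Set (ℝ × ℝ)} {R : ℝ} (h : Bd K R) {p q r : ℝ × ℝ} (hp : p ∈ K) (hq : q ∈ K)
    (hr : r ∈ K) (np : nsq p = R ^ 2) (nq : nsq q = R ^ 2) (nr : nsq r = R ^ 2)
    (h1 : Oct1 p) (h5 : Oct5 q) (hpq : 0 < cr p q) (hqr : 0 < cr q r) (hrp : 0 < cr r p)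
    (H1 : ∃ v, InSl R p q v) (H2 : ∃ v, InSl R q r v) (H3 : ∃ v, InSl R r p v) : False := by
  obtain ⟨v1, hv1L, hv10, hv1R, hv1p, hv1q⟩ := H1
  obtain ⟨v2, hv2L, hv20, hv2R, hv2q, hv2r⟩ := H2
  obtain ⟨v3, hv3L, hv30, hv3R, hv3r, hv3p⟩ := H3
  obtain ⟨h1a, h1b⟩ := h1
  obtain ⟨h5a, h5b⟩ := h5
  have hR : 5 < R ^ 2 := by
    have k1 : v1.2 * cr p q = cr v1 q * p.2 + cr v1 p * (-q.2) := by simp only [cr]; ring
    have k2 : (v1.1 - v1.2) * cr p q = cr v1 q * (p.1 - p.2) + cr v1 p * (q.2 - q.1) := by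
      simp only [cr]; ring
    have a1 : 0 < v1.2 := by
      by_contra hcon
      push Not at hcon
      have e1 := mul_nonpos_of_nonpos_of_nonneg hcon hpq.le
      have e2 : 0 < cr v1 q * p.2 := mul_pos hv1q h1a
      have e3 : 0 < cr v1 p * (-q.2) := mul_pos hv1p (by linarith)
      linarith
    have a2 : 0 < v1.1 - v1.2 := by
      by_contra hcon
      push Not at hcon
      have e1 := mul_nonpos_of_nonpos_of_nonneg hcon hpq.le
      have e2 : 0 < cr v1 q * (p.1 - p.2) := mul_pos hv1q (by linarith)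
      have e3 : 0 < cr v1 p * (q.2 - q.1) := mul_pos hv1p (by linarith)
      linarith
    obtain ⟨m, n, hmn⟩ := hv1L
    rw [hmn] at a1 a2 hv1R
    simp only at a1 a2
    have n1 : (1 : ℤ) ≤ n := by
      have : (0 : ℤ) < n := by exact_mod_cast a1
      omega
    have m1 : n + 1 ≤ m := by
      have : (n : ℝ) < m := by linarith
      have : n < m := by exact_mod_cast this
      omega
    have n1' : (1 : ℝ) ≤ n := by exact_mod_cast n1
    have m1' : (2 : ℝ) ≤ m := by exact_mod_cast (by omega : (2 : ℤ) ≤ m)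
    simp only [nsq] at hv1R
    nlinarith
  -- the coordinates of r
  have c1 : r.2 ≠ 0 := by
    have := h.ray hr nr (lat_mk 1 0) (by simp) (by simp only [nsq]; push_cast; linarith)
    intro hcon
    apply this
    simp [cr, hcon]
  have c2 : r.1 ≠ 0 := by
    have := h.ray hr nr (lat_mk 0 1) (by simp) (by simp only [nsq]; push_cast; linarith)
    intro hcon
    apply this
    simp [cr, hcon]
  have c3 : r.1 ≠ r.2 := by
    have := h.ray hr nr (lat_mk 1 1) (by simp) (by simp only [nsq]; push_cast; linarith)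
    intro hcon
    apply this
    simp [cr, hcon]
  have np' : p.1 ^ 2 + p.2 ^ 2 = R ^ 2 := np
  have nq' : q.1 ^ 2 + q.2 ^ 2 = R ^ 2 := nq
  have nr' : r.1 ^ 2 + r.2 ^ 2 = R ^ 2 := nr
  have hp1 : 3 / 2 < p.1 := by
    by_contra hcon
    push Not at hcon
    have e1 : p.1 ^ 2 ≤ (3 / 2) ^ 2 := pow_le_pow_left₀ (by linarith) hcon 2
    have e2 : p.2 ^ 2 ≤ p.1 ^ 2 := pow_le_pow_left₀ h1a.le h1b.le 2
    linarith
  have hq1 : q.1 < -(3 / 2) := by
    by_contra hcon
    push Not at hcon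
    have e1 : (-q.1) ^ 2 ≤ (3 / 2) ^ 2 := pow_le_pow_left₀ (by linarith) (by linarith) 2
    have e2 : (-q.2) ^ 2 ≤ (-q.1) ^ 2 := pow_le_pow_left₀ (by linarith) (by linarith) 2
    have e3 : (-q.1) ^ 2 = q.1 ^ 2 := by ring
    have e4 : (-q.2) ^ 2 = q.2 ^ 2 := by ring
    linarith
  have hqr' : 0 < q.1 * r.2 - q.2 * r.1 := hqr
  rcases lt_or_gt_of_ne c2 with c2 | c2
  · -- r.1 < 0
    rcases lt_or_gt_of_ne c1 with c1 | c1
    · -- r.2 < 0
      rcases lt_or_gt_of_ne c3 with c3 | c3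
      · -- octant 5
        have hB := h.sym true true false
        have hneg : ∀ z : ℝ × ℝ, Cef.sym true true false z = -z := by
          intro z
          ext <;> simp [Cef.sym]
        have hmem : ∀ z ∈ K, -z ∈ Cef.sym true true false '' K := by
          intro z hz
          exact ⟨z, hz, hneg z⟩
        have hQr : 0 < cr (-q) (-r) := by rw [cr_neg_neg']; exact hqr
        have hpr : 0 < cr p (-r) := by rw [cr_neg_right']; exact hrp
        have hQp : 0 < cr (-q) p := by rw [cr_neg_left']; exact hpq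
        have y1 : 0 < cr (-v3) (-r) := by rw [cr_neg_neg']; exact hv3r
        have y2 : 0 < cr p (-v3) := by rw [cr_neg_right']; exact hv3p
        have x1 : 0 < cr (-q) v1 := by rw [cr_neg_left']; exact hv1q
        have x2 : 0 < cr v1 (-r) := pos_of_plu' hQp hv1p x1 hQr hpr.le
        have y3 : 0 < cr (-q) (-v3) := pos_of_plu hpr y1 y2 hQp.le hQr
        have xy : 0 < cr v1 (-v3) := pos_of_plu hpr y1 y2 hv1p.le x2
        exact thin hB (hmem q hq) (hmem r hr) (by rw [nsq_neg']; exact nq)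
          (by rw [nsq_neg']; exact nr) hR
          ⟨by simp only [Prod.snd_neg]; linarith, by simp only [Prod.snd_neg, Prod.fst_neg]; linarith⟩
          ⟨by simp only [Prod.snd_neg]; linarith, by simp only [Prod.snd_neg, Prod.fst_neg]; linarith⟩
          hQr hv1L hv1R x1 x2 hv3L.neg (by rw [nsq_neg']; exact hv3R) y3 y1 xy
      · -- octant 6
        have T := h.tri_cr hq hr (lat_mk (-1) (-1)) (by simp) hqr
          (by simp only [cr]; push_cast; linarith) (by simp only [cr]; push_cast; linarith)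
        simp only [cr] at T
        push_cast at T
        have e1 : 2 < -(q.1 + q.2) := by
          by_contra hcon
          push Not at hcon
          have e1 : (-(q.1 + q.2)) ^ 2 ≤ 2 ^ 2 := pow_le_pow_left₀ (by linarith) hcon 2
          have e2 : 0 < q.1 * q.2 := mul_pos_of_neg_of_neg (by linarith) h5b
          have e3 : (-(q.1 + q.2)) ^ 2 = q.1 ^ 2 + q.2 ^ 2 + 2 * (q.1 * q.2) := by ring
          linarith
        have e2 : 2 < -(r.1 + r.2) := by
          by_contra hcon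
          push Not at hcon
          have e1 : (-(r.1 + r.2)) ^ 2 ≤ 2 ^ 2 := pow_le_pow_left₀ (by linarith) hcon 2
          have e2 : 0 < r.1 * r.2 := mul_pos_of_neg_of_neg c2 c1
          have e3 : (-(r.1 + r.2)) ^ 2 = r.1 ^ 2 + r.2 ^ 2 + 2 * (r.1 * r.2) := by ring
          linarith
        have e3 : 0 < (q.2 - q.1) * (-(r.1 + r.2) - 2) := mul_pos (by linarith) (by linarith)
        have e4 : 0 < (r.1 - r.2) * (-(q.1 + q.2) - 2) := mul_pos (by linarith) (by linarith)
        have e5 : 2 * (q.1 * r.2 - q.2 * r.1) = (q.2 - q.1) * (-(r.1 + r.2) - 2)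
          + (r.1 - r.2) * (-(q.1 + q.2) - 2) + 2 * (q.2 - q.1) + 2 * (r.1 - r.2) := by ring
        linarith
    · -- r.1 < 0 < r.2
      have e1 : 0 < (-q.1) * r.2 := mul_pos (by linarith) c1
      have e2 : 0 < (-q.2) * (-r.1) := mul_pos (by linarith) (by linarith)
      linarith [show (-q.1) * r.2 + (-q.2) * (-r.1) = -(q.1 * r.2 - q.2 * r.1) by ring]
  · rcases lt_or_gt_of_ne c1 with c1 | c1
    · -- r.1 > 0 > r.2
      have T1 := h.tri_cr hr hp (lat_mk 1 0) (by simp) hrp
          (by simp only [cr]; push_cast; linarith) (by simp only [cr]; push_cast; linarith)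
      have T2 := h.tri_cr hq hr (lat_mk 0 (-1)) (by simp) hqr
          (by simp only [cr]; push_cast; linarith) (by simp only [cr]; push_cast; linarith)
      simp only [cr] at T1 T2
      push_cast at T1 T2
      have e0 : 0 < (-r.2) * (p.1 - 1) := mul_pos (by linarith) (by linarith)
      have e1 : r.1 < 1 := by
        by_contra hcon
        push Not at hcon
        have : 0 ≤ p.2 * (r.1 - 1) := mul_nonneg h1a.le (by linarith)
        linarith
      have e2 : 2 < -r.2 := by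
        by_contra hcon
        push Not at hcon
        have e3 : (-r.2) ^ 2 ≤ 2 ^ 2 := pow_le_pow_left₀ (by linarith) hcon 2
        have e4 : r.1 ^ 2 ≤ 1 ^ 2 := pow_le_pow_left₀ c2.le e1.le 2
        linarith [show (-r.2) ^ 2 = r.2 ^ 2 by ring]
      have e3 : 0 < (-q.1) * (-r.2 - 2) := mul_pos (by linarith) (by linarith)
      have e4 : 0 < (-q.2) * r.1 := mul_pos (by linarith) c2
      linarith
    · -- r in octant 1
      have hrQ : 0 < cr r (-q) := by rw [cr_neg_right']; exact hqr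
      have c4 : r.2 < r.1 := by
        by_contra hcon
        push Not at hcon
        have e1 : 0 ≤ (-q.1) * (r.2 - r.1) := mul_nonneg (by linarith) (by linarith)
        have e2 : 0 < (q.2 - q.1) * r.1 := mul_pos (by linarith) c2
        linarith [show (-q.1) * (r.2 - r.1) + (q.2 - q.1) * r.1 = -(q.1 * r.2 - q.2 * r.1) by ring]
      have hQp : 0 < cr (-q) p := by rw [cr_neg_left']; exact hpq
      have x1 : 0 < cr r (-v2) := by rw [cr_neg_right']; exact hv2r
      have x2 : 0 < cr (-v2) (-q) := by rw [cr_neg_neg']; exact hv2q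
      have x3 : 0 < cr (-v2) p := pos_of_plu' hrQ x2 x1 hrp hQp.le
      have y1 : 0 < cr (-q) v1 := by rw [cr_neg_left']; exact hv1q
      have y2 : 0 < cr r v1 := pos_of_plu hQp hv1p y1 hrQ.le hrp
      have xy : 0 < cr (-v2) v1 := pos_of_plu hQp hv1p y1 x2.le x3
      exact thin h hr hp nr np hR ⟨c1, c4⟩ ⟨h1a, h1b⟩ hrp hv2L.neg (by rw [nsq_neg']; exact hv2R)
        x1 x3 hv1L hv1R y2 hv1p xy

theorem InSl.neg' {R : ℝ} {p q v : ℝ × ℝ} (h : InSl R p q v) : InSl R (-p) (-q) (-v) := by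
  obtain ⟨a, b, c, d, e⟩ := h
  exact ⟨a.neg, by simpa using b, by rw [nsq_neg']; exact c, by rw [cr_neg_neg']; exact d,
    by rw [cr_neg_neg']; exact e⟩

theorem opp {K : Set (ℝ × ℝ)} {R : ℝ} (h : Bd K R) {p q r : ℝ × ℝ} (ht : Trip K R p q r)
    (h1 : Oct1 p) (h5 : Oct5 q) (hR : 2 < R ^ 2) : volume K ≤ 4 := by
  rcases cones h ht with hA | ⟨⟨b1, b2, b3⟩, B1, B2, B3⟩ | ⟨⟨b1, b2, b3⟩, B1, B2, B3⟩
  · exact hA
  · exact (opp_core h ht.hp ht.hq ht.hr ht.np ht.nq ht.nr h1 h5 b1 b2 b3 B1 B2 B3).elim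
  · exfalso
    have hB := h.sym true true false
    have hneg : ∀ z : ℝ × ℝ, Cef.sym true true false z = -z := by
      intro z
      ext <;> simp [Cef.sym]
    have hmem : ∀ z ∈ K, -z ∈ Cef.sym true true false '' K := by
      intro z hz
      exact ⟨z, hz, hneg z⟩
    obtain ⟨h1a, h1b⟩ := h1
    obtain ⟨h5a, h5b⟩ := h5
    obtain ⟨v1, B1⟩ := B1
    obtain ⟨v2, B2⟩ := B2
    obtain ⟨v3, B3⟩ := B3
    exact opp_core hB (hmem q ht.hq) (hmem p ht.hp) (hmem r ht.hr) (by rw [nsq_neg']; exact ht.nq)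
      (by rw [nsq_neg']; exact ht.np) (by rw [nsq_neg']; exact ht.nr)
      ⟨by simp only [Prod.snd_neg]; linarith, by simp only [Prod.snd_neg, Prod.fst_neg]; linarith⟩
      ⟨by simp only [Prod.snd_neg, Prod.fst_neg]; linarith, by simp only [Prod.snd_neg]; linarith⟩
      (by rw [cr_neg_neg']; exact b3) (by rw [cr_neg_neg']; exact b1)
      (by rw [cr_neg_neg']; exact b2) ⟨_, B3.neg'⟩ ⟨_, B1.neg'⟩ ⟨_, B2.neg'⟩

end Pool.Agent.H16.Cef
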