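import Pool.Agent.H16.Cef.Cones

/-!
Module SMALL. If `R² ≤ 2` the area is at most 4.

By `cones` we may assume `cr p q, cr q r, cr r p > 0` (or the same with `q, r` exchanged) and that
there are lattice points `x, y, z` of norm `< R ≤ √2`, i.e. in `{(±1, 0), (0, ±1)}`, with
`cr x p, cr x q > 0`, `cr y q, cr y r > 0`, `cr z r, cr z p > 0`. As `a p + b q + c r = 0` we get
`cr x r < 0`, `cr y p < 0`, `cr z q < 0`. So no two of `x, y, z` are equal or opposite: contradiction.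
-/

set_option autoImplicit false

open MeasureTheory Set

namespace Pool.Agent.H16.Cef

theorem Small_lat {v : ℝ × ℝ} {R : ℝ} (hR : R ^ 2 ≤ 2) (hv : Lat v) (hv0 : v ≠ 0)
    (hn : nsq v < R ^ 2) : v = (1, 0) ∨ v = (-1, 0) ∨ v = (0, 1) ∨ v = (0, -1) := by
  obtain ⟨m, n, rfl⟩ := hv
  have h1 : (m : ℝ) ^ 2 + (n : ℝ) ^ 2 < 2 := lt_of_lt_of_le hn hR
  have h2 : m ^ 2 + n ^ 2 < 2 := by exact_mod_cast h1
  have hm1 : -1 ≤ m := by nlinarith
  have hm2 : m ≤ 1 := by nlinarith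
  have hn1 : -1 ≤ n := by nlinarith
  have hn2 : n ≤ 1 := by nlinarith
  interval_cases m <;> interval_cases n <;> simp_all

theorem Small_core {R : ℝ} {p q r : ℝ × ℝ} (hR : R ^ 2 ≤ 2)
    (hb : ∃ a b c : ℝ, 0 < a ∧ 0 < b ∧ 0 < c ∧ a • p + b • q + c • r = 0)
    (h1 : ∃ v, InSl R p q v) (h2 : ∃ v, InSl R q r v) (h3 : ∃ v, InSl R r p v) : False := by
  obtain ⟨a, b, c, ha, hb, hc, he⟩ := hb
  obtain ⟨x, hx, hx0, hxR, x1, x2⟩ := h1
  obtain ⟨y, hy, hy0, hyR, y1, y2⟩ := h2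
  obtain ⟨z, hz, hz0, hzR, z1, z2⟩ := h3
  have e1 : a * p.1 + b * q.1 + c * r.1 = 0 := by
    have := congrArg Prod.fst he
    simpa using this
  have e2 : a * p.2 + b * q.2 + c * r.2 = 0 := by
    have := congrArg Prod.snd he
    simpa using this
  have key : ∀ v : ℝ × ℝ, a * cr v p + b * cr v q + c * cr v r = 0 := by
    intro v
    unfold cr
    have : a * (v.1 * p.2 - v.2 * p.1) + b * (v.1 * q.2 - v.2 * q.1) +
        c * (v.1 * r.2 - v.2 * r.1) = v.1 * (a * p.2 + b * q.2 + c * r.2) -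
        v.2 * (a * p.1 + b * q.1 + c * r.1) := by ring
    rw [this, e1, e2]
    ring
  have x3 : cr x r < 0 := by
    have h := key x
    have q1 := mul_pos ha x1
    have q2 := mul_pos hb x2
    by_contra hcon
    have := mul_nonneg hc.le (not_lt.1 hcon)
    linarith
  have y3 : cr y p < 0 := by
    have h := key y
    have q1 := mul_pos hb y1
    have q2 := mul_pos hc y2
    by_contra hcon
    have := mul_nonneg ha.le (not_lt.1 hcon)
    linarith
  have z3 : cr z q < 0 := by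
    have h := key z
    have q1 := mul_pos hc z1
    have q2 := mul_pos ha z2
    by_contra hcon
    have := mul_nonneg hb.le (not_lt.1 hcon)
    linarith
  clear key he e1 e2
  unfold cr at x1 x2 x3 y1 y2 y3 z1 z2 z3
  rcases Small_lat hR hx hx0 hxR with rfl | rfl | rfl | rfl <;>
  rcases Small_lat hR hy hy0 hyR with rfl | rfl | rfl | rfl <;>
  rcases Small_lat hR hz hz0 hzR with rfl | rfl | rfl | rfl <;>
  simp only [one_mul, zero_mul, neg_mul, sub_zero, zero_sub, sub_neg_eq_add, neg_zero, zero_add]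
    at x1 x2 x3 y1 y2 y3 z1 z2 z3 <;>
  linarith

theorem small {K : Set (ℝ × ℝ)} {R : ℝ} (h : Bd K R) {p q r : ℝ × ℝ} (ht : Trip K R p q r)
    (hR : R ^ 2 ≤ 2) : volume K ≤ 4 := by
  obtain ⟨a, b, c, ha, hb, hc, he⟩ := ht.bal
  rcases cones h ht with h1 | ⟨_, h2, h3, h4⟩ | ⟨_, h2, h3, h4⟩
  · exact h1
  · exact (Small_core hR ⟨a, b, c, ha, hb, hc, he⟩ h2 h3 h4).elim
  · refine (Small_core hR ⟨a, c, b, ha, hc, hb, ?_⟩ h2 h3 h4).elim
    rw [← he]
    abel

end Pool.Agent.H16.Cef
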