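import Pool.Agent.H16.Cef.MArea
import Pool.Agent.H16.Cef.Opp
import Pool.Agent.H16.Cef.Small
import Pool.Agent.H16.Cef.Classify
import Pool.Agent.H16.Cef.Sym
import Pool.Agent.H16.Cef.Circ
import Pool.Agent.H16.Cef.Ks
import Pool.Agent.H16.Cef.Bonus
import Pool.Agent.H16.Cef.KstArea
import Pool.Agent.H16.Cef.KstClass
import Pool.Agent.H16.Cef.Lit

/-!
Assembly of the main theorem on convex bodies with circumcentre `0` and one interior lattice point.
-/

set_option autoImplicit false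

open MeasureTheory Set

namespace Pool.Agent.H16.Cef

/-- the closed disk with centre `c` and radius `r` -/
def Disk (c : ℝ × ℝ) (r : ℝ) : Set (ℝ × ℝ) :=
  {z | (z.1 - c.1) ^ 2 + (z.2 - c.2) ^ 2 ≤ r ^ 2}

/-- the disk with centre `c` and radius `r ≥ 0` is a smallest closed disk containing `K` -/
def IsMinDisk (K : Set (ℝ × ℝ)) (c : ℝ × ℝ) (r : ℝ) : Prop :=
  0 ≤ r ∧ K ⊆ Disk c r ∧ ∀ (c' : ℝ × ℝ) (r' : ℝ), 0 ≤ r' → K ⊆ Disk c' r' → r ≤ r'

/-- planar convex bodies whose circumcentre is the origin -/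
def Body (K : Set (ℝ × ℝ)) : Prop :=
  Convex ℝ K ∧ IsCompact K ∧ (interior K).Nonempty ∧ ∃ r, IsMinDisk K 0 r

/-- the class: circumcentre `0`, which is an interior point and the only lattice point in the
interior -/
def Cls (K : Set (ℝ × ℝ)) : Prop :=
  Body K ∧ (0 : ℝ × ℝ) ∈ interior K ∧
    ∀ m n : ℤ, ((m : ℝ), (n : ℝ)) ∈ interior K → m = 0 ∧ n = 0

/-- a closed set inside a convex body with the same finite area is the whole body -/
theorem eq_of_vol {K L : Set (ℝ × ℝ)} (hK : IsClosed K) (hL : Convex ℝ L) (hLi : (interior L).Nonempty)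
    (hsub : K ⊆ L) (hfin : volume L ≠ ⊤) (hv : volume L ≤ volume K) : K = L := by
  apply Subset.antisymm hsub
  intro x hx
  by_contra hxK
  have h1 : x ∈ closure (interior L) := by
    rw [hL.closure_interior_eq_closure_of_nonempty_interior hLi]
    exact subset_closure hx
  have h2 : (Kᶜ ∩ interior L).Nonempty :=
    mem_closure_iff.mp h1 _ hK.isOpen_compl hxK
  have h3 : IsOpen (Kᶜ ∩ interior L) := hK.isOpen_compl.inter isOpen_interior
  have h4 : 0 < volume (Kᶜ ∩ interior L) := h3.measure_pos _ h2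
  have h5 : volume K + volume (Kᶜ ∩ interior L) ≤ volume L := by
    rw [← measure_union (by
      rw [Set.disjoint_left]
      intro z hz hz'
      exact hz'.1 hz) h3.measurableSet]
    exact measure_mono (union_subset hsub (inter_subset_right.trans interior_subset))
  have h6 : volume K ≠ ⊤ := ne_top_of_le_ne_top hfin (measure_mono hsub)
  have h7 : volume K + volume (Kᶜ ∩ interior L) ≤ volume K := h5.trans hv
  have h8 : volume K < volume K + volume (Kᶜ ∩ interior L) :=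
    ENNReal.lt_add_right h6 h4.ne'
  exact absurd h7 (not_le.mpr h8)

theorem Disk_zero (r : ℝ) : Disk 0 r = disk r := by
  ext z
  simp [Disk, disk, nsq]

theorem pos_of_min {K : Set (ℝ × ℝ)} {r : ℝ} (h0 : (0 : ℝ × ℝ) ∈ interior K) (hr : 0 ≤ r)
    (hsub : K ⊆ disk r) : 0 < r := by
  rcases hr.lt_or_eq with h | h
  · exact h
  · exfalso
    have h1 : K ⊆ {0} := by
      intro z hz
      have : nsq z ≤ r ^ 2 := hsub hz
      rw [← h] at this
      simp only [nsq] at this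
      have e1 : z.1 = 0 := by nlinarith [sq_nonneg z.1, sq_nonneg z.2]
      have e2 : z.2 = 0 := by nlinarith [sq_nonneg z.1, sq_nonneg z.2]
      exact Prod.ext e1 e2
    have h2 := interior_mono h1 h0
    rw [interior_singleton] at h2
    exact h2

/-- the bound for bodies of the class -/
theorem bound {K : Set (ℝ × ℝ)} {R ks : ℝ} (h : Bd K R)
    (hmin : ∀ (c : ℝ × ℝ) (r : ℝ), 0 ≤ r →
      (∀ z ∈ K, (z.1 - c.1) ^ 2 + (z.2 - c.2) ^ 2 ≤ r ^ 2) → R ≤ r)
    (k1 : 0.2399 < ks) (k2 : ks < 0.24) (k3 : ∀ k, 0 ≤ k → k ≤ 0.53 → k ≠ ks → F k < F ks)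
    (k4 : 4.04569 < F ks) :
    (volume K).toReal ≤ F ks ∧
      ((volume K).toReal = F ks → ∃ e f s, K = sym e f s '' Kst ks) := by
  have four : volume K ≤ 4 → (volume K).toReal ≤ F ks ∧
      ((volume K).toReal = F ks → ∃ e f s, K = sym e f s '' Kst ks) := by
    intro h4
    have : (volume K).toReal ≤ 4 := by
      have := ENNReal.toReal_mono (by norm_num : (4 : ENNReal) ≠ ⊤) h4
      simpa using this
    refine ⟨by linarith, fun he => ?_⟩
    exfalso
    linarith
  have hne : K.Nonempty := ⟨0, interior_subset h.zero⟩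
  rcases contact h.pos h.comp hne h.sub hmin with ⟨p, hp, np, hp'⟩ | ⟨p, q, r, ht⟩
  · exact four (antipodal h hp np hp')
  by_cases hR : R ^ 2 ≤ 2
  · exact four (small h ht hR)
  push Not at hR
  obtain ⟨e, f, s, p', q', r', ht', hcase⟩ := classify h ht hR
  have hB := h.sym e f s
  have hvol := volume_sym K e f s
  rcases hcase with ⟨h1, h5⟩ | ⟨h1, h3, h6⟩
  · apply four
    rw [← hvol]
    exact opp hB ht' h1 h5 hR
  obtain ⟨-, -, -, hR'⟩ := mbound hB ht' h1 h3 h6 hR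
  set k := √(R ^ 2 - 1) - 1 with hk
  have e1 : √(R ^ 2 - 1) = k + 1 := by rw [hk]; ring
  have hk1 : R ^ 2 = k ^ 2 + 2 * k + 2 := by
    have := Real.sq_sqrt (show (0 : ℝ) ≤ R ^ 2 - 1 by linarith)
    rw [e1] at this
    nlinarith
  have hk0 : 0 ≤ k := by
    have : 1 ≤ √(R ^ 2 - 1) := Real.le_sqrt' one_pos |>.mpr (by linarith)
    linarith
  have hk53 : k ≤ 0.53 := by nlinarith
  obtain ⟨m1, m2, m3, m4⟩ := marea hB ht' h1 h3 h6 hR hk
  rw [hvol] at m1 m2 m3 m4
  have hFle : F k ≤ F ks := by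
    by_cases hkk : k = ks
    · rw [hkk]
    · exact (k3 k hk0 hk53 hkk).le
  by_cases h52 : R ^ 2 < 5 / 2
  · have hb : (volume K).toReal < 4.0456 := by
      rcases bonus hk0 hk1 h52.le with hb | hb
      · linarith
      · have := m2 h52.le
        linarith
    refine ⟨by linarith, fun he => ?_⟩
    exfalso
    linarith
  · push Not at h52
    refine ⟨(m1 h52).trans hFle, fun he => ?_⟩
    have hkk : k = ks := by
      by_contra hkk
      have a1 := k3 k hk0 hk53 hkk
      have a2 := m1 h52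
      linarith
    have h253 : 253 / 100 ≤ R ^ 2 := by
      rw [hk1, hkk]
      nlinarith
    have hsub := m4 h253 (by rw [he, hkk])
    rw [hkk] at hsub
    have hvK := volume_Kst (k := ks) (by linarith) (by linarith)
    have hfin : volume (Kst ks) ≠ ⊤ := by rw [hvK]; exact ENNReal.ofReal_ne_top
    have hfinK : volume K ≠ ⊤ := by
      rw [← hvol]
      exact ne_top_of_le_ne_top hfin (measure_mono hsub)
    have heq : sym e f s '' K = Kst ks := by
      refine eq_of_vol hB.comp.isClosed (Kst_bd (by linarith) (by linarith)).conv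
        ⟨0, (Kst_bd (by linarith) (by linarith)).zero⟩ hsub hfin ?_
      rw [hvol, hvK, ← he, ENNReal.ofReal_toReal hfinK]
    have hK : K = symInv e f s '' Kst ks := by
      rw [← heq]
      ext z
      constructor
      · intro hz
        exact ⟨sym e f s z, ⟨z, hz, rfl⟩, symInv_sym e f s z⟩
      · rintro ⟨w, ⟨z', hz', rfl⟩, rfl⟩
        rw [symInv_sym]
        exact hz'
    cases s with
    | false => exact ⟨e, f, false, by simpa [symInv] using hK⟩
    | true => exact ⟨f, e, true, by simpa [symInv] using hK⟩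

theorem bd_of_cls {K : Set (ℝ × ℝ)} (h : Cls K) : ∃ R, Bd K R ∧ IsMinDisk K 0 R := by
  obtain ⟨⟨hc, hk, -, r, hr⟩, h0, hl⟩ := h
  have hsub : K ⊆ disk r := by rw [← Disk_zero]; exact hr.2.1
  refine ⟨r, ⟨pos_of_min h0 hr.1 hsub, hc, hk, h0, hsub, ?_⟩, hr⟩
  rintro v ⟨m, n, rfl⟩ hv
  obtain ⟨rfl, rfl⟩ := hl m n hv
  simp

theorem Kst_isMinDisk {k : ℝ} (hk : 0.2 ≤ k) (hk' : k ≤ 0.25) :
    IsMinDisk (Kst k) 0 √(k ^ 2 + 2 * k + 2) := by
  refine ⟨Real.sqrt_nonneg _, ?_, ?_⟩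
  · rw [Disk_zero]
    exact (Kst_bd hk hk').sub
  · intro c r hr hsub
    exact Kst_circ hk hk' c r hr (fun z hz => hsub hz)

/-- `sym` maps minimal disks to minimal disks -/
theorem isMinDisk_sym {K : Set (ℝ × ℝ)} {R : ℝ} (h : IsMinDisk K 0 R) (e f s : Bool) :
    IsMinDisk (sym e f s '' K) 0 R := by
  obtain ⟨h0, h1, h2⟩ := h
  refine ⟨h0, ?_, ?_⟩
  · rw [Disk_zero] at *
    rintro _ ⟨z, hz, rfl⟩
    have : nsq z ≤ R ^ 2 := h1 hz
    show nsq _ ≤ _
    rw [nsq_sym]
    exact this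
  · intro c r hr hsub
    refine h2 (symInv e f s c) r hr ?_
    intro z hz
    have h3 := hsub ⟨z, hz, rfl⟩
    have key : (z.1 - (symInv e f s c).1) ^ 2 + (z.2 - (symInv e f s c).2) ^ 2 =
        ((sym e f s z).1 - c.1) ^ 2 + ((sym e f s z).2 - c.2) ^ 2 := by
      cases e <;> cases f <;> cases s <;> simp [symInv, sym] <;> ring
    show (z.1 - (symInv e f s c).1) ^ 2 + (z.2 - (symInv e f s c).2) ^ 2 ≤ r ^ 2
    rw [key]
    exact h3

theorem cls_sym_Kst {k : ℝ} (hk : 0.2 ≤ k) (hk' : k ≤ 0.25) (e f s : Bool) :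
    Cls (sym e f s '' Kst k) := by
  have hB := (Kst_bd hk hk').sym e f s
  refine ⟨⟨hB.conv, hB.comp, ⟨0, hB.zero⟩, _, isMinDisk_sym (Kst_isMinDisk hk hk') e f s⟩,
    hB.zero, ?_⟩
  intro m n hmn
  have := hB.lat _ ⟨m, n, rfl⟩ hmn
  have e1 : (m : ℝ) = 0 := congrArg Prod.fst this
  have e2 : (n : ℝ) = 0 := congrArg Prod.snd this
  exact ⟨by exact_mod_cast e1, by exact_mod_cast e2⟩

theorem main :
    (∃ k : ℝ, 0.2399 < k ∧ k < 0.24 ∧ Th k = rho k ∧
      (∀ k', 0 ≤ k' → k' ≤ 0.53 → Th k' = rho k' → k' = k) ∧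
      4.04569 < F k ∧ F k < 4.0457 ∧
      IsGreatest {A : ℝ | ∃ K, Cls K ∧ A = (volume K).toReal} (F k) ∧
      (∀ K, (Cls K ∧ (volume K).toReal = F k) ↔ ∃ e f s, K = sym e f s '' Kst k) ∧
      (∀ e f s, IsMinDisk (sym e f s '' Kst k) 0 √(k ^ 2 + 2 * k + 2)) ∧
      1.5929 < √(k ^ 2 + 2 * k + 2) ∧ √(k ^ 2 + 2 * k + 2) < 1.593) ∧
    (∀ M : ℝ, ∃ K, Body K ∧ (∀ m n : ℤ, ((m : ℝ), (n : ℝ)) ∈ interior K → m = 0 ∧ n = 0) ∧
      M < (volume K).toReal) := by
  constructor
  · obtain ⟨ks, k1, k2, k5, k6, k3, -, k4, k7⟩ := exists_ks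
    have hk : 0.2 ≤ ks := by linarith
    have hk' : ks ≤ 0.25 := by linarith
    have hF0 : 0 ≤ F ks := by linarith
    have hb : ∀ K, Cls K → (volume K).toReal ≤ F ks ∧
        ((volume K).toReal = F ks → ∃ e f s, K = sym e f s '' Kst ks) := by
      intro K hK
      obtain ⟨R, hB, hm⟩ := bd_of_cls hK
      exact bound hB (fun c r hr hz => hm.2.2 c r hr hz) k1 k2 k3 k4
    have hv : ∀ e f s, (volume (sym e f s '' Kst ks)).toReal = F ks := by
      intro e f s
      rw [volume_sym, volume_Kst hk hk', ENNReal.toReal_ofReal hF0]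
    refine ⟨ks, k1, k2, k5, k6, k4, k7, ⟨?_, ?_⟩, ?_, ?_, ?_, ?_⟩
    · exact ⟨_, cls_sym_Kst hk hk' false false false, (hv _ _ _).symm⟩
    · rintro A ⟨K, hK, rfl⟩
      exact (hb K hK).1
    · intro K
      constructor
      · rintro ⟨hK, he⟩
        exact (hb K hK).2 he
      · rintro ⟨e, f, s, rfl⟩
        exact ⟨cls_sym_Kst hk hk' e f s, hv e f s⟩
    · intro e f s
      exact isMinDisk_sym (Kst_isMinDisk hk hk') e f s
    · rw [Real.lt_sqrt (by norm_num)]
      nlinarith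
    · rw [Real.sqrt_lt' (by norm_num)]
      nlinarith
  · intro M
    obtain ⟨K, R, hc, hk, hi, hR, hsub, hmin, hl, hM⟩ := lit_unbounded M
    refine ⟨K, ⟨hc, hk, hi, R, hR, ?_, ?_⟩, ?_, hM⟩
    · rw [Disk_zero]; exact hsub
    · intro c r hr h
      exact hmin c r hr (fun z hz => h hz)
    · intro m n hmn
      exact absurd hmn (hl m n)

end Pool.Agent.H16.Cef
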