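import Pool.Agent.H16.Cef.Defs

/-!
Module MINK. Minkowski's theorem for `ℤ²` in the form we need.

Proof. `volume (interior S) = volume S` for a convex set (`Convex.addHaar_frontier`). If it were
`> 4 = 2 ^ 2 * 1`, `MeasureTheory.exists_ne_zero_mem_lattice_of_measure_mul_two_pow_lt_measure`
(lattice `ℤ × ℤ` inside `ℝ × ℝ`, fundamental domain `Ico 0 1 ×ˢ Ico 0 1` of volume 1) applied to the
convex symmetric set `interior S` gives a nonzero lattice point of `interior S`.
-/

set_option autoImplicit false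

open MeasureTheory Set

namespace Pool.Agent.H16.Cef

/-- the lattice `ℤ²` as a subgroup of the plane -/
def latZ : AddSubgroup (ℝ × ℝ) where
  carrier := {v | Lat v}
  zero_mem' := ⟨0, 0, by simp only [Int.cast_zero]; rfl⟩
  add_mem' := by
    rintro _ _ ⟨m, n, rfl⟩ ⟨m', n', rfl⟩
    exact ⟨m + m', n + n', by push_cast; rfl⟩
  neg_mem' := by
    rintro _ ⟨m, n, rfl⟩
    exact ⟨-m, -n, by push_cast; rfl⟩

instance latZ_countable : Countable latZ := by
  have h : Function.Surjective (fun p : ℤ × ℤ =>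
      (⟨((p.1 : ℝ), (p.2 : ℝ)), ⟨p.1, p.2, rfl⟩⟩ : latZ)) := by
    rintro ⟨v, m, n, rfl⟩
    exact ⟨(m, n), rfl⟩
  exact h.countable

theorem latZ_fund : IsAddFundamentalDomain latZ (Ico (0 : ℝ) 1 ×ˢ Ico (0 : ℝ) 1)
    (volume : Measure (ℝ × ℝ)) := by
  refine IsAddFundamentalDomain.mk' ?_ ?_
  · exact (measurableSet_Ico.prod measurableSet_Ico).nullMeasurableSet
  · intro x
    refine ⟨⟨(((-⌊x.1⌋ : ℤ) : ℝ), ((-⌊x.2⌋ : ℤ) : ℝ)), ⟨-⌊x.1⌋, -⌊x.2⌋, rfl⟩⟩, ?_, ?_⟩
    · show (((-⌊x.1⌋ : ℤ) : ℝ), ((-⌊x.2⌋ : ℤ) : ℝ)) + x ∈ Ico (0 : ℝ) 1 ×ˢ Ico (0 : ℝ) 1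
      rw [Set.mem_prod]
      have h1 := Int.floor_le x.1
      have h2 := Int.lt_floor_add_one x.1
      have h3 := Int.floor_le x.2
      have h4 := Int.lt_floor_add_one x.2
      simp only [Prod.fst_add, Prod.snd_add, mem_Ico, Int.cast_neg]
      refine ⟨⟨?_, ?_⟩, ⟨?_, ?_⟩⟩ <;> linarith
    · rintro ⟨v, m, n, rfl⟩ hv
      have hv' : ((m : ℝ), (n : ℝ)) + x ∈ Ico (0 : ℝ) 1 ×ˢ Ico (0 : ℝ) 1 := hv
      rw [Set.mem_prod] at hv'
      simp only [Prod.fst_add, Prod.snd_add, mem_Ico] at hv'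
      have h1 : ⌊x.1⌋ = -m := by
        rw [Int.floor_eq_iff]
        push_cast
        exact ⟨by linarith [hv'.1.1], by linarith [hv'.1.2]⟩
      have h2 : ⌊x.2⌋ = -n := by
        rw [Int.floor_eq_iff]
        push_cast
        exact ⟨by linarith [hv'.2.1], by linarith [hv'.2.2]⟩
      apply Subtype.ext
      simp only [h1, h2, neg_neg]

theorem vol_le_four {S : Set (ℝ × ℝ)} (hc : Convex ℝ S) (hs : ∀ x ∈ S, -x ∈ S)
    (hl : ∀ v, Lat v → v ∈ interior S → v = 0) : volume S ≤ 4 := by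
  by_contra hcon
  push Not at hcon
  have hint : volume (interior S) = volume S := by
    apply le_antisymm (measure_mono interior_subset)
    have hfr : volume (frontier S) = 0 := hc.addHaar_frontier volume
    have hsub : S ⊆ interior S ∪ frontier S := by
      intro x hx
      have hx' : x ∈ closure S := subset_closure hx
      rw [closure_eq_interior_union_frontier] at hx'
      exact hx'
    calc volume S ≤ volume (interior S ∪ frontier S) := measure_mono hsub
      _ ≤ volume (interior S) + volume (frontier S) := measure_union_le _ _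
      _ = volume (interior S) := by rw [hfr, add_zero]
  have hsym : ∀ x ∈ interior S, -x ∈ interior S := by
    intro x hx
    have himg : Neg.neg '' S ⊆ S := by
      rintro _ ⟨y, hy, rfl⟩
      exact hs y hy
    have h1 : -x ∈ Neg.neg '' interior S := ⟨x, hx, rfl⟩
    have h2 : IsOpen (Neg.neg '' interior S) :=
      (Homeomorph.neg (ℝ × ℝ)).isOpenMap _ isOpen_interior
    exact interior_maximal ((image_mono interior_subset).trans himg) h2 h1
  have hF : volume (Ico (0 : ℝ) 1 ×ˢ Ico (0 : ℝ) 1) = 1 := by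
    rw [Measure.volume_eq_prod, Measure.prod_prod, Real.volume_Ico]
    norm_num
  have hfin : Module.finrank ℝ (ℝ × ℝ) = 2 := by simp
  have hlt : volume (Ico (0 : ℝ) 1 ×ˢ Ico (0 : ℝ) 1) * 2 ^ Module.finrank ℝ (ℝ × ℝ) <
      volume (interior S) := by
    rw [hF, hfin, hint]
    calc (1 : ENNReal) * 2 ^ 2 = 4 := by norm_num
      _ < volume S := hcon
  obtain ⟨x, hx0, hx⟩ := exists_ne_zero_mem_lattice_of_measure_mul_two_pow_lt_measure
    latZ_fund hsym hc.interior hlt
  exact hx0 (Subtype.ext (hl x.1 x.2 hx))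

end Pool.Agent.H16.Cef
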