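import Pool.Agent.H16.Cef.Mink
import Pool.Agent.H16.Cef.Basic
import Pool.Agent.H16.Cef.ConvS

/-!
Module SLIVER. The sliver lemma, from `vol_le_four`, `convex_S1`, `convex_S2`.

Let `α z = cr z p`, `β z = cr z q` and let `Q₁, …, Q₄` be the open quadrants
`A = {α < 0 < β}`, `A' = {β < 0 < α} = -A`, `J = {0 < α, 0 < β}`, `J' = -J`; the lines `α = 0`, `β = 0`
are null sets, `z ↦ -z` preserves area.
1. `S1`, `S2` are convex and symmetric, and have no nonzero lattice point in the interior: let `v` be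
   one. `v ∈ A`: near `v` the set `S1` is contained in `K`, so `v ∈ interior K`, contradiction
   (`A` is open). `v ∈ -A`: same for `-v`. Otherwise `v` or `-v` is in the closed cone
   `{0 ≤ α, 0 ≤ β}`, so `R² ≤ nsq v` by hypothesis; but `v ∈ interior S1 ⊆ interior (disk R)`, which
   gives `nsq v < R²` (e.g. a multiple `c v` with `c > 1` is in `S1`). For `S2` (note
   `S2 ⊆ K ∪ -K ⊆ disk R`): `v ∈ -A` gives `v ∈ interior K`, `v ∈ A` gives `-v ∈ interior K`, the rest
   is the same.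
2. So `volume S1 ≤ 4`, `volume S2 ≤ 4`. `S1 ⊇ (K ∩ A) ∪ -(K ∩ A) ∪ (disk ∩ J) ∪ (disk ∩ J')`
   (disjoint), hence `vol (K ∩ A) + vol (disk ∩ J) ≤ 2`; similarly
   `vol (K ∩ A') + vol (K ∩ -K ∩ J) ≤ 2`.
3. `vol (K ∩ J) + vol (K ∩ J') = vol (K ∩ J) + vol (-K ∩ J) = vol ((K ∪ -K) ∩ J) + vol (K ∩ -K ∩ J)
   ≤ vol (disk ∩ J) + vol (K ∩ -K ∩ J)`. Sum up: `vol K ≤ 4`.
-/

set_option autoImplicit false

open MeasureTheory Set

namespace Pool.Agent.H16.Cef

open scoped Pointwise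

namespace Sliver

/-- the four open quadrants -/
def QA (p q : ℝ × ℝ) : Set (ℝ × ℝ) := {z | cr z p < 0 ∧ 0 < cr z q}
def QB (p q : ℝ × ℝ) : Set (ℝ × ℝ) := {z | 0 < cr z p ∧ cr z q < 0}
def QJ (p q : ℝ × ℝ) : Set (ℝ × ℝ) := {z | 0 < cr z p ∧ 0 < cr z q}
def QJ' (p q : ℝ × ℝ) : Set (ℝ × ℝ) := {z | cr z p < 0 ∧ cr z q < 0}

lemma cr_neg (z p : ℝ × ℝ) : cr (-z) p = -cr z p := by
  unfold cr
  simp only [Prod.fst_neg, Prod.snd_neg]
  ring

lemma nsq_neg (z : ℝ × ℝ) : nsq (-z) = nsq z := by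
  unfold nsq
  simp only [Prod.fst_neg, Prod.snd_neg]
  ring

lemma cont_cr (p : ℝ × ℝ) : Continuous fun z : ℝ × ℝ => cr z p := by
  unfold cr
  fun_prop

lemma cont_nsq : Continuous nsq := by
  unfold nsq
  fun_prop

lemma open_QA (p q : ℝ × ℝ) : IsOpen (QA p q) :=
  (isOpen_lt (cont_cr p) continuous_const).inter (isOpen_lt continuous_const (cont_cr q))

lemma open_QB (p q : ℝ × ℝ) : IsOpen (QB p q) :=
  (isOpen_lt continuous_const (cont_cr p)).inter (isOpen_lt (cont_cr q) continuous_const)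

lemma open_QJ (p q : ℝ × ℝ) : IsOpen (QJ p q) :=
  (isOpen_lt continuous_const (cont_cr p)).inter (isOpen_lt continuous_const (cont_cr q))

lemma open_QJ' (p q : ℝ × ℝ) : IsOpen (QJ' p q) :=
  (isOpen_lt (cont_cr p) continuous_const).inter (isOpen_lt (cont_cr q) continuous_const)

lemma null_line {p : ℝ × ℝ} (hp : p ≠ 0) : volume {z : ℝ × ℝ | cr z p = 0} = 0 := by
  let f : (ℝ × ℝ) →ₗ[ℝ] ℝ :=
    { toFun := fun z => cr z p
      map_add' := fun x y => by simp only [cr, Prod.fst_add, Prod.snd_add]; ring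
      map_smul' := fun c x => by
        simp only [cr, Prod.smul_fst, Prod.smul_snd, smul_eq_mul, RingHom.id_apply]; ring }
  have h1 : ({z : ℝ × ℝ | cr z p = 0} : Set (ℝ × ℝ)) = (LinearMap.ker f : Set (ℝ × ℝ)) := by
    ext z
    simp [f]
  rw [h1]
  refine Measure.addHaar_submodule volume _ fun h => hp ?_
  have h2 : ∀ z : ℝ × ℝ, cr z p = 0 := fun z => by
    have : z ∈ LinearMap.ker f := by rw [h]; trivial
    exact this
  have h3 := h2 (1, 0)
  have h4 := h2 (0, 1)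
  unfold cr at h3 h4
  ext
  · simpa using h4
  · simpa using h3

lemma interior_neg' (S : Set (ℝ × ℝ)) {v : ℝ × ℝ} (h : v ∈ interior (-S)) : -v ∈ interior S := by
  have h1 : (-S : Set (ℝ × ℝ)) = (Homeomorph.neg (ℝ × ℝ)) ⁻¹' S := rfl
  rw [h1, ← (Homeomorph.neg (ℝ × ℝ)).preimage_interior] at h
  exact h

/-- a nonzero interior point of the disk has norm less than `R` -/
lemma interior_disk {R : ℝ} {S : Set (ℝ × ℝ)} (hS : S ⊆ disk R) {v : ℝ × ℝ} (hv : v ∈ interior S)
    (h0 : v ≠ 0) : nsq v < R ^ 2 := by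
  have h1 : Filter.Tendsto (fun t : ℝ => t • v) (nhdsWithin 1 (Ioi 1)) (nhds v) := by
    have h2 : Continuous fun t : ℝ => t • v := by fun_prop
    have h3 := h2.tendsto 1
    rw [one_smul] at h3
    exact h3.mono_left nhdsWithin_le_nhds
  have h2 := h1 (isOpen_interior.mem_nhds hv)
  have h3 : ∀ᶠ t : ℝ in nhdsWithin 1 (Ioi 1), t • v ∈ interior S := h2
  obtain ⟨t, ht1, ht2⟩ := (h3.and self_mem_nhdsWithin).exists
  have h4 : nsq (t • v) ≤ R ^ 2 := hS (interior_subset ht1)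
  have h5 : nsq (t • v) = t ^ 2 * nsq v := by
    unfold nsq
    simp only [Prod.smul_fst, Prod.smul_snd, smul_eq_mul]
    ring
  have h6 : 0 < nsq v := by
    unfold nsq
    rcases (by
      by_contra hc
      push Not at hc
      exact h0 (Prod.ext hc.1 hc.2) : v.1 ≠ 0 ∨ v.2 ≠ 0) with h | h
    · positivity
    · positivity
  have h7 : (1 : ℝ) < t := ht2
  rw [h5] at h4
  have h8 : 1 < t ^ 2 := by nlinarith
  have h9 : 1 * nsq v < t ^ 2 * nsq v := mul_lt_mul_of_pos_right h8 h6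
  linarith

/-- the common end of the two lattice point arguments -/
lemma lat_end {R : ℝ} {p q v : ℝ × ℝ} {S : Set (ℝ × ℝ)} (hS : S ⊆ disk R) (hv : v ∈ interior S)
    (h0 : v ≠ 0) (hl : Lat v)
    (hJ : ∀ v, Lat v → v ≠ 0 → 0 ≤ cr v p → 0 ≤ cr v q → R ^ 2 ≤ nsq v)
    (hA : ¬ (cr v p < 0 ∧ 0 < cr v q)) (hB : ¬ (0 < cr v p ∧ cr v q < 0)) : False := by
  have h1 := interior_disk hS hv h0
  have h2 : ¬ (0 ≤ cr v p ∧ 0 ≤ cr v q) := fun h => by
    have := hJ v hl h0 h.1 h.2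
    linarith
  have h3 : ¬ (cr v p ≤ 0 ∧ cr v q ≤ 0) := fun h => by
    have := hJ (-v) hl.neg (neg_ne_zero.2 h0) (by rw [cr_neg]; linarith [h.1])
      (by rw [cr_neg]; linarith [h.2])
    rw [nsq_neg] at this
    linarith
  rcases lt_trichotomy (cr v p) 0 with h | h | h
  · rcases lt_trichotomy (cr v q) 0 with h' | h' | h'
    · exact h3 ⟨h.le, h'.le⟩
    · exact h3 ⟨h.le, h'.le⟩
    · exact hA ⟨h, h'⟩
  · rcases le_total (cr v q) 0 with h' | h'
    · exact h3 ⟨h.le, h'⟩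
    · exact h2 ⟨h.ge, h'⟩
  · rcases lt_trichotomy (cr v q) 0 with h' | h' | h'
    · exact hB ⟨h, h'⟩
    · exact h2 ⟨h.le, h'.ge⟩
    · exact h2 ⟨h.le, h'.le⟩

/-- the volume of a symmetric set containing `X ∪ -X ∪ Y ∪ -Y` -/
lemma four_parts {S X Y : Set (ℝ × ℝ)} (hX : MeasurableSet X) (hY : MeasurableSet Y)
    (h1 : X ⊆ S) (h2 : -X ⊆ S) (h3 : Y ⊆ S) (h4 : -Y ⊆ S) (d1 : Disjoint X (-X))
    (d2 : Disjoint Y (-Y)) (d3 : Disjoint (X ∪ -X) (Y ∪ -Y)) :
    2 * volume X + 2 * volume Y ≤ volume S := by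
  have hX' : MeasurableSet (-X) := hX.neg
  have hY' : MeasurableSet (-Y) := hY.neg
  calc 2 * volume X + 2 * volume Y = (volume X + volume (-X)) + (volume Y + volume (-Y)) := by
        rw [Measure.measure_neg, Measure.measure_neg, two_mul, two_mul]
    _ = volume ((X ∪ -X) ∪ (Y ∪ -Y)) := by
        rw [measure_union d3 (hY.union hY'), measure_union d1 hX', measure_union d2 hY']
    _ ≤ volume S := measure_mono (union_subset (union_subset h1 h2) (union_subset h3 h4))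

end Sliver

open Sliver

theorem sliver {K : Set (ℝ × ℝ)} {R : ℝ} (h : Bd K R) {p q : ℝ × ℝ} (hp : p ∈ K)
    (np : nsq p = R ^ 2) (hq : q ∈ K) (nq : nsq q = R ^ 2) (hpq : 0 < cr p q)
    (hJ : ∀ v, Lat v → v ≠ 0 → 0 ≤ cr v p → 0 ≤ cr v q → R ^ 2 ≤ nsq v) : volume K ≤ 4 := by
  have h0K : (0 : ℝ × ℝ) ∈ K := interior_subset h.zero
  have hKm : MeasurableSet K := h.comp.isClosed.measurableSet
  have hKn : MeasurableSet (-K) := hKm.neg
  have hDm : MeasurableSet (disk R) := (isClosed_le cont_nsq continuous_const).measurableSet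
  have hp0 : p ≠ 0 := by
    rintro rfl
    unfold cr at hpq
    simp at hpq
  have hq0 : q ≠ 0 := by
    rintro rfl
    unfold cr at hpq
    simp at hpq
  -- the first auxiliary set
  have v1 : volume (S1 K R p q) ≤ 4 := by
    refine vol_le_four (convex_S1 h.pos h.conv h0K hp np hq nq hpq) ?_ ?_
    · rintro x ⟨hx1, hx2, hx3⟩
      refine ⟨by rw [nsq_neg]; exact hx1, fun h1 h2 => ?_, fun h1 h2 => ?_⟩
      · rw [cr_neg] at h1 h2
        exact hx3 (by linarith) (by linarith)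
      · rw [cr_neg] at h1 h2
        rw [neg_neg]
        exact hx2 (by linarith) (by linarith)
    · intro v hl hv
      by_contra h0
      refine lat_end (p := p) (q := q) (R := R) (fun z hz => hz.1) hv h0 hl hJ ?_ ?_
      · intro hA
        have h1 : v ∈ interior (S1 K R p q ∩ QA p q) := by
          rw [interior_inter]
          exact ⟨hv, by rw [(open_QA p q).interior_eq]; exact hA⟩
        have h2 : S1 K R p q ∩ QA p q ⊆ K := fun z hz => hz.1.2.1 hz.2.1.le hz.2.2.le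
        exact h0 (h.lat v hl (interior_mono h2 h1))
      · intro hB
        have h1 : v ∈ interior (S1 K R p q ∩ QB p q) := by
          rw [interior_inter]
          exact ⟨hv, by rw [(open_QB p q).interior_eq]; exact hB⟩
        have h2 : S1 K R p q ∩ QB p q ⊆ -K := fun z hz => hz.1.2.2 hz.2.1.le hz.2.2.le
        have h3 := interior_neg' K (interior_mono h2 h1)
        exact h0 (neg_eq_zero.1 (h.lat (-v) hl.neg h3))
  -- the second auxiliary set
  have hsub2 : S2 K p q ⊆ disk R := by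
    rintro z ⟨hz1, hz2, hz3, hz4⟩
    have hneg : -z ∈ K → z ∈ disk R := fun hz => by
      have : nsq (-z) ≤ R ^ 2 := h.sub hz
      rw [nsq_neg] at this
      exact this
    rcases le_total (cr z p) 0 with h1 | h1 <;> rcases le_total (cr z q) 0 with h2 | h2
    · exact h.sub (hz4 h1 h2).1
    · exact hneg (hz2 h1 h2)
    · exact h.sub (hz1 h1 h2)
    · exact h.sub (hz3 h1 h2).1
  have v2 : volume (S2 K p q) ≤ 4 := by
    refine vol_le_four (convex_S2 h.pos h.conv h0K h.sub hp np hq nq hpq) ?_ ?_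
    · rintro x ⟨hx1, hx2, hx3, hx4⟩
      refine ⟨fun h1 h2 => ?_, fun h1 h2 => ?_, fun h1 h2 => ?_, fun h1 h2 => ?_⟩ <;>
        rw [cr_neg] at h1 h2
      · exact hx2 (by linarith) (by linarith)
      · rw [neg_neg]
        exact hx1 (by linarith) (by linarith)
      · rw [neg_neg]
        exact (hx4 (by linarith) (by linarith)).symm
      · rw [neg_neg]
        exact (hx3 (by linarith) (by linarith)).symm
    · intro v hl hv
      by_contra h0
      refine lat_end (p := p) (q := q) (R := R) hsub2 hv h0 hl hJ ?_ ?_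
      · intro hA
        have h1 : v ∈ interior (S2 K p q ∩ QA p q) := by
          rw [interior_inter]
          exact ⟨hv, by rw [(open_QA p q).interior_eq]; exact hA⟩
        have h2 : S2 K p q ∩ QA p q ⊆ -K := fun z hz => hz.1.2.1 hz.2.1.le hz.2.2.le
        have h3 := interior_neg' K (interior_mono h2 h1)
        exact h0 (neg_eq_zero.1 (h.lat (-v) hl.neg h3))
      · intro hB
        have h1 : v ∈ interior (S2 K p q ∩ QB p q) := by
          rw [interior_inter]
          exact ⟨hv, by rw [(open_QB p q).interior_eq]; exact hB⟩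
        have h2 : S2 K p q ∩ QB p q ⊆ K := fun z hz => hz.1.1 hz.2.1.le hz.2.2.le
        exact h0 (h.lat v hl (interior_mono h2 h1))
  -- lower bounds for the volumes of the auxiliary sets
  have mA := (open_QA p q).measurableSet
  have mB := (open_QB p q).measurableSet
  have mJ := (open_QJ p q).measurableSet
  have mJ' := (open_QJ' p q).measurableSet
  have w1 : 2 * volume (K ∩ QA p q) + 2 * volume (disk R ∩ QJ p q) ≤ volume (S1 K R p q) := by
    refine four_parts (hKm.inter mA) (hDm.inter mJ) ?_ ?_ ?_ ?_ ?_ ?_ ?_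
    · rintro z ⟨hz, h1, h2⟩
      exact ⟨h.sub hz, fun _ _ => hz, fun h3 _ => absurd h3 (not_le.2 h1)⟩
    · rintro z ⟨hz, h1, h2⟩
      rw [cr_neg] at h1 h2
      have h3 : nsq (-z) ≤ R ^ 2 := h.sub hz
      rw [nsq_neg] at h3
      exact ⟨h3, fun h4 _ => absurd h4 (not_le.2 (by linarith)), fun _ _ => hz⟩
    · rintro z ⟨hz, h1, h2⟩
      exact ⟨hz, fun h3 _ => absurd h3 (not_le.2 h1), fun _ h3 => absurd h3 (not_le.2 h2)⟩
    · rintro z ⟨hz, h1, h2⟩
      rw [cr_neg] at h1 h2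
      have h3 : nsq (-z) ≤ R ^ 2 := hz
      rw [nsq_neg] at h3
      exact ⟨h3, fun _ h4 => absurd h4 (not_le.2 (by linarith)),
        fun h4 _ => absurd h4 (not_le.2 (by linarith))⟩
    · rw [Set.disjoint_left]
      rintro z ⟨-, h1, h2⟩ ⟨-, h3, h4⟩
      rw [cr_neg] at h3 h4
      linarith
    · rw [Set.disjoint_left]
      rintro z ⟨-, h1, h2⟩ ⟨-, h3, h4⟩
      rw [cr_neg] at h3 h4
      linarith
    · rw [Set.disjoint_left]
      rintro z (⟨-, h1, h2⟩ | ⟨-, h1, h2⟩) (⟨-, h3, h4⟩ | ⟨-, h3, h4⟩) <;>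
        (try simp only [cr_neg] at h1 h2) <;> (try simp only [cr_neg] at h3 h4) <;> linarith
  have w2 : 2 * volume (K ∩ QB p q) + 2 * volume ((K ∩ -K) ∩ QJ p q) ≤ volume (S2 K p q) := by
    refine four_parts (hKm.inter mB) ((hKm.inter hKn).inter mJ) ?_ ?_ ?_ ?_ ?_ ?_ ?_
    · rintro z ⟨hz, h1, h2⟩
      exact ⟨fun _ _ => hz, fun h3 _ => absurd h3 (not_le.2 h1),
        fun _ h3 => absurd h3 (not_le.2 h2), fun h3 _ => absurd h3 (not_le.2 h1)⟩
    · rintro z ⟨hz, h1, h2⟩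
      rw [cr_neg] at h1 h2
      exact ⟨fun h3 _ => absurd h3 (not_le.2 (by linarith)), fun _ _ => hz,
        fun h3 _ => absurd h3 (not_le.2 (by linarith)),
        fun _ h3 => absurd h3 (not_le.2 (by linarith))⟩
    · rintro z ⟨⟨hz, hz'⟩, h1, h2⟩
      have hz'' : -z ∈ K := hz'
      exact ⟨fun _ _ => hz, fun _ _ => hz'', fun _ _ => ⟨hz, hz''⟩, fun _ _ => ⟨hz, hz''⟩⟩
    · rintro z ⟨⟨hz, hz'⟩, h1, h2⟩
      have hz'' : z ∈ K := by
        have : - -z ∈ K := hz'
        rwa [neg_neg] at this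
      have hz3 : -z ∈ K := hz
      exact ⟨fun _ _ => hz'', fun _ _ => hz3, fun _ _ => ⟨hz'', hz3⟩, fun _ _ => ⟨hz'', hz3⟩⟩
    · rw [Set.disjoint_left]
      rintro z ⟨-, h1, h2⟩ ⟨-, h3, h4⟩
      rw [cr_neg] at h3 h4
      linarith
    · rw [Set.disjoint_left]
      rintro z ⟨-, h1, h2⟩ ⟨-, h3, h4⟩
      rw [cr_neg] at h3 h4
      linarith
    · rw [Set.disjoint_left]
      rintro z (⟨-, h1, h2⟩ | ⟨-, h1, h2⟩) (⟨-, h3, h4⟩ | ⟨-, h3, h4⟩) <;>
        (try simp only [cr_neg] at h1 h2) <;> (try simp only [cr_neg] at h3 h4) <;> linarith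
  -- decomposition of `K`
  have w3 : volume K ≤ volume (K ∩ QA p q) + volume (K ∩ QB p q) +
      (volume (K ∩ QJ p q) + volume (K ∩ QJ' p q)) := by
    have h1 : K ⊆ (((K ∩ QA p q) ∪ (K ∩ QB p q)) ∪ ((K ∩ QJ p q) ∪ (K ∩ QJ' p q))) ∪
        ({z : ℝ × ℝ | cr z p = 0} ∪ {z : ℝ × ℝ | cr z q = 0}) := by
      intro z hz
      rcases lt_trichotomy (cr z p) 0 with h1 | h1 | h1
      · rcases lt_trichotomy (cr z q) 0 with h2 | h2 | h2
        · exact Or.inl (Or.inr (Or.inr ⟨hz, h1, h2⟩))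
        · exact Or.inr (Or.inr h2)
        · exact Or.inl (Or.inl (Or.inl ⟨hz, h1, h2⟩))
      · exact Or.inr (Or.inl h1)
      · rcases lt_trichotomy (cr z q) 0 with h2 | h2 | h2
        · exact Or.inl (Or.inl (Or.inr ⟨hz, h1, h2⟩))
        · exact Or.inr (Or.inr h2)
        · exact Or.inl (Or.inr (Or.inl ⟨hz, h1, h2⟩))
    refine (measure_mono h1).trans ((measure_union_le _ _).trans ?_)
    have h2 : volume ({z : ℝ × ℝ | cr z p = 0} ∪ {z : ℝ × ℝ | cr z q = 0}) = 0 :=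
      measure_union_null (null_line hp0) (null_line hq0)
    rw [h2, add_zero]
    exact (measure_union_le _ _).trans (add_le_add (measure_union_le _ _) (measure_union_le _ _))
  have w4 : volume (K ∩ QJ p q) + volume (K ∩ QJ' p q) ≤
      volume (disk R ∩ QJ p q) + volume ((K ∩ -K) ∩ QJ p q) := by
    have h1 : volume (K ∩ QJ' p q) = volume (-K ∩ QJ p q) := by
      rw [← Measure.measure_neg volume (K ∩ QJ' p q)]
      congr 1
      ext z
      simp only [QJ, QJ', Set.mem_neg, Set.mem_inter_iff, Set.mem_ofPred_eq, cr_neg]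
      constructor
      · rintro ⟨h1, h2, h3⟩
        exact ⟨h1, by linarith, by linarith⟩
      · rintro ⟨h1, h2, h3⟩
        exact ⟨h1, by linarith, by linarith⟩
    rw [h1, ← measure_union_add_inter (K ∩ QJ p q) (hKn.inter mJ)]
    refine add_le_add (measure_mono ?_) (measure_mono ?_)
    · rintro z (⟨hz, h2⟩ | ⟨hz, h2⟩)
      · exact ⟨h.sub hz, h2⟩
      · have h3 : nsq (-z) ≤ R ^ 2 := h.sub hz
        rw [nsq_neg] at h3
        exact ⟨h3, h2⟩
    · rintro z ⟨⟨hz, h2⟩, ⟨hz', -⟩⟩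
      exact ⟨⟨hz, hz'⟩, h2⟩
  -- conclusion
  have w5 : 2 * volume K ≤ 8 := by
    calc 2 * volume K ≤ 2 * (volume (K ∩ QA p q) + volume (K ∩ QB p q) +
          (volume (disk R ∩ QJ p q) + volume ((K ∩ -K) ∩ QJ p q))) :=
          mul_le_mul_right (w3.trans (add_le_add le_rfl w4)) 2
      _ = (2 * volume (K ∩ QA p q) + 2 * volume (disk R ∩ QJ p q)) +
          (2 * volume (K ∩ QB p q) + 2 * volume ((K ∩ -K) ∩ QJ p q)) := by ring
      _ ≤ 4 + 4 := add_le_add (w1.trans v1) (w2.trans v2)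
      _ = 8 := by norm_num
  have e8 : (8 : ENNReal) = 2 * 4 := by norm_num
  rw [e8] at w5
  exact (ENNReal.mul_le_mul_iff_right (by norm_num) (by norm_num)).1 w5

end Pool.Agent.H16.Cef
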