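import Pool.Agent.H16.Cef.Defs

/-!
Module TRI. Area of a triangle. `{z | ∃ u v ≥ 0, u + v ≤ 1, z = a + u b + v c}` has area
`|det (b, c)| / 2`: image of the standard triangle `{(u, v) | 0 ≤ u, 0 ≤ v, u + v ≤ 1}` (area `1/2`, region
between two graphs) under `(u, v) ↦ a + u b + v c` (`MeasureTheory.Measure.addHaar_image_linearMap`
and translation invariance).
-/

set_option autoImplicit false

open MeasureTheory Set

namespace Pool.Agent.H16.Cef

/-- the triangle with vertices `a`, `a + b`, `a + c` -/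
def triS (a b c : ℝ × ℝ) : Set (ℝ × ℝ) :=
  {z | ∃ u v : ℝ, 0 ≤ u ∧ 0 ≤ v ∧ u + v ≤ 1 ∧ z = a + u • b + v • c}

/-- the standard triangle -/
def stdTri : Set (ℝ × ℝ) := {z | 0 ≤ z.1 ∧ 0 ≤ z.2 ∧ z.1 + z.2 ≤ 1}

theorem isClosed_stdTri : IsClosed stdTri := by
  have h1 : stdTri = {z : ℝ × ℝ | 0 ≤ z.1} ∩ ({z | 0 ≤ z.2} ∩ {z | z.1 + z.2 ≤ 1}) := by
    ext z; rfl
  rw [h1]
  refine (isClosed_le continuous_const continuous_fst).inter
    ((isClosed_le continuous_const continuous_snd).inter
      (isClosed_le (continuous_fst.add continuous_snd) continuous_const))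

theorem isCompact_stdTri : IsCompact stdTri := by
  refine (isCompact_Icc (a := ((0 : ℝ), (0 : ℝ))) (b := ((1 : ℝ), (1 : ℝ)))).of_isClosed_subset
    isClosed_stdTri ?_
  rintro ⟨x, y⟩ ⟨h1, h2, h3⟩
  simp only at h1 h2 h3
  exact ⟨⟨h1, h2⟩, ⟨by simp only; linarith, by simp only; linarith⟩⟩

theorem volume_stdTri : volume stdTri = ENNReal.ofReal (1 / 2) := by
  rw [Measure.volume_eq_prod, Measure.prod_apply isClosed_stdTri.measurableSet]
  have h1 : ∀ x : ℝ, (volume (Prod.mk x ⁻¹' stdTri) : ENNReal) =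
      (Icc (0 : ℝ) 1).indicator (fun x => ENNReal.ofReal (1 - x)) x := by
    intro x
    by_cases hx : x ∈ Icc (0 : ℝ) 1
    · rw [indicator_of_mem hx]
      have h2 : Prod.mk x ⁻¹' stdTri = Icc 0 (1 - x) := by
        ext y
        constructor
        · rintro ⟨h3, h4, h5⟩
          simp only at h3 h4 h5
          exact ⟨h4, by linarith⟩
        · rintro ⟨h3, h4⟩
          exact ⟨hx.1, h3, by simp only; linarith⟩
      rw [h2, Real.volume_Icc, sub_zero]
    · rw [indicator_of_notMem hx]
      have h2 : Prod.mk x ⁻¹' stdTri = ∅ := by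
        ext y
        constructor
        · rintro ⟨h3, h4, h5⟩
          simp only at h3 h4 h5
          exact hx ⟨h3, by linarith⟩
        · intro h; exact absurd h (notMem_empty y)
      rw [h2, measure_empty]
  simp only [h1]
  rw [lintegral_indicator measurableSet_Icc, ← ofReal_integral_eq_lintegral_ofReal]
  · congr 1
    rw [integral_Icc_eq_integral_Ioc, ← intervalIntegral.integral_of_le zero_le_one]
    rw [intervalIntegral.integral_sub (by simp) (by simp)]
    simp
    norm_num
  · exact (continuous_const.sub continuous_id).continuousOn.integrableOn_Icc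
  · rw [Filter.EventuallyLE, ae_restrict_iff' measurableSet_Icc]
    exact Filter.Eventually.of_forall fun x hx => by
      simp only [Pi.zero_apply]; linarith [hx.2]

theorem triS_eq (a b c : ℝ × ℝ) : triS a b c = (fun z => a + z) ''
    ((Matrix.toLin (Module.Basis.finTwoProd ℝ) (Module.Basis.finTwoProd ℝ)
      !![b.1, c.1; b.2, c.2]) '' stdTri) := by
  ext z
  rw [image_image]
  constructor
  · rintro ⟨u, v, hu, hv, huv, rfl⟩
    refine ⟨(u, v), ⟨hu, hv, huv⟩, ?_⟩
    simp only [Matrix.toLin_finTwoProd_apply]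
    ext
    · simp only [Prod.fst_add, Prod.smul_fst, smul_eq_mul]; ring
    · simp only [Prod.snd_add, Prod.smul_snd, smul_eq_mul]; ring
  · rintro ⟨⟨u, v⟩, ⟨hu, hv, huv⟩, rfl⟩
    refine ⟨u, v, hu, hv, huv, ?_⟩
    simp only [Matrix.toLin_finTwoProd_apply]
    ext
    · simp only [Prod.fst_add, Prod.smul_fst, smul_eq_mul]; ring
    · simp only [Prod.snd_add, Prod.smul_snd, smul_eq_mul]; ring

theorem volume_triS (a b c : ℝ × ℝ) : volume (triS a b c) = ENNReal.ofReal (|cr b c| / 2) := by
  rw [triS_eq, Set.image_add_left, measure_preimage_add, Measure.addHaar_image_linearMap,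
    LinearMap.det_toLin, volume_stdTri, ← ENNReal.ofReal_mul (abs_nonneg _)]
  congr 1
  rw [Matrix.det_fin_two_of]
  unfold cr
  rw [show b.1 * c.2 - c.1 * b.2 = b.1 * c.2 - b.2 * c.1 by ring]
  ring

theorem isCompact_triS (a b c : ℝ × ℝ) : IsCompact (triS a b c) := by
  rw [triS_eq]
  refine (isCompact_stdTri.image ?_).image (continuous_const.add continuous_id)
  exact LinearMap.continuous_of_finiteDimensional _

theorem triS_subset {a b c : ℝ × ℝ} {C : Set (ℝ × ℝ)} (hC : Convex ℝ C) (h1 : a ∈ C)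
    (h2 : a + b ∈ C) (h3 : a + c ∈ C) : triS a b c ⊆ C := by
  rintro z ⟨u, v, hu, hv, huv, rfl⟩
  have h := hC.sum_mem (t := (Finset.univ : Finset (Fin 3))) (w := ![1 - u - v, u, v])
    (z := ![a, a + b, a + c]) ?_ ?_ ?_
  · rw [Fin.sum_univ_three] at h
    simp only [Matrix.cons_val_zero, Matrix.cons_val_one, Matrix.cons_val_two,
      Matrix.head_cons, Matrix.tail_cons] at h
    convert h using 1
    module
  · intro i _
    fin_cases i
    · simp; linarith
    · simpa using hu
    · simpa using hv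
  · rw [Fin.sum_univ_three]
    simp
    ring
  · intro i _
    fin_cases i
    · simpa using h1
    · simpa using h2
    · simpa using h3

end Pool.Agent.H16.Cef
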