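import Pool.Agent.H16.Cef.CapVol
import Pool.Agent.H16.Cef.Tri
import Pool.Agent.H16.Cef.Wedge

/-!
Module UNION. The union of the two caps beyond the lines `x - a y = 1` and `s x - y = 1`.

For `0 < a, s ≤ 1`, not both `1`: let `L = capS R (1,-1)`, and `T` = closed triangle with vertices
`(1,0)`, `(0,-1)`, `V = ((1-a)/(1-as), -(1-s)/(1-as))`.
`T ∪ capS R (1,-a) ∪ capS R (s,-1) ⊇ L ∪ Wd R a ∪ Wd' R s` where `Wd' R s` is the image of `Wd R s` under
`(x, y) ↦ (-y, -x)`, and `L`, `Wd R a ⊆ {x - y ≤ 1, y > 0}` (if `a < 1`), `Wd' R s ⊆ {x - y ≤ 1, x < 0}`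
are disjoint. (A point `z` with `x - y > 1`, `x - a y ≤ 1`, `s x - y ≤ 1` is in `T`.) The area of `T` is
`(1-a)(1-s)/(2(1-as)) ≤ (τ₁ + τ₂)/4`, `τ₁ = (1-a)/(1+a)`, `τ₂ = (1-s)/(1+s)` (it is
`τ₁ τ₂/(τ₁ + τ₂)`). If `a = 1` or `s = 1` the triangle is degenerate (area 0).
-/

set_option autoImplicit false

open MeasureTheory Set

namespace Pool.Agent.H16.Cef

/-- the reflected wedge -/
def unionWd (R s : ℝ) : Set (ℝ × ℝ) := {z | nsq z ≤ R ^ 2 ∧ z.1 - z.2 ≤ 1 ∧ 1 < s * z.1 - z.2}

theorem union_measurable_Wd (R a : ℝ) : MeasurableSet (Wd R a) := by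
  have h1 : MeasurableSet {z : ℝ × ℝ | z.1 ^ 2 + z.2 ^ 2 ≤ R ^ 2} :=
    measurableSet_le (by fun_prop) (by fun_prop)
  have h2 : MeasurableSet {z : ℝ × ℝ | z.1 - z.2 ≤ 1} :=
    measurableSet_le (by fun_prop) (by fun_prop)
  have h3 : MeasurableSet {z : ℝ × ℝ | 1 < z.1 - a * z.2} :=
    measurableSet_lt (by fun_prop) (by fun_prop)
  exact h1.inter (h2.inter h3)

theorem union_measurable_Wd' (R a : ℝ) : MeasurableSet (unionWd R a) := by
  have h1 : MeasurableSet {z : ℝ × ℝ | z.1 ^ 2 + z.2 ^ 2 ≤ R ^ 2} :=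
    measurableSet_le (by fun_prop) (by fun_prop)
  have h2 : MeasurableSet {z : ℝ × ℝ | z.1 - z.2 ≤ 1} :=
    measurableSet_le (by fun_prop) (by fun_prop)
  have h3 : MeasurableSet {z : ℝ × ℝ | 1 < a * z.1 - z.2} :=
    measurableSet_lt (by fun_prop) (by fun_prop)
  exact h1.inter (h2.inter h3)

theorem union_volume_Wd' (R s : ℝ) : volume (unionWd R s) = volume (Wd R s) := by
  have h1 : MeasurePreserving (Prod.swap : ℝ × ℝ → ℝ × ℝ) volume volume :=
    Measure.measurePreserving_swap
  have h2 : MeasurePreserving (Neg.neg : ℝ × ℝ → ℝ × ℝ) volume volume :=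
    Measure.measurePreserving_neg volume
  have h3 := (h2.comp h1).measure_preimage (union_measurable_Wd R s).nullMeasurableSet
  rw [← h3]
  congr 1
  ext z
  simp only [unionWd, Wd, nsq, Set.mem_preimage, Set.mem_ofPred_eq, Function.comp, Prod.fst_neg,
    Prod.snd_neg, Prod.fst_swap, Prod.snd_swap]
  constructor
  · rintro ⟨h1, h2, h3⟩
    exact ⟨by nlinarith, by linarith, by linarith⟩
  · rintro ⟨h1, h2, h3⟩
    exact ⟨by nlinarith, by linarith, by linarith⟩

theorem union_area {a s : ℝ} (ha : 0 < a) (ha1 : a < 1) (hs : 0 < s) (hs1 : s < 1) :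
    |(1 - s) / (1 - a * s) * (1 - a)| / 2 ≤ ((1 - a) / (1 + a) + (1 - s) / (1 + s)) / 4 := by
  have has : 0 < 1 - a * s := by nlinarith
  have h1 : 0 < 1 - a := by linarith
  have h2 : 0 < 1 - s := by linarith
  rw [abs_of_pos (by positivity)]
  have e1 : ((1 - a) / (1 + a) + (1 - s) / (1 + s)) = 2 * (1 - a * s) / ((1 + a) * (1 + s)) := by
    field_simp
    ring
  rw [e1]
  have e2 : (1 - s) / (1 - a * s) * (1 - a) / 2 = ((1 - s) * (1 - a)) / (2 * (1 - a * s)) := by
    field_simp
  have e3 : 2 * (1 - a * s) / ((1 + a) * (1 + s)) / 4 =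
      (1 - a * s) / (2 * ((1 + a) * (1 + s))) := by
    field_simp
    ring
  rw [e2, e3, div_le_div_iff₀ (by positivity) (by positivity)]
  nlinarith [sq_nonneg ((1 - a) * (1 + s) - (1 - s) * (1 + a))]

theorem union_caps {R a s : ℝ} (hR : 2 < R ^ 2) (hR0 : 0 < R) (ha : 0 < a) (ha1 : a ≤ 1)
    (hs : 0 < s) (hs1 : s ≤ 1) :
    ENNReal.ofReal (Cap R (1 / √2)) + volume (Wd R a) + volume (Wd R s) ≤
      volume (capS R (1, -a) ∪ capS R (s, -1)) +
        ENNReal.ofReal (((1 - a) / (1 + a) + (1 - s) / (1 + s)) / 4) := by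
  have hL : volume (capS R (1, -1)) = ENNReal.ofReal (Cap R (1 / √2)) := by
    have h := volume_capS hR0 (n := (1, -1)) (by unfold nsq; norm_num; linarith)
    have e : nsq ((1 : ℝ), (-1 : ℝ)) = 2 := by unfold nsq; norm_num
    rw [e] at h
    exact h
  rw [← hL, ← union_volume_Wd' R s]
  have hd1 : Disjoint (capS R (1, -1)) (Wd R a) := by
    rw [Set.disjoint_left]
    rintro z ⟨_, h1⟩ ⟨_, h2, _⟩
    unfold dt at h1
    simp only at h1
    linarith
  have hd2 : Disjoint (capS R (1, -1) ∪ Wd R a) (unionWd R s) := by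
    rw [Set.disjoint_left]
    rintro z (⟨_, h1⟩ | ⟨_, h1, h2⟩) ⟨_, h3, h4⟩
    · unfold dt at h1
      simp only at h1
      linarith
    · have hy : 0 ≤ z.2 := by
        by_contra hcon
        nlinarith
      have hx : z.1 ≤ 0 := by
        by_contra hcon
        nlinarith
      nlinarith
  rw [← measure_union hd1 (union_measurable_Wd R a), ← measure_union hd2 (union_measurable_Wd' R s)]
  set κ : ℝ := (1 - s) / (1 - a * s) with hκ
  by_cases hlt : a < 1 ∧ s < 1
  · obtain ⟨hal, hsl⟩ := hlt
    have has : 0 < 1 - a * s := by nlinarith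
    have hκ0 : 0 < κ := div_pos (by linarith) has
    set T : Set (ℝ × ℝ) := triS (1, 0) (-1, -1) (-(κ * a), -κ) with hT
    have hTv : volume T ≤ ENNReal.ofReal (((1 - a) / (1 + a) + (1 - s) / (1 + s)) / 4) := by
      rw [hT, volume_triS]
      refine ENNReal.ofReal_le_ofReal ?_
      have e : cr ((-1 : ℝ), (-1 : ℝ)) (-(κ * a), -κ) = κ * (1 - a) := by
        unfold cr
        simp only
        ring
      rw [e]
      exact union_area ha hal hs hsl
    refine le_trans ?_ (add_le_add le_rfl hTv)
    refine (measure_mono ?_).trans (measure_union_le _ _)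
    rintro z ((⟨h1, h2⟩ | ⟨h1, h2, h3⟩) | ⟨h1, h2, h3⟩)
    · unfold dt at h2
      simp only at h2
      by_cases hc1 : 1 < z.1 - a * z.2
      · refine Or.inl (Or.inl ⟨h1, ?_⟩)
        unfold dt
        simp only
        linarith
      · by_cases hc2 : 1 < s * z.1 - z.2
        · refine Or.inl (Or.inr ⟨h1, ?_⟩)
          unfold dt
          simp only
          linarith
        · right
          rw [not_lt] at hc1 hc2
          have h1a : 0 < 1 - a := by linarith
          have h1s : 0 < 1 - s := by linarith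
          have hκa : 0 < κ * (1 - a) := by positivity
          refine ⟨-z.2 - (z.1 - 1 - z.2) / (1 - a), (z.1 - 1 - z.2) / (κ * (1 - a)), ?_, ?_, ?_, ?_⟩
          · rw [sub_nonneg, div_le_iff₀ h1a]
            linarith
          · exact div_nonneg (by linarith) hκa.le
          · have e1 : (z.1 - 1 - z.2) / (κ * (1 - a)) =
                (z.1 - 1 - z.2) * (1 - a * s) / ((1 - s) * (1 - a)) := by
              rw [hκ]
              field_simp
            rw [e1]
            have e2 : -z.2 - (z.1 - 1 - z.2) / (1 - a) +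
                (z.1 - 1 - z.2) * (1 - a * s) / ((1 - s) * (1 - a)) =
                (-z.2 * (1 - s) + s * (z.1 - 1 - z.2)) / (1 - s) := by
              field_simp
              ring
            rw [e2, div_le_one h1s]
            linarith
          · have h1a' : (1 - a) ≠ 0 := h1a.ne'
            ext
            · simp only [Prod.fst_add, Prod.smul_fst, smul_eq_mul]
              field_simp
              ring
            · simp only [Prod.snd_add, Prod.smul_snd, smul_eq_mul]
              field_simp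
              ring
    · refine Or.inl (Or.inl ⟨h1, ?_⟩)
      unfold dt
      simp only
      linarith
    · refine Or.inl (Or.inr ⟨h1, ?_⟩)
      unfold dt
      simp only
      linarith
  · refine le_trans (measure_mono ?_) (le_add_right le_rfl)
    rintro z ((⟨h1, h2⟩ | ⟨h1, h2, h3⟩) | ⟨h1, h2, h3⟩)
    · unfold dt at h2
      simp only at h2
      rcases lt_or_ge a 1 with h | h
      · have hs' : s = 1 := by
          rcases lt_or_ge s 1 with h' | h'
          · exact absurd ⟨h, h'⟩ hlt
          · exact le_antisymm hs1 h'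
        refine Or.inr ⟨h1, ?_⟩
        unfold dt
        simp only
        rw [hs']
        linarith
      · have ha' : a = 1 := le_antisymm ha1 h
        refine Or.inl ⟨h1, ?_⟩
        unfold dt
        simp only
        rw [ha']
        linarith
    · refine Or.inl ⟨h1, ?_⟩
      unfold dt
      simp only
      linarith
    · refine Or.inr ⟨h1, ?_⟩
      unfold dt
      simp only
      linarith

end Pool.Agent.H16.Cef
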